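import Mathlib

/-!
# [H30 WD] Wild elements of the Selberg class: definitions

Plan: think 2088, 2089, 2090 (helper30). Everything is real valued.

* `tf lam Q y` is the test function `f_y`, `TV lam Q` their real span.
* `uu lam` is the weight `u`, `nm lam f` the norm `∫ u |f|`, `nk lam f` the integral `∫ |f| x^(-2/lam)`.
* cells: `(j^B, (j+1)^B]`; `Nc B j` counts the primes in a cell, `cl B n` is the cell of `n`,
  `wt B p` is the length of the cell of `p` divided by the number of primes in it.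
* `cf b` are the Dirichlet coefficients of `exp (∑ b_p p^(-s))`.
-/

set_option autoImplicit false

namespace Pool.Agent.H30.WD

open MeasureTheory Set

/-- the test function `f_y(x) = y^(1/2) K(xy) - y^(-1/2) K(x/y)`, `K(x) = exp (-(x/Q)^(1/lam))` -/
noncomputable def tf (lam Q y x : ℝ) : ℝ :=
  y ^ (1 / 2 : ℝ) * Real.exp (-(x * y / Q) ^ (1 / lam)) -
    y ^ (-(1 / 2) : ℝ) * Real.exp (-(x / (y * Q)) ^ (1 / lam))

/-- the real span of the test functions -/
def TV (lam Q : ℝ) : Submodule ℝ (ℝ → ℝ) :=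
  Submodule.span ℝ {f | ∃ y : ℝ, 0 < y ∧ f = tf lam Q y}

/-- the weight -/
noncomputable def uu (lam x : ℝ) : ℝ :=
  if x < 1 then x ^ (-(2 / lam)) else ((1 + Real.log x) ^ 2)⁻¹

/-- the norm -/
noncomputable def nm (lam : ℝ) (f : ℝ → ℝ) : ℝ := ∫ x in Ioi (0 : ℝ), uu lam x * |f x|

/-- the auxiliary norm of the key inequality -/
noncomputable def nk (lam : ℝ) (f : ℝ → ℝ) : ℝ := ∫ x in Ioi (0 : ℝ), |f x| * x ^ (-(2 / lam))

/-- the number of primes in the cell `(j^B, (j+1)^B]` -/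
noncomputable def Nc (B j : ℕ) : ℕ := ((Finset.Ioc (j ^ B) ((j + 1) ^ B)).filter Nat.Prime).card

/-- the cell of `n`: `j^B < n ≤ (j+1)^B` -/
noncomputable def cl (B n : ℕ) : ℕ := Nat.findGreatest (fun j => j ^ B < n) n

/-- the weight of a prime -/
noncomputable def wt (B p : ℕ) : ℝ :=
  (((cl B p + 1 : ℕ) : ℝ) ^ B - ((cl B p : ℕ) : ℝ) ^ B) / (Nc B (cl B p) : ℝ)

/-- the coefficients of `exp (∑ b_p p^(-s))`, `b` used at primes only -/
noncomputable def cf (b : ℕ → ℝ) (n : ℕ) : ℝ :=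
  if n = 0 then 0 else n.factorization.prod fun p k => b p ^ k / (k.factorial : ℝ)

/-- the arithmetic input: primes between consecutive `B`-th powers, up to logarithms -/
def Input (B J0 : ℕ) (A : ℝ) : Prop :=
  2 ≤ B ∧ 3 ≤ J0 ∧ 0 ≤ A ∧ ∀ j : ℕ, J0 ≤ j →
    ((j : ℝ) ^ (B - 1)) / Real.log j ^ A ≤ (Nc B j : ℝ)

end Pool.Agent.H30.WD
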