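import Pool.Agent.H30.WD.Defs

/-! [H30 WD WildDef] the output of STEPS 1-7: a sequence `b` on the primes -/

set_option autoImplicit false

namespace Pool.Agent.H30.WD

structure Wild (lam Q : ℝ) (b : ℕ → ℝ) (A : ℝ) : Prop where
  hA : 0 ≤ A
  supp : ∀ n, b n ≠ 0 → n.Prime ∧ 3 ≤ n
  bd : ∀ n, |b n| ≤ Real.log n ^ A
  sum : Summable fun n : ℕ => |b n| / (n : ℝ)
  fe : ∀ y : ℝ, 0 < y → (Summable fun n : ℕ => cf b n * tf lam Q y n) ∧
    ∑' n : ℕ, cf b n * tf lam Q y n = 0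

end Pool.Agent.H30.WD
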