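import Pool.Agent.H11.SC6.PrimDef

/-! [H30 WD FaDef] CHAPTER Fa: functional equation data with the degree -/

set_option autoImplicit false

namespace Pool.Agent.H30.WD

open H11.Selberg

/-- `F` satisfies a functional equation of degree `d` -/
def HasFE (F : ℂ → ℂ) (d : ℝ) : Prop :=
  ∃ (Q : ℝ) (r : ℕ) (lam : Fin r → ℝ) (mu : Fin r → ℂ) (ε : ℂ),
    0 < Q ∧ (∀ j, 0 < lam j) ∧ (∀ j, 0 ≤ (mu j).re) ∧ ‖ε‖ = 1 ∧
    (∀ s : ℂ, 0 < s.re → s.re < 1 →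
      completed Q lam mu F s =
        ε * (starRingEnd ℂ) (completed Q lam mu F (1 - (starRingEnd ℂ) s))) ∧
    d = 2 * ∑ j, lam j

theorem exists_HasFE (a : ℕ → ℂ) (F : ℂ → ℂ) (h : IsSelberg a F) : ∃ d : ℝ, 0 ≤ d ∧ HasFE F d := by
  obtain ⟨Q, r, lam, mu, ε, hQ, hlam, hmu, hε, hfe⟩ := h.functional
  refine ⟨2 * ∑ j, lam j, ?_, Q, r, lam, mu, ε, hQ, hlam, hmu, hε, hfe, rfl⟩
  have : 0 ≤ ∑ j, lam j := Finset.sum_nonneg fun j _ => (hlam j).le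
  linarith

end Pool.Agent.H30.WD
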