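import Mathlib
import Pool.Agent.H60.WI.Gam

/-! [H30 WD Sti] the quotient of two values of Gamma with the same imaginary part -/

set_option autoImplicit false

namespace Pool.Agent.H30.WD

open Complex Pool.Agent.H60.WI

/-- the two sided bound for the real part `a`, `|t| ≥ 1` -/
private def TwoB (a : ℝ) : Prop := ∃ C : ℝ, 1 ≤ C ∧ ∀ t : ℝ, 1 ≤ |t| →
  ‖Complex.Gamma (a + t * I)‖ ≤ C * gmod a t ∧ gmod a t ≤ C * ‖Complex.Gamma (a + t * I)‖

private theorem gmod_succ (a t : ℝ) : gmod (a + 1) t = gmod a t * (1 + |t|) := by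
  have h : (0 : ℝ) < 1 + |t| := by positivity
  unfold gmod
  have h1 : a + 1 - 1 / 2 = (a - 1 / 2) + 1 := by ring
  rw [h1, Real.rpow_add_one h.ne']
  ring

private theorem two_pred (a : ℝ) (h : TwoB (a + 1)) : TwoB a := by
  obtain ⟨C, hC, h1⟩ := h
  refine ⟨2 * C * (1 + |a|), by nlinarith [abs_nonneg a], ?_⟩
  intro t ht
  have ht0 : t ≠ 0 := by
    rintro rfl
    simp at ht
    linarith
  obtain ⟨h2, h3⟩ := h1 t ht
  have hz : (a : ℂ) + t * I ≠ 0 := by
    intro h4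
    have h5 := congrArg Complex.im h4
    simp at h5
    exact ht0 h5
  have h4 : (((a + 1 : ℝ)) : ℂ) + t * I = (a + t * I) + 1 := by
    push_cast
    ring
  rw [h4, Complex.Gamma_add_one _ hz, norm_mul] at h2 h3
  rw [gmod_succ] at h2 h3
  have h5 : |t| ≤ ‖(a : ℂ) + t * I‖ := by
    have := Complex.abs_im_le_norm ((a : ℂ) + t * I)
    simpa using this
  have h6 : ‖(a : ℂ) + t * I‖ ≤ |a| + |t| := by
    refine (norm_add_le _ _).trans ?_
    rw [Complex.norm_real, norm_mul, Complex.norm_real, Complex.norm_I, Real.norm_eq_abs,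
      Real.norm_eq_abs, mul_one]
  have hg := gmod_pos a t
  have ha := abs_nonneg a
  have hG : 0 ≤ ‖Complex.Gamma (a + t * I)‖ := norm_nonneg _
  set G := ‖Complex.Gamma (a + t * I)‖ with hGdef
  set z := ‖(a : ℂ) + t * I‖ with hzdef
  have hzpos : 0 < z := by linarith
  constructor
  · -- z G ≤ C g (1+|t|), |t| ≤ z
    have h7 : |t| * G ≤ |t| * (2 * C * gmod a t) := by
      calc |t| * G ≤ z * G := by gcongr
        _ ≤ C * (gmod a t * (1 + |t|)) := h2
        _ ≤ C * (gmod a t * (2 * |t|)) := by gcongr; linarith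
        _ = |t| * (2 * C * gmod a t) := by ring
    have h8 : G ≤ 2 * C * gmod a t := le_of_mul_le_mul_left h7 (by linarith)
    have h9 : 0 ≤ 2 * C * gmod a t := by positivity
    nlinarith
  · have h7 : (1 + |t|) * gmod a t ≤ (1 + |t|) * (2 * C * (1 + |a|) * G) := by
      calc (1 + |t|) * gmod a t = gmod a t * (1 + |t|) := by ring
        _ ≤ C * (z * G) := h3
        _ ≤ C * ((|a| + |t|) * G) := by gcongr
        _ ≤ C * (((1 + |a|) * (1 + |t|)) * G) := by
          gcongr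
          nlinarith [abs_nonneg t]
        _ ≤ (1 + |t|) * (2 * C * (1 + |a|) * G) := by
          have : 0 ≤ C * ((1 + |a|) * (1 + |t|)) * G := by positivity
          nlinarith
    exact le_of_mul_le_mul_left h7 (by positivity)

private theorem two_all (n : ℕ) : ∀ a : ℝ, 0 < a + n → TwoB a := by
  induction n with
  | zero =>
    intro a ha
    obtain ⟨C, hC, h⟩ := gamma_two a (by simpa using ha)
    exact ⟨C, hC, fun t _ => h t⟩
  | succ n ih =>
    intro a ha
    refine two_pred a (ih (a + 1) ?_)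
    push_cast at ha
    linarith

/-- two sided bounds for the Gamma function, any real part, `|t| ≥ 1` -/
theorem gamma_two_all (a : ℝ) : ∃ C : ℝ, 1 ≤ C ∧ ∀ t : ℝ, 1 ≤ |t| →
    ‖Complex.Gamma (a + t * I)‖ ≤ C * gmod a t ∧ gmod a t ≤ C * ‖Complex.Gamma (a + t * I)‖ := by
  obtain ⟨n, hn⟩ := exists_nat_gt (-a)
  exact two_all n a (by linarith)

/-- `r^e` for `r` between two positive numbers -/
private theorem rpow_between {r a b e : ℝ} (ha : 0 < a) (h1 : a ≤ r) (h2 : r ≤ b) :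
    r ^ e ≤ a ^ e + b ^ e := by
  have hb : 0 < b := by linarith
  have hr : 0 < r := by linarith
  have p1 := Real.rpow_pos_of_pos ha e
  have p2 := Real.rpow_pos_of_pos hb e
  rcases le_total 0 e with h | h
  · have := Real.rpow_le_rpow hr.le h2 h
    linarith
  · have := Real.rpow_le_rpow_of_nonpos ha h1 h
    linarith

theorem sti (lam : ℝ) (hlam : 0 < lam) (mu : ℂ) (σ1 σ2 : ℝ) : ∃ c C T : ℝ, 0 < c ∧ 0 < C ∧ 1 ≤ T ∧
    ∀ t : ℝ, T ≤ |t| →
    Gamma (lam * (σ1 + t * I) + mu) ≠ 0 ∧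
    c * |t| ^ (lam * (σ2 - σ1)) * ‖Gamma (lam * (σ1 + t * I) + mu)‖ ≤
      ‖Gamma (lam * (σ2 + t * I) + mu)‖ ∧
    ‖Gamma (lam * (σ2 + t * I) + mu)‖ ≤
      C * |t| ^ (lam * (σ2 - σ1)) * ‖Gamma (lam * (σ1 + t * I) + mu)‖ := by
  obtain ⟨C1, hC1, h1⟩ := gamma_two_all (lam * σ1 + mu.re)
  obtain ⟨C2, hC2, h2⟩ := gamma_two_all (lam * σ2 + mu.re)
  set e : ℝ := lam * (σ2 - σ1) with he
  set K : ℝ := lam + |mu.im| + 1 with hK
  have hK0 : 0 < K := by positivity
  set S1 : ℝ := (lam / 2) ^ e + K ^ e with hS1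
  set S2 : ℝ := (lam / 2) ^ (-e) + K ^ (-e) with hS2
  have hS1p : 0 < S1 := by positivity
  have hS2p : 0 < S2 := by positivity
  have hC1p : 0 < C1 := by linarith
  have hC2p : 0 < C2 := by linarith
  refine ⟨1 / (C1 * C2 * S2), C1 * C2 * S1, 1 + 2 * (|mu.im| + 1) / lam, by positivity,
    by positivity, ?_, ?_⟩
  · have : 0 ≤ 2 * (|mu.im| + 1) / lam := by positivity
    linarith
  intro t ht
  have ht1 : 1 ≤ |t| := by
    have : 0 ≤ 2 * (|mu.im| + 1) / lam := by positivity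
    linarith
  have ht2 : 2 * (|mu.im| + 1) ≤ lam * |t| := by
    have h3 : 2 * (|mu.im| + 1) / lam ≤ |t| := by linarith
    rw [div_le_iff₀ hlam] at h3
    linarith
  set y : ℝ := lam * t + mu.im with hy
  have e1 : ∀ σ : ℝ, (lam : ℂ) * (σ + t * I) + mu = ((lam * σ + mu.re : ℝ) : ℂ) + (y : ℂ) * I := by
    intro σ
    apply Complex.ext
    · simp
    · simp [hy]
  have hly : |lam * t| = lam * |t| := by rw [abs_mul, abs_of_pos hlam]
  have hylow : lam * |t| - |mu.im| ≤ |y| := by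
    have h3 := abs_sub_abs_le_abs_sub (lam * t) (-mu.im)
    rw [abs_neg, sub_neg_eq_add, hly] at h3
    exact h3
  have hyup : |y| ≤ lam * |t| + |mu.im| := by
    have h3 := abs_add_le (lam * t) mu.im
    rw [hly] at h3
    exact h3
  have hy1 : 1 ≤ |y| := by linarith [abs_nonneg mu.im]
  obtain ⟨a1, b1⟩ := h1 y hy1
  obtain ⟨a2, b2⟩ := h2 y hy1
  rw [e1 σ1, e1 σ2]
  set G1 := ‖Complex.Gamma (((lam * σ1 + mu.re : ℝ) : ℂ) + (y : ℂ) * I)‖ with hG1
  set G2 := ‖Complex.Gamma (((lam * σ2 + mu.re : ℝ) : ℂ) + (y : ℂ) * I)‖ with hG2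
  have hg1 := gmod_pos (lam * σ1 + mu.re) y
  have hg2 := gmod_pos (lam * σ2 + mu.re) y
  have hG1p : 0 < G1 := by
    by_contra h3
    push Not at h3
    have : C1 * G1 ≤ 0 := mul_nonpos_of_nonneg_of_nonpos hC1p.le h3
    linarith
  have hG2p : 0 < G2 := by
    by_contra h3
    push Not at h3
    have : C2 * G2 ≤ 0 := mul_nonpos_of_nonneg_of_nonpos hC2p.le h3
    linarith
  -- the two models
  have hyp : (0 : ℝ) < 1 + |y| := by positivity
  have htp : (0 : ℝ) < |t| := by linarith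
  have hmod : gmod (lam * σ2 + mu.re) y = gmod (lam * σ1 + mu.re) y * (1 + |y|) ^ e := by
    unfold gmod
    have h3 : lam * σ2 + mu.re - 1 / 2 = (lam * σ1 + mu.re - 1 / 2) + e := by rw [he]; ring
    rw [h3, Real.rpow_add hyp]
    ring
  set r : ℝ := (1 + |y|) / |t| with hr
  have hr0 : 0 < r := by positivity
  have hry : 1 + |y| = r * |t| := by
    rw [hr]
    field_simp
  have hr1 : lam / 2 ≤ r := by
    rw [hr, le_div_iff₀ htp]
    linarith [abs_nonneg mu.im]
  have hr2 : r ≤ K := by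
    rw [hr, div_le_iff₀ htp, hK]
    nlinarith [abs_nonneg mu.im]
  have hre : (1 + |y|) ^ e = r ^ e * |t| ^ e := by
    rw [hry, Real.mul_rpow hr0.le htp.le]
  have q1 : r ^ e ≤ S1 := rpow_between (by positivity) hr1 hr2
  have q2 : r ^ (-e) ≤ S2 := rpow_between (by positivity) hr1 hr2
  have hrep : 0 < r ^ e := Real.rpow_pos_of_pos hr0 e
  have q3 : 1 ≤ S2 * r ^ e := by
    rw [Real.rpow_neg hr0.le] at q2
    have := mul_le_mul_of_nonneg_right q2 hrep.le
    rwa [inv_mul_cancel₀ hrep.ne'] at this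
  have htep : 0 < |t| ^ e := Real.rpow_pos_of_pos htp e
  refine ⟨?_, ?_, ?_⟩
  · intro h3
    rw [hG1, h3, norm_zero] at hG1p
    exact lt_irrefl _ hG1p
  · rw [hmod, hre] at b2
    rw [div_mul_eq_mul_div, one_mul, div_mul_eq_mul_div, div_le_iff₀ (by positivity)]
    calc |t| ^ e * G1 ≤ |t| ^ e * (C1 * gmod (lam * σ1 + mu.re) y) := by gcongr
      _ = C1 * (gmod (lam * σ1 + mu.re) y * |t| ^ e) * 1 := by ring
      _ ≤ C1 * (gmod (lam * σ1 + mu.re) y * |t| ^ e) * (S2 * r ^ e) := by gcongr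
      _ = C1 * S2 * (gmod (lam * σ1 + mu.re) y * (r ^ e * |t| ^ e)) := by ring
      _ ≤ C1 * S2 * (C2 * G2) := by gcongr
      _ = G2 * (C1 * C2 * S2) := by ring
  · rw [hmod, hre] at a2
    calc G2 ≤ C2 * (gmod (lam * σ1 + mu.re) y * (r ^ e * |t| ^ e)) := a2
      _ ≤ C2 * ((C1 * G1) * (S1 * |t| ^ e)) := by gcongr
      _ = C1 * C2 * S1 * |t| ^ e * G1 := by ring

end Pool.Agent.H30.WD
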