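import Pool.Agent.H30.WD.Defs

/-! [H30 WD Reg] regularity of the functions in `TV lam Q`, scaling, comparison of the norms -/

set_option autoImplicit false

namespace Pool.Agent.H30.WD

open MeasureTheory Set

/-- the regularity property -/
private def RP (lam : ℝ) (f : ℝ → ℝ) : Prop :=
  (∀ x : ℝ, 0 < x → DifferentiableAt ℝ f x) ∧ ContinuousOn (deriv f) (Ioi 0) ∧
    ∃ C κ : ℝ, 0 < C ∧ 0 < κ ∧ ∀ x : ℝ, 0 < x →
      |f x| ≤ C * Real.exp (-(κ * x ^ (1 / lam))) ∧
      |x * deriv f x| ≤ C * Real.exp (-(κ * x ^ (1 / lam)))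

private theorem rp_add (lam : ℝ) (f g : ℝ → ℝ) (hf : RP lam f) (hg : RP lam g) :
    RP lam (f + g) := by
  obtain ⟨df, cf, C1, k1, hC1, hk1, b1⟩ := hf
  obtain ⟨dg, cg, C2, k2, hC2, hk2, b2⟩ := hg
  have hder : ∀ x : ℝ, 0 < x → deriv (f + g) x = deriv f x + deriv g x := fun x hx =>
    deriv_add (df x hx) (dg x hx)
  refine ⟨fun x hx => (df x hx).add (dg x hx), ?_, C1 + C2, min k1 k2, by positivity,
    lt_min hk1 hk2, ?_⟩
  · refine (cf.add cg).congr ?_
    intro x hx
    exact hder x hx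
  · intro x hx
    have ht : 0 ≤ x ^ (1 / lam) := Real.rpow_nonneg hx.le _
    have e1 : Real.exp (-(k1 * x ^ (1 / lam))) ≤ Real.exp (-(min k1 k2 * x ^ (1 / lam))) := by
      apply Real.exp_le_exp.mpr
      have := mul_le_mul_of_nonneg_right (min_le_left k1 k2) ht
      linarith
    have e2 : Real.exp (-(k2 * x ^ (1 / lam))) ≤ Real.exp (-(min k1 k2 * x ^ (1 / lam))) := by
      apply Real.exp_le_exp.mpr
      have := mul_le_mul_of_nonneg_right (min_le_right k1 k2) ht
      linarith
    have m1 := mul_le_mul_of_nonneg_left e1 hC1.le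
    have m2 := mul_le_mul_of_nonneg_left e2 hC2.le
    constructor
    · have := abs_add_le (f x) (g x)
      have h1 := (b1 x hx).1
      have h2 := (b2 x hx).1
      simp only [Pi.add_apply]
      linarith
    · rw [hder x hx, mul_add]
      have := abs_add_le (x * deriv f x) (x * deriv g x)
      have h1 := (b1 x hx).2
      have h2 := (b2 x hx).2
      linarith

private theorem rp_smul (lam : ℝ) (c : ℝ) (f : ℝ → ℝ) (hf : RP lam f) :
    RP lam (c • f) := by
  obtain ⟨df, cf, C1, k1, hC1, hk1, b1⟩ := hf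
  have hder : ∀ x : ℝ, 0 < x → deriv (c • f) x = c * deriv f x := fun x hx => by
    have := deriv_const_smul (c := c) (f := f) (x := x) (df x hx)
    rw [this, smul_eq_mul]
  refine ⟨fun x hx => (df x hx).const_smul c, ?_, (|c| + 1) * C1, k1, by positivity, hk1, ?_⟩
  · refine (continuousOn_const.mul cf).congr (f := fun x => c * deriv f x) ?_
    intro x hx
    exact hder x hx
  · intro x hx
    have he : 0 < Real.exp (-(k1 * x ^ (1 / lam))) := Real.exp_pos _
    constructor
    · have h1 := (b1 x hx).1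
      simp only [Pi.smul_apply, smul_eq_mul]
      rw [abs_mul]
      calc |c| * |f x| ≤ |c| * (C1 * Real.exp (-(k1 * x ^ (1 / lam)))) := by gcongr
        _ ≤ (|c| + 1) * C1 * Real.exp (-(k1 * x ^ (1 / lam))) := by
            have : 0 ≤ C1 * Real.exp (-(k1 * x ^ (1 / lam))) := by positivity
            nlinarith
    · have h1 := (b1 x hx).2
      rw [hder x hx]
      calc |x * (c * deriv f x)| = |c| * |x * deriv f x| := by
            rw [← abs_mul]
            ring_nf
        _ ≤ |c| * (C1 * Real.exp (-(k1 * x ^ (1 / lam)))) := by gcongr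
        _ ≤ (|c| + 1) * C1 * Real.exp (-(k1 * x ^ (1 / lam))) := by
            have : 0 ≤ C1 * Real.exp (-(k1 * x ^ (1 / lam))) := by positivity
            nlinarith

private theorem rp_zero (lam : ℝ) : RP lam (0 : ℝ → ℝ) := by
  refine ⟨fun x hx => differentiableAt_const (c := (0 : ℝ)), ?_, 1, 1, one_pos, one_pos, ?_⟩
  · have h : deriv (0 : ℝ → ℝ) = fun _ => (0 : ℝ) := by
      funext x
      exact deriv_const x (0 : ℝ)
    rw [h]
    exact continuousOn_const
  · intro x hx
    have h : deriv (0 : ℝ → ℝ) x = 0 := deriv_const x (0 : ℝ)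
    rw [h]
    have := (Real.exp_pos (-(1 * x ^ (1 / lam)))).le
    constructor
    · simpa using this
    · simpa using this

/-- the basic function -/
private theorem rp_exp (lam a : ℝ) (hlam : 0 < lam) (ha : 0 < a) :
    RP lam (fun x : ℝ => Real.exp (-(x * a) ^ (1 / lam))) := by
  have hd : ∀ x : ℝ, 0 < x → HasDerivAt (fun x : ℝ => Real.exp (-(x * a) ^ (1 / lam)))
      (Real.exp (-(x * a) ^ (1 / lam)) * (-(a * (1 / lam) * (x * a) ^ (1 / lam - 1)))) x := by
    intro x hx
    have h1 : HasDerivAt (fun x : ℝ => x * a) a x := by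
      simpa using (hasDerivAt_id x).mul_const a
    have h2 := h1.rpow_const (p := 1 / lam) (Or.inl (by positivity))
    exact h2.neg.exp
  have hder : ∀ x : ℝ, 0 < x → deriv (fun x : ℝ => Real.exp (-(x * a) ^ (1 / lam))) x =
      Real.exp (-(x * a) ^ (1 / lam)) * (-(a * (1 / lam) * (x * a) ^ (1 / lam - 1))) :=
    fun x hx => (hd x hx).deriv
  refine ⟨fun x hx => (hd x hx).differentiableAt, ?_, 1 + 2 / lam, a ^ (1 / lam) / 2,
    by positivity, by positivity, ?_⟩
  · have hc : ContinuousOn (fun x : ℝ => Real.exp (-(x * a) ^ (1 / lam)) *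
        (-(a * (1 / lam) * (x * a) ^ (1 / lam - 1)))) (Ioi 0) := by
      have h0 : ContinuousOn (fun x : ℝ => x * a) (Ioi 0) :=
        (continuous_id.mul continuous_const).continuousOn
      have h1 : ContinuousOn (fun x : ℝ => (x * a) ^ (1 / lam)) (Ioi 0) :=
        h0.rpow_const (fun x hx => Or.inl (by
          have : 0 < x := hx
          positivity))
      have h2 : ContinuousOn (fun x : ℝ => (x * a) ^ (1 / lam - 1)) (Ioi 0) :=
        h0.rpow_const (fun x hx => Or.inl (by
          have : 0 < x := hx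
          positivity))
      exact (h1.neg.rexp).mul ((continuousOn_const.mul h2).neg)
    refine hc.congr ?_
    intro x hx
    exact hder x hx
  · intro x hx
    have hxa : (x * a) ^ (1 / lam) = a ^ (1 / lam) * x ^ (1 / lam) := by
      rw [Real.mul_rpow hx.le ha.le, mul_comm]
    set t : ℝ := a ^ (1 / lam) * x ^ (1 / lam) with ht
    have ht0 : 0 ≤ t := by positivity
    have he : Real.exp (-t) ≤ Real.exp (-(a ^ (1 / lam) / 2 * x ^ (1 / lam))) := by
      apply Real.exp_le_exp.mpr
      have : a ^ (1 / lam) / 2 * x ^ (1 / lam) = t / 2 := by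
        rw [ht]
        ring
      rw [this]
      linarith
    have he2 : t * Real.exp (-t) ≤ 2 * Real.exp (-(a ^ (1 / lam) / 2 * x ^ (1 / lam))) := by
      have h1 : a ^ (1 / lam) / 2 * x ^ (1 / lam) = t / 2 := by
        rw [ht]
        ring
      rw [h1]
      have h2 : t ≤ 2 * Real.exp (t / 2) := by
        have := Real.add_one_le_exp (t / 2)
        linarith
      have h3 : Real.exp (-t) = Real.exp (-(t / 2)) * Real.exp (-(t / 2)) := by
        rw [← Real.exp_add]
        ring_nf
      have h4 : Real.exp (t / 2) * Real.exp (-(t / 2)) = 1 := by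
        rw [← Real.exp_add]
        simp
      calc t * Real.exp (-t) ≤ 2 * Real.exp (t / 2) * Real.exp (-t) := by gcongr
        _ = 2 * (Real.exp (t / 2) * Real.exp (-(t / 2))) * Real.exp (-(t / 2)) := by
            rw [h3]
            ring
        _ = 2 * Real.exp (-(t / 2)) := by rw [h4]; ring
    have hE : 0 < Real.exp (-(a ^ (1 / lam) / 2 * x ^ (1 / lam))) := Real.exp_pos _
    constructor
    · simp only
      rw [hxa, abs_of_pos (Real.exp_pos _)]
      have : 0 ≤ 2 / lam * Real.exp (-(a ^ (1 / lam) / 2 * x ^ (1 / lam))) := by positivity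
      linarith
    · rw [hder x hx]
      have h5 : x * (Real.exp (-(x * a) ^ (1 / lam)) *
          (-(a * (1 / lam) * (x * a) ^ (1 / lam - 1)))) = -(1 / lam * (t * Real.exp (-t))) := by
        have h6 : x * a * (x * a) ^ (1 / lam - 1) = t := by
          have hpos : 0 < x * a := by positivity
          have := Real.rpow_add hpos 1 (1 / lam - 1)
          rw [Real.rpow_one] at this
          rw [← this]
          rw [show (1 : ℝ) + (1 / lam - 1) = 1 / lam by ring]
          exact hxa
        rw [hxa]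
        calc x * (Real.exp (-t) * (-(a * (1 / lam) * (x * a) ^ (1 / lam - 1))))
            = -(1 / lam * ((x * a * (x * a) ^ (1 / lam - 1)) * Real.exp (-t))) := by ring
          _ = -(1 / lam * (t * Real.exp (-t))) := by rw [h6]
      rw [h5, abs_neg, abs_of_nonneg (by positivity)]
      calc 1 / lam * (t * Real.exp (-t))
          ≤ 1 / lam * (2 * Real.exp (-(a ^ (1 / lam) / 2 * x ^ (1 / lam)))) := by gcongr
        _ = 2 / lam * Real.exp (-(a ^ (1 / lam) / 2 * x ^ (1 / lam))) := by ring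
        _ ≤ (1 + 2 / lam) * Real.exp (-(a ^ (1 / lam) / 2 * x ^ (1 / lam))) := by
            nlinarith

private theorem rp_tf (lam Q y : ℝ) (hlam : 0 < lam) (hQ : 0 < Q) (hy : 0 < y) :
    RP lam (tf lam Q y) := by
  have h1 := rp_smul lam (y ^ (1 / 2 : ℝ)) _ (rp_exp lam (y / Q) hlam (by positivity))
  have h2 := rp_smul lam (-(y ^ (-(1 / 2) : ℝ))) _ (rp_exp lam (1 / (y * Q)) hlam (by positivity))
  have h3 := rp_add lam _ _ h1 h2
  have h4 : tf lam Q y = (y ^ (1 / 2 : ℝ)) • (fun x : ℝ => Real.exp (-(x * (y / Q)) ^ (1 / lam))) +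
      (-(y ^ (-(1 / 2) : ℝ))) • (fun x : ℝ => Real.exp (-(x * (1 / (y * Q))) ^ (1 / lam))) := by
    funext x
    simp only [tf, Pi.add_apply, Pi.smul_apply, smul_eq_mul]
    rw [show x * y / Q = x * (y / Q) by ring, show x / (y * Q) = x * (1 / (y * Q)) by ring]
    ring
  rw [h4]
  exact h3

theorem reg (lam Q : ℝ) (hlam : 0 < lam) (hQ : 0 < Q) (f : ℝ → ℝ) (hf : f ∈ TV lam Q) :
    (∀ x : ℝ, 0 < x → DifferentiableAt ℝ f x) ∧ ContinuousOn (deriv f) (Ioi 0) ∧
    ∃ C κ : ℝ, 0 < C ∧ 0 < κ ∧ ∀ x : ℝ, 0 < x →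
      |f x| ≤ C * Real.exp (-(κ * x ^ (1 / lam))) ∧
      |x * deriv f x| ≤ C * Real.exp (-(κ * x ^ (1 / lam))) := by
  have h : RP lam f := by
    unfold TV at hf
    induction hf using Submodule.span_induction with
    | mem g hg =>
      obtain ⟨y, hy, rfl⟩ := hg
      exact rp_tf lam Q y hlam hQ hy
    | zero => exact rp_zero lam
    | add g1 g2 _ _ h1 h2 => exact rp_add lam _ _ h1 h2
    | smul c g _ h1 => exact rp_smul lam c _ h1
  exact h

theorem scale (lam Q : ℝ) (hQ : 0 < Q) (f : ℝ → ℝ) (hf : f ∈ TV lam Q) :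
    (fun x => f (Q * x)) ∈ TV lam 1 := by
  unfold TV at hf
  induction hf using Submodule.span_induction with
  | mem g hg =>
    obtain ⟨y, hy, rfl⟩ := hg
    apply Submodule.subset_span
    refine ⟨y, hy, ?_⟩
    funext x
    simp only [tf]
    have h1 : Q * x * y / Q = x * y / 1 := by
      field_simp
    have h2 : Q * x / (y * Q) = x / (y * 1) := by
      field_simp
    rw [h1, h2]
  | zero => exact (TV lam 1).zero_mem
  | add g1 g2 _ _ h1 h2 => exact (TV lam 1).add_mem h1 h2
  | smul c g _ h1 => exact (TV lam 1).smul_mem c h1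

theorem nk_scale (lam Q : ℝ) (hlam : 2 < lam) (hQ : 0 < Q) (f : ℝ → ℝ) (hf : f ∈ TV lam Q) :
    nk lam (fun x => f (Q * x)) = Q ^ (2 / lam - 1) * nk lam f := by
  unfold nk
  have h1 := integral_comp_mul_left_Ioi (fun u : ℝ => |f u| * (u / Q) ^ (-(2 / lam))) 0 hQ
  simp only [mul_zero, smul_eq_mul] at h1
  have h2 : ∀ x : ℝ, Q * x / Q = x := fun x => by field_simp
  simp only [h2] at h1
  rw [h1]
  have h3 : ∫ x in Ioi (0 : ℝ), |f x| * (x / Q) ^ (-(2 / lam)) =
      ∫ x in Ioi (0 : ℝ), Q ^ (2 / lam) * (|f x| * x ^ (-(2 / lam))) := by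
    refine setIntegral_congr_fun measurableSet_Ioi (fun x hx => ?_)
    have hx' : (0 : ℝ) < x := hx
    rw [Real.div_rpow hx'.le hQ.le, Real.rpow_neg hQ.le]
    field_simp
  rw [h3, integral_const_mul, ← mul_assoc]
  congr 1
  rw [Real.rpow_sub hQ, Real.rpow_one]
  field_simp

private theorem int_base (lam q κ : ℝ) (hlam : 0 < lam) (hq : -1 < q) (hκ : 0 < κ) :
    IntegrableOn (fun x : ℝ => x ^ q * Real.exp (-κ * x ^ (1 / lam))) (Ioi 0) := by
  apply Integrable.of_integral_ne_zero
  rw [integral_rpow_mul_exp_neg_mul_rpow (by positivity) hq hκ]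
  have h1 : 0 < Real.Gamma ((q + 1) / (1 / lam)) := Real.Gamma_pos_of_pos (by
    have : 0 < q + 1 := by linarith
    positivity)
  positivity

private theorem f_aesm (lam Q : ℝ) (hlam : 0 < lam) (hQ : 0 < Q) (f : ℝ → ℝ) (hf : f ∈ TV lam Q) :
    AEStronglyMeasurable f (volume.restrict (Ioi (0 : ℝ))) := by
  have hc : ContinuousOn f (Ioi 0) := fun x hx =>
    ((reg lam Q hlam hQ f hf).1 x hx).continuousAt.continuousWithinAt
  exact hc.aestronglyMeasurable measurableSet_Ioi

private theorem int_pow (lam Q q : ℝ) (hlam : 0 < lam) (hQ : 0 < Q) (hq : -1 < q) (f : ℝ → ℝ)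
    (hf : f ∈ TV lam Q) : IntegrableOn (fun x => |f x| * x ^ q) (Ioi 0) := by
  obtain ⟨-, -, C, κ, hC, hκ, hb⟩ := reg lam Q hlam hQ f hf
  have hI := (int_base lam q κ hlam hq hκ).const_mul C
  refine Integrable.mono' hI ?_ ?_
  · have h1 := (f_aesm lam Q hlam hQ f hf).norm
    have h2 : Measurable (fun x : ℝ => x ^ q) := by fun_prop
    have h3 := h1.mul h2.aestronglyMeasurable
    exact h3
  · refine (ae_restrict_iff' measurableSet_Ioi).mpr (Filter.Eventually.of_forall ?_)
    intro x hx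
    have hx' : (0 : ℝ) < x := hx
    have h1 := (hb x hx').1
    have h2 : 0 ≤ x ^ q := by positivity
    rw [Real.norm_of_nonneg (by positivity)]
    calc |f x| * x ^ q ≤ C * Real.exp (-(κ * x ^ (1 / lam))) * x ^ q := by gcongr
      _ = C * (x ^ q * Real.exp (-κ * x ^ (1 / lam))) := by
          rw [neg_mul]
          ring

private theorem uu_nonneg (lam x : ℝ) (hx : 0 < x) : 0 ≤ uu lam x := by
  unfold uu
  split_ifs with h
  · positivity
  · positivity

private theorem uu_le (lam x : ℝ) (hx : 0 < x) : uu lam x ≤ x ^ (-(2 / lam)) + 1 := by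
  unfold uu
  split_ifs with h
  · linarith
  · push Not at h
    have h1 : 0 ≤ Real.log x := Real.log_nonneg h
    have h2 : 1 ≤ (1 + Real.log x) ^ 2 := by nlinarith
    have h3 : ((1 + Real.log x) ^ 2)⁻¹ ≤ 1 := inv_le_one_of_one_le₀ h2
    have h4 : 0 ≤ x ^ (-(2 / lam)) := by positivity
    linarith

private theorem uu_meas (lam : ℝ) : Measurable (uu lam) := by
  unfold uu
  refine Measurable.ite (measurableSet_lt measurable_id measurable_const) ?_ ?_
  · fun_prop
  · fun_prop

/-- the integrals defining the two norms converge -/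
theorem norm_int (lam Q : ℝ) (hlam : 2 < lam) (hQ : 0 < Q) (f : ℝ → ℝ) (hf : f ∈ TV lam Q) :
    IntegrableOn (fun x => uu lam x * |f x|) (Ioi 0) ∧
    IntegrableOn (fun x => |f x| * x ^ (-(2 / lam))) (Ioi 0) := by
  have hl : 0 < lam := by linarith
  have h2l : 2 / lam < 1 := by
    rw [div_lt_one hl]
    exact hlam
  have h1 := int_pow lam Q (-(2 / lam)) hl hQ (by linarith) f hf
  have h0 := int_pow lam Q 0 hl hQ (by norm_num) f hf
  refine ⟨?_, h1⟩
  refine Integrable.mono' (h1.add h0) ?_ ?_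
  · have h3 := (uu_meas lam).aestronglyMeasurable (μ := volume.restrict (Ioi (0 : ℝ)))
    exact h3.mul (f_aesm lam Q hl hQ f hf).norm
  · refine (ae_restrict_iff' measurableSet_Ioi).mpr (Filter.Eventually.of_forall ?_)
    intro x hx
    have hx' : (0 : ℝ) < x := hx
    have h3 := uu_nonneg lam x hx'
    rw [Real.norm_of_nonneg (by positivity)]
    simp only [Pi.add_apply, Real.rpow_zero, mul_one]
    calc uu lam x * |f x| ≤ (x ^ (-(2 / lam)) + 1) * |f x| := by
          gcongr
          exact uu_le lam x hx'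
      _ = |f x| * x ^ (-(2 / lam)) + |f x| := by ring

theorem nk_le_nm (lam : ℝ) (hlam : 2 < lam) : ∃ C : ℝ, 0 < C ∧ ∀ (Q : ℝ) (f : ℝ → ℝ),
    0 < Q → f ∈ TV lam Q → nk lam f ≤ C * nm lam f := by
  have hl : 0 < lam := by linarith
  refine ⟨(1 + lam) ^ 2, by positivity, ?_⟩
  intro Q f hQ hf
  obtain ⟨hI1, hI2⟩ := norm_int lam Q hlam hQ f hf
  unfold nk nm
  rw [← integral_const_mul]
  refine setIntegral_mono_on hI2 (hI1.const_mul _) measurableSet_Ioi ?_
  intro x hx
  have hx' : (0 : ℝ) < x := hx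
  have key : x ^ (-(2 / lam)) ≤ (1 + lam) ^ 2 * uu lam x := by
    unfold uu
    split_ifs with h
    · have h1 : 0 ≤ x ^ (-(2 / lam)) := by positivity
      have h2 : 1 ≤ (1 + lam) ^ 2 := by nlinarith
      nlinarith
    · push Not at h
      have h0 : 0 ≤ Real.log x := Real.log_nonneg h
      have h1 : Real.log x ≤ x ^ (1 / lam) / (1 / lam) := Real.log_le_rpow_div hx'.le (by positivity)
      have h2 : 1 ≤ x ^ (1 / lam) := Real.one_le_rpow h (by positivity)
      have h3 : 1 + Real.log x ≤ (1 + lam) * x ^ (1 / lam) := by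
        have : x ^ (1 / lam) / (1 / lam) = lam * x ^ (1 / lam) := by
          field_simp
        rw [this] at h1
        linarith
      have h4 : (1 + Real.log x) ^ 2 ≤ (1 + lam) ^ 2 * x ^ (2 / lam) := by
        have h5 : ((1 + lam) * x ^ (1 / lam)) ^ 2 = (1 + lam) ^ 2 * x ^ (2 / lam) := by
          rw [mul_pow, ← Real.rpow_natCast (x ^ (1 / lam)) 2, ← Real.rpow_mul hx'.le]
          congr 2
          push_cast
          ring
        rw [← h5]
        exact pow_le_pow_left₀ (by linarith) h3 2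
      have h6 : 0 < (1 + Real.log x) ^ 2 := by positivity
      have h7 : 0 < x ^ (2 / lam) := by positivity
      rw [Real.rpow_neg hx'.le, ← div_eq_mul_inv, le_div_iff₀ h6, ← div_eq_inv_mul, div_le_iff₀ h7]
      exact h4
  calc |f x| * x ^ (-(2 / lam)) ≤ |f x| * ((1 + lam) ^ 2 * uu lam x) := by gcongr
    _ = (1 + lam) ^ 2 * (uu lam x * |f x|) := by ring

end Pool.Agent.H30.WD
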