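import Pool.Agent.H30.WD.Key
import Pool.Agent.H30.WD.Reg

/-! [H30 WD KeyQ] the key inequality for all `Q`, with the norm `nm` -/

set_option autoImplicit false

namespace Pool.Agent.H30.WD

open MeasureTheory Set

theorem key (lam : ℝ) (hlam : 8 < lam) : ∃ C : ℝ, 0 < C ∧ ∀ (Q : ℝ) (f : ℝ → ℝ), 0 < Q →
    f ∈ TV lam Q → ∀ x : ℝ, 0 < x →
    |f x| + |x * deriv f x| ≤ C * Q ^ (-(4 / lam)) * x ^ (6 / lam - 1) * nm lam f := by
  obtain ⟨C1, hC1, h1⟩ := key1 lam hlam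
  obtain ⟨C2, hC2, h2⟩ := nk_le_nm lam (by linarith)
  refine ⟨C1 * C2, by positivity, ?_⟩
  intro Q f hQ hf x hx
  have h3 := h1 _ (scale lam Q hQ f hf) (x / Q) (by positivity)
  rw [nk_scale lam Q (by linarith) hQ f hf] at h3
  have h4 : Q * (x / Q) = x := by field_simp
  have h5 : deriv (fun x => f (Q * x)) (x / Q) = Q * deriv f x := by
    have := deriv_comp_mul_left Q f (x / Q)
    rw [this, h4, smul_eq_mul]
  rw [h5] at h3
  simp only [h4] at h3
  have h6 : x / Q * (Q * deriv f x) = x * deriv f x := by field_simp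
  rw [h6] at h3
  refine h3.trans ?_
  have h7 : (x / Q) ^ (6 / lam - 1) * Q ^ (2 / lam - 1) = Q ^ (-(4 / lam)) * x ^ (6 / lam - 1) := by
    rw [Real.div_rpow hx.le hQ.le, div_eq_mul_inv, ← Real.rpow_neg hQ.le, mul_assoc, ← Real.rpow_add hQ,
      mul_comm]
    congr 2
    ring
  calc C1 * (x / Q) ^ (6 / lam - 1) * (Q ^ (2 / lam - 1) * nk lam f)
      = C1 * ((x / Q) ^ (6 / lam - 1) * Q ^ (2 / lam - 1)) * nk lam f := by ring
    _ = C1 * (Q ^ (-(4 / lam)) * x ^ (6 / lam - 1)) * nk lam f := by rw [h7]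
    _ ≤ C1 * (Q ^ (-(4 / lam)) * x ^ (6 / lam - 1)) * (C2 * nm lam f) := by
        gcongr
        exact h2 Q f hQ hf
    _ = C1 * C2 * Q ^ (-(4 / lam)) * x ^ (6 / lam - 1) * nm lam f := by ring

end Pool.Agent.H30.WD
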