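import Pool.Agent.H30.WD.Samp
import Pool.Agent.H30.WD.KeyQ

/-! [H30 WD Frame] STEP 3: the frame inequality and the bound of `f 1` -/

set_option autoImplicit false

namespace Pool.Agent.H30.WD

open MeasureTheory Set

lemma frame_nm_nonneg (lam : ℝ) (f : ℝ → ℝ) : 0 ≤ nm lam f := by
  unfold nm
  apply setIntegral_nonneg measurableSet_Ioi
  intro x hx
  have hx0 : 0 < x := hx
  apply mul_nonneg _ (abs_nonneg _)
  unfold uu
  split_ifs
  · exact Real.rpow_nonneg hx0.le _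
  · positivity

lemma frame_Q (lam : ℝ) (hlam : 0 < lam) (ε : ℝ) (hε : 0 < ε) : ∃ Q0 : ℝ, 0 < Q0 ∧
    ∀ Q : ℝ, Q0 ≤ Q → Q ^ (-(4 / lam)) ≤ ε := by
  have h := tendsto_rpow_neg_atTop (show (0 : ℝ) < 4 / lam by positivity)
  have h1 := h.eventually_le_const hε
  rw [Filter.eventually_atTop] at h1
  obtain ⟨Q1, hQ1⟩ := h1
  exact ⟨max Q1 1, by positivity, fun Q hQ => hQ1 Q ((le_max_left _ _).trans hQ)⟩

lemma frame_uu_le (lam x : ℝ) (hx : 1 ≤ x) : uu lam x ≤ 1 := by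
  rw [samp_uu1 lam x hx]
  have := Real.log_nonneg hx
  apply inv_le_one_of_one_le₀
  nlinarith

lemma frame_meas (lam : ℝ) : Measurable (uu lam) := by
  unfold uu
  apply Measurable.ite measurableSet_Iio
  · exact measurable_id.pow_const _
  · exact ((measurable_const.add Real.measurable_log).pow_const 2).inv

lemma frame_uu_nonneg (lam x : ℝ) (hx : 0 < x) : 0 ≤ uu lam x := by
  unfold uu
  split_ifs
  · exact Real.rpow_nonneg hx.le _
  · positivity

/-- near `0` -/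
lemma frame_int0 (lam : ℝ) (hlam : 8 < lam) (Y : ℝ) (hY : 1 ≤ Y) :
    IntegrableOn (fun x => uu lam x * x ^ (6 / lam - 1)) (Ioc 0 Y) := by
  have hl : 0 < lam := by linarith
  have hm : Measurable (fun x => uu lam x * x ^ (6 / lam - 1)) :=
    (frame_meas lam).mul (measurable_id.pow_const _)
  have h1 : IntegrableOn (fun x : ℝ => x ^ (4 / lam - 1) + x ^ (6 / lam - 1)) (Ioc 0 Y) := by
    apply Integrable.add
    · have := (intervalIntegral.intervalIntegrable_rpow' (a := 0) (b := Y)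
        (show (-1 : ℝ) < 4 / lam - 1 by
          have : 0 < 4 / lam := by positivity
          linarith))
      rwa [intervalIntegrable_iff_integrableOn_Ioc_of_le (by linarith)] at this
    · have := (intervalIntegral.intervalIntegrable_rpow' (a := 0) (b := Y)
        (show (-1 : ℝ) < 6 / lam - 1 by
          have : 0 < 6 / lam := by positivity
          linarith))
      rwa [intervalIntegrable_iff_integrableOn_Ioc_of_le (by linarith)] at this
  refine h1.mono' hm.aestronglyMeasurable ?_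
  rw [ae_restrict_iff' measurableSet_Ioc]
  refine Filter.Eventually.of_forall fun x hx => ?_
  have hx0 : 0 < x := hx.1
  rw [Real.norm_eq_abs, abs_of_nonneg (mul_nonneg (frame_uu_nonneg lam x hx0)
    (Real.rpow_nonneg hx0.le _))]
  have e1 : 0 ≤ x ^ (4 / lam - 1) := Real.rpow_nonneg hx0.le _
  have e2 : 0 ≤ x ^ (6 / lam - 1) := Real.rpow_nonneg hx0.le _
  by_cases hx1 : x < 1
  · have e3 : uu lam x = x ^ (-(2 / lam)) := by
      unfold uu
      rw [if_pos hx1]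
    rw [e3, ← Real.rpow_add hx0]
    have e4 : -(2 / lam) + (6 / lam - 1) = 4 / lam - 1 := by
      field_simp
      ring
    rw [e4]
    linarith
  · have e3 := frame_uu_le lam x (not_lt.mp hx1)
    have : uu lam x * x ^ (6 / lam - 1) ≤ 1 * x ^ (6 / lam - 1) :=
      mul_le_mul_of_nonneg_right e3 e2
    linarith

theorem frame (lam : ℝ) (B J0 : ℕ) (A : ℝ) (h : Input B J0 A) (hlam : 8 < lam)
    (hB : 6 / lam < 1 / (B : ℝ)) : ∃ J1 : ℕ, J0 ≤ J1 ∧ ∀ J : ℕ, J1 ≤ J → ∃ Q0 : ℝ, 0 < Q0 ∧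
    ∀ Q : ℝ, Q0 ≤ Q → ∀ f ∈ TV lam Q,
    Summable (fun p : ℕ => if p.Prime ∧ J ^ B < p then wt B p * uu lam p * |f p| else 0) ∧
    nm lam f ≤ 3 * ∑' p : ℕ, (if p.Prime ∧ J ^ B < p then wt B p * uu lam p * |f p| else 0) := by
  have hl : 0 < lam := by linarith
  obtain ⟨C, hC, J1, hJ1, hs⟩ := samp lam B J0 A h
  obtain ⟨K, hK, hk⟩ := key lam hlam
  refine ⟨J1, hJ1, ?_⟩
  intro J hJ
  have hJ3 : 3 ≤ J := (h.2.1.trans hJ1).trans hJ
  have hJr : (3 : ℝ) ≤ (J : ℝ) := by exact_mod_cast hJ3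
  have hY : 1 ≤ (J : ℝ) ^ B := one_le_pow₀ (by linarith)
  have hY0 : 0 < (J : ℝ) ^ B := by linarith
  obtain ⟨C2, hC2⟩ : ∃ C2 : ℝ, C2 = ∫ x in Ioc 0 ((J : ℝ) ^ B), uu lam x * x ^ (6 / lam - 1) :=
    ⟨_, rfl⟩
  obtain ⟨C3, hC3⟩ : ∃ C3 : ℝ, C3 = ∫ x in Ioi ((J : ℝ) ^ B), x ^ (-(1 / (B : ℝ)) + (6 / lam - 1)) :=
    ⟨_, rfl⟩
  have hC2' : 0 ≤ C2 := by
    rw [hC2]
    apply setIntegral_nonneg measurableSet_Ioc
    intro x hx
    exact mul_nonneg (frame_uu_nonneg lam x hx.1) (Real.rpow_nonneg hx.1.le _)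
  have hC3' : 0 ≤ C3 := by
    rw [hC3]
    apply setIntegral_nonneg measurableSet_Ioi
    intro x hx
    exact Real.rpow_nonneg (hY0.trans hx).le _
  have hI3 : IntegrableOn (fun x : ℝ => x ^ (-(1 / (B : ℝ)) + (6 / lam - 1)))
      (Ioi ((J : ℝ) ^ B)) :=
    integrableOn_Ioi_rpow_of_lt (by linarith) hY0
  have hM : 0 < K * (C2 + C * C3) + 1 := by positivity
  obtain ⟨Q0, hQ0, hQ1⟩ := frame_Q lam hl (1 / (3 * (K * (C2 + C * C3) + 1))) (by positivity)
  refine ⟨Q0, hQ0, ?_⟩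
  intro Q hQ f hf
  have hQp : 0 < Q := lt_of_lt_of_le hQ0 hQ
  have hq := hQ1 Q hQ
  have hqp : 0 < Q ^ (-(4 / lam)) := Real.rpow_pos_of_pos hQp _
  have hnm := frame_nm_nonneg lam f
  obtain ⟨hd, hdc, -⟩ := reg lam Q hl hQp f hf
  obtain ⟨hi, -⟩ := norm_int lam Q (by linarith) hQp f hf
  have hkf := hk Q f hQp hf
  have hkd : ∀ x : ℝ, 0 < x → |x * deriv f x| ≤
      K * Q ^ (-(4 / lam)) * nm lam f * x ^ (6 / lam - 1) := by
    intro x hx
    have h1 := hkf x hx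
    have h2 := abs_nonneg (f x)
    calc |x * deriv f x| ≤ K * Q ^ (-(4 / lam)) * x ^ (6 / lam - 1) * nm lam f := by linarith
      _ = _ := by ring
  have hk0 : ∀ x : ℝ, 0 < x → |f x| ≤
      K * Q ^ (-(4 / lam)) * nm lam f * x ^ (6 / lam - 1) := by
    intro x hx
    have h1 := hkf x hx
    have h2 := abs_nonneg (x * deriv f x)
    calc |f x| ≤ K * Q ^ (-(4 / lam)) * x ^ (6 / lam - 1) * nm lam f := by linarith
      _ = _ := by ring
  have hsubI : Ioi ((J : ℝ) ^ B) ⊆ Ioi (0 : ℝ) := fun x hx => hY0.trans hx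
  have hpt : ∀ x ∈ Ioi ((J : ℝ) ^ B), uu lam x * x ^ (-(1 / (B : ℝ))) * |x * deriv f x| ≤
      K * Q ^ (-(4 / lam)) * nm lam f * x ^ (-(1 / (B : ℝ)) + (6 / lam - 1)) := by
    intro x hx
    have hx0 : 0 < x := hsubI hx
    have hx1 : 1 ≤ x := hY.trans (le_of_lt hx)
    have e1 : 0 ≤ x ^ (-(1 / (B : ℝ))) := Real.rpow_nonneg hx0.le _
    have e2 := samp_uu_pos lam x hx1
    have e3 := frame_uu_le lam x hx1
    calc uu lam x * x ^ (-(1 / (B : ℝ))) * |x * deriv f x|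
        ≤ 1 * x ^ (-(1 / (B : ℝ))) * (K * Q ^ (-(4 / lam)) * nm lam f * x ^ (6 / lam - 1)) := by
          apply mul_le_mul _ (hkd x hx0) (abs_nonneg _) (by positivity)
          exact mul_le_mul_of_nonneg_right e3 e1
      _ = K * Q ^ (-(4 / lam)) * nm lam f * x ^ (-(1 / (B : ℝ)) + (6 / lam - 1)) := by
          rw [Real.rpow_add hx0]
          ring
  have hi2 : IntegrableOn (fun x => uu lam x * x ^ (-(1 / (B : ℝ))) * |x * deriv f x|)
      (Ioi ((J : ℝ) ^ B)) := by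
    refine (hI3.const_mul (K * Q ^ (-(4 / lam)) * nm lam f)).mono' ?_ ?_
    · apply AEStronglyMeasurable.mul
      · exact ((frame_meas lam).mul (measurable_id.pow_const _)).aestronglyMeasurable
      · apply ContinuousOn.aestronglyMeasurable _ measurableSet_Ioi
        exact (continuousOn_id.mul (hdc.mono hsubI)).abs
    · rw [ae_restrict_iff' measurableSet_Ioi]
      refine Filter.Eventually.of_forall fun x hx => ?_
      have hx0 : 0 < x := hsubI hx
      rw [Real.norm_eq_abs, abs_of_nonneg]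
      · exact hpt x hx
      · exact mul_nonneg (mul_nonneg (frame_uu_nonneg lam x hx0) (Real.rpow_nonneg hx0.le _))
          (abs_nonneg _)
  obtain ⟨hsum, hle⟩ := hs J hJ f hd hdc (hi.mono_set hsubI) hi2
  refine ⟨hsum, ?_⟩
  have e1 : ∫ x in Ioc 0 ((J : ℝ) ^ B), uu lam x * |f x| ≤
      K * Q ^ (-(4 / lam)) * nm lam f * C2 := by
    rw [hC2, ← integral_const_mul]
    apply setIntegral_mono_on (hi.mono_set Ioc_subset_Ioi_self)
      ((frame_int0 lam hlam _ hY).const_mul _) measurableSet_Ioc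
    intro x hx
    calc uu lam x * |f x| ≤ uu lam x * (K * Q ^ (-(4 / lam)) * nm lam f * x ^ (6 / lam - 1)) :=
          mul_le_mul_of_nonneg_left (hk0 x hx.1) (frame_uu_nonneg lam x hx.1)
      _ = _ := by ring
  have e2 : ∫ x in Ioi ((J : ℝ) ^ B), uu lam x * x ^ (-(1 / (B : ℝ))) * |x * deriv f x| ≤
      K * Q ^ (-(4 / lam)) * nm lam f * C3 := by
    rw [hC3, ← integral_const_mul]
    exact setIntegral_mono_on hi2 (hI3.const_mul _) measurableSet_Ioi hpt
  have e3 : nm lam f = (∫ x in Ioc 0 ((J : ℝ) ^ B), uu lam x * |f x|) +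
      ∫ x in Ioi ((J : ℝ) ^ B), uu lam x * |f x| := by
    unfold nm
    rw [← Ioc_union_Ioi_eq_Ioi hY0.le]
    apply setIntegral_union _ measurableSet_Ioi (hi.mono_set Ioc_subset_Ioi_self)
      (hi.mono_set hsubI)
    rw [Set.disjoint_left]
    intro x hx hx'
    exact absurd hx' (not_lt.mpr hx.2)
  obtain ⟨T, hT⟩ : ∃ T : ℝ, T = ∑' p : ℕ, (if p.Prime ∧ J ^ B < p then
    wt B p * uu lam p * |f p| else 0) := ⟨_, rfl⟩
  rw [← hT] at hle ⊢
  have e4 : nm lam f ≤ 2 * T + K * (C2 + C * C3) * Q ^ (-(4 / lam)) * nm lam f := by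
    have e5 := mul_le_mul_of_nonneg_left e2 hC.le
    have e6 : K * (C2 + C * C3) * Q ^ (-(4 / lam)) * nm lam f =
      K * Q ^ (-(4 / lam)) * nm lam f * C2 + C * (K * Q ^ (-(4 / lam)) * nm lam f * C3) := by ring
    rw [e6]
    linarith
  have e7 : K * (C2 + C * C3) * Q ^ (-(4 / lam)) ≤ 1 / 3 := by
    have e8 : 0 ≤ K * (C2 + C * C3) := by positivity
    calc K * (C2 + C * C3) * Q ^ (-(4 / lam))
        ≤ (K * (C2 + C * C3) + 1) * Q ^ (-(4 / lam)) := by nlinarith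
      _ ≤ (K * (C2 + C * C3) + 1) * (1 / (3 * (K * (C2 + C * C3) + 1))) :=
          mul_le_mul_of_nonneg_left hq hM.le
      _ = 1 / 3 := by field_simp
  have e9 : K * (C2 + C * C3) * Q ^ (-(4 / lam)) * nm lam f ≤ 1 / 3 * nm lam f :=
    mul_le_mul_of_nonneg_right e7 hnm
  linarith

theorem f_one (lam : ℝ) (hlam : 8 < lam) (ε : ℝ) (hε : 0 < ε) : ∃ Q0 : ℝ, 0 < Q0 ∧
    ∀ Q : ℝ, Q0 ≤ Q → ∀ f ∈ TV lam Q, |f 1| ≤ ε * nm lam f := by
  have hl : 0 < lam := by linarith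
  obtain ⟨K, hK, hk⟩ := key lam hlam
  obtain ⟨Q0, hQ0, hQ1⟩ := frame_Q lam hl (ε / K) (by positivity)
  refine ⟨Q0, hQ0, ?_⟩
  intro Q hQ f hf
  have hQp : 0 < Q := lt_of_lt_of_le hQ0 hQ
  have h1 := hk Q f hQp hf 1 one_pos
  rw [Real.one_rpow, mul_one] at h1
  have h2 := abs_nonneg (1 * deriv f 1)
  have h3 : K * Q ^ (-(4 / lam)) ≤ ε := by
    calc K * Q ^ (-(4 / lam)) ≤ K * (ε / K) := mul_le_mul_of_nonneg_left (hQ1 Q hQ) hK.le
      _ = ε := by field_simp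
  have h4 := mul_le_mul_of_nonneg_right h3 (frame_nm_nonneg lam f)
  linarith

end Pool.Agent.H30.WD
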