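import Pool.Agent.H30.WD.HB

/-!
# [H30 WD Iter] STEP 7: the nonlinear iteration, abstract form (helper81)

`V` a space of functions, `N f` a norm, `W`, `b0` weights on the primes, `bb = b0 + W`. If `N f ≤ 3 ∑ W |f|`, `|f 1|`, `∑ b0 |f|` and the sum of `cf (2 bb) n |f n|` over the
composite `n` are `≤ e N f`, `e ≤ 1 / 12`, then there is `b` with `|b - b0| ≤ W` and `∑ cf b n f n = 0` for all `f ∈ V`.
PROOF. `r_c(f) = ∑ cf (b0 + c) n f n`. States `c_k`, `|c_k| ≤ 4 ρ (1 - 4^(-k)) W`, `|r_(c_k)(f)| ≤ ρ 4^(-k) N f`, `ρ = 3 e`. `hb` gives `d` with `|d| ≤ 3 ρ 4^(-k) W`, `∑ d f = -r_(c_k)(f)`, `c_(k+1) = c_k + d`: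
the primes cancel, and on the composite `n` `|cf (b0 + c_(k+1)) n - cf (b0 + c_k) n| ≤ 3 ρ 4^(-k) cf (2 bb) n`. Dominated convergence.
-/

set_option autoImplicit false

namespace Pool.Agent.H30.WD

open Filter Topology ArithmeticFunction

theorem cf_zero' (b : ℕ → ℝ) : cf b 0 = 0 := by simp [cf]

theorem cf_one' (b : ℕ → ℝ) : cf b 1 = 1 := by simp [cf]

theorem cf_prime' (b : ℕ → ℝ) {p : ℕ} (hp : p.Prime) : cf b p = b p := by
  unfold cf
  rw [if_neg hp.ne_zero, hp.factorization]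
  simp

theorem cf_nonneg' {b : ℕ → ℝ} (hb : ∀ n, 0 ≤ b n) (n : ℕ) : 0 ≤ cf b n := by
  unfold cf
  split_ifs with h
  · exact le_rfl
  · exact Finset.prod_nonneg fun p _ => by have := hb p; positivity

theorem cf_mono' {b B : ℕ → ℝ} (h : ∀ n, |b n| ≤ B n) (n : ℕ) : |cf b n| ≤ cf B n := by
  unfold cf
  split_ifs with h0
  · simp
  · unfold Finsupp.prod
    rw [Finset.abs_prod]
    refine Finset.prod_le_prod (fun p _ => abs_nonneg _) fun p _ => ?_
    rw [abs_div, abs_pow, Nat.abs_cast]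
    exact div_le_div_of_nonneg_right (pow_le_pow_left₀ (abs_nonneg _) (h p) _) (Nat.cast_nonneg _)

private theorem pow_dif {x y B t : ℝ} (hx : |x| ≤ B) (hy : |y| ≤ B) (hxy : |x - y| ≤ t * B) (k : ℕ) :
    |x ^ k - y ^ k| ≤ t * k * B ^ k := by
  have hB : 0 ≤ B := (abs_nonneg x).trans hx
  have htB : 0 ≤ t * B := (abs_nonneg _).trans hxy
  induction k with
  | zero => simp
  | succ k ih =>
    have h1 : x ^ (k + 1) - y ^ (k + 1) = x ^ k * (x - y) + (x ^ k - y ^ k) * y := by ring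
    have h2 : |x ^ k| ≤ B ^ k := by
      rw [abs_pow]
      exact pow_le_pow_left₀ (abs_nonneg x) hx k
    have h3 : |x ^ k * (x - y)| ≤ B ^ k * (t * B) := by
      rw [abs_mul]
      exact mul_le_mul h2 hxy (abs_nonneg _) (by positivity)
    have h4 : |(x ^ k - y ^ k) * y| ≤ t * k * B ^ k * B := by
      rw [abs_mul]
      exact mul_le_mul ih hy (abs_nonneg _) ((abs_nonneg _).trans ih)
    rw [h1]
    refine (abs_add_le _ _).trans ((add_le_add h3 h4).trans_eq ?_)
    push_cast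
    ring

private theorem prod_dif {ι : Type} (s : Finset ι) {x y B : ι → ℝ} {k : ι → ℕ} {t : ℝ} (hx : ∀ i, |x i| ≤ B i) (hy : ∀ i, |y i| ≤ B i)
    (hxy : ∀ i, |x i - y i| ≤ t * k i * B i) :
    |∏ i ∈ s, x i - ∏ i ∈ s, y i| ≤ t * (∑ i ∈ s, k i : ℕ) * ∏ i ∈ s, B i := by
  classical
  have hB : ∀ i, 0 ≤ B i := fun i => (abs_nonneg _).trans (hx i)
  induction s using Finset.induction_on with
  | empty => simp
  | insert a s ha ih =>
    rw [Finset.prod_insert ha, Finset.prod_insert ha, Finset.prod_insert ha, Finset.sum_insert ha]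
    have h1 : x a * ∏ i ∈ s, x i - y a * ∏ i ∈ s, y i =
        (x a - y a) * ∏ i ∈ s, x i + y a * (∏ i ∈ s, x i - ∏ i ∈ s, y i) := by ring
    have h2 : |∏ i ∈ s, x i| ≤ ∏ i ∈ s, B i := by
      rw [Finset.abs_prod]
      exact Finset.prod_le_prod (fun i _ => abs_nonneg _) fun i _ => hx i
    have h3 : |(x a - y a) * ∏ i ∈ s, x i| ≤ t * k a * B a * ∏ i ∈ s, B i := by
      rw [abs_mul]
      exact mul_le_mul (hxy a) h2 (abs_nonneg _) ((abs_nonneg _).trans (hxy a))
    have h4 : |y a * (∏ i ∈ s, x i - ∏ i ∈ s, y i)| ≤ B a * (t * (∑ i ∈ s, k i : ℕ) * ∏ i ∈ s, B i) := by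
      rw [abs_mul]
      exact mul_le_mul (hy a) ih (abs_nonneg _) (hB a)
    rw [h1]
    refine (abs_add_le _ _).trans ((add_le_add h3 h4).trans_eq ?_)
    push_cast
    ring

/-- the difference of two coefficients -/
theorem cf_dif {b b' B : ℕ → ℝ} {t : ℝ} (ht : 0 ≤ t) (h : ∀ n, |b n| ≤ B n) (h' : ∀ n, |b' n| ≤ B n) (hd : ∀ n, |b' n - b n| ≤ t * B n) (n : ℕ) :
    |cf b' n - cf b n| ≤ t * cf (fun n => 2 * B n) n := by
  unfold cf
  split_ifs with h0
  · simp
  unfold Finsupp.prod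
  obtain ⟨k, hk⟩ : ∃ k : ℕ → ℕ, k = fun p => n.factorization p := ⟨_, rfl⟩
  have hB : ∀ n, 0 ≤ B n := fun n => (abs_nonneg _).trans (h n)
  have h1 := prod_dif n.factorization.support (x := fun p => b' p ^ n.factorization p / ((n.factorization p).factorial : ℝ))
    (y := fun p => b p ^ n.factorization p / ((n.factorization p).factorial : ℝ))
    (B := fun p => B p ^ n.factorization p / ((n.factorization p).factorial : ℝ)) (k := fun p => n.factorization p) (t := t)
    (fun p => by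
      rw [abs_div, abs_pow, Nat.abs_cast]
      have := h' p
      gcongr)
    (fun p => by
      rw [abs_div, abs_pow, Nat.abs_cast]
      have := h p
      gcongr)
    (fun p => by
      rw [← sub_div, abs_div, Nat.abs_cast, ← mul_div_assoc]
      have := pow_dif (h' p) (h p) (hd p) (n.factorization p)
      gcongr)
  refine h1.trans ?_
  have h2 : ∏ p ∈ n.factorization.support, (2 * B p) ^ n.factorization p / ((n.factorization p).factorial : ℝ) =
      2 ^ (∑ p ∈ n.factorization.support, n.factorization p) *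
        ∏ p ∈ n.factorization.support, B p ^ n.factorization p / ((n.factorization p).factorial : ℝ) := by
    rw [← Finset.prod_pow_eq_pow_sum, ← Finset.prod_mul_distrib]
    refine Finset.prod_congr rfl fun p _ => ?_
    rw [mul_pow, mul_div_assoc]
  rw [h2, mul_assoc]
  refine mul_le_mul_of_nonneg_left ?_ ht
  refine mul_le_mul_of_nonneg_right ?_ (Finset.prod_nonneg fun p _ => by have := hB p; positivity)
  have h3 := Nat.lt_two_pow_self (n := ∑ p ∈ n.factorization.support, n.factorization p)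
  exact_mod_cast h3.le

theorem cf_tendsto {c : ℕ → ℕ → ℝ} {c' : ℕ → ℝ} (h : ∀ n, Tendsto (fun k => c k n) atTop (𝓝 (c' n))) (n : ℕ) :
    Tendsto (fun k => cf (c k) n) atTop (𝓝 (cf c' n)) := by
  unfold cf
  split_ifs with h0
  · exact tendsto_const_nhds
  · unfold Finsupp.prod
    exact tendsto_finsetProd _ fun p _ => ((h p).pow _).div_const _

/-- the hypotheses of the iteration -/
structure IH (V : Submodule ℝ (ℝ → ℝ)) (N : (ℝ → ℝ) → ℝ) (W b0 : ℕ → ℝ) (e : ℝ) : Prop where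
  e0 : 0 ≤ e
  e1 : e ≤ 1 / 12
  W0 : ∀ n, 0 ≤ W n
  Wp : ∀ n, ¬ n.Prime → W n = 0
  bn : ∀ n, 0 ≤ b0 n
  ws : ∀ f ∈ V, Summable fun n : ℕ => W n * |f n|
  wn : ∀ f ∈ V, N f ≤ 3 * ∑' n : ℕ, W n * |f n|
  f1 : ∀ f ∈ V, |f 1| ≤ e * N f
  fb : ∀ f ∈ V, ∑' n : ℕ, (if n.Prime then b0 n * |f n| else 0) ≤ e * N f
  cs : ∀ f ∈ V, Summable fun n : ℕ => cf (fun n => 2 * (b0 n + W n)) n * |f n|
  cn : ∀ f ∈ V, ∑' n : ℕ, (if 1 < n ∧ ¬ n.Prime then cf (fun n => 2 * (b0 n + W n)) n * |f n| else 0) ≤ e * N f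

variable {V : Submodule ℝ (ℝ → ℝ)} {N : (ℝ → ℝ) → ℝ} {W b0 : ℕ → ℝ} {e : ℝ}

private theorem bd (h : IH V N W b0 e) {c : ℕ → ℝ} (hc : ∀ n, |c n| ≤ W n) (n : ℕ) : |b0 n + c n| ≤ b0 n + W n :=
  (abs_add_le _ _).trans (add_le_add (abs_of_nonneg (h.bn n)).le (hc n))

private theorem bb0 (h : IH V N W b0 e) (n : ℕ) : 0 ≤ b0 n + W n := add_nonneg (h.bn n) (h.W0 n)

private theorem dom (h : IH V N W b0 e) {c : ℕ → ℝ} (hc : ∀ n, |c n| ≤ W n) (n : ℕ) :
    |cf (fun n => b0 n + c n) n| ≤ cf (fun n => 2 * (b0 n + W n)) n :=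
  cf_mono' (fun n => (bd h hc n).trans (by linarith [bb0 h n])) n

private theorem sm (h : IH V N W b0 e) {c : ℕ → ℝ} (hc : ∀ n, |c n| ≤ W n) {f : ℝ → ℝ} (hf : f ∈ V) :
    Summable fun n : ℕ => cf (fun n => b0 n + c n) n * f n := by
  refine Summable.of_norm_bounded (h.cs f hf) fun n => ?_
  rw [Real.norm_eq_abs, abs_mul]
  exact mul_le_mul_of_nonneg_right (dom h hc n) (abs_nonneg _)

private theorem cn_sum (h : IH V N W b0 e) {f : ℝ → ℝ} (hf : f ∈ V) :
    Summable fun n : ℕ => (if 1 < n ∧ ¬ n.Prime then cf (fun n => 2 * (b0 n + W n)) n * |f n| else 0) := by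
  refine Summable.of_nonneg_of_le (fun n => ?_) (fun n => ?_) (h.cs f hf)
  · split_ifs
    · exact mul_nonneg (cf_nonneg' (fun n => by linarith [bb0 h n]) n) (abs_nonneg _)
    · exact le_rfl
  · split_ifs
    · exact le_rfl
    · exact mul_nonneg (cf_nonneg' (fun n => by linarith [bb0 h n]) n) (abs_nonneg _)

/-- `r_0` -/
private theorem start (h : IH V N W b0 e) {f : ℝ → ℝ} (hf : f ∈ V) :
    |∑' n : ℕ, cf (fun n => b0 n + 0) n * f n| ≤ 3 * e * N f := by
  have hz : ∀ n, |(0 : ℕ → ℝ) n| ≤ W n := fun n => by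
    rw [Pi.zero_apply, abs_zero]
    exact h.W0 n
  have hs := sm h hz hf
  have h1 : Summable fun n : ℕ => (if n.Prime then b0 n * |f n| else 0) := by
    refine Summable.of_nonneg_of_le (fun n => ?_) (fun n => ?_) (h.cs f hf)
    · split_ifs
      · exact mul_nonneg (h.bn n) (abs_nonneg _)
      · exact le_rfl
    · split_ifs with hn
      · refine mul_le_mul_of_nonneg_right ?_ (abs_nonneg _)
        rw [cf_prime' _ hn]
        linarith [h.bn n, h.W0 n]
      · exact mul_nonneg (cf_nonneg' (fun n => by linarith [bb0 h n]) n) (abs_nonneg _)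
  have h2 := cn_sum h hf
  have h3 : Summable fun n : ℕ => (if n = 1 then |f 1| else 0) :=
    summable_of_ne_finset_zero (s := {1}) fun n hn => by
      rw [if_neg]
      simpa using hn
  have h4 : ∀ n : ℕ, |cf (fun n => b0 n + 0) n * f n| ≤ (if n = 1 then |f 1| else 0) + (if n.Prime then b0 n * |f n| else 0) +
      (if 1 < n ∧ ¬ n.Prime then cf (fun n => 2 * (b0 n + W n)) n * |f n| else 0) := by
    intro n
    rw [abs_mul]
    rcases Nat.lt_or_ge n 2 with hn | hn
    · interval_cases n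
      · rw [cf_zero']
        simp [Nat.not_prime_zero]
      · rw [cf_one']
        simp [Nat.not_prime_one]
    · by_cases hp : n.Prime
      · rw [if_neg (by omega), if_pos hp, if_neg (fun h5 => h5.2 hp), cf_prime' _ hp, add_zero, abs_of_nonneg (h.bn n)]
        simp
      · rw [if_neg (by omega), if_neg hp, if_pos ⟨hn, hp⟩]
        have h5 := mul_le_mul_of_nonneg_right (dom h hz n) (abs_nonneg (f n))
        simpa using h5
  have h5 : |∑' n : ℕ, cf (fun n => b0 n + 0) n * f n| ≤ ∑' n : ℕ, |cf (fun n => b0 n + 0) n * f n| := by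
    have h6 : Summable fun n : ℕ => ‖cf (fun n => b0 n + 0) n * f n‖ :=
      Summable.of_nonneg_of_le (fun n => norm_nonneg _) h4 ((h3.add h1).add h2)
    exact norm_tsum_le_tsum_norm h6
  refine h5.trans ?_
  have h6 := Summable.tsum_le_tsum h4 (Summable.of_nonneg_of_le (fun n => abs_nonneg _) h4 ((h3.add h1).add h2)) ((h3.add h1).add h2)
  refine h6.trans ?_
  rw [(h3.add h1).tsum_add h2, h3.tsum_add h1, tsum_ite_eq]
  linarith [h.f1 f hf, h.fb f hf, h.cn f hf]

/-- one step -/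
private theorem step (h : IH V N W b0 e) {c : ℕ → ℝ} {a r : ℝ} (hr : 0 ≤ r) (ha : 0 ≤ a) (har : a + 3 * r ≤ 1) (hc : ∀ n, |c n| ≤ a * W n)
    (hrc : ∀ f ∈ V, |∑' n : ℕ, cf (fun n => b0 n + c n) n * f n| ≤ r * N f) :
    ∃ c' : ℕ → ℝ, (∀ n, |c' n| ≤ (a + 3 * r) * W n) ∧ (∀ n, |c' n - c n| ≤ 3 * r * W n) ∧
      ∀ f ∈ V, |∑' n : ℕ, cf (fun n => b0 n + c' n) n * f n| ≤ r / 4 * N f := by
  have hcW : ∀ n, |c n| ≤ W n := fun n => (hc n).trans (by
    have := mul_le_mul_of_nonneg_right (show a ≤ 1 by linarith) (h.W0 n)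
    linarith)
  obtain ⟨d, hd, hdf⟩ := hb V W h.W0 h.ws (fun f => -∑' n : ℕ, cf (fun n => b0 n + c n) n * f n)
    (by
      intro f hf g hg
      have h1 := (sm h hcW hf).tsum_add (sm h hcW hg)
      have h2 : (fun n : ℕ => cf (fun n => b0 n + c n) n * (f + g) n) =
          fun n : ℕ => cf (fun n => b0 n + c n) n * f n + cf (fun n => b0 n + c n) n * g n := by
        funext n
        rw [Pi.add_apply]
        ring
      show -∑' n : ℕ, cf (fun n => b0 n + c n) n * (f + g) n = _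
      rw [h2, h1]
      ring)
    (by
      intro t f hf
      have h2 : (fun n : ℕ => cf (fun n => b0 n + c n) n * (t • f) n) =
          fun n : ℕ => t * (cf (fun n => b0 n + c n) n * f n) := by
        funext n
        rw [Pi.smul_apply, smul_eq_mul]
        ring
      show -∑' n : ℕ, cf (fun n => b0 n + c n) n * (t • f) n = _
      rw [h2, tsum_mul_left]
      ring)
    (3 * r) (by positivity)
    (by
      intro f hf
      rw [abs_neg]
      refine (hrc f hf).trans ?_
      have := mul_le_mul_of_nonneg_left (h.wn f hf) hr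
      linarith)
  have hd0 : ∀ n : ℕ, ¬ n.Prime → d n = 0 := by
    intro n hn
    have h1 := hd n
    rw [h.Wp n hn, mul_zero] at h1
    exact abs_nonpos_iff.1 h1
  have hc' : ∀ n, |c n + d n| ≤ (a + 3 * r) * W n := fun n => by
    refine (abs_add_le _ _).trans ?_
    linarith [hc n, hd n]
  have hc'W : ∀ n, |c n + d n| ≤ W n := fun n => (hc' n).trans (by
    have := mul_le_mul_of_nonneg_right har (h.W0 n)
    linarith)
  refine ⟨fun n => c n + d n, hc', fun n => by rw [add_sub_cancel_left]; exact hd n, ?_⟩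
  intro f hf
  have hs1 := sm h hcW hf
  have hs2 : Summable fun n : ℕ => cf (fun n => b0 n + (c n + d n)) n * f n := sm h (c := fun n => c n + d n) hc'W hf
  obtain ⟨hs3, hs4⟩ := hdf f hf
  -- the composite part
  have h1 : ∀ n : ℕ, |cf (fun n => b0 n + (c n + d n)) n * f n - cf (fun n => b0 n + c n) n * f n - d n * f n| ≤
      3 * r * (if 1 < n ∧ ¬ n.Prime then cf (fun n => 2 * (b0 n + W n)) n * |f n| else 0) := by
    intro n
    rcases Nat.lt_or_ge n 2 with hn | hn
    · interval_cases n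
      · rw [cf_zero', cf_zero', hd0 0 Nat.not_prime_zero]
        simp
      · rw [cf_one', cf_one', hd0 1 Nat.not_prime_one]
        simp
    · by_cases hp : n.Prime
      · rw [cf_prime' _ hp, cf_prime' _ hp, if_neg (fun h5 => h5.2 hp)]
        have : (b0 n + (c n + d n)) * f n - (b0 n + c n) * f n - d n * f n = 0 := by ring
        rw [this]
        simp
      · rw [if_pos ⟨hn, hp⟩, hd0 n hp, zero_mul, sub_zero, ← sub_mul, abs_mul, ← mul_assoc]
        refine mul_le_mul_of_nonneg_right ?_ (abs_nonneg _)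
        refine cf_dif (by positivity) (bd h hcW) (bd h (c := fun n => c n + d n) hc'W) (fun m => ?_) n
        have h6 : b0 m + (c m + d m) - (b0 m + c m) = d m := by ring
        rw [h6]
        refine (hd m).trans (mul_le_mul_of_nonneg_left ?_ (by positivity))
        linarith [h.bn m]
  have hcn := cn_sum h hf
  have h2 : Summable fun n : ℕ => cf (fun n => b0 n + (c n + d n)) n * f n - cf (fun n => b0 n + c n) n * f n - d n * f n :=
    (hs2.sub hs1).sub hs3
  have h3 : ∑' n : ℕ, (cf (fun n => b0 n + (c n + d n)) n * f n - cf (fun n => b0 n + c n) n * f n - d n * f n) =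
      ∑' n : ℕ, cf (fun n => b0 n + (c n + d n)) n * f n := by
    rw [(hs2.sub hs1).tsum_sub hs3, hs2.tsum_sub hs1, hs4]
    ring
  have h4 : |∑' n : ℕ, (cf (fun n => b0 n + (c n + d n)) n * f n - cf (fun n => b0 n + c n) n * f n - d n * f n)| ≤
      ∑' n : ℕ, 3 * r * (if 1 < n ∧ ¬ n.Prime then cf (fun n => 2 * (b0 n + W n)) n * |f n| else 0) := by
    have h1' : ∀ n : ℕ, ‖cf (fun n => b0 n + (c n + d n)) n * f n - cf (fun n => b0 n + c n) n * f n - d n * f n‖ ≤
        3 * r * (if 1 < n ∧ ¬ n.Prime then cf (fun n => 2 * (b0 n + W n)) n * |f n| else 0) := h1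
    have hsn := Summable.of_nonneg_of_le (fun n => norm_nonneg _) h1' (hcn.mul_left (3 * r))
    exact (norm_tsum_le_tsum_norm hsn).trans (Summable.tsum_le_tsum h1' hsn (hcn.mul_left (3 * r)))
  rw [h3, tsum_mul_left] at h4
  refine h4.trans ?_
  have h5 := mul_le_mul_of_nonneg_left (h.cn f hf) (show 0 ≤ 3 * r by positivity)
  refine h5.trans ?_
  -- `3 r e N ≤ r / 4 N`
  have h6 : 0 ≤ e * N f := (abs_nonneg _).trans (h.f1 f hf)
  rcases h.e0.eq_or_lt with he | he
  · rw [← he] at h6 h5 ⊢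
    have h7 : 0 ≤ r * N f := (abs_nonneg _).trans (hrc f hf)
    simp only [zero_mul, mul_zero]
    linarith
  · have h8 : 0 ≤ N f := by
      by_contra hneg
      push Not at hneg
      have := mul_neg_of_pos_of_neg he hneg
      linarith
    have h9 : e * N f ≤ 1 / 12 * N f := mul_le_mul_of_nonneg_right h.e1 h8
    calc 3 * r * (e * N f) ≤ 3 * r * (1 / 12 * N f) := mul_le_mul_of_nonneg_left h9 (by positivity)
      _ = r / 4 * N f := by ring

/-- STEP 7, abstract form -/
theorem iter (h : IH V N W b0 e) : ∃ b : ℕ → ℝ, (∀ n, |b n - b0 n| ≤ W n) ∧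
    ∀ f ∈ V, (Summable fun n : ℕ => cf b n * f n) ∧ ∑' n : ℕ, cf b n * f n = 0 := by
  classical
  obtain ⟨ρ, hρ⟩ : ∃ ρ : ℝ, ρ = 3 * e := ⟨_, rfl⟩
  have hρ0 : 0 ≤ ρ := by rw [hρ]; linarith [h.e0]
  have hρ1 : ρ ≤ 1 / 4 := by rw [hρ]; linarith [h.e1]
  -- the states
  let St : ℕ → Type := fun k => {c : ℕ → ℝ // (∀ n, |c n| ≤ 4 * ρ * (1 - (1 / 4 : ℝ) ^ k) * W n) ∧
    ∀ f ∈ V, |∑' n : ℕ, cf (fun n => b0 n + c n) n * f n| ≤ ρ * (1 / 4 : ℝ) ^ k * N f}
  have hnext : ∀ (k : ℕ) (c : St k), ∃ c' : St (k + 1), ∀ n, |c'.1 n - c.1 n| ≤ 3 * (ρ * (1 / 4 : ℝ) ^ k) * W n := by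
    intro k c
    have hp : (0 : ℝ) < (1 / 4 : ℝ) ^ k := by positivity
    have hp1 : (1 / 4 : ℝ) ^ k ≤ 1 := pow_le_one₀ (by norm_num) (by norm_num)
    obtain ⟨c', h1, h2, h3⟩ := step h (c := c.1) (a := 4 * ρ * (1 - (1 / 4 : ℝ) ^ k)) (r := ρ * (1 / 4 : ℝ) ^ k) (by positivity)
      (by nlinarith) (by nlinarith) c.2.1 c.2.2
    refine ⟨⟨c', fun n => (h1 n).trans (le_of_eq ?_), fun f hf => (h3 f hf).trans (le_of_eq ?_)⟩, h2⟩
    · rw [pow_succ]
      ring
    · rw [pow_succ]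
      ring
  choose nx hnx using hnext
  let s0 : St 0 := ⟨0, fun n => by simp, fun f hf => by
    have := start h hf
    rw [hρ]
    simpa using this⟩
  let s : (k : ℕ) → St k := fun k => Nat.rec s0 (fun k c => nx k c) k
  have hs : ∀ k, s (k + 1) = nx k (s k) := fun k => rfl
  have hdif : ∀ n k, dist ((s k).1 n) ((s (k + 1)).1 n) ≤ 3 * ρ * W n * (1 / 4 : ℝ) ^ k := by
    intro n k
    rw [dist_comm, Real.dist_eq, hs k]
    refine (hnx k (s k) n).trans (le_of_eq ?_)
    ring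
  have hlim : ∀ n, ∃ l, Tendsto (fun k => (s k).1 n) atTop (𝓝 l) := fun n =>
    cauchySeq_tendsto_of_complete (cauchySeq_of_le_geometric (1 / 4 : ℝ) (3 * ρ * W n) (by norm_num) (hdif n))
  choose c hc using hlim
  have hcb : ∀ k n, |(s k).1 n| ≤ W n := by
    intro k n
    refine ((s k).2.1 n).trans ?_
    have hp : (0 : ℝ) < (1 / 4 : ℝ) ^ k := by positivity
    have h1 : 4 * ρ * (1 - (1 / 4 : ℝ) ^ k) ≤ 1 := by nlinarith
    have := mul_le_mul_of_nonneg_right h1 (h.W0 n)
    linarith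
  have hcW : ∀ n, |c n| ≤ W n := fun n => le_of_tendsto (hc n).abs (Eventually.of_forall fun k => hcb k n)
  refine ⟨fun n => b0 n + c n, fun n => by rw [add_sub_cancel_left]; exact hcW n, fun f hf => ⟨sm h hcW hf, ?_⟩⟩
  have h1 : Tendsto (fun k => ∑' n : ℕ, cf (fun n => b0 n + (s k).1 n) n * f n) atTop (𝓝 (∑' n : ℕ, cf (fun n => b0 n + c n) n * f n)) := by
    refine tendsto_tsum_of_dominated_convergence (h.cs f hf) (fun n => ?_) (Eventually.of_forall fun k n => ?_)
    · exact (cf_tendsto (c := fun k n => b0 n + (s k).1 n) (c' := fun n => b0 n + c n) (fun n => tendsto_const_nhds.add (hc n)) n).mul_const _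
    · rw [Real.norm_eq_abs, abs_mul]
      exact mul_le_mul_of_nonneg_right (dom h (hcb k) n) (abs_nonneg _)
  have h2 : Tendsto (fun k => ∑' n : ℕ, cf (fun n => b0 n + (s k).1 n) n * f n) atTop (𝓝 0) := by
    refine squeeze_zero_norm (fun k => ?_) (a := fun k => ρ * (1 / 4 : ℝ) ^ k * N f) ?_
    · rw [Real.norm_eq_abs]
      exact (s k).2.2 f hf
    · have h3 := tendsto_pow_atTop_nhds_zero_of_lt_one (r := (1 / 4 : ℝ)) (by norm_num) (by norm_num)
      have h4 := (h3.const_mul ρ).mul_const (N f)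
      simpa using h4
  exact tendsto_nhds_unique h1 h2

private theorem comp_iff {n : ℕ} (hn : n ≠ 0) : (1 < n ∧ ¬ n.Prime) ↔ 2 ≤ cardFactors n := by
  constructor
  · rintro ⟨h1, h2⟩
    by_contra h3
    have h4 : cardFactors n = 0 ∨ cardFactors n = 1 := by omega
    rcases h4 with h4 | h4
    · rcases cardFactors_eq_zero_iff_eq_zero_or_one.1 h4 with h5 | h5 <;> omega
    · exact h2 (cardFactors_eq_one_iff_prime.1 h4)
  · intro h
    refine ⟨?_, fun hp => ?_⟩
    · by_contra h1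
      have h2 : n = 1 := by omega
      rw [h2] at h
      simp at h
    · rw [cardFactors_eq_one_iff_prime.2 hp] at h
      omega

theorem iterate (V : Submodule ℝ (ℝ → ℝ)) (N : (ℝ → ℝ) → ℝ) (W b0 : ℕ → ℝ)
    (hW : ∀ n, 0 ≤ W n) (hWp : ∀ n, W n ≠ 0 → n.Prime)
    (hb : ∀ n, 0 ≤ b0 n) (hbp : ∀ n, b0 n ≠ 0 → n.Prime)
    (hN : ∀ f ∈ V, 0 ≤ N f)
    (hs : ∀ f ∈ V, (Summable fun n : ℕ => W n * |f n|) ∧ N f ≤ 3 * ∑' n : ℕ, W n * |f n|)
    (h0 : ∀ f ∈ V, |f 1| ≤ N f / 24)
    (h1 : ∀ f ∈ V, (Summable fun n : ℕ => b0 n * |f n|) ∧ ∑' n : ℕ, b0 n * |f n| ≤ N f / 24)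
    (h2 : ∀ f ∈ V,
      (Summable fun n : ℕ => if 2 ≤ cardFactors n then
        cf (fun p => 2 * (b0 p + W p)) n * |f n| else 0) ∧
      ∑' n : ℕ, (if 2 ≤ cardFactors n then cf (fun p => 2 * (b0 p + W p)) n * |f n| else 0) ≤
        N f / 24) :
    ∃ c : ℕ → ℝ, (∀ n, |c n| ≤ W n) ∧ ∀ f ∈ V,
      (Summable fun n : ℕ => cf (fun p => b0 p + c p) n * f n) ∧
      ∑' n : ℕ, cf (fun p => b0 p + c p) n * f n = 0 := by
  have e1 : ∀ (f : ℝ → ℝ) (n : ℕ), (if 1 < n ∧ ¬ n.Prime then cf (fun n => 2 * (b0 n + W n)) n * |f n| else 0) =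
      (if 2 ≤ cardFactors n then cf (fun p => 2 * (b0 p + W p)) n * |f n| else 0) := by
    intro f n
    rcases eq_or_ne n 0 with rfl | hn
    · simp
    · simp only [comp_iff hn]
  have e2 : ∀ (f : ℝ → ℝ) (n : ℕ), (if n.Prime then b0 n * |f n| else 0) = b0 n * |f n| := by
    intro f n
    split_ifs with hn
    · rfl
    · have h3 : b0 n = 0 := by_contra fun h => hn (hbp n h)
      rw [h3, zero_mul]
  have hcs : ∀ f ∈ V, Summable fun n : ℕ => cf (fun n => 2 * (b0 n + W n)) n * |f n| := by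
    intro f hf
    have h3 : Summable fun n : ℕ => (if n = 1 then |f 1| else 0) :=
      summable_of_ne_finset_zero (s := {1}) fun n hn => by
        rw [if_neg]
        simpa using hn
    refine Summable.of_nonneg_of_le (fun n => mul_nonneg (cf_nonneg' (fun n => by linarith [hb n, hW n]) n) (abs_nonneg _)) (fun n => ?_)
      (((h3.add ((h1 f hf).1.mul_left 2)).add ((hs f hf).1.mul_left 2)).add (h2 f hf).1)
    have q1 : 0 ≤ b0 n * |f n| := mul_nonneg (hb n) (abs_nonneg _)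
    have q2 : 0 ≤ W n * |f n| := mul_nonneg (hW n) (abs_nonneg _)
    have q3 : 0 ≤ (if n = 1 then |f 1| else 0) := by split_ifs <;> positivity
    have q4 : 0 ≤ (if 2 ≤ cardFactors n then cf (fun p => 2 * (b0 p + W p)) n * |f n| else 0) := by
      split_ifs
      · exact mul_nonneg (cf_nonneg' (fun n => by linarith [hb n, hW n]) n) (abs_nonneg _)
      · exact le_rfl
    have q5 : cf (fun n => 2 * (b0 n + W n)) n * |f n| ≤ (if n = 1 then |f 1| else 0) ∨
        cf (fun n => 2 * (b0 n + W n)) n * |f n| = 2 * (b0 n * |f n|) + 2 * (W n * |f n|) ∨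
        cf (fun n => 2 * (b0 n + W n)) n * |f n| = (if 2 ≤ cardFactors n then cf (fun p => 2 * (b0 p + W p)) n * |f n| else 0) := by
      rcases eq_or_ne n 0 with rfl | hn
      · left
        rw [cf_zero', zero_mul, if_neg (by norm_num)]
      rcases eq_or_ne n 1 with rfl | hn1
      · left
        rw [cf_one', if_pos rfl, Nat.cast_one, one_mul]
      by_cases hp : n.Prime
      · right
        left
        rw [cf_prime' _ hp]
        ring
      · right
        right
        rw [if_pos ((comp_iff hn).1 ⟨by omega, hp⟩)]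
    rcases q5 with q5 | q5 | q5 <;> linarith
  have hI : IH V N W b0 (1 / 24) :=
    { e0 := by norm_num
      e1 := by norm_num
      W0 := hW
      Wp := fun n hn => by_contra fun h => hn (hWp n h)
      bn := hb
      ws := fun f hf => (hs f hf).1
      wn := fun f hf => (hs f hf).2
      f1 := fun f hf => by linarith [h0 f hf]
      fb := fun f hf => by
        simp only [e2 f]
        linarith [(h1 f hf).2]
      cs := hcs
      cn := fun f hf => by
        simp only [e1 f]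
        linarith [(h2 f hf).2] }
  obtain ⟨b, hb1, hb2⟩ := iter hI
  refine ⟨fun n => b n - b0 n, hb1, fun f hf => ?_⟩
  have e3 : (fun p => b0 p + (b p - b0 p)) = b := by
    funext p
    ring
  rw [e3]
  exact hb2 f hf

end Pool.Agent.H30.WD
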