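import Pool.Agent.H30.WD.Bridge
import Pool.Agent.H30.WD.Frame
import Pool.Agent.H30.WD.Iter
import Pool.Agent.H69.WD.Usamp

/-! [H30 WD Asm] assembly of STEPS 1-7, over the arithmetic input (chapter H), the special primes
(STEP 6) and the local density of the composite numbers (STEP 5) -/

set_option autoImplicit false

namespace Pool.Agent.H30.WD

open ArithmeticFunction

/-- there is `lam0` such that for every `lam ≥ lam0` there is a wild sequence `b` with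
`∑_{p ≤ x} b_p ^ 2 / p ≥ c (log x) ^ 2` -/
theorem wild_of (hin : ∃ (B J0 : ℕ) (A : ℝ), Input B J0 A)
    (hsp : ∀ (B J0 : ℕ) (A : ℝ), Input B J0 A → ∃ A1 C c : ℝ, 0 < A1 ∧ 0 < C ∧ 0 < c ∧
      ∃ J1 : ℕ, J0 ≤ J1 ∧ ∀ J : ℕ, J1 ≤ J → ∃ b0 : ℕ → ℝ, Maj b0 B J (C / Real.log J) A1 ∧
      (∀ n, b0 n = 0 ∨ 4 * (wt B n * ((1 + Real.log n) ^ 2)⁻¹) ≤ b0 n) ∧
      ∃ x1 : ℝ, ∀ x : ℝ, x1 ≤ x → c * Real.log x ^ 2 ≤
        ∑ p ∈ (Finset.Icc 1 ⌊x⌋₊).filter Nat.Prime, b0 p ^ 2 / (p : ℝ))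
    (hcor : ∀ β A δ : ℝ, 0 < β → 0 < A → 0 < δ → ∃ B1 : ℕ, 2 ≤ B1 ∧ ∀ lam : ℝ, 8 < lam →
      6 / lam < 1 / (B1 : ℝ) → ∀ ε : ℝ, 0 < ε → ∃ P0 : ℕ, ∀ P : ℕ, P0 ≤ P → ∃ Q0 : ℝ, 0 < Q0 ∧
      ∀ Q : ℝ, Q0 ≤ Q → ∀ b : ℕ → ℝ, Pool.Agent.H61.WL.Dn b P β A δ → ∀ f ∈ TV lam Q,
      (Summable fun n : ℕ => if 2 ≤ cardFactors n then
        Pool.Agent.H61.WL.ab b n * 2 ^ (cardFactors n) * |f n| else 0) ∧
      ∑' n : ℕ, (if 2 ≤ cardFactors n then
        Pool.Agent.H61.WL.ab b n * 2 ^ (cardFactors n) * |f n| else 0) ≤ ε * nm lam f) :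
    ∃ lam0 : ℝ, 8 < lam0 ∧ ∀ lam : ℝ, lam0 ≤ lam → ∃ (Q : ℝ) (b : ℕ → ℝ) (A c x1 : ℝ),
    0 < Q ∧ 0 < c ∧ (∀ n : ℕ, |b n| ≤ Real.log n ^ A) ∧
    (∀ y : ℝ, 0 < y → ∑' n : ℕ, cf b n * tf lam Q y n = 0) ∧
    ∀ x : ℝ, x1 ≤ x → c * Real.log x ^ 2 ≤
      ∑ p ∈ (Finset.Icc 1 ⌊x⌋₊).filter Nat.Prime, b p ^ 2 / (p : ℝ) := by
  obtain ⟨B, J0, A, h⟩ := hin
  have hB : 2 ≤ B := h.1
  have hJ03 : 3 ≤ J0 := h.2.1
  obtain ⟨A1, C1, c1, hA1, hC1, hc1, J1, hJ1, hsp⟩ := hsp B J0 A h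
  obtain ⟨A2, C2, hA2, hC2, J2, hJ2, hmw⟩ := maj_wt B J0 A h
  have hBr : (2 : ℝ) ≤ B := by exact_mod_cast hB
  have hA' : 0 < max A1 A2 + 1 := by
    have := le_max_left A1 A2
    linarith
  obtain ⟨B1, hB1, hcor⟩ := hcor (16 * (C1 + C2)) (max A1 A2 + 1) (1 / (B : ℝ)) (by positivity)
    hA' (by positivity)
  have hB1r : (2 : ℝ) ≤ B1 := by exact_mod_cast hB1
  refine ⟨6 * ((B : ℝ) + B1) + 9, by linarith, ?_⟩
  intro lam hlam
  have hlam8 : 8 < lam := by linarith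
  have hlam0 : 0 < lam := by linarith
  have hlamB : 6 / lam < 1 / (B : ℝ) := by
    rw [div_lt_div_iff₀ hlam0 (by linarith)]
    linarith
  have hlamB1 : 6 / lam < 1 / (B1 : ℝ) := by
    rw [div_lt_div_iff₀ hlam0 (by linarith)]
    linarith
  obtain ⟨J3, hJ3, hfr⟩ := frame lam B J0 A h hlam8 hlamB
  obtain ⟨C4, hC4, hus⟩ := Pool.Agent.H69.WD.usamp lam hlam8 B (by omega) hlamB
  obtain ⟨P0, hcor⟩ := hcor lam hlam8 hlamB1 (1 / 24) (by norm_num)
  obtain ⟨Q1, hQ1, hf1⟩ := f_one lam hlam8 (1 / 24) (by norm_num)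
  -- the choice of `J`
  obtain ⟨J, hJ⟩ : ∃ J : ℕ, J = J1 + J2 + J3 + P0 + B + 8 + ⌈Real.exp (48 * C4 * C1 + 1)⌉₊ :=
    ⟨_, rfl⟩
  have hJ1' : J1 ≤ J := by omega
  have hJ2' : J2 ≤ J := by omega
  have hJ3' : J3 ≤ J := by omega
  have hJP : P0 ≤ J ^ B := by
    have e1 : J ≤ J ^ B := Nat.le_self_pow (by omega) J
    omega
  have hJB : B ≤ J := by omega
  have hJ8 : 8 ≤ J := by omega
  have hJr : (8 : ℝ) ≤ J := by exact_mod_cast hJ8
  have hJe : Real.exp (48 * C4 * C1 + 1) ≤ J := by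
    have e1 : ⌈Real.exp (48 * C4 * C1 + 1)⌉₊ ≤ J := by omega
    exact (Nat.le_ceil _).trans (by exact_mod_cast e1)
  have hJlog : 48 * C4 * C1 + 1 ≤ Real.log J := by
    rw [← Real.log_exp (48 * C4 * C1 + 1)]
    exact Real.log_le_log (Real.exp_pos _) hJe
  have hJlog1 : 1 ≤ Real.log J := by
    have : 0 ≤ 48 * C4 * C1 := by positivity
    linarith
  obtain ⟨b0, hb0, hb04, x1, hx1⟩ := hsp J hJ1'
  obtain ⟨Q2, hQ2, hfr⟩ := hfr J hJ3'
  obtain ⟨Q3, hQ3, hcor⟩ := hcor (J ^ B) hJP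
  obtain ⟨Q, hQ⟩ : ∃ Q : ℝ, Q = Q1 + Q2 + Q3 + 1 := ⟨_, rfl⟩
  have hQp : 0 < Q := by linarith
  have hQ1' : 1 ≤ Q := by linarith
  -- the weights
  set W : ℕ → ℝ := fun n => if n.Prime ∧ J ^ B < n then wt B n * uu lam n else 0 with hW
  have hWM : Maj W B J C2 A2 := hmw J hJ2' lam
  have hb0' : Maj b0 B J C1 A1 := by
    apply hb0.mono
    exact div_le_self hC1.le hJlog1
  have hbW : Maj (fun n => b0 n + W n) B J (C1 + C2) (max A1 A2 + 1) :=
    hb0'.add hWM hJ8 (by omega)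
  have hdn := hbW.dn hB (by positivity)
  have hWf : ∀ (f : ℝ → ℝ) (n : ℕ), W n * |f n| =
      if n.Prime ∧ J ^ B < n then wt B n * uu lam n * |f n| else 0 := by
    intro f n
    rw [hW]
    dsimp only
    split_ifs
    · rfl
    · rw [zero_mul]
  obtain ⟨c, hc, hcf⟩ := iterate (TV lam Q) (nm lam) W b0 hWM.nonneg (fun n hn => (hWM.supp n hn).1)
    hb0.nonneg (fun n hn => (hb0.supp n hn).1) (fun f _ => frame_nm_nonneg lam f)
    (by
      intro f hf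
      obtain ⟨e1, e2⟩ := hfr Q (by linarith) f hf
      simp only [hWf]
      exact ⟨e1, e2⟩)
    (by
      intro f hf
      have := hf1 Q (by linarith) f hf
      linarith)
    (by
      intro f hf
      have hβ : 0 ≤ C1 / Real.log J := by positivity
      obtain ⟨e1, e2⟩ := hus J (by omega) Q hQ1' f hf (2 * (C1 / Real.log J)) b0 (by positivity)
        hb0.nonneg (fun n hn => (hb0.supp n hn).2)
        (fun j hj => hb0.cell hβ (by omega) hJB (by omega) j hj)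
      refine ⟨e1, e2.trans ?_⟩
      have e3 : C4 * (2 * (C1 / Real.log J)) ≤ 1 / 24 := by
        rw [show C4 * (2 * (C1 / Real.log J)) = 2 * C4 * C1 / Real.log J by ring,
          div_le_iff₀ (by linarith)]
        nlinarith
      have e4 := mul_le_mul_of_nonneg_right e3 (frame_nm_nonneg lam f)
      linarith)
    (by
      intro f hf
      obtain ⟨e1, e2⟩ := hcor Q (by linarith) _ hdn f hf
      have e3 : (fun n : ℕ => if 2 ≤ cardFactors n then
          cf (fun p => 2 * (b0 p + W p)) n * |f n| else 0) =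
          fun n : ℕ => if 2 ≤ cardFactors n then
          Pool.Agent.H61.WL.ab (fun p => b0 p + W p) n * 2 ^ (cardFactors n) * |f n| else 0 := by
        funext n
        by_cases hn : 2 ≤ cardFactors n
        · rw [if_pos hn, if_pos hn]
          have hn0 : n ≠ 0 := by
            rintro rfl
            simp at hn
          rw [cf_ab _ n hn0, ← Pool.Agent.H61.WL.ab_mul_two]
          simp only [mul_comm]
        · rw [if_neg hn, if_neg hn]
      rw [e3]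
      refine ⟨e1, e2.trans (le_of_eq (by ring))⟩)
  refine ⟨Q, fun p => b0 p + c p, max A1 A2 + 1, 9 / 16 * c1, x1, hQp, by positivity, ?_, ?_, ?_⟩
  · intro n
    have e1 := hbW.h2 n
    have e2 := hc n
    have e3 := hb0.nonneg n
    refine le_trans ?_ e1
    calc |b0 n + c n| ≤ |b0 n| + |c n| := abs_add_le _ _
      _ ≤ b0 n + W n := by
          rw [abs_of_nonneg e3]
          linarith
  · intro y hy
    exact (hcf (tf lam Q y) (Submodule.subset_span ⟨y, hy, rfl⟩)).2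
  · intro x hx
    refine le_trans (le_of_eq ?_) ((mul_le_mul_of_nonneg_left (hx1 x hx)
      (show (0 : ℝ) ≤ 9 / 16 by norm_num)).trans ?_)
    · ring
    rw [Finset.mul_sum]
    apply Finset.sum_le_sum
    intro p hp
    have hpp : p.Prime := (Finset.mem_filter.mp hp).2
    have hp0 : (0 : ℝ) < p := by exact_mod_cast hpp.pos
    rw [← mul_div_assoc]
    apply div_le_div_of_nonneg_right _ hp0.le
    have e1 := hc p
    have e2 := hb0.nonneg p
    rcases hb04 p with h0 | h4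
    · show 9 / 16 * b0 p ^ 2 ≤ (b0 p + c p) ^ 2
      rw [h0]
      have := sq_nonneg (0 + c p)
      nlinarith
    · have e3 : W p ≤ b0 p / 4 := by
        have e4 : uu lam p = ((1 + Real.log p) ^ 2)⁻¹ := by
          unfold uu
          rw [if_neg]
          have : (1 : ℝ) ≤ p := by exact_mod_cast hpp.one_lt.le
          linarith
        rw [hW]
        dsimp only
        split_ifs
        · rw [e4]
          linarith
        · linarith
      have e5 : |c p| ≤ b0 p / 4 := e1.trans e3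
      have e6 := abs_le.mp e5
      show 9 / 16 * b0 p ^ 2 ≤ (b0 p + c p) ^ 2
      have e7 : 3 / 4 * b0 p ≤ b0 p + c p := by linarith [e6.1]
      nlinarith

end Pool.Agent.H30.WD
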