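import Pool.Agent.H30.WD.Fac

/-! [H30 WD Bad2] from a wild element to a primitive one -/

set_option autoImplicit false

namespace Pool.Agent.H30.WD

open H11.Selberg

private lemma sq_le' (k : ℕ) (z : Fin k → ℂ) : ‖∑ i, z i‖ ^ 2 ≤ k * ∑ i, ‖z i‖ ^ 2 := by
  have h1 : ‖∑ i, z i‖ ≤ ∑ i, ‖z i‖ := norm_sum_le _ _
  have h2 : (∑ i, ‖z i‖) ^ 2 ≤ (Finset.univ : Finset (Fin k)).card * ∑ i, ‖z i‖ ^ 2 :=
    sq_sum_le_card_mul_sum_sq
  rw [Finset.card_univ, Fintype.card_fin] at h2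
  refine le_trans ?_ h2
  gcongr

private lemma s_le' (a : ℕ → ℂ) (k : ℕ) (f : Fin k → ℕ → ℂ)
    (hc : ∀ p : ℕ, p.Prime → a p = ∑ i, f i p) (x : ℝ) : S a x ≤ k * ∑ i, S (f i) x := by
  unfold S
  rw [Finset.sum_comm, Finset.mul_sum]
  refine Finset.sum_le_sum fun p hp => ?_
  rw [Finset.mem_filter] at hp
  rw [hc p hp.2, ← Finset.sum_div, ← mul_div_assoc]
  gcongr
  exact sq_le' k _

/-- an element with `S_F(x) ≥ c (log x)^2` has a primitive factor with
`S(x) ≥ c' (log x)^2` for arbitrarily large `x` -/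
theorem bad2 (a : ℕ → ℂ) (F : ℂ → ℂ) (h : IsSelberg a F) (c x1 : ℝ) (hc : 0 < c)
    (hS : ∀ x : ℝ, x1 ≤ x → c * Real.log x ^ 2 ≤ S a x) :
    ∃ (a' : ℕ → ℂ) (F' : ℂ → ℂ), IsPrimitive a' F' ∧
      ∃ c' : ℝ, 0 < c' ∧ ∀ X : ℝ, ∃ x : ℝ, X ≤ x ∧ c' * Real.log x ^ 2 ≤ S a' x := by
  have hpos : ∀ x : ℝ, 3 ≤ x → 0 < c * Real.log x ^ 2 := by
    intro x hx
    have : 0 < Real.log x := Real.log_pos (by linarith)
    positivity
  have hF : ∃ s : ℂ, 1 < s.re ∧ F s ≠ 1 := by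
    by_contra hcon
    push Not at hcon
    have hz : ∀ p : ℕ, p.Prime → a p = 0 := by
      intro p hp
      have := fac_coeff a F h 0 (fun i => i.elim0) (fun i => i.elim0) (fun i => i.elim0)
        (fun s hs => by rw [hcon s hs]; simp) p hp
      simpa using this
    have h0 : S a (max x1 3) = 0 := by
      unfold S
      refine Finset.sum_eq_zero fun p hp => ?_
      rw [hz p (Finset.mem_filter.1 hp).2]
      simp
    have h1 := hS (max x1 3) (le_max_left _ _)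
    have h2 := hpos (max x1 3) (le_max_right _ _)
    linarith
  obtain ⟨k, f, Φ, hk, hprim, hprod⟩ := fac a F h hF
  have hco := fac_coeff a F h k f Φ (fun i => (hprim i).1) hprod
  have hk0 : (0 : ℝ) < k := by exact_mod_cast hk
  by_contra hcon
  push Not at hcon
  have hX : ∀ i : Fin k, ∃ X : ℝ, ∀ x : ℝ, X ≤ x → S (f i) x < c / k ^ 2 * Real.log x ^ 2 :=
    fun i => hcon (f i) (Φ i) (hprim i) (c / k ^ 2) (by positivity)
  choose X hX using hX
  obtain ⟨x, hx⟩ : ∃ x : ℝ, x = max x1 3 + ∑ i, |X i| := ⟨_, rfl⟩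
  have hs0 : 0 ≤ ∑ i, |X i| := Finset.sum_nonneg fun i _ => abs_nonneg _
  have hx1 : x1 ≤ x := by
    have := le_max_left x1 3
    linarith
  have hx3 : 3 ≤ x := by
    have := le_max_right x1 3
    linarith
  have hXi : ∀ i, X i ≤ x := by
    intro i
    have h1 : |X i| ≤ ∑ i, |X i| :=
      Finset.single_le_sum (f := fun i => |X i|) (fun i _ => abs_nonneg _) (Finset.mem_univ i)
    have h2 := le_abs_self (X i)
    have h3 := le_max_right x1 3
    linarith
  have h1 := s_le' a k f hco x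
  have hne : (Finset.univ : Finset (Fin k)).Nonempty := by
    rw [← Finset.card_pos, Finset.card_univ, Fintype.card_fin]
    exact hk
  have h2 : ∑ i, S (f i) x < ∑ _i : Fin k, c / k ^ 2 * Real.log x ^ 2 :=
    Finset.sum_lt_sum_of_nonempty hne fun i _ => hX i x (hXi i)
  rw [Finset.sum_const, Finset.card_univ, Fintype.card_fin, nsmul_eq_mul] at h2
  have h3 : (k : ℝ) * ∑ i, S (f i) x < k * (k * (c / k ^ 2 * Real.log x ^ 2)) :=
    mul_lt_mul_of_pos_left h2 hk0
  have h4 : (k : ℝ) * (k * (c / k ^ 2 * Real.log x ^ 2)) = c * Real.log x ^ 2 := by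
    field_simp
  have h5 := hS x hx1
  linarith

/-- such a function violates the conjecture -/
theorem unb (a : ℕ → ℂ) (c : ℝ) (hc : 0 < c)
    (h : ∀ X : ℝ, ∃ x : ℝ, X ≤ x ∧ c * Real.log x ^ 2 ≤ S a x) (C X : ℝ) :
    ∃ x : ℝ, X ≤ x ∧ C < S a x - Real.log (Real.log x) := by
  obtain ⟨x, hx, hx2⟩ := h (max X (Real.exp ((1 + |C|) / c + 1)))
  refine ⟨x, (le_max_left _ _).trans hx, ?_⟩
  have h1 : Real.exp ((1 + |C|) / c + 1) ≤ x := (le_max_right _ _).trans hx
  have h0 : 0 ≤ (1 + |C|) / c := by positivity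
  have h2 : (1 + |C|) / c + 1 ≤ Real.log x := by
    rw [← Real.log_exp ((1 + |C|) / c + 1)]
    exact Real.log_le_log (Real.exp_pos _) h1
  have h3 : Real.log (Real.log x) ≤ Real.log x - 1 := Real.log_le_sub_one_of_pos (by linarith)
  have h4 : 1 + |C| < c * Real.log x := by
    have : (1 + |C|) / c < Real.log x := by linarith
    rw [div_lt_iff₀ hc] at this
    linarith
  have h5 := le_abs_self C
  have h6 : 0 ≤ |C| := abs_nonneg C
  nlinarith

end Pool.Agent.H30.WD
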