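import Pool.Agent.H30.WD.Defs

/-! [H30 WD MajDef] majorants -/

set_option autoImplicit false

namespace Pool.Agent.H30.WD

/-- `bb` is a majorant: supported on primes above `J^B`, local density `β / (log x)^2`, pointwise
bound `(log p)^A` -/
structure Maj (bb : ℕ → ℝ) (B J : ℕ) (β A : ℝ) : Prop where
  nonneg : ∀ n, 0 ≤ bb n
  supp : ∀ n, bb n ≠ 0 → n.Prime ∧ J ^ B < n
  h1 : ∀ a b : ℕ, J ^ B ≤ a → a ≤ b → b ≤ 4 * a →
    ∑ p ∈ Finset.Ioc a b, bb p ≤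
      β * (((b : ℝ) - a) + (a : ℝ) ^ (1 - 1 / (B : ℝ))) / Real.log a ^ 2
  h2 : ∀ n, bb n ≤ Real.log n ^ A

end Pool.Agent.H30.WD
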