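import Pool.Agent.H30.WD.Cell
import Pool.Agent.H30.WD.MajDef
import Pool.Agent.H61.WL.Dn

/-! [H30 WD Bridge] the weights `W = wt * uu` and the special primes as majorants in the sense of
chapter L -/

set_option autoImplicit false

namespace Pool.Agent.H30.WD

theorem cf_ab (b : ℕ → ℝ) (n : ℕ) (hn : n ≠ 0) : cf b n = Pool.Agent.H61.WL.ab b n := by
  unfold cf Pool.Agent.H61.WL.ab
  rw [if_neg hn]

theorem Maj.dn {bb : ℕ → ℝ} {B J : ℕ} {β A : ℝ} (h : Maj bb B J β A) (hB : 2 ≤ B) (hβ : 0 ≤ β) :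
    Pool.Agent.H61.WL.Dn bb (J ^ B) (16 * β) A (1 / (B : ℝ)) := by
  refine ⟨h.nonneg, h.supp, ?_, h.h2⟩
  intro x a c hx hxa hc hlen
  have hBr : (2 : ℝ) ≤ B := by exact_mod_cast hB
  have hx0 : 0 < x := by linarith
  have ha0 : 0 ≤ a := by linarith
  have hd : 0 ≤ 1 - 1 / (B : ℝ) := by
    have : 1 / (B : ℝ) ≤ 1 := by
      rw [div_le_one (by linarith)]
      linarith
    linarith
  have hxd : 1 ≤ x ^ (1 - 1 / (B : ℝ)) := Real.one_le_rpow (by linarith) hd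
  have hca : 1 ≤ c - a := hxd.trans hlen
  have hlx : 0 < Real.log x := Real.log_pos (by linarith)
  have hR : 0 ≤ 16 * β * (c - a) / Real.log x ^ 2 := by positivity
  have hfa : 2 ≤ ⌊a⌋₊ := Nat.le_floor (by push_cast; linarith)
  set a' := max ⌊a⌋₊ (J ^ B) with ha'
  have hsub : ∑ p ∈ Finset.Ioc ⌊a⌋₊ ⌊c⌋₊, bb p = ∑ p ∈ Finset.Ioc a' ⌊c⌋₊, bb p := by
    symm
    apply Finset.sum_subset
    · intro p hp
      rw [Finset.mem_Ioc] at hp ⊢
      exact ⟨lt_of_le_of_lt (le_max_left _ _) hp.1, hp.2⟩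
    · intro p hp hp'
      rw [Finset.mem_Ioc] at hp hp'
      by_contra h0
      have h1 := (h.supp p h0).2
      exact hp' ⟨max_lt hp.1 h1, hp.2⟩
  rw [hsub]
  rcases lt_or_ge a' ⌊c⌋₊ with hlt | hge
  · have h4 : ⌊c⌋₊ ≤ 4 * a' := by
      have h5 : (⌊c⌋₊ : ℝ) ≤ c := Nat.floor_le (by linarith)
      have h6 : a < ⌊a⌋₊ + 1 := Nat.lt_floor_add_one a
      have h7 : (⌊c⌋₊ : ℝ) < 2 * (⌊a⌋₊ + 1) := by linarith
      have h8 : ⌊c⌋₊ < 2 * (⌊a⌋₊ + 1) := by exact_mod_cast h7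
      have h9 : ⌊a⌋₊ ≤ a' := le_max_left _ _
      omega
    have key := h.h1 a' ⌊c⌋₊ (le_max_right _ _) hlt.le h4
    refine key.trans ?_
    have h5 : (⌊c⌋₊ : ℝ) ≤ c := Nat.floor_le (by linarith)
    have h6 : a < ⌊a⌋₊ + 1 := Nat.lt_floor_add_one a
    have h9 : (⌊a⌋₊ : ℝ) ≤ (a' : ℝ) := by exact_mod_cast le_max_left _ _
    have h10 : (⌊c⌋₊ : ℝ) - a' ≤ 2 * (c - a) := by linarith
    have h11 : (a' : ℝ) ≤ 2 * x := by
      have : (a' : ℝ) ≤ ⌊c⌋₊ := by exact_mod_cast hlt.le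
      linarith
    have h12 : (a' : ℝ) ^ (1 - 1 / (B : ℝ)) ≤ 2 * (c - a) := by
      calc (a' : ℝ) ^ (1 - 1 / (B : ℝ)) ≤ (2 * x) ^ (1 - 1 / (B : ℝ)) :=
            Real.rpow_le_rpow (Nat.cast_nonneg _) h11 hd
        _ = 2 ^ (1 - 1 / (B : ℝ)) * x ^ (1 - 1 / (B : ℝ)) := Real.mul_rpow (by norm_num) hx0.le
        _ ≤ 2 ^ (1 : ℝ) * x ^ (1 - 1 / (B : ℝ)) := by
            apply mul_le_mul_of_nonneg_right _ (by linarith)
            apply Real.rpow_le_rpow_of_exponent_le (by norm_num)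
            have : 0 ≤ 1 / (B : ℝ) := by positivity
            linarith
        _ ≤ 2 * (c - a) := by
            rw [Real.rpow_one]
            linarith
    have h13 : 2 ≤ a' := hfa.trans (le_max_left _ _)
    have h14 : Real.log x ≤ 2 * Real.log a' := by
      have e1 : x ≤ (a' : ℝ) ^ 2 := by
        have e2 : x < ⌊x⌋₊ + 1 := Nat.lt_floor_add_one x
        have e3 : ⌊x⌋₊ ≤ ⌊a⌋₊ := Nat.floor_le_floor hxa
        have e4 : (⌊x⌋₊ : ℝ) ≤ ⌊a⌋₊ := by exact_mod_cast e3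
        have e5 : (2 : ℝ) ≤ a' := by exact_mod_cast h13
        nlinarith
      calc Real.log x ≤ Real.log ((a' : ℝ) ^ 2) := Real.log_le_log hx0 e1
        _ = 2 * Real.log a' := by
            rw [Real.log_pow]
            norm_num
    have h15 : 0 < Real.log a' := by linarith
    have h16 : Real.log x ^ 2 ≤ 4 * Real.log a' ^ 2 := by nlinarith
    rw [div_le_div_iff₀ (by positivity) (by positivity)]
    have h17 : 0 ≤ (a' : ℝ) ^ (1 - 1 / (B : ℝ)) := by positivity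
    have h18 : β * ((⌊c⌋₊ : ℝ) - a' + (a' : ℝ) ^ (1 - 1 / (B : ℝ))) ≤ β * (4 * (c - a)) :=
      mul_le_mul_of_nonneg_left (by linarith) hβ
    calc β * ((⌊c⌋₊ : ℝ) - a' + (a' : ℝ) ^ (1 - 1 / (B : ℝ))) * Real.log x ^ 2
        ≤ β * (4 * (c - a)) * (4 * Real.log a' ^ 2) := by
          apply mul_le_mul h18 h16 (by positivity)
          have : 0 ≤ c - a := by linarith
          positivity
      _ = 16 * β * (c - a) * Real.log a' ^ 2 := by ring
  · rw [Finset.Ioc_eq_empty (by omega), Finset.sum_empty]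
    exact hR

theorem uu_nat (lam lam' : ℝ) (n : ℕ) (hn : 1 ≤ n) : uu lam n = uu lam' n := by
  have : ¬ ((n : ℝ) < 1) := by
    have : (1 : ℝ) ≤ n := by exact_mod_cast hn
    linarith
  unfold uu
  rw [if_neg this, if_neg this]

theorem uu_nonneg_nat (lam : ℝ) (n : ℕ) : 0 ≤ uu lam n := by
  unfold uu
  split_ifs
  · exact Real.rpow_nonneg (Nat.cast_nonneg _) _
  · positivity

theorem uu_le_one_nat (lam : ℝ) (n : ℕ) (hn : 1 ≤ n) : uu lam n ≤ 1 := by
  have h1 : (1 : ℝ) ≤ n := by exact_mod_cast hn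
  unfold uu
  rw [if_neg (by linarith)]
  have h2 := Real.log_nonneg h1
  apply inv_le_one_of_one_le₀
  nlinarith

theorem maj_wt (B J0 : ℕ) (A : ℝ) (h : Input B J0 A) : ∃ A' C : ℝ, 0 ≤ A' ∧ 0 < C ∧ ∃ J1 : ℕ,
    J0 ≤ J1 ∧ ∀ J : ℕ, J1 ≤ J → ∀ lam : ℝ,
    Maj (fun n => if n.Prime ∧ J ^ B < n then wt B n * uu lam n else 0) B J C A' := by
  obtain ⟨C, hC, hC1⟩ := wt_h1 1 B J0 A h
  obtain ⟨C2, hC2, hC3⟩ := wt_le B J0 A h
  have hB : 2 ≤ B := h.1
  have hJ3 : 3 ≤ J0 := h.2.1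
  have hA : 0 ≤ A := h.2.2.1
  refine ⟨A + 1, C, by linarith, hC, max J0 ⌈Real.exp C2⌉₊, le_max_left _ _, ?_⟩
  intro J hJ lam
  have hJ0 : J0 ≤ J := (le_max_left _ _).trans hJ
  have hJe : Real.exp C2 ≤ J := (Nat.le_ceil _).trans (by exact_mod_cast (le_max_right _ _).trans hJ)
  have hJp : J0 ^ B ≤ J ^ B := Nat.pow_le_pow_left hJ0 B
  have hn0 : ∀ n : ℕ, 0 ≤ Real.log n := fun n => Real.log_natCast_nonneg n
  refine ⟨?_, ?_, ?_, ?_⟩
  · intro n
    split_ifs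
    · exact mul_nonneg (wt_nonneg _ _) (uu_nonneg_nat _ _)
    · exact le_rfl
  · intro n hn
    by_contra hc
    rw [if_neg hc] at hn
    exact hn rfl
  · intro a b ha hab hb4
    have e := hC1 a b (hJp.trans ha) hab hb4
    refine le_trans (le_of_eq ?_) e
    rw [Finset.sum_filter]
    apply Finset.sum_congr rfl
    intro p hp
    rw [Finset.mem_Ioc] at hp
    by_cases hpp : p.Prime
    · rw [if_pos hpp, if_pos ⟨hpp, lt_of_le_of_lt ha hp.1⟩, uu_nat lam 1 p hpp.one_lt.le]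
    · rw [if_neg hpp, if_neg (fun hc => hpp hc.1)]
  · intro n
    split_ifs with hn
    · have e1 := hC3 n (lt_of_le_of_lt hJp hn.2)
      have e2 := uu_le_one_nat lam n hn.1.one_lt.le
      have hJn : (J : ℝ) ≤ n := by
        have : J ≤ J ^ B := Nat.le_self_pow (by omega) J
        exact_mod_cast (this.trans hn.2.le)
      have e3 : C2 ≤ Real.log n := by
        rw [← Real.log_exp C2]
        exact Real.log_le_log (Real.exp_pos _) (hJe.trans hJn)
      have e4 : 0 < Real.log n := by linarith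
      have e5 : 0 ≤ Real.log n ^ A := Real.rpow_nonneg e4.le _
      calc wt B n * uu lam n ≤ wt B n * 1 := mul_le_mul_of_nonneg_left e2 (wt_nonneg _ _)
        _ ≤ C2 * Real.log n ^ A := by linarith
        _ ≤ Real.log n * Real.log n ^ A := mul_le_mul_of_nonneg_right e3 e5
        _ = Real.log n ^ (A + 1) := by
            rw [Real.rpow_add e4, Real.rpow_one]
            ring
    · exact Real.rpow_nonneg (hn0 n) _

theorem Maj.add {b1 b2 : ℕ → ℝ} {B J : ℕ} {β1 β2 A1 A2 : ℝ} (h1 : Maj b1 B J β1 A1)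
    (h2 : Maj b2 B J β2 A2) (hJ : 8 ≤ J) (hB : 1 ≤ B) :
    Maj (fun n => b1 n + b2 n) B J (β1 + β2) (max A1 A2 + 1) := by
  refine ⟨fun n => add_nonneg (h1.nonneg n) (h2.nonneg n), ?_, ?_, ?_⟩
  · intro n hn
    by_cases h : b1 n = 0
    · apply h2.supp n
      intro h'
      apply hn
      rw [h, h', add_zero]
    · exact h1.supp n h
  · intro a b ha hab hb4
    rw [Finset.sum_add_distrib]
    have e1 := h1.h1 a b ha hab hb4
    have e2 := h2.h1 a b ha hab hb4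
    calc _ ≤ β1 * (((b : ℝ) - a) + (a : ℝ) ^ (1 - 1 / (B : ℝ))) / Real.log a ^ 2 +
          β2 * (((b : ℝ) - a) + (a : ℝ) ^ (1 - 1 / (B : ℝ))) / Real.log a ^ 2 := add_le_add e1 e2
      _ = _ := by ring
  · intro n
    have hn0 : 0 ≤ Real.log n := Real.log_natCast_nonneg n
    by_cases hn : J ^ B < n
    · have hJn : (8 : ℝ) ≤ n := by
        have : J ≤ J ^ B := Nat.le_self_pow (by omega) J
        exact_mod_cast ((hJ.trans this).trans hn.le)
      have hlog : 2 ≤ Real.log n := by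
        have e1 : Real.log 8 ≤ Real.log n := Real.log_le_log (by norm_num) hJn
        have e2 : Real.log 8 = 3 * Real.log 2 := by
          rw [show (8 : ℝ) = 2 ^ 3 by norm_num, Real.log_pow]
          norm_num
        have e3 := Real.log_two_gt_d9
        linarith
      have e1 : Real.log n ^ A1 ≤ Real.log n ^ max A1 A2 :=
        Real.rpow_le_rpow_of_exponent_le (by linarith) (le_max_left _ _)
      have e2 : Real.log n ^ A2 ≤ Real.log n ^ max A1 A2 :=
        Real.rpow_le_rpow_of_exponent_le (by linarith) (le_max_right _ _)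
      have e3 := h1.h2 n
      have e4 := h2.h2 n
      have e5 : 0 ≤ Real.log n ^ max A1 A2 := Real.rpow_nonneg hn0 _
      rw [Real.rpow_add (by linarith), Real.rpow_one]
      nlinarith
    · have e1 : b1 n = 0 := by
        by_contra h
        exact hn (h1.supp n h).2
      have e2 : b2 n = 0 := by
        by_contra h
        exact hn (h2.supp n h).2
      rw [e1, e2, add_zero]
      exact Real.rpow_nonneg hn0 _

theorem Maj.mono {bb : ℕ → ℝ} {B J : ℕ} {β β' A : ℝ} (h : Maj bb B J β A) (hβ : β ≤ β') :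
    Maj bb B J β' A := by
  refine ⟨h.nonneg, h.supp, ?_, h.h2⟩
  intro a b ha hab hb4
  refine (h.h1 a b ha hab hb4).trans ?_
  have h1 : (a : ℝ) ≤ b := by exact_mod_cast hab
  have h2 : 0 ≤ ((b : ℝ) - a) + (a : ℝ) ^ (1 - 1 / (B : ℝ)) := by
    have : 0 ≤ (a : ℝ) ^ (1 - 1 / (B : ℝ)) := Real.rpow_nonneg (Nat.cast_nonneg _) _
    linarith
  gcongr

theorem pow_four (B j : ℕ) (hj : B ≤ j) (hj1 : 1 ≤ j) : (j + 1) ^ B ≤ 4 * j ^ B := by
  have hjr : (1 : ℝ) ≤ j := by exact_mod_cast hj1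
  have h1 : ((j : ℝ) + 1) ^ B ≤ 4 * (j : ℝ) ^ B := by
    have h2 : ((j : ℝ) + 1) / j ≤ Real.exp (1 / (j : ℝ)) := by
      have := Real.add_one_le_exp (1 / (j : ℝ))
      have e : ((j : ℝ) + 1) / j = 1 / j + 1 := by
        field_simp
        ring
      rw [e]
      exact this
    have h3 : (((j : ℝ) + 1) / j) ^ B ≤ Real.exp 1 := by
      calc (((j : ℝ) + 1) / j) ^ B ≤ (Real.exp (1 / (j : ℝ))) ^ B :=
            pow_le_pow_left₀ (by positivity) h2 B
        _ = Real.exp ((B : ℝ) * (1 / (j : ℝ))) := by rw [← Real.exp_nat_mul]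
        _ ≤ Real.exp 1 := by
            apply Real.exp_le_exp.mpr
            rw [mul_one_div, div_le_one (by linarith)]
            exact_mod_cast hj
    have h4 : Real.exp 1 ≤ 4 := by
      have := Real.exp_one_lt_d9
      linarith
    rw [div_pow, div_le_iff₀ (by positivity)] at h3
    have h5 : 0 ≤ (j : ℝ) ^ B := by positivity
    nlinarith
  exact_mod_cast h1

theorem Maj.cell {g : ℕ → ℝ} {B J : ℕ} {β A : ℝ} (h : Maj g B J β A) (hβ : 0 ≤ β) (hB : 1 ≤ B)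
    (hJ : B ≤ J) (hJ2 : 2 ≤ J) (j : ℕ) (hj : J ≤ j) :
    ∑ n ∈ Finset.Ioc (j ^ B) ((j + 1) ^ B), g n ≤
      2 * β * (((j : ℝ) + 1) ^ B - (j : ℝ) ^ B) / Real.log j ^ 2 := by
  have hj2 : 2 ≤ j := hJ2.trans hj
  have hjr : (2 : ℝ) ≤ j := by exact_mod_cast hj2
  have key := h.h1 (j ^ B) ((j + 1) ^ B) (Nat.pow_le_pow_left hj B)
    (Nat.pow_le_pow_left (by omega) B) (pow_four B j (hJ.trans hj) (by omega))
  refine key.trans ?_
  push_cast
  have hl : 0 < Real.log j := Real.log_pos (by linarith)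
  have h1 : ((j : ℝ) ^ B) ^ (1 - 1 / (B : ℝ)) ≤ ((j : ℝ) + 1) ^ B - (j : ℝ) ^ B := by
    have hBr : (0 : ℝ) < B := by exact_mod_cast hB
    have e1 : ((j : ℝ) ^ B) ^ (1 - 1 / (B : ℝ)) = (j : ℝ) ^ (B - 1) := by
      rw [← Real.rpow_natCast (j : ℝ) B, ← Real.rpow_mul (by linarith),
        ← Real.rpow_natCast (j : ℝ) (B - 1), Nat.cast_sub hB]
      congr 1
      push_cast
      field_simp
    rw [e1]
    have e2 : ((j : ℝ) + 1) ^ B ≥ (j : ℝ) ^ B + (j : ℝ) ^ (B - 1) := by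
      obtain ⟨k, rfl⟩ : ∃ k, B = k + 1 := ⟨B - 1, by omega⟩
      rw [Nat.add_sub_cancel, pow_succ, pow_succ]
      have e3 : (j : ℝ) ^ k ≤ ((j : ℝ) + 1) ^ k := pow_le_pow_left₀ (by linarith) (by linarith) k
      nlinarith
    linarith
  have h2 : Real.log j ^ 2 ≤ Real.log ((j : ℝ) ^ B) ^ 2 := by
    rw [Real.log_pow]
    have hBr : (1 : ℝ) ≤ B := by exact_mod_cast hB
    have : Real.log j ≤ B * Real.log j := by nlinarith
    exact pow_le_pow_left₀ hl.le this 2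
  have h3 : 0 ≤ ((j : ℝ) + 1) ^ B - (j : ℝ) ^ B := by
    have : 0 ≤ ((j : ℝ) ^ B) ^ (1 - 1 / (B : ℝ)) := Real.rpow_nonneg (by positivity) _
    linarith
  calc β * (((j : ℝ) + 1) ^ B - (j : ℝ) ^ B + ((j : ℝ) ^ B) ^ (1 - 1 / (B : ℝ))) /
        Real.log ((j : ℝ) ^ B) ^ 2
      ≤ β * (2 * (((j : ℝ) + 1) ^ B - (j : ℝ) ^ B)) / Real.log j ^ 2 := by
        apply div_le_div₀ (by positivity) _ (by positivity) h2
        exact mul_le_mul_of_nonneg_left (by linarith) hβ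
    _ = _ := by ring

end Pool.Agent.H30.WD
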