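import Pool.Agent.H30.WD.Coef

/-! [H30 WD Exp] the Euler product for nonnegative `b`: `∑ cf b n / n = exp (∑ b_p / p)` -/

set_option autoImplicit false

namespace Pool.Agent.H30.WD

open ArithmeticFunction

theorem cf_exp (bb : ℕ → ℝ) (hb : ∀ p, 0 ≤ bb p)
    (hs : Summable fun p : Nat.Primes => bb p / ((p : ℕ) : ℝ)) :
    (Summable fun n : ℕ => cf bb n / (n : ℝ)) ∧
    ∑' n : ℕ, cf bb n / (n : ℝ) ≤ Real.exp (∑' p : Nat.Primes, bb p / ((p : ℕ) : ℝ)) := by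
  sorry

/-- the part without `n = 1`, with the weight `(Ω(n) + 1)^2` -/
theorem cf_exp2 (bb : ℕ → ℝ) (hb : ∀ p, 0 ≤ bb p)
    (hs : Summable fun p : Nat.Primes => bb p / ((p : ℕ) : ℝ))
    (h1 : ∑' p : Nat.Primes, bb p / ((p : ℕ) : ℝ) ≤ 1 / 4) (S : Finset ℕ) (hS : ∀ m ∈ S, 2 ≤ m) :
    ∑ m ∈ S, ((cardFactors m : ℝ) + 1) ^ 2 * (cf bb m / (m : ℝ)) ≤
      8 * ∑' p : Nat.Primes, bb p / ((p : ℕ) : ℝ) := by
  sorry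

/-- Rankin's bound: `n ≥ z`, all primes of `n` at most `y` -/
theorem rankin (bb : ℕ → ℝ) (hb : ∀ p, 0 ≤ bb p) (y : ℕ) (z θ : ℝ) (hz : 0 < z) (hθ : 0 ≤ θ)
    (S : Finset ℕ) (hS : ∀ m ∈ S, m ≠ 0 ∧ z ≤ (m : ℝ) ∧ ∀ p ∈ m.primeFactors, p ≤ y) :
    ∑ m ∈ S, cf bb m / (m : ℝ) ≤
      z ^ (-θ) * Real.exp (∑ p ∈ (Finset.Icc 1 y).filter Nat.Prime, bb p * (p : ℝ) ^ (θ - 1)) := by
  sorry

end Pool.Agent.H30.WD
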