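import Pool.Agent.H30.WD.Theta
import Pool.Agent.H30.WD.Exp

/-! [H30 WD Case2] STEP 5, Case 2: all prime factors are at most `a^(4B/D)` -/

set_option autoImplicit false

namespace Pool.Agent.H30.WD

open ArithmeticFunction

theorem case2 (B D : ℕ) (A β : ℝ) (hB : 2 ≤ B) (hA : 0 ≤ A) (hD : 1000 * B ≤ D)
    (hAD : 100 * A * B ≤ D) (hβ : 0 ≤ β) (ε : ℝ) (hε : 0 < ε) : ∃ J1 : ℕ,
    ∀ J : ℕ, J1 ≤ J → ∀ bb : ℕ → ℝ, Maj bb B J β A →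
    ∀ a b : ℕ, 2 ≤ a → a < b → b ≤ 2 * a → (a : ℝ) ^ (1 - 1 / (D : ℝ)) ≤ (b : ℝ) - a →
    ∑ n ∈ (Finset.Ioc a b).filter (fun n => 2 ≤ cardFactors n ∧
        ∀ p ∈ n.primeFactors, (p : ℝ) ≤ (a : ℝ) ^ (4 * (B : ℝ) / D)), cf bb n ≤
      ε * ((b : ℝ) - a) / Real.log a ^ 2 := by
  sorry

end Pool.Agent.H30.WD
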