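import Pool.Agent.H30.WD.Defs

/-! [H30 WD Cell] the cells `(j^B, (j+1)^B]` and the weights of the primes -/

set_option autoImplicit false

namespace Pool.Agent.H30.WD

open MeasureTheory Set

theorem cl_spec (B n : ℕ) (hB : 1 ≤ B) (hn : 1 ≤ n) : cl B n ^ B < n ∧ n ≤ (cl B n + 1) ^ B := by
  have hP0 : (fun j => j ^ B < n) 0 := by
    show 0 ^ B < n
    rw [Nat.zero_pow (by omega)]
    omega
  have h1 : cl B n ^ B < n :=
    Nat.findGreatest_spec (P := fun j => j ^ B < n) (Nat.zero_le n) hP0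
  refine ⟨h1, ?_⟩
  by_contra h
  push Not at h
  by_cases h2 : cl B n + 1 ≤ n
  · exact Nat.findGreatest_is_greatest (P := fun j => j ^ B < n) (k := cl B n + 1)
      (by unfold cl; exact Nat.lt_succ_self _) h2 h
  · push Not at h2
    have h3 : n ≤ cl B n := by omega
    have h4 : n ≤ n ^ B := Nat.le_self_pow (by omega) n
    have h5 : n ^ B ≤ cl B n ^ B := Nat.pow_le_pow_left h3 B
    omega

theorem cl_eq (B n j : ℕ) (hB : 1 ≤ B) (h1 : j ^ B < n) (h2 : n ≤ (j + 1) ^ B) : cl B n = j := by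
  obtain ⟨h3, h4⟩ := cl_spec B n hB (by omega)
  rcases lt_trichotomy (cl B n) j with h | h | h
  · have := Nat.pow_le_pow_left (show cl B n + 1 ≤ j from h) B
    omega
  · exact h
  · have := Nat.pow_le_pow_left (show j + 1 ≤ cl B n from h) B
    omega

theorem wt_nonneg (B p : ℕ) : 0 ≤ wt B p := by
  unfold wt
  refine div_nonneg ?_ (Nat.cast_nonneg _)
  have : ((cl B p : ℕ) : ℝ) ^ B ≤ ((cl B p + 1 : ℕ) : ℝ) ^ B :=
    pow_le_pow_left₀ (Nat.cast_nonneg _) (by push_cast; linarith) B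
  linarith

theorem Nc_pos (B J0 : ℕ) (A : ℝ) (h : Input B J0 A) (j : ℕ) (hj : J0 ≤ j) : 0 < (Nc B j : ℝ) := by
  obtain ⟨hB, hJ, hA, h1⟩ := h
  have hj3 : (3 : ℝ) ≤ j := by exact_mod_cast hJ.trans hj
  have hlog : 0 < Real.log j := Real.log_pos (by linarith)
  refine lt_of_lt_of_le ?_ (h1 j hj)
  have : 0 < Real.log j ^ A := Real.rpow_pos_of_pos hlog A
  positivity

theorem wt_cell (B J0 : ℕ) (A : ℝ) (h : Input B J0 A) (j : ℕ) (hj : J0 ≤ j) :
    ∑ p ∈ (Finset.Ioc (j ^ B) ((j + 1) ^ B)).filter Nat.Prime, wt B p =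
      ((j : ℝ) + 1) ^ B - (j : ℝ) ^ B := by
  have hB : 1 ≤ B := by have := h.1; omega
  have hN := Nc_pos B J0 A h j hj
  have h1 : ∀ p ∈ (Finset.Ioc (j ^ B) ((j + 1) ^ B)).filter Nat.Prime,
      wt B p = (((j : ℝ) + 1) ^ B - (j : ℝ) ^ B) / (Nc B j : ℝ) := by
    intro p hp
    rw [Finset.mem_filter, Finset.mem_Ioc] at hp
    unfold wt
    rw [cl_eq B p j hB hp.1.1 hp.1.2]
    push_cast
    rfl
  rw [Finset.sum_congr rfl h1, Finset.sum_const, nsmul_eq_mul]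
  show (Nc B j : ℝ) * _ = _
  field_simp

theorem pow_diff (B j : ℕ) (hj : 1 ≤ j) :
    ((j : ℝ) + 1) ^ B - (j : ℝ) ^ B ≤ (B : ℝ) * 2 ^ (B - 1) * (j : ℝ) ^ (B - 1) := by
  have hj1 : (1 : ℝ) ≤ j := by exact_mod_cast hj
  have h1 : ((j : ℝ) + 1) ^ B - (j : ℝ) ^ B ≤ (B : ℝ) * ((j : ℝ) + 1) ^ (B - 1) := by
    rw [← geom_sum₂_mul, show ((j : ℝ) + 1) - j = 1 by ring, mul_one]
    have h2 : ∀ i ∈ Finset.range B, ((j : ℝ) + 1) ^ i * (j : ℝ) ^ (B - 1 - i) ≤
        ((j : ℝ) + 1) ^ (B - 1) := by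
      intro i hi
      rw [Finset.mem_range] at hi
      calc ((j : ℝ) + 1) ^ i * (j : ℝ) ^ (B - 1 - i) ≤
          ((j : ℝ) + 1) ^ i * ((j : ℝ) + 1) ^ (B - 1 - i) := by
            gcongr
            linarith
        _ = ((j : ℝ) + 1) ^ (B - 1) := by
            rw [← pow_add]
            congr 1
            omega
    refine (Finset.sum_le_sum h2).trans ?_
    rw [Finset.sum_const, Finset.card_range, nsmul_eq_mul]
  refine h1.trans ?_
  rw [mul_assoc, ← mul_pow]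
  gcongr
  linarith

theorem J0_le_cl (B J0 p : ℕ) (hB : 1 ≤ B) (hp : J0 ^ B < p) : J0 ≤ cl B p := by
  obtain ⟨h1, h2⟩ := cl_spec B p hB (by omega)
  by_contra h
  push Not at h
  have := Nat.pow_le_pow_left (show cl B p + 1 ≤ J0 from h) B
  omega

theorem wt_le (B J0 : ℕ) (A : ℝ) (h : Input B J0 A) : ∃ C : ℝ, 0 < C ∧ ∀ p : ℕ, J0 ^ B < p →
    wt B p ≤ C * Real.log p ^ A := by
  have hB2 : 2 ≤ B := h.1
  have hJ3 : 3 ≤ J0 := h.2.1
  have hA : 0 ≤ A := h.2.2.1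
  have hB : 1 ≤ B := by omega
  refine ⟨(B : ℝ) * 2 ^ (B - 1), by positivity, ?_⟩
  intro p hp
  have hj := J0_le_cl B J0 p hB hp
  set j := cl B p with hjdef
  have hN := Nc_pos B J0 A h j hj
  have hin := h.2.2.2 j hj
  have hj3 : (3 : ℝ) ≤ j := by exact_mod_cast hJ3.trans hj
  have hlog : 0 < Real.log j := Real.log_pos (by linarith)
  have hlA : 0 < Real.log j ^ A := Real.rpow_pos_of_pos hlog A
  have hjp : (j : ℝ) ≤ p := by
    have h1 := (cl_spec B p hB (by omega)).1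
    have h2 : j ≤ j ^ B := Nat.le_self_pow (by omega) j
    exact_mod_cast (h2.trans h1.le)
  have hll : Real.log j ^ A ≤ Real.log p ^ A :=
    Real.rpow_le_rpow hlog.le (Real.log_le_log (by linarith) hjp) hA
  unfold wt
  rw [← hjdef, div_le_iff₀ hN]
  push_cast
  refine (pow_diff B j (by omega)).trans ?_
  have h3 : (j : ℝ) ^ (B - 1) ≤ Real.log j ^ A * (Nc B j : ℝ) := by
    rw [div_le_iff₀ hlA] at hin
    linarith
  calc (B : ℝ) * 2 ^ (B - 1) * (j : ℝ) ^ (B - 1)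
      ≤ (B : ℝ) * 2 ^ (B - 1) * (Real.log j ^ A * (Nc B j : ℝ)) := by gcongr
    _ = (B : ℝ) * 2 ^ (B - 1) * Real.log j ^ A * (Nc B j : ℝ) := by ring
    _ ≤ (B : ℝ) * 2 ^ (B - 1) * Real.log p ^ A * (Nc B j : ℝ) := by gcongr

theorem wt_cells (B J0 : ℕ) (A : ℝ) (h : Input B J0 A) (j : ℕ) (hj : J0 ≤ j) (k : ℕ) :
    ∑ p ∈ (Finset.Ioc (j ^ B) ((j + k) ^ B)).filter Nat.Prime, wt B p =
      ((j : ℝ) + k) ^ B - (j : ℝ) ^ B := by
  induction k with
  | zero => simp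
  | succ k ih =>
    rw [Finset.sum_filter] at ih ⊢
    have h1 := Finset.sum_Ioc_consecutive (fun p => if p.Prime then wt B p else 0)
      (show j ^ B ≤ (j + k) ^ B from Nat.pow_le_pow_left (by omega) B)
      (show (j + k) ^ B ≤ (j + k + 1) ^ B from Nat.pow_le_pow_left (by omega) B)
    have h2 := wt_cell B J0 A h (j + k) (by omega)
    rw [Finset.sum_filter] at h2
    rw [show j + (k + 1) = j + k + 1 by ring, ← h1, ih, h2]
    push_cast
    ring

/-- (H1) for the weights -/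
theorem wt_h1 (lam : ℝ) (B J0 : ℕ) (A : ℝ) (h : Input B J0 A) : ∃ C : ℝ, 0 < C ∧ ∀ a b : ℕ,
    J0 ^ B ≤ a → a ≤ b → b ≤ 4 * a →
    ∑ p ∈ (Finset.Ioc a b).filter Nat.Prime, wt B p * uu lam p ≤
      C * (((b : ℝ) - a) + (a : ℝ) ^ (1 - 1 / (B : ℝ))) / Real.log a ^ 2 := by
  have hB2 : 2 ≤ B := h.1
  have hJ3 : 3 ≤ J0 := h.2.1
  have hB : 1 ≤ B := by omega
  set D : ℝ := (B : ℝ) * 2 ^ (B - 1) with hD
  have hDpos : 0 < D := by positivity
  have hD1 : 1 ≤ D := by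
    have h1 : (1 : ℝ) ≤ B := by exact_mod_cast hB
    have h2 : (1 : ℝ) ≤ 2 ^ (B - 1) := one_le_pow₀ (by norm_num)
    nlinarith
  refine ⟨8 * D, by positivity, ?_⟩
  intro a b ha hab hb4
  have ha9 : 9 ≤ a := by
    have h1 : 3 ^ 2 ≤ J0 ^ B := (Nat.pow_le_pow_left hJ3 2).trans (Nat.pow_le_pow_right (by omega) hB2)
    omega
  have haR : (9 : ℝ) ≤ a := by exact_mod_cast ha9
  have hloga : 0 < Real.log a := Real.log_pos (by linarith)
  have habR : (a : ℝ) ≤ b := by exact_mod_cast hab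
  have hpa : 0 < (a : ℝ) ^ (1 - 1 / (B : ℝ)) := Real.rpow_pos_of_pos (by linarith) _
  -- the weight
  have hu : ∀ p ∈ (Finset.Ioc a b).filter Nat.Prime, wt B p * uu lam p ≤ wt B p * (Real.log a ^ 2)⁻¹ := by
    intro p hp
    rw [Finset.mem_filter, Finset.mem_Ioc] at hp
    have hpR : (a : ℝ) < p := by exact_mod_cast hp.1.1
    refine mul_le_mul_of_nonneg_left ?_ (wt_nonneg B p)
    unfold uu
    rw [if_neg (by linarith)]
    have h1 : Real.log a ≤ Real.log p := Real.log_le_log (by linarith) hpR.le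
    gcongr
    linarith
  refine (Finset.sum_le_sum hu).trans ?_
  rw [← Finset.sum_mul, ← div_eq_mul_inv]
  refine div_le_div_of_nonneg_right ?_ (by positivity)
  rcases hab.eq_or_lt with hab' | hab'
  · subst hab'
    simp only [Finset.Ioc_self, Finset.filter_empty, Finset.sum_empty]
    positivity
  -- the cells of `a + 1` and of `b`
  have hj1J : J0 ≤ cl B (a + 1) := J0_le_cl B J0 (a + 1) hB (by omega)
  obtain ⟨h1a, h1b⟩ := cl_spec B (a + 1) hB (by omega)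
  obtain ⟨h2a, h2b⟩ := cl_spec B b hB (by omega)
  set j1 := cl B (a + 1) with hj1
  set j2 := cl B b with hj2
  have h12 : j1 ≤ j2 := by
    by_contra hc
    push Not at hc
    have := Nat.pow_le_pow_left (show j2 + 1 ≤ j1 from hc) B
    omega
  have h5 : ∑ p ∈ (Finset.Ioc a b).filter Nat.Prime, wt B p ≤
      ∑ p ∈ (Finset.Ioc (j1 ^ B) ((j1 + (j2 + 1 - j1)) ^ B)).filter Nat.Prime, wt B p := by
    refine Finset.sum_le_sum_of_subset_of_nonneg ?_ (fun p _ _ => wt_nonneg B p)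
    refine Finset.filter_subset_filter _ (Finset.Ioc_subset_Ioc (by omega) ?_)
    rw [show j1 + (j2 + 1 - j1) = j2 + 1 by omega]
    exact h2b
  refine h5.trans ?_
  rw [wt_cells B J0 A h j1 hj1J]
  have hcast : (j1 : ℝ) + ((j2 + 1 - j1 : ℕ) : ℝ) = (j2 : ℝ) + 1 := by
    rw [Nat.cast_sub (by omega)]
    push_cast
    ring
  rw [hcast]
  have e1 := pow_diff B j1 (by omega)
  have e2 := pow_diff B j2 (by omega)
  rw [← hD] at e1 e2
  have h6 : (j2 : ℝ) ^ B ≤ b := by exact_mod_cast h2a.le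
  have h7 : (a : ℝ) ≤ ((j1 : ℝ) + 1) ^ B := by
    have : a ≤ (j1 + 1) ^ B := by omega
    exact_mod_cast this
  -- the powers `j^(B-1)`
  have hpow : ∀ j : ℕ, 1 ≤ j → (j : ℝ) ^ B ≤ 4 * a → (j : ℝ) ^ (B - 1) ≤ 4 * (a : ℝ) ^ (1 - 1 / (B : ℝ)) := by
    intro j hj hja
    have hBR : (0 : ℝ) < B := by exact_mod_cast (by omega : 0 < B)
    have hB1 : (1 : ℝ) ≤ B := by exact_mod_cast hB
    have hexp : 0 ≤ 1 - 1 / (B : ℝ) := by
      rw [sub_nonneg, div_le_iff₀ hBR]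
      linarith
    have q1 : (j : ℝ) ^ (B - 1) = ((j : ℝ) ^ B) ^ (1 - 1 / (B : ℝ)) := by
      rw [← Real.rpow_natCast (j : ℝ) B, ← Real.rpow_mul (Nat.cast_nonneg j),
        ← Real.rpow_natCast (j : ℝ) (B - 1), Nat.cast_sub hB]
      congr 1
      push_cast
      field_simp
    rw [q1]
    calc ((j : ℝ) ^ B) ^ (1 - 1 / (B : ℝ)) ≤ (4 * (a : ℝ)) ^ (1 - 1 / (B : ℝ)) :=
          Real.rpow_le_rpow (by positivity) hja hexp
      _ = (4 : ℝ) ^ (1 - 1 / (B : ℝ)) * (a : ℝ) ^ (1 - 1 / (B : ℝ)) :=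
          Real.mul_rpow (by norm_num) (by linarith)
      _ ≤ 4 * (a : ℝ) ^ (1 - 1 / (B : ℝ)) := by
          refine mul_le_mul_of_nonneg_right ?_ hpa.le
          calc (4 : ℝ) ^ (1 - 1 / (B : ℝ)) ≤ (4 : ℝ) ^ (1 : ℝ) := by
                refine Real.rpow_le_rpow_of_exponent_le (by norm_num) ?_
                have : 0 ≤ 1 / (B : ℝ) := by positivity
                linarith
            _ = 4 := Real.rpow_one 4
  have hb4R : (b : ℝ) ≤ 4 * a := by exact_mod_cast hb4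
  have q2 := hpow j2 (by omega) (h6.trans hb4R)
  have q1 := hpow j1 (by omega) (by
    have : (j1 : ℝ) ^ B ≤ a := by
      have : j1 ^ B ≤ a := by omega
      exact_mod_cast this
    linarith)
  have q3 : D * (j1 : ℝ) ^ (B - 1) ≤ D * (4 * (a : ℝ) ^ (1 - 1 / (B : ℝ))) := by gcongr
  have q4 : D * (j2 : ℝ) ^ (B - 1) ≤ D * (4 * (a : ℝ) ^ (1 - 1 / (B : ℝ))) := by gcongr
  have q5 : (b : ℝ) - a ≤ 8 * D * ((b : ℝ) - a) := by nlinarith
  nlinarith

end Pool.Agent.H30.WD
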