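import Pool.Agent.H30.WD.Defs

/-! [H30 WD Coef] algebra of the coefficients `cf b` -/

set_option autoImplicit false

namespace Pool.Agent.H30.WD

open ArithmeticFunction

theorem cf_zero (b : ℕ → ℝ) : cf b 0 = 0 := by
  simp [cf]

theorem cf_one (b : ℕ → ℝ) : cf b 1 = 1 := by
  simp [cf]

theorem cf_prime (b : ℕ → ℝ) (p : ℕ) (hp : p.Prime) : cf b p = b p := by
  sorry

theorem cf_mul (b : ℕ → ℝ) (m n : ℕ) (h : Nat.Coprime m n) : cf b (m * n) = cf b m * cf b n := by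
  sorry

theorem cf_primePow (b : ℕ → ℝ) (p k : ℕ) (hp : p.Prime) :
    cf b (p ^ k) = b p ^ k / (k.factorial : ℝ) := by
  sorry

theorem cf_nonneg (b : ℕ → ℝ) (hb : ∀ p, 0 ≤ b p) (n : ℕ) : 0 ≤ cf b n := by
  sorry

theorem cf_abs (b bb : ℕ → ℝ) (h : ∀ p : ℕ, p.Prime → |b p| ≤ bb p) (n : ℕ) :
    |cf b n| ≤ cf bb n := by
  sorry

/-- submultiplicative (no coprimality) -/
theorem cf_mul_le (bb : ℕ → ℝ) (hb : ∀ p, 0 ≤ bb p) (m n : ℕ) :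
    cf bb (m * n) ≤ cf bb m * cf bb n := by
  sorry

theorem cf_scale (b : ℕ → ℝ) (z : ℝ) (n : ℕ) (hn : n ≠ 0) :
    cf (fun p => z * b p) n = z ^ (cardFactors n) * cf b n := by
  sorry

theorem cf_tilt (b : ℕ → ℝ) (θ : ℝ) (n : ℕ) (hn : n ≠ 0) :
    cf (fun p => (p : ℝ) ^ θ * b p) n = (n : ℝ) ^ θ * cf b n := by
  sorry

theorem cf_lip (b b' bb : ℕ → ℝ) (τ : ℝ) (hτ : 0 ≤ τ) (h1 : ∀ p : ℕ, p.Prime → |b p| ≤ bb p)
    (h2 : ∀ p : ℕ, p.Prime → |b' p| ≤ bb p) (h3 : ∀ p : ℕ, p.Prime → |b p - b' p| ≤ τ * bb p)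
    (n : ℕ) : |cf b n - cf b' n| ≤ τ * (cardFactors n : ℝ) * cf bb n := by
  sorry

/-- a coefficient is zero unless all prime factors are in the support -/
theorem cf_supp (b : ℕ → ℝ) (n : ℕ) (h : cf b n ≠ 0) : n ≠ 0 ∧ ∀ p ∈ n.primeFactors, b p ≠ 0 := by
  sorry

end Pool.Agent.H30.WD
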