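import Pool.Agent.H30.WD.Strip
import Pool.Agent.H43.WH.Kb

/-! [H30 WD Decay] degree less than 1: the coefficients decay faster than any power (STEP 9 (b))

PROOF (helper43). `η` smooth with support in `[-1/4,1/4]`, `η(0) = 1`, `η = ψ^(k+1)`; its translate
to `n` has the Mellin transform `kn η n`. `a n = (1/2π) ∫ F(2+iy) kn η n (2+iy) dy`. The part
`|y| <= T` is `O(n^(-k))` because `η = ψ^(k+1)`; the parts `|y| >= T` are shifted to `Re s = -A`:
`|F(-A+iy)| <= C |y|^(d(1/2+A))`, `|kn η n (-A+iy)| <= C n^(-A-1+R) |y|^(-R)`,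
`R <= d(1/2+A) + 2`. No residues, no Gamma function, no additive twist. -/

set_option autoImplicit false

namespace Pool.Agent.H30.WD

open H11.Selberg Complex MeasureTheory

theorem sel_diff {a : ℕ → ℂ} {F : ℂ → ℂ} (h : IsSelberg a F) {s : ℂ} (hs : s ≠ 1) :
    DifferentiableAt ℂ F s := by
  obtain ⟨m, G, hG, -, hGF⟩ := h.continuation
  have h1 : F =ᶠ[nhds s] fun z => G z / (z - 1) ^ m := by
    have h2 : {z : ℂ | z ≠ 1} ∈ nhds s := isOpen_ne.mem_nhds hs
    filter_upwards [h2] with z hz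
    have h3 : (z - 1) ^ m ≠ 0 := pow_ne_zero _ (sub_ne_zero.2 hz)
    rw [hGF z hz]
    field_simp
  refine DifferentiableAt.congr_of_eventuallyEq ?_ h1
  refine (hG s).div (by fun_prop) (pow_ne_zero _ (sub_ne_zero.2 hs))

theorem decay (a : ℕ → ℂ) (F : ℂ → ℂ) (h : IsSelberg a F) (d : ℝ) (hd : HasFE F d) (hd1 : d < 1)
    (k : ℕ) : ∃ C : ℝ, ∀ n : ℕ, 1 ≤ n → ‖a n‖ ≤ C * (n : ℝ) ^ (-(k : ℝ)) := by
  have hd0 : 0 ≤ d := by
    obtain ⟨Q, r, lam, mu, ε, hQ, hlam, hmu, hε, hfe, hdd⟩ := hd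
    rw [hdd]
    have : 0 ≤ ∑ j, lam j := Finset.sum_nonneg fun j _ => (hlam j).le
    linarith
  have hk0 : (0 : ℝ) ≤ k := Nat.cast_nonneg k
  set A : ℝ := (k + 3) / (1 - d) with hAdef
  have hd2 : 0 < 1 - d := by linarith
  have hA : 0 < A := by positivity
  have hA1 : (1 - d) * A = k + 3 := by
    rw [hAdef]
    field_simp
  set E : ℝ := d * (1 / 2 + A) with hEdef
  have hE : 0 ≤ E := by positivity
  set R : ℕ := ⌊E⌋₊ + 2 with hRdef
  have hR1 : E + 1 < R := by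
    have := Nat.lt_floor_add_one E
    rw [hRdef]
    push_cast
    linarith
  have hR2 : (R : ℝ) ≤ E + 2 := by
    have := Nat.floor_le hE
    rw [hRdef]
    push_cast
    linarith
  obtain ⟨c1, C1, T1, hc1, hC1, hT1, hgro⟩ := gro a F h d hd A hA
  obtain ⟨C2, N, T2, hC2, hN, hT2, hstrip⟩ := strip a F h A hA
  obtain ⟨ψ, hψ, hψ1⟩ := H43.WH.exists_bp (k + 1)
  set η := iteratedDeriv (k + 1) ψ with hηdef
  have hη : H43.WH.Bp η := H43.WH.bp_iter hψ (k + 1)
  obtain ⟨B1, hB1, hhi⟩ := H43.WH.kn_hi hη R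
  obtain ⟨B2, hB2, hlo⟩ := H43.WH.kn_lo hψ (k + 1)
  set R' : ℕ := ⌈N⌉₊ + 1 with hR'def
  have hR' : N + 1 ≤ R' := by
    have := Nat.le_ceil N
    rw [hR'def]
    push_cast
    linarith
  obtain ⟨B3, hB3, hhi'⟩ := H43.WH.kn_hi hη R'
  set T : ℝ := max T1 T2 with hTdef
  have hT1T : T1 ≤ T := le_max_left _ _
  have hT2T : T2 ≤ T := le_max_right _ _
  have hT : 1 ≤ T := hT1.trans hT1T
  have hT0 : 0 < T := by linarith
  set K1 : ℝ := (A + 2 + T + 1 + ((k + 1 : ℕ) : ℝ)) ^ (k + 1) * (B2 * 2 ^ (A + k + 4)) with hK1def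
  have hK1 : 0 < K1 := by positivity
  set ε : ℝ := R - 1 - E with hεdef
  have hε : 0 < ε := by
    rw [hεdef]
    linarith
  have ha2 : LSeriesSummable a 2 := h.summable 2 (by norm_num)
  set F2 : ℝ := ∑' m : ℕ, ‖LSeries.term a 2 m‖ with hF2def
  have hF2 : 0 ≤ F2 := tsum_nonneg fun m => norm_nonneg _
  set c0 : ℝ := C1 * (B1 * 2 ^ |-A + R - 1|) with hc0def
  have hc0 : 0 < c0 := by positivity
  set b0 : ℝ := C2 * T ^ N * K1 with hb0def
  have hb0 : 0 < b0 := by positivity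
  refine ⟨2 * T * (F2 * K1) + 2 * ((A + 2) * b0 + c0 / ε), fun n hn => ?_⟩
  have hn1 : (1 : ℝ) ≤ n := by exact_mod_cast hn
  have hn0 : (0 : ℝ) < n := by linarith
  set nk : ℝ := (n : ℝ) ^ (-(k : ℝ)) with hnkdef
  have hnk : 0 < nk := Real.rpow_pos_of_pos hn0 _
  -- low bound
  have hK : ∀ s : ℂ, -A ≤ s.re → s.re ≤ 2 → |s.im| ≤ T → ‖H43.WH.kn η n s‖ ≤ K1 * nk := by
    intro s h1 h2 h3
    refine (hlo n hn s).trans ?_
    have h4 : |s.re| ≤ A + 2 := by
      rw [abs_le]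
      constructor <;> linarith
    have h5 : ‖s‖ ≤ A + 2 + T := (norm_le_abs_re_add_abs_im s).trans (by linarith)
    have h6 : (‖s‖ + 1 + ((k + 1 : ℕ) : ℝ)) ^ (k + 1) ≤ (A + 2 + T + 1 + ((k + 1 : ℕ) : ℝ)) ^ (k + 1) :=
      pow_le_pow_left₀ (by positivity) (by linarith) _
    have h7 : (2 : ℝ) ^ |s.re - ((k + 1 : ℕ) : ℝ) - 1| ≤ 2 ^ (A + k + 4) := by
      refine Real.rpow_le_rpow_of_exponent_le (by norm_num) ?_
      rw [abs_le]
      push_cast
      constructor <;> linarith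
    have h8 : (n : ℝ) ^ (s.re - ((k + 1 : ℕ) : ℝ) - 1) ≤ nk := by
      refine Real.rpow_le_rpow_of_exponent_le hn1 ?_
      push_cast
      linarith
    calc (‖s‖ + 1 + ((k + 1 : ℕ) : ℝ)) ^ (k + 1) *
          (B2 * (2 ^ |s.re - ((k + 1 : ℕ) : ℝ) - 1| * (n : ℝ) ^ (s.re - ((k + 1 : ℕ) : ℝ) - 1)))
        ≤ (A + 2 + T + 1 + ((k + 1 : ℕ) : ℝ)) ^ (k + 1) * (B2 * (2 ^ (A + k + 4) * nk)) := by
          gcongr
      _ = K1 * nk := by rw [hK1def]; ring
  set Ψ : ℂ → ℂ := fun s => F s * H43.WH.kn η n s with hΨdef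
  have hΨd : ∀ s : ℂ, s ≠ 1 → DifferentiableAt ℂ Ψ s := fun s hs =>
    (sel_diff h hs).mul (H43.WH.kn_diff hη hn s)
  have hΨim : ∀ s : ℂ, s.im ≠ 0 → DifferentiableAt ℂ Ψ s := by
    intro s hs
    refine hΨd s fun h1 => hs ?_
    rw [h1]
    simp
  -- the two sides
  set Dn : ℝ := C2 * (B3 * (2 ^ (A + R' + 3) * (n : ℝ) ^ ((R' : ℝ) + 1))) with hDndef
  have hDn : 0 < Dn := by positivity
  have hside : ∀ σ : ℝ, (σ = 1 ∨ σ = -1) → ∀ H : ℝ, T ≤ H →
      ‖∫ y in (σ * T)..(σ * H), Ψ (2 + y * I)‖ ≤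
        (A + 2) * (b0 * nk + Dn * H⁻¹) + (c0 * nk) / ε := by
    intro σ hσ H hH
    have hσa : |σ| = 1 := by rcases hσ with rfl | rfl <;> simp
    have hH1 : 1 ≤ H := hT.trans hH
    have hH0 : 0 < H := by linarith
    have him : ∀ x y : ℝ, 0 ≤ y → |((x : ℂ) + ((σ * y : ℝ) : ℂ) * I).im| = y := by
      intro x y hy
      have : ((x : ℂ) + ((σ * y : ℝ) : ℂ) * I).im = σ * y := by simp
      rw [this, abs_mul, hσa, one_mul, abs_of_nonneg hy]
    have hre : ∀ x y : ℝ, ((x : ℂ) + ((σ * y : ℝ) : ℂ) * I).re = x := by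
      intro x y
      simp
    refine H43.WH.side Ψ hΨim A T H σ ε (b0 * nk) (Dn * H⁻¹) (c0 * nk) hA hT hH hσ hε
      (by positivity) ?_ ?_ ?_
    · intro x hx1 hx2
      have e1 := hstrip ((x : ℂ) + ((σ * T : ℝ) : ℂ) * I) (by rw [hre]; exact hx1)
        (by rw [hre]; exact hx2) (by rw [him x T hT0.le]; exact hT2T)
      have e2 := hK ((x : ℂ) + ((σ * T : ℝ) : ℂ) * I) (by rw [hre]; exact hx1)
        (by rw [hre]; exact hx2) (by rw [him x T hT0.le])
      rw [him x T hT0.le] at e1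
      simp only [hΨdef]
      rw [norm_mul]
      calc _ ≤ C2 * T ^ N * (K1 * nk) := mul_le_mul e1 e2 (norm_nonneg _) (by positivity)
        _ = b0 * nk := by rw [hb0def]; ring
    · intro x hx1 hx2
      have e1 := hstrip ((x : ℂ) + ((σ * H : ℝ) : ℂ) * I) (by rw [hre]; exact hx1)
        (by rw [hre]; exact hx2) (by rw [him x H hH0.le]; linarith)
      have e2 := hhi' n hn ((x : ℂ) + ((σ * H : ℝ) : ℂ) * I) (by rw [him x H hH0.le]; exact hH1)
      rw [him x H hH0.le] at e1 e2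
      rw [hre] at e2
      have e3 : (2 : ℝ) ^ |x + R' - 1| ≤ 2 ^ (A + R' + 3) := by
        refine Real.rpow_le_rpow_of_exponent_le (by norm_num) ?_
        have : (0 : ℝ) ≤ R' := Nat.cast_nonneg _
        rw [abs_le]
        constructor <;> linarith
      have e4 : (n : ℝ) ^ (x + R' - 1) ≤ (n : ℝ) ^ ((R' : ℝ) + 1) :=
        Real.rpow_le_rpow_of_exponent_le hn1 (by linarith)
      have e5 : H ^ N * H ^ (-(R' : ℝ)) ≤ H⁻¹ := by
        rw [← Real.rpow_add hH0, ← Real.rpow_neg_one]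
        exact Real.rpow_le_rpow_of_exponent_le hH1 (by linarith)
      simp only [hΨdef]
      rw [norm_mul]
      calc ‖F (x + ((σ * H : ℝ) : ℂ) * I)‖ * ‖H43.WH.kn η n (x + ((σ * H : ℝ) : ℂ) * I)‖
          ≤ C2 * H ^ N * (B3 * (2 ^ |x + R' - 1| * (n : ℝ) ^ (x + R' - 1)) * H ^ (-(R' : ℝ))) :=
            mul_le_mul e1 e2 (norm_nonneg _) (by positivity)
        _ ≤ C2 * H ^ N * (B3 * (2 ^ (A + R' + 3) * (n : ℝ) ^ ((R' : ℝ) + 1)) * H ^ (-(R' : ℝ))) := by
            gcongr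
        _ = Dn * (H ^ N * H ^ (-(R' : ℝ))) := by rw [hDndef]; ring
        _ ≤ Dn * H⁻¹ := by gcongr
    · intro y hy
      have hy1 : 1 ≤ y := hT.trans hy
      have hy0 : 0 < y := by linarith
      have hform : (-(A : ℂ) + ((σ * y : ℝ) : ℂ) * I) = (((-A : ℝ) : ℂ) + ((σ * y : ℝ) : ℂ) * I) := by
        push_cast
        ring
      have e1 := (hgro (σ * y) (by
        rw [abs_mul, hσa, one_mul, abs_of_pos hy0]
        linarith)).2
      rw [abs_mul, hσa, one_mul, abs_of_pos hy0] at e1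
      have e2 := hhi n hn (((-A : ℝ) : ℂ) + ((σ * y : ℝ) : ℂ) * I) (by
        rw [him (-A) y hy0.le]
        exact hy1)
      rw [him (-A) y hy0.le, hre] at e2
      have e4 : (n : ℝ) ^ (-A + R - 1) ≤ nk := by
        refine Real.rpow_le_rpow_of_exponent_le hn1 ?_
        nlinarith
      have e5 : y ^ E * y ^ (-(R : ℝ)) = y ^ (-1 - ε) := by
        rw [← Real.rpow_add hy0]
        congr 1
        rw [hεdef]
        ring
      simp only [hΨdef]
      rw [norm_mul]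
      rw [← hform] at e2
      calc ‖F (-(A : ℂ) + ((σ * y : ℝ) : ℂ) * I)‖ * ‖H43.WH.kn η n (-(A : ℂ) + ((σ * y : ℝ) : ℂ) * I)‖
          ≤ C1 * y ^ E * (B1 * (2 ^ |-A + R - 1| * (n : ℝ) ^ (-A + R - 1)) * y ^ (-(R : ℝ))) :=
            mul_le_mul e1 e2 (norm_nonneg _) (by positivity)
        _ ≤ C1 * y ^ E * (B1 * (2 ^ |-A + R - 1| * nk) * y ^ (-(R : ℝ))) := by gcongr
        _ = c0 * nk * (y ^ E * y ^ (-(R : ℝ))) := by rw [hc0def]; ring
        _ = c0 * nk * y ^ (-1 - ε) := by rw [e5]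
  -- the line `Re s = 2`
  have h21 : ∀ y : ℝ, (2 + y * I : ℂ) ≠ 1 := by
    intro y hy
    have := congrArg Complex.re hy
    norm_num at this
  have hΨc : Continuous fun y : ℝ => Ψ (2 + y * I) := by
    rw [continuous_iff_continuousAt]
    intro y
    exact ContinuousAt.comp (f := fun y : ℝ => (2 + y * I : ℂ)) (hΨd _ (h21 y)).continuousAt
      (by fun_prop)
  have hF2b : ∀ y : ℝ, ‖F (2 + y * I)‖ ≤ F2 := by
    intro y
    have h1 : 1 < (2 + y * I : ℂ).re := by simp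
    rw [h.eq_LSeries _ h1]
    unfold LSeries
    have h2 : ∀ m : ℕ, ‖LSeries.term a (2 + y * I) m‖ = ‖LSeries.term a 2 m‖ := by
      intro m
      rw [LSeries.norm_term_eq, LSeries.norm_term_eq]
      simp
    have h3 : Summable fun m : ℕ => ‖LSeries.term a (2 + y * I) m‖ := by
      simp only [h2]
      exact ha2.norm
    refine (norm_tsum_le_tsum_norm h3).trans (le_of_eq ?_)
    simp only [h2]
    rfl
  have hΨi : Integrable fun y : ℝ => Ψ (2 + y * I) := by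
    have hFc : Continuous fun y : ℝ => F (2 + y * I) := by
      rw [continuous_iff_continuousAt]
      intro y
      exact ContinuousAt.comp (f := fun y : ℝ => (2 + y * I : ℂ)) (sel_diff h (h21 y)).continuousAt
        (by fun_prop)
    exact (H43.WH.kn_int hη hn).bdd_mul hFc.aestronglyMeasurable (c := F2)
      (Filter.Eventually.of_forall hF2b)
  have hrepr : a n = (1 / (2 * Real.pi) : ℝ) * ∫ y : ℝ, Ψ (2 + y * I) := by
    rw [H43.WH.repr hη hψ1 hn a ha2]
    congr 1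
    congr 1
    funext y
    simp only [hΨdef]
    rw [h.eq_LSeries _ (by simp)]
  -- truncated integrals
  have htr : ∀ H : ℝ, T ≤ H → ‖∫ y in (-H)..H, Ψ (2 + y * I)‖ ≤
      2 * T * (F2 * K1 * nk) + 2 * ((A + 2) * (b0 * nk + Dn * H⁻¹) + (c0 * nk) / ε) := by
    intro H hH
    have hi : ∀ u v : ℝ, IntervalIntegrable (fun y : ℝ => Ψ (2 + y * I)) volume u v := fun u v =>
      hΨc.intervalIntegrable u v
    have h1 : ∫ y in (-H)..H, Ψ (2 + y * I) = (∫ y in (-H)..(-T), Ψ (2 + y * I)) +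
        (∫ y in (-T)..T, Ψ (2 + y * I)) + ∫ y in T..H, Ψ (2 + y * I) := by
      rw [intervalIntegral.integral_add_adjacent_intervals (hi _ _) (hi _ _),
        intervalIntegral.integral_add_adjacent_intervals (hi _ _) (hi _ _)]
    have h2 := hside 1 (Or.inl rfl) H hH
    rw [one_mul, one_mul] at h2
    have h3 := hside (-1) (Or.inr rfl) H hH
    rw [show (-1 : ℝ) * T = -T by ring, show (-1 : ℝ) * H = -H by ring,
      intervalIntegral.integral_symm, norm_neg] at h3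
    have h4 : ‖∫ y in (-T)..T, Ψ (2 + y * I)‖ ≤ (F2 * K1 * nk) * |T - -T| := by
      refine intervalIntegral.norm_integral_le_of_norm_le_const fun y hy => ?_
      rw [Set.uIoc_of_le (by linarith)] at hy
      simp only [hΨdef]
      rw [norm_mul]
      have e2 := hK (2 + y * I) (by simp; linarith) (by simp) (by
        simp only [add_im, mul_im, ofReal_re, I_im, ofReal_im, I_re]
        norm_num
        rw [abs_le]
        exact ⟨hy.1.le, hy.2⟩)
      calc _ ≤ F2 * (K1 * nk) := mul_le_mul (hF2b y) e2 (norm_nonneg _) hF2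
        _ = F2 * K1 * nk := by ring
    have h5 : |T - -T| = 2 * T := by
      rw [abs_of_pos (by linarith)]
      ring
    rw [h5] at h4
    rw [h1]
    refine (norm_add₃_le).trans ?_
    linarith
  have hlim1 : Filter.Tendsto (fun H : ℝ => ‖∫ y in (-H)..H, Ψ (2 + y * I)‖) Filter.atTop
      (nhds ‖∫ y : ℝ, Ψ (2 + y * I)‖) :=
    (intervalIntegral_tendsto_integral hΨi Filter.tendsto_neg_atTop_atBot Filter.tendsto_id).norm
  have hlim2 : Filter.Tendsto (fun H : ℝ => 2 * T * (F2 * K1 * nk) +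
      2 * ((A + 2) * (b0 * nk + Dn * H⁻¹) + (c0 * nk) / ε)) Filter.atTop
      (nhds (2 * T * (F2 * K1 * nk) + 2 * ((A + 2) * (b0 * nk + Dn * 0) + (c0 * nk) / ε))) := by
    have h1 := tendsto_inv_atTop_zero (𝕜 := ℝ)
    exact (((((h1.const_mul Dn).const_add (b0 * nk)).const_mul (A + 2)).add_const _).const_mul
      2).const_add _
  have hfin := le_of_tendsto_of_tendsto hlim1 hlim2 (by
    filter_upwards [Filter.eventually_ge_atTop T] with H hH
    exact htr H hH)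
  rw [hrepr, norm_mul, norm_real, Real.norm_eq_abs, abs_of_pos (by positivity)]
  have hpi : 1 / (2 * Real.pi) ≤ 1 := by
    rw [div_le_one (by positivity)]
    linarith [Real.pi_gt_three]
  calc 1 / (2 * Real.pi) * ‖∫ y : ℝ, Ψ (2 + y * I)‖ ≤ 1 * ‖∫ y : ℝ, Ψ (2 + y * I)‖ := by gcongr
    _ ≤ 2 * T * (F2 * K1 * nk) + 2 * ((A + 2) * (b0 * nk + Dn * 0) + (c0 * nk) / ε) := by
        rw [one_mul]
        exact hfin
    _ = (2 * T * (F2 * K1) + 2 * ((A + 2) * b0 + c0 / ε)) * nk := by ring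

end Pool.Agent.H30.WD
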