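import Pool.Agent.H30.WD.Decay
import Pool.Agent.H81.WFa.Ent
import Pool.Agent.H97.WD.Dz5

/-! [H30 WD DegLow] an element of degree less than 1 is the constant 1 -/

set_option autoImplicit false

namespace Pool.Agent.H30.WD

open H11.Selberg Complex

theorem deg_pos (a : ℕ → ℂ) (F : ℂ → ℂ) (h : IsSelberg a F) (d : ℝ) (hd : HasFE F d)
    (hd0 : 0 < d) : 1 ≤ d := by
  by_contra hcon
  push Not at hcon
  obtain ⟨c, C, T, hc, -, -, hg⟩ := gro a F h d hd 1 one_pos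
  exact Pool.Agent.H81.WFa.no_growth h (decay a F h d hd hcon) (e := d * (1 / 2 + 1)) (T := T) hc (by positivity) fun t ht => (hg t ht).1

theorem deg_zero (a : ℕ → ℂ) (F : ℂ → ℂ) (h : IsSelberg a F) (hd : HasFE F 0) (s : ℂ)
    (hs : 1 < s.re) : F s = 1 :=
  Pool.Agent.H97.WD.deg_zero' a F h (decay a F h 0 hd one_pos) hd s hs

theorem deg_ge_one (a : ℕ → ℂ) (F : ℂ → ℂ) (h : IsSelberg a F) (d : ℝ) (hd0 : 0 ≤ d)
    (hd : HasFE F d) (hF : ∃ s : ℂ, 1 < s.re ∧ F s ≠ 1) : 1 ≤ d := by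
  rcases hd0.eq_or_lt with h0 | h0
  · obtain ⟨s, hs, hne⟩ := hF
    exact absurd (deg_zero a F h (by rwa [← h0] at hd) s hs) hne
  · exact deg_pos a F h d hd h0

end Pool.Agent.H30.WD
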