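import Pool.Agent.H30.WD.WildDef
import Pool.Agent.H30.WD.Exp
import Pool.Agent.H11.Selberg.Defs

/-! [H30 WD Dir] STEP 8, first half: Ramanujan bound, absolute convergence, Euler product -/

set_option autoImplicit false

namespace Pool.Agent.H30.WD

/-- the coefficients as complex numbers -/
noncomputable def ca (b : ℕ → ℝ) (n : ℕ) : ℂ := ((cf b n : ℝ) : ℂ)

theorem ram (lam Q : ℝ) (b : ℕ → ℝ) (A : ℝ) (h : Wild lam Q b A) (ε : ℝ) (hε : 0 < ε) :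
    ∃ C : ℝ, ∀ n : ℕ, 1 ≤ n → |cf b n| ≤ C * (n : ℝ) ^ ε := by
  sorry

/-- absolute convergence on `Re s ≥ 1` -/
theorem abs_one (lam Q : ℝ) (b : ℕ → ℝ) (A : ℝ) (h : Wild lam Q b A) (s : ℂ) (hs : 1 ≤ s.re) :
    LSeriesSummable (ca b) s := by
  sorry

/-- the Euler product in the form of `IsSelberg` -/
theorem euler (lam Q : ℝ) (b : ℕ → ℝ) (A : ℝ) (h : Wild lam Q b A) :
    ∃ (bb : ℕ → ℂ) (θ C : ℝ), θ < 1 / 2 ∧
    (∀ p : ℕ, p.Prime → ∀ l : ℕ, 1 ≤ l → ‖bb (p ^ l)‖ ≤ C * ((p : ℝ) ^ l) ^ θ) ∧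
    ∀ s : ℂ, 1 < s.re → HasProd
      (fun p : Nat.Primes => Complex.exp (∑' l : ℕ, bb ((p : ℕ) ^ (l + 1)) *
        ((p : ℕ) : ℂ) ^ (-((l : ℂ) + 1) * s))) (LSeries (ca b) s) := by
  sorry

end Pool.Agent.H30.WD
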