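import Pool.Agent.H30.WD.DegLow

/-! [H30 WD Fac] factorisation into primitive elements and the Cauchy-Schwarz argument -/

set_option autoImplicit false

namespace Pool.Agent.H30.WD

open H11.Selberg Complex

/-- the element is not the constant `1` -/
private def NonOne (Φ : ℂ → ℂ) : Prop := ∃ s : ℂ, 1 < s.re ∧ Φ s ≠ 1

/-- a factorisation with `k` factors different from `1` -/
private def HasFac (F : ℂ → ℂ) (k : ℕ) : Prop :=
  ∃ (f : Fin k → ℕ → ℂ) (Φ : Fin k → ℂ → ℂ), (∀ i, IsSelberg (f i) (Φ i)) ∧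
    (∀ i, NonOne (Φ i)) ∧ ∀ s : ℂ, 1 < s.re → F s = ∏ i, Φ i s

private lemma hasFac_one (a : ℕ → ℂ) (F : ℂ → ℂ) (h : IsSelberg a F) (hF : NonOne F) :
    HasFac F 1 := by
  refine ⟨fun _ => a, fun _ => F, fun _ => h, fun _ => hF, fun s _ => ?_⟩
  simp

private lemma hasFac_le (a : ℕ → ℂ) (F : ℂ → ℂ) (h : IsSelberg a F) : ∃ N : ℕ, ∀ k, HasFac F k → k ≤ N := by
  obtain ⟨d, -, hd⟩ := exists_HasFE a F h
  refine ⟨⌊d⌋₊, fun k hk => ?_⟩
  obtain ⟨f, Φ, hf, hne, hprod⟩ := hk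
  choose e he0 he using fun i => exists_HasFE (f i) (Φ i) (hf i)
  have h1 : ∀ i, 1 ≤ e i := fun i => deg_ge_one (f i) (Φ i) (hf i) (e i) (he0 i) (he i) (hne i)
  have h2 := deg_add k a F h f Φ hf hprod d hd e he
  refine Nat.le_floor ?_
  rw [h2]
  calc (k : ℝ) = ∑ _i : Fin k, (1 : ℝ) := by simp
    _ ≤ ∑ i, e i := Finset.sum_le_sum fun i _ => h1 i

private lemma hasFac_succ (F : ℂ → ℂ) (k : ℕ) (f : Fin k → ℕ → ℂ) (Φ : Fin k → ℂ → ℂ)
    (hf : ∀ i, IsSelberg (f i) (Φ i)) (hne : ∀ i, NonOne (Φ i))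
    (hprod : ∀ s : ℂ, 1 < s.re → F s = ∏ i, Φ i s) (i : Fin k) (a1 a2 : ℕ → ℂ) (F1 F2 : ℂ → ℂ)
    (h1 : IsSelberg a1 F1) (h2 : IsSelberg a2 F2) (h12 : ∀ s : ℂ, 1 < s.re → Φ i s = F1 s * F2 s)
    (n1 : NonOne F1) (n2 : NonOne F2) : HasFac F (k + 1) := by
  refine ⟨Fin.cons a1 (Function.update f i a2), Fin.cons F1 (Function.update Φ i F2), ?_, ?_, ?_⟩
  · intro j
    refine Fin.cases ?_ (fun j => ?_) j
    · simpa only [Fin.cons_zero] using h1
    · simp only [Fin.cons_succ]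
      by_cases hj : j = i
      · subst hj
        simpa only [Function.update_self] using h2
      · simpa only [Function.update_of_ne hj] using hf j
  · intro j
    refine Fin.cases ?_ (fun j => ?_) j
    · simpa only [Fin.cons_zero] using n1
    · simp only [Fin.cons_succ]
      by_cases hj : j = i
      · subst hj
        simpa only [Function.update_self] using n2
      · simpa only [Function.update_of_ne hj] using hne j
  · intro s hs
    rw [hprod s hs, Fin.prod_univ_succ]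
    simp only [Fin.cons_zero, Fin.cons_succ]
    have e1 : ∏ j, (Function.update Φ i F2) j s = F2 s * ∏ j ∈ Finset.univ \ {i}, Φ j s := by
      have := Finset.prod_update_of_mem (Finset.mem_univ i) (fun j => Φ j s) (F2 s)
      rw [← this]
      refine Finset.prod_congr rfl fun j _ => ?_
      by_cases hj : j = i
      · subst hj
        simp
      · rw [Function.update_of_ne hj, Function.update_of_ne hj]
    rw [e1, ← mul_assoc, ← h12 s hs,
      Finset.prod_eq_mul_prod_sdiff_singleton_of_mem (Finset.mem_univ i) (fun j => Φ j s)]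

theorem fac (a : ℕ → ℂ) (F : ℂ → ℂ) (h : IsSelberg a F) (hF : ∃ s : ℂ, 1 < s.re ∧ F s ≠ 1) :
    ∃ (k : ℕ) (f : Fin k → ℕ → ℂ) (Φ : Fin k → ℂ → ℂ), 1 ≤ k ∧ (∀ i, IsPrimitive (f i) (Φ i)) ∧
      ∀ s : ℂ, 1 < s.re → F s = ∏ i, Φ i s := by
  classical
  obtain ⟨N, hN⟩ := hasFac_le a F h
  have h1 := hasFac_one a F h hF
  have h1N := hN 1 h1
  have hmax := Nat.findGreatest_spec (P := HasFac F) h1N h1
  have hge : 1 ≤ Nat.findGreatest (HasFac F) N := Nat.le_findGreatest h1N h1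
  have hnot : ¬ HasFac F (Nat.findGreatest (HasFac F) N + 1) := by
    intro hc
    have := Nat.le_findGreatest (hN _ hc) hc
    omega
  generalize Nat.findGreatest (HasFac F) N = k at hmax hge hnot
  obtain ⟨f, Φ, hf, hne, hprod⟩ := hmax
  refine ⟨k, f, Φ, hge, fun i => ⟨hf i, hne i, ?_⟩, hprod⟩
  intro a1 a2 F1 F2 g1 g2 h12
  by_contra hcon
  push Not at hcon
  obtain ⟨n1, n2⟩ := hcon
  exact hnot (hasFac_succ F k f Φ hf hne hprod i a1 a2 F1 F2 g1 g2 h12 n1 n2)

private lemma abs_lt_top (c : ℕ → ℂ) (hc : ∀ s : ℂ, 1 < s.re → LSeriesSummable c s) :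
    LSeries.abscissaOfAbsConv c < ⊤ := by
  have h := (hc 2 (by norm_num)).abscissaOfAbsConv_le
  refine lt_of_le_of_lt h ?_
  exact EReal.coe_lt_top _

private lemma eq_of_series (c c' : ℕ → ℂ) (hc : ∀ s : ℂ, 1 < s.re → LSeriesSummable c s)
    (hc' : ∀ s : ℂ, 1 < s.re → LSeriesSummable c' s)
    (h : ∀ s : ℂ, 1 < s.re → LSeries c s = LSeries c' s) (n : ℕ) (hn : n ≠ 0) : c n = c' n := by
  refine LSeries.eq_of_LSeries_eventually_eq (abs_lt_top c hc) (abs_lt_top c' hc') ?_ hn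
  filter_upwards [Filter.eventually_gt_atTop (1 : ℝ)] with x hx
  exact h x (by simpa using hx)

private lemma prod_series (k : ℕ) : ∀ (f : Fin k → ℕ → ℂ),
    (∀ i, f i 1 = 1) → (∀ i, ∀ s : ℂ, 1 < s.re → LSeriesSummable (f i) s) →
    ∃ g : ℕ → ℂ, g 1 = 1 ∧ (∀ s : ℂ, 1 < s.re → LSeriesSummable g s) ∧
      (∀ s : ℂ, 1 < s.re → LSeries g s = ∏ i, LSeries (f i) s) ∧
      ∀ p : ℕ, p.Prime → g p = ∑ i, f i p := by
  induction k with
  | zero =>
    intro f _ _
    refine ⟨LSeries.delta, ?_, ?_, ?_, ?_⟩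
    · simp [LSeries.delta]
    · intro s hs
      have e : LSeries.term LSeries.delta s = fun n => if n = 1 then 1 else 0 :=
        funext fun n => LSeries.term_delta s n
      rw [LSeriesSummable, e]
      exact (hasSum_ite_eq 1 (1 : ℂ)).summable
    · intro s hs
      rw [LSeries_delta]
      simp
    · intro p hp
      simp [LSeries.delta, hp.ne_one]
  | succ k ih =>
    intro f h1 hs
    obtain ⟨g, g1, gs, gp, gq⟩ := ih (fun i => f i.succ) (fun i => h1 _) (fun i => hs _)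
    refine ⟨LSeries.convolution (f 0) g, ?_, ?_, ?_, ?_⟩
    · rw [LSeries.convolution_def]
      simp [h1 0, g1]
    · intro s h
      exact (hs 0 s h).convolution (gs s h)
    · intro s h
      rw [LSeries_convolution' (hs 0 s h) (gs s h), gp s h, Fin.prod_univ_succ]
    · intro p hp
      rw [LSeries.convolution_def]
      have e : ∑ q ∈ p.divisorsAntidiagonal, f 0 q.1 * g q.2 = ∑ i ∈ p.divisors, f 0 i * g (p / i) :=
        Nat.sum_divisorsAntidiagonal (fun i j => f 0 i * g j)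
      show ∑ q ∈ p.divisorsAntidiagonal, f 0 q.1 * g q.2 = _
      rw [e, hp.divisors, Finset.sum_pair hp.one_lt.ne, Nat.div_one, Nat.div_self hp.pos,
        Fin.sum_univ_succ, gq p hp, h1 0, g1]
      ring

/-- coefficients at primes add -/
theorem fac_coeff (a : ℕ → ℂ) (F : ℂ → ℂ) (h : IsSelberg a F) (k : ℕ) (f : Fin k → ℕ → ℂ)
    (Φ : Fin k → ℂ → ℂ) (hf : ∀ i, IsSelberg (f i) (Φ i))
    (hprod : ∀ s : ℂ, 1 < s.re → F s = ∏ i, Φ i s) (p : ℕ) (hp : p.Prime) : a p = ∑ i, f i p := by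
  obtain ⟨g, -, gs, gp, gq⟩ := prod_series k f (fun i => (hf i).one) (fun i => (hf i).summable)
  rw [← gq p hp]
  refine eq_of_series a g h.summable gs (fun s hs => ?_) p hp.ne_zero
  rw [← h.eq_LSeries s hs, hprod s hs, gp s hs]
  exact Finset.prod_congr rfl fun i _ => (hf i).eq_LSeries s hs

private lemma sum_sq_le (k : ℕ) (z : Fin k → ℂ) : ‖∑ i, z i‖ ^ 2 ≤ k * ∑ i, ‖z i‖ ^ 2 := by
  have h1 : ‖∑ i, z i‖ ≤ ∑ i, ‖z i‖ := norm_sum_le _ _
  have h2 : (∑ i, ‖z i‖) ^ 2 ≤ (Finset.univ : Finset (Fin k)).card * ∑ i, ‖z i‖ ^ 2 :=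
    sq_sum_le_card_mul_sum_sq
  rw [Finset.card_univ, Fintype.card_fin] at h2
  refine le_trans ?_ h2
  gcongr

/-- `S_F ≤ k ∑ S_(f_i)` -/
private lemma s_le (a : ℕ → ℂ) (k : ℕ) (f : Fin k → ℕ → ℂ)
    (hc : ∀ p : ℕ, p.Prime → a p = ∑ i, f i p) (x : ℝ) : S a x ≤ k * ∑ i, S (f i) x := by
  unfold S
  rw [Finset.sum_comm, Finset.mul_sum]
  refine Finset.sum_le_sum fun p hp => ?_
  rw [Finset.mem_filter] at hp
  rw [hc p hp.2, ← Finset.sum_div, ← mul_div_assoc]
  gcongr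
  exact sum_sq_le k _

/-- an element with `S_F` larger than every multiple of `log log x` has a primitive factor which
violates the conjecture -/
theorem bad (a : ℕ → ℂ) (F : ℂ → ℂ) (h : IsSelberg a F)
    (hS : ∀ K : ℝ, ∃ x : ℝ, 3 ≤ x ∧ K * (1 + Real.log (Real.log x)) < S a x) :
    ∃ (a' : ℕ → ℂ) (F' : ℂ → ℂ), IsPrimitive a' F' ∧
      ¬ ∃ C : ℝ, ∀ x : ℝ, 2 ≤ x → |S a' x - Real.log (Real.log x)| ≤ C := by
  have hF : ∃ s : ℂ, 1 < s.re ∧ F s ≠ 1 := by
    by_contra hcon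
    push Not at hcon
    obtain ⟨x, -, hx⟩ := hS 0
    rw [zero_mul] at hx
    have hz : ∀ p : ℕ, p.Prime → a p = 0 := by
      intro p hp
      have := fac_coeff a F h 0 (fun i => i.elim0) (fun i => i.elim0) (fun i => i.elim0)
        (fun s hs => by rw [hcon s hs]; simp) p hp
      simpa using this
    have : S a x = 0 := by
      unfold S
      refine Finset.sum_eq_zero fun p hp => ?_
      rw [hz p (Finset.mem_filter.1 hp).2]
      simp
    linarith
  obtain ⟨k, f, Φ, hk, hprim, hprod⟩ := fac a F h hF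
  by_contra hcon
  push Not at hcon
  choose C hC using fun i => hcon (f i) (Φ i) (hprim i)
  obtain ⟨x, hx3, hx⟩ := hS ((k : ℝ) ^ 2 + k * ∑ i, |C i|)
  have hc := fac_coeff a F h k f Φ (fun i => (hprim i).1) hprod
  have h1 := s_le a k f hc x
  have hll : 0 ≤ Real.log (Real.log x) := by
    apply Real.log_nonneg
    have h3 : Real.exp 1 < 3 := by
      have := Real.exp_one_lt_d9
      linarith
    rw [Real.le_log_iff_exp_le (by linarith)]
    linarith
  have h2 : ∑ i, S (f i) x ≤ k * Real.log (Real.log x) + ∑ i, |C i| := by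
    calc ∑ i, S (f i) x ≤ ∑ i, (Real.log (Real.log x) + |C i|) := by
          refine Finset.sum_le_sum fun i _ => ?_
          have := hC i x (by linarith)
          have h4 := (abs_le.1 this).2
          have h5 := le_abs_self (C i)
          linarith
      _ = _ := by
          rw [Finset.sum_add_distrib]
          simp
  have hk0 : (0 : ℝ) ≤ k := Nat.cast_nonneg k
  have hsC : 0 ≤ ∑ i, |C i| := Finset.sum_nonneg fun i _ => abs_nonneg _
  have h3 : (k : ℝ) * ∑ i, S (f i) x ≤ k * (k * Real.log (Real.log x) + ∑ i, |C i|) := by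
    gcongr
  have h6 : 0 ≤ (k : ℝ) ^ 2 := by positivity
  have h7 : 0 ≤ (k : ℝ) * ∑ i, |C i| := by positivity
  nlinarith [mul_nonneg h7 hll]

end Pool.Agent.H30.WD
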