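import Pool.Agent.H30.WD.FaDef

/-! [H30 WD FeExt] the functional equation for all `s` with `|Im s|` large -/

set_option autoImplicit false

namespace Pool.Agent.H30.WD

open H11.Selberg

private noncomputable def hh {r : ℕ} (lam : Fin r → ℝ) (mu : Fin r → ℂ) : ℝ := ∑ j, ‖mu j‖ / lam j

private theorem hh_nonneg {r : ℕ} {lam : Fin r → ℝ} {mu : Fin r → ℂ} (hl : ∀ j, 0 < lam j) :
    0 ≤ hh lam mu :=
  Finset.sum_nonneg (fun j _ => div_nonneg (norm_nonneg _) (hl j).le)

private theorem hh_im {r : ℕ} {lam : Fin r → ℝ} {mu : Fin r → ℂ} (hl : ∀ j, 0 < lam j) {s : ℂ}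
    (hs : hh lam mu < |s.im|) (j : Fin r) : ((lam j : ℂ) * s + mu j).im ≠ 0 := by
  have h1 : ‖mu j‖ / lam j ≤ hh lam mu :=
    Finset.single_le_sum (f := fun j => ‖mu j‖ / lam j)
      (fun j _ => div_nonneg (norm_nonneg _) (hl j).le) (Finset.mem_univ j)
  have h2 : ‖mu j‖ < lam j * |s.im| := by
    have h3 : ‖mu j‖ / lam j < |s.im| := lt_of_le_of_lt h1 hs
    rw [div_lt_iff₀ (hl j)] at h3
    linarith
  have h4 : |(mu j).im| ≤ ‖mu j‖ := Complex.abs_im_le_norm _
  intro h0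
  rw [Complex.add_im, Complex.im_ofReal_mul] at h0
  have h5 : (mu j).im = -(lam j * s.im) := by linarith
  rw [h5, abs_neg, abs_mul, abs_of_pos (hl j)] at h4
  linarith

private theorem ne_neg {z : ℂ} (hz : z.im ≠ 0) (m : ℕ) : z ≠ -m := by
  intro h
  rw [h] at hz
  simp at hz

private theorem f_diff {a : ℕ → ℂ} {F : ℂ → ℂ} (h : IsSelberg a F) {s : ℂ} (hs : s.im ≠ 0) :
    DifferentiableAt ℂ F s := by
  obtain ⟨m, G, hG, -, hF⟩ := h.continuation
  have hs1 : s ≠ 1 := by
    rintro rfl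
    simp at hs
  have h1 : F =ᶠ[nhds s] fun z => G z / (z - 1) ^ m := by
    filter_upwards [isOpen_ne.mem_nhds hs1] with z hz
    rw [hF z hz]
    have : (z - 1) ^ m ≠ 0 := pow_ne_zero _ (sub_ne_zero.2 hz)
    field_simp
  refine DifferentiableAt.congr_of_eventuallyEq ?_ h1
  refine DifferentiableAt.div (hG s) ?_ (pow_ne_zero _ (sub_ne_zero.2 hs1))
  exact (differentiableAt_id.sub_const 1).pow m

private theorem c_diff {a : ℕ → ℂ} {F : ℂ → ℂ} (h : IsSelberg a F) {Q : ℝ} {r : ℕ}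
    {lam : Fin r → ℝ} {mu : Fin r → ℂ} (hQ : 0 < Q) (hlam : ∀ j, 0 < lam j) {s : ℂ}
    (hs : hh lam mu < |s.im|) : DifferentiableAt ℂ (completed Q lam mu F) s := by
  have hQ' : (Q : ℂ) ≠ 0 := Complex.ofReal_ne_zero.2 hQ.ne'
  have hs0 : s.im ≠ 0 := by
    have := hh_nonneg (mu := mu) hlam
    exact abs_pos.1 (by linarith)
  unfold completed
  refine DifferentiableAt.mul (DifferentiableAt.mul ?_ ?_) (f_diff h hs0)
  · exact DifferentiableAt.const_cpow differentiableAt_id (Or.inl hQ')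
  · refine DifferentiableAt.fun_finsetProd (fun j _ => ?_)
    have h1 : DifferentiableAt ℂ Complex.Gamma ((lam j : ℂ) * s + mu j) :=
      Complex.differentiableAt_Gamma _ (ne_neg (hh_im hlam hs j))
    exact h1.comp s ((differentiableAt_id.const_mul _).add_const _)

private theorem c_diff2 {a : ℕ → ℂ} {F : ℂ → ℂ} (h : IsSelberg a F) {Q : ℝ} {r : ℕ}
    {lam : Fin r → ℝ} {mu : Fin r → ℂ} (ε : ℂ) (hQ : 0 < Q) (hlam : ∀ j, 0 < lam j) {s : ℂ}
    (hs : hh lam mu < |s.im|) : DifferentiableAt ℂ (fun s => ε * (starRingEnd ℂ)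
      (completed Q lam mu F (1 - (starRingEnd ℂ) s))) s := by
  refine DifferentiableAt.const_mul ?_ ε
  have h1 : hh lam mu < |(1 - (starRingEnd ℂ) s).im| := by
    simpa using hs
  have h2 := c_diff h hQ hlam h1
  have h3 : DifferentiableAt ℂ (fun w => completed Q lam mu F (1 - w)) ((starRingEnd ℂ) s) := by
    have h4 : DifferentiableAt ℂ (fun w : ℂ => 1 - w) ((starRingEnd ℂ) s) :=
      differentiableAt_id.const_sub 1
    exact DifferentiableAt.comp ((starRingEnd ℂ) s) h2 h4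
  exact differentiableAt_conj_conj_iff.2 h3

private theorem core {a : ℕ → ℂ} {F : ℂ → ℂ} (h : IsSelberg a F) {Q : ℝ} {r : ℕ}
    {lam : Fin r → ℝ} {mu : Fin r → ℂ} {ε : ℂ} (hQ : 0 < Q) (hlam : ∀ j, 0 < lam j)
    (hfe : ∀ s : ℂ, 0 < s.re → s.re < 1 → completed Q lam mu F s =
      ε * (starRingEnd ℂ) (completed Q lam mu F (1 - (starRingEnd ℂ) s)))
    (U : Set ℂ) (hU : IsOpen U) (hc : IsPreconnected U) (hT : ∀ s ∈ U, hh lam mu < |s.im|)
    (z0 : ℂ) (h0 : z0 ∈ U) (h1 : z0.re = 1 / 2) {s : ℂ} (hs : s ∈ U) :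
    completed Q lam mu F s =
      ε * (starRingEnd ℂ) (completed Q lam mu F (1 - (starRingEnd ℂ) s)) := by
  have hA : AnalyticOnNhd ℂ (completed Q lam mu F) U :=
    DifferentiableOn.analyticOnNhd
      (fun z hz => (c_diff h hQ hlam (hT z hz)).differentiableWithinAt) hU
  have hB : AnalyticOnNhd ℂ (fun s => ε * (starRingEnd ℂ)
      (completed Q lam mu F (1 - (starRingEnd ℂ) s))) U :=
    DifferentiableOn.analyticOnNhd
      (fun z hz => (c_diff2 h ε hQ hlam (hT z hz)).differentiableWithinAt) hU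
  refine hA.eqOn_of_preconnected_of_eventuallyEq hB hc h0 ?_ hs
  have h2 : {s : ℂ | 0 < s.re ∧ s.re < 1} ∈ nhds z0 := by
    refine IsOpen.mem_nhds ?_ ?_
    · exact (isOpen_lt continuous_const Complex.continuous_re).inter
        (isOpen_lt Complex.continuous_re continuous_const)
    · constructor
      · rw [h1]
        norm_num
      · rw [h1]
        norm_num
  filter_upwards [h2] with z hz
  exact hfe z hz.1 hz.2

theorem fe_ext (a : ℕ → ℂ) (F : ℂ → ℂ) (h : IsSelberg a F) (Q : ℝ) (r : ℕ) (lam : Fin r → ℝ)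
    (mu : Fin r → ℂ) (ε : ℂ) (hQ : 0 < Q) (hlam : ∀ j, 0 < lam j)
    (hfe : ∀ s : ℂ, 0 < s.re → s.re < 1 → completed Q lam mu F s =
      ε * (starRingEnd ℂ) (completed Q lam mu F (1 - (starRingEnd ℂ) s))) :
    ∃ T : ℝ, 1 ≤ T ∧ ∀ s : ℂ, T ≤ |s.im| → completed Q lam mu F s =
      ε * (starRingEnd ℂ) (completed Q lam mu F (1 - (starRingEnd ℂ) s)) := by
  have hn := hh_nonneg (mu := mu) hlam
  refine ⟨hh lam mu + 1, by linarith, fun s hs => ?_⟩
  rcases le_abs'.1 hs with h1 | h1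
  · refine core h hQ hlam hfe {z : ℂ | z.im < -hh lam mu}
      (isOpen_lt Complex.continuous_im continuous_const) (convex_halfSpace_im_lt _).isPreconnected
      ?_ ⟨1 / 2, -(hh lam mu + 1)⟩ ?_ rfl ?_
    · intro z hz
      have hz' : z.im < -hh lam mu := hz
      rw [abs_of_neg (by linarith)]
      linarith
    · show -(hh lam mu + 1) < -hh lam mu
      linarith
    · show s.im < -hh lam mu
      linarith
  · refine core h hQ hlam hfe {z : ℂ | hh lam mu < z.im}
      (isOpen_lt continuous_const Complex.continuous_im) (convex_halfSpace_im_gt _).isPreconnected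
      ?_ ⟨1 / 2, hh lam mu + 1⟩ ?_ rfl ?_
    · intro z hz
      have hz' : hh lam mu < z.im := hz
      rw [abs_of_pos (by linarith)]
      exact hz'
    · show hh lam mu < hh lam mu + 1
      linarith
    · show hh lam mu < s.im
      linarith

end Pool.Agent.H30.WD
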