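import Pool.Agent.H30.WD.The

/-! [H30 WD Sel] the wild function is in the Selberg class -/

set_option autoImplicit false

namespace Pool.Agent.H30.WD

open Complex H11.Selberg

theorem wild_selberg (lam Q : ℝ) (b : ℕ → ℝ) (A : ℝ) (hlam : 1 ≤ lam) (hQ : 0 < Q)
    (h : Wild lam Q b A) : ∃ G : ℂ → ℂ, Differentiable ℂ G ∧ IsSelberg (ca b) G := by
  obtain ⟨G, hG, hfo, hL, hconj, hfe⟩ := cont lam Q b A hlam hQ h
  refine ⟨G, hG, ?_⟩
  constructor
  · simp [ca, cf]
  · intro s hs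
    exact abs_one lam Q b A h s hs.le
  · exact hL
  · exact ⟨0, G, hG, hfo, fun s _ => by simp⟩
  · refine ⟨Q, 1, fun _ => lam, fun _ => 0, 1, hQ, fun _ => by linarith, fun _ => by simp,
      by simp, ?_⟩
    intro s hs0 hs1
    unfold completed
    simp only [Finset.univ_unique, Finset.prod_singleton, add_zero, one_mul]
    have h1 := hfe s hs0 hs1
    have h2 : (starRingEnd ℂ) ((Q : ℂ) ^ (1 - (starRingEnd ℂ) s) *
        Gamma (lam * (1 - (starRingEnd ℂ) s)) * G (1 - (starRingEnd ℂ) s)) =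
        (Q : ℂ) ^ (1 - s) * Gamma (lam * (1 - s)) * G (1 - s) := by
      have e1 : (1 : ℂ) - (starRingEnd ℂ) s = (starRingEnd ℂ) (1 - s) := by simp
      have e2 : (lam : ℂ) * (starRingEnd ℂ) (1 - s) = (starRingEnd ℂ) ((lam : ℂ) * (1 - s)) := by
        simp
      rw [e1, e2, hconj, Gamma_conj, map_mul, map_mul, Complex.conj_conj, Complex.conj_conj]
      congr 2
      rw [Complex.cpow_conj _ _ (by
        rw [Complex.arg_ofReal_of_nonneg hQ.le]
        exact Real.pi_pos.ne), Complex.conj_ofReal, Complex.conj_conj]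
    rw [h1, h2]
  · intro ε hε
    obtain ⟨C, hC⟩ := ram lam Q b A h ε hε
    refine ⟨C, fun n hn => ?_⟩
    have := hC n hn
    unfold ca
    rwa [Complex.norm_real, Real.norm_eq_abs]
  · obtain ⟨bb, θ, C, hθ, hb, hE⟩ := euler lam Q b A h
    refine ⟨bb, θ, C, hθ, hb, fun s hs => ?_⟩
    rw [hL s hs]
    exact hE s hs

end Pool.Agent.H30.WD
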