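import Pool.Agent.H30.WD.Wild
import Pool.Agent.H30.WD.Sel
import Pool.Agent.H30.WD.Fac

/-! [H30 WD Fin] the final theorem: Selberg's conjecture (Q1 of MP_8e9775) is false -/

set_option autoImplicit false

namespace Pool.Agent.H30.WD

open H11.Selberg Complex

theorem main : ∃ (a : ℕ → ℂ) (F : ℂ → ℂ), IsPrimitive a F ∧
    ¬ ∃ C : ℝ, ∀ x : ℝ, 2 ≤ x → |S a x - Real.log (Real.log x)| ≤ C := by
  sorry

end Pool.Agent.H30.WD
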