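import Pool.Agent.H30.WD.LD
import Pool.Agent.H30.WD.KeyQ
import Pool.Agent.H30.WD.Frame

/-! [H30 WD FunB] the functional bounds: composite part and prime part -/

set_option autoImplicit false

namespace Pool.Agent.H30.WD

open ArithmeticFunction MeasureTheory Set

/-- one cell, general nonnegative weights `g` of density `δ / (log x)^2` -/
lemma fb_cell (lam : ℝ) (D j : ℕ) (hD : 2 ≤ D) (hj3 : 3 ≤ j) (g : ℕ → ℝ) (δ : ℝ) (hδ : 0 ≤ δ)
    (hg : ∀ n, 0 ≤ g n)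
    (hG : ∑ n ∈ Finset.Ioc (j ^ D) ((j + 1) ^ D), g n ≤
      δ * (((j : ℝ) + 1) ^ D - (j : ℝ) ^ D) / Real.log ((j : ℝ) ^ D) ^ 2)
    (f : ℝ → ℝ) (hf : ∀ x : ℝ, 0 < x → DifferentiableAt ℝ f x)
    (hf' : ContinuousOn (deriv f) (Ioi 0))
    (hi1 : IntegrableOn (fun x => uu lam x * |f x|) (Ioc ((j : ℝ) ^ D) (((j + 1 : ℕ) : ℝ) ^ D)))
    (hi2 : IntegrableOn (fun x => uu lam x * x ^ (-(1 / (D : ℝ))) * |x * deriv f x|)
      (Ioc ((j : ℝ) ^ D) (((j + 1 : ℕ) : ℝ) ^ D))) :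
    ∑ n ∈ Finset.Ioc (j ^ D) ((j + 1) ^ D), g n * |f n| ≤
      8 * δ * (∫ x in Ioc ((j : ℝ) ^ D) (((j + 1 : ℕ) : ℝ) ^ D), uu lam x * |f x|) +
      8 * δ * ((D : ℝ) * 2 ^ D) * ∫ x in Ioc ((j : ℝ) ^ D) (((j + 1 : ℕ) : ℝ) ^ D),
        uu lam x * x ^ (-(1 / (D : ℝ))) * |x * deriv f x| := by
  have hj3r : (3 : ℝ) ≤ (j : ℝ) := by exact_mod_cast hj3
  have hcast : (((j + 1 : ℕ) : ℝ)) = (j : ℝ) + 1 := by push_cast; ring
  have hD1 : 1 ≤ D := by omega
  rw [hcast] at hi1 hi2 ⊢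
  obtain ⟨a, ha⟩ : ∃ a : ℝ, a = (j : ℝ) ^ D := ⟨_, rfl⟩
  obtain ⟨b, hb⟩ : ∃ b : ℝ, b = ((j : ℝ) + 1) ^ D := ⟨_, rfl⟩
  obtain ⟨P, hP⟩ : ∃ P : Finset ℕ, P = Finset.Ioc (j ^ D) ((j + 1) ^ D) := ⟨_, rfl⟩
  rw [← ha, ← hb] at hi1 hi2 ⊢
  rw [← hP]
  rw [← ha, ← hb, ← hP] at hG
  have ha1 : 1 ≤ a := by rw [ha]; exact one_le_pow₀ (by linarith)
  have ha0 : 0 < a := by linarith
  have hab : a < b := by
    rw [ha, hb]
    exact pow_lt_pow_left₀ (by linarith) (by linarith) (by omega)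
  have hL : 0 < b - a := by linarith
  have hpm : ∀ p ∈ P, a < (p : ℝ) ∧ (p : ℝ) ≤ b := by
    intro p hp
    rw [hP, Finset.mem_Ioc] at hp
    constructor
    · rw [ha]; exact_mod_cast hp.1
    · rw [hb]
      have : (p : ℝ) ≤ (((j + 1) ^ D : ℕ) : ℝ) := by exact_mod_cast hp.2
      push_cast at this
      exact this
  have hratio : ∀ x : ℝ, a ≤ x → x ≤ b → uu lam a ≤ 2 * uu lam x := by
    intro x h1 h2
    rw [ha]
    exact samp_ratio lam D j hj3 x (by rw [← ha]; exact h1) (by rw [← hb]; exact h2)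
  have hupos : ∀ x : ℝ, a ≤ x → 0 < uu lam x := fun x h1 => samp_uu_pos lam x (ha1.trans h1)
  obtain ⟨V, hV⟩ : ∃ V : ℝ, V = ∫ t in Ioc a b, |deriv f t| := ⟨_, rfl⟩
  have hV0 : 0 ≤ V := by
    rw [hV]
    exact integral_nonneg fun t => abs_nonneg _
  have hvar : ∀ x y : ℝ, x ∈ Icc a b → y ∈ Icc a b → |f x| ≤ |f y| + V := by
    intro x y hx hy
    rw [hV]
    exact samp_var f hf hf' a b x y ha0 hx hy
  have hsub : Icc a b ⊆ Ioi 0 := fun t ht => lt_of_lt_of_le ha0 ht.1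
  have hfc : ContinuousOn f (Icc a b) := fun t ht =>
    (hf t (hsub ht)).continuousAt.continuousWithinAt
  have hIf : IntegrableOn (fun t => |f t|) (Ioc a b) :=
    (hfc.abs.integrableOn_Icc).mono_set Ioc_subset_Icc_self
  have hId : IntegrableOn (fun t => |deriv f t|) (Ioc a b) :=
    ((hf'.mono hsub).abs.integrableOn_Icc).mono_set Ioc_subset_Icc_self
  obtain ⟨E, hE⟩ : ∃ E : ℝ, E = ∫ t in Ioc a b, |f t| := ⟨_, rfl⟩
  have hE0 : 0 ≤ E := by
    rw [hE]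
    exact integral_nonneg fun t => abs_nonneg _
  obtain ⟨S, hS⟩ : ∃ S : ℝ, S = ∑ n ∈ P, g n * |f n| := ⟨_, rfl⟩
  obtain ⟨G, hGd⟩ : ∃ G : ℝ, G = ∑ n ∈ P, g n := ⟨_, rfl⟩
  rw [← hS]
  rw [← hGd] at hG
  have hvol : (volume.real (Ioc a b)) = b - a := by
    rw [Real.volume_real_Ioc_of_le hab.le]
  have h2 : (b - a) * S ≤ G * (E + (b - a) * V) := by
    have hx : ∀ x ∈ Ioc a b, S ≤ G * (|f x| + V) := by
      intro x hx
      rw [hS, hGd, Finset.sum_mul]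
      apply Finset.sum_le_sum
      intro p hp
      obtain ⟨hp1, hp2⟩ := hpm p hp
      exact mul_le_mul_of_nonneg_left (hvar p x ⟨hp1.le, hp2⟩ ⟨hx.1.le, hx.2⟩) (hg p)
    have h3 : ∫ t in Ioc a b, S ≤ ∫ t in Ioc a b, G * (|f t| + V) := by
      apply setIntegral_mono_on _ _ measurableSet_Ioc hx
      · exact integrableOn_const (by simp) (by simp)
      · exact (hIf.add (integrableOn_const (by simp) (by simp))).const_mul _
    rw [setIntegral_const, hvol, smul_eq_mul] at h3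
    have h4 : ∫ t in Ioc a b, G * (|f t| + V) = G * (E + (b - a) * V) := by
      rw [integral_const_mul, integral_add hIf (integrableOn_const (by simp) (by simp)),
        setIntegral_const, hvol, smul_eq_mul, ← hE]
    rw [h4] at h3
    exact h3
  have hlog : 1 ≤ Real.log a := by
    rw [ha, Real.log_pow]
    have h5 : 1 ≤ Real.log (j : ℝ) := by
      rw [Real.le_log_iff_exp_le (by linarith)]
      have := Real.exp_one_lt_d9
      linarith
    have h6 : (2 : ℝ) ≤ (D : ℝ) := by exact_mod_cast hD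
    nlinarith
  have hlu : 1 / Real.log a ^ 2 ≤ 4 * uu lam a := by
    rw [samp_uu1 lam a ha1, inv_eq_one_div, ← mul_div_assoc, mul_one,
      div_le_div_iff₀ (by positivity) (by positivity)]
    nlinarith
  have h3 : S ≤ 4 * δ * (uu lam a * (E + (b - a) * V)) := by
    have h4 : (b - a) * S ≤ (b - a) * (4 * δ * (uu lam a * (E + (b - a) * V))) := by
      have h5 : 0 ≤ E + (b - a) * V := by positivity
      calc (b - a) * S ≤ G * (E + (b - a) * V) := h2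
        _ ≤ (δ * (b - a) / Real.log a ^ 2) * (E + (b - a) * V) :=
            mul_le_mul_of_nonneg_right hG h5
        _ = δ * (b - a) * (E + (b - a) * V) * (1 / Real.log a ^ 2) := by ring
        _ ≤ δ * (b - a) * (E + (b - a) * V) * (4 * uu lam a) := by
            apply mul_le_mul_of_nonneg_left hlu
            positivity
        _ = (b - a) * (4 * δ * (uu lam a * (E + (b - a) * V))) := by ring
    exact le_of_mul_le_mul_left h4 hL
  have h4 : uu lam a * ((b - a) * V) ≤ 2 * ((D : ℝ) * 2 ^ D) * ∫ x in Ioc a b,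
      uu lam x * x ^ (-(1 / (D : ℝ))) * |x * deriv f x| := by
    have e1 : uu lam a * ((b - a) * V) = ∫ t in Ioc a b, uu lam a * (b - a) * |deriv f t| := by
      rw [integral_const_mul, ← hV]
      ring
    rw [e1, ← integral_const_mul]
    apply setIntegral_mono_on (hId.const_mul _) (hi2.const_mul _) measurableSet_Ioc
    intro x hx
    have hx0 : 0 < x := lt_trans ha0 hx.1
    have e2 := samp_len D j (by omega) hD1 x (by rw [← ha]; exact hx.1.le)
    rw [← ha, ← hb] at e2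
    have e3 := hratio x hx.1.le hx.2
    have e4 : x ^ (-(1 / (D : ℝ))) * |x * deriv f x| = x ^ (1 - 1 / (D : ℝ)) * |deriv f x| := by
      rw [abs_mul, abs_of_pos hx0, ← mul_assoc]
      congr 1
      rw [sub_eq_add_neg, Real.rpow_add hx0, Real.rpow_one]
      ring
    calc uu lam a * (b - a) * |deriv f x|
        ≤ (2 * uu lam x) * ((D : ℝ) * 2 ^ D * x ^ (1 - 1 / (D : ℝ))) * |deriv f x| := by
          apply mul_le_mul_of_nonneg_right _ (abs_nonneg _)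
          apply mul_le_mul e3 e2 hL.le
          have := hupos x hx.1.le
          positivity
      _ = 2 * ((D : ℝ) * 2 ^ D) * (uu lam x * (x ^ (1 - 1 / (D : ℝ)) * |deriv f x|)) := by ring
      _ = 2 * ((D : ℝ) * 2 ^ D) * (uu lam x * x ^ (-(1 / (D : ℝ))) * |x * deriv f x|) := by
          rw [← e4]; ring
  have h5 : uu lam a * E ≤ 2 * ∫ x in Ioc a b, uu lam x * |f x| := by
    rw [hE, ← integral_const_mul, ← integral_const_mul]
    apply setIntegral_mono_on (hIf.const_mul _) (hi1.const_mul _) measurableSet_Ioc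
    intro x hx
    calc uu lam a * |f x| ≤ (2 * uu lam x) * |f x| :=
          mul_le_mul_of_nonneg_right (hratio x hx.1.le hx.2) (abs_nonneg _)
      _ = 2 * (uu lam x * |f x|) := by ring
  calc S ≤ 4 * δ * (uu lam a * (E + (b - a) * V)) := h3
    _ = 4 * δ * (uu lam a * E) + 4 * δ * (uu lam a * ((b - a) * V)) := by ring
    _ ≤ 4 * δ * (2 * ∫ x in Ioc a b, uu lam x * |f x|) +
        4 * δ * (2 * ((D : ℝ) * 2 ^ D) * ∫ x in Ioc a b,
          uu lam x * x ^ (-(1 / (D : ℝ))) * |x * deriv f x|) :=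
        add_le_add (mul_le_mul_of_nonneg_left h5 (by positivity))
          (mul_le_mul_of_nonneg_left h4 (by positivity))
    _ = _ := by ring

/-- finitely many cells -/
lemma fb_fin (lam : ℝ) (D J : ℕ) (hD : 2 ≤ D) (hJ3 : 3 ≤ J) (g : ℕ → ℝ) (δ : ℝ) (hδ : 0 ≤ δ)
    (hg : ∀ n, 0 ≤ g n)
    (hG : ∀ j : ℕ, J ≤ j → ∑ n ∈ Finset.Ioc (j ^ D) ((j + 1) ^ D), g n ≤
      δ * (((j : ℝ) + 1) ^ D - (j : ℝ) ^ D) / Real.log ((j : ℝ) ^ D) ^ 2)
    (f : ℝ → ℝ) (hf : ∀ x : ℝ, 0 < x → DifferentiableAt ℝ f x)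
    (hf' : ContinuousOn (deriv f) (Ioi 0))
    (hi1 : IntegrableOn (fun x => uu lam x * |f x|) (Ioi ((J : ℝ) ^ D)))
    (hi2 : IntegrableOn (fun x => uu lam x * x ^ (-(1 / (D : ℝ))) * |x * deriv f x|)
      (Ioi ((J : ℝ) ^ D))) (N : ℕ) (hN : J ≤ N) :
    ∑ n ∈ Finset.Ioc (J ^ D) (N ^ D), g n * |f n| ≤
      8 * δ * (∫ x in Ioc ((J : ℝ) ^ D) ((N : ℝ) ^ D), uu lam x * |f x|) +
      8 * δ * ((D : ℝ) * 2 ^ D) * ∫ x in Ioc ((J : ℝ) ^ D) ((N : ℝ) ^ D),
        uu lam x * x ^ (-(1 / (D : ℝ))) * |x * deriv f x| := by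
  induction N, hN using Nat.le_induction with
  | base => simp
  | succ n hn ih =>
    have hmono1 : ((J : ℝ) ^ D) ≤ (n : ℝ) ^ D :=
      pow_le_pow_left₀ (Nat.cast_nonneg J) (by exact_mod_cast hn) _
    have hmono2 : ((n : ℝ) ^ D) ≤ ((n + 1 : ℕ) : ℝ) ^ D :=
      pow_le_pow_left₀ (Nat.cast_nonneg n) (by exact_mod_cast Nat.le_succ n) _
    have hsubn : Ioc ((n : ℝ) ^ D) (((n + 1 : ℕ) : ℝ) ^ D) ⊆ Ioi ((J : ℝ) ^ D) :=
      fun x hx => lt_of_le_of_lt hmono1 hx.1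
    have hsubJ : Ioc ((J : ℝ) ^ D) ((n : ℝ) ^ D) ⊆ Ioi ((J : ℝ) ^ D) := fun x hx => hx.1
    have hc := fb_cell lam D n hD (hJ3.trans hn) g δ hδ hg (hG n hn) f hf hf'
      (hi1.mono_set hsubn) (hi2.mono_set hsubn)
    have hun : Ioc ((J : ℝ) ^ D) (((n + 1 : ℕ) : ℝ) ^ D) =
        Ioc ((J : ℝ) ^ D) ((n : ℝ) ^ D) ∪ Ioc ((n : ℝ) ^ D) (((n + 1 : ℕ) : ℝ) ^ D) :=
      (Ioc_union_Ioc_eq_Ioc hmono1 hmono2).symm
    have hdis : Disjoint (Ioc ((J : ℝ) ^ D) ((n : ℝ) ^ D))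
        (Ioc ((n : ℝ) ^ D) (((n + 1 : ℕ) : ℝ) ^ D)) := by
      rw [Set.disjoint_left]
      intro x hx hx'
      exact absurd hx'.1 (not_lt.mpr hx.2)
    have hint1 : ∫ x in Ioc ((J : ℝ) ^ D) (((n + 1 : ℕ) : ℝ) ^ D), uu lam x * |f x| =
        (∫ x in Ioc ((J : ℝ) ^ D) ((n : ℝ) ^ D), uu lam x * |f x|) +
        ∫ x in Ioc ((n : ℝ) ^ D) (((n + 1 : ℕ) : ℝ) ^ D), uu lam x * |f x| := by
      rw [hun]
      exact setIntegral_union hdis measurableSet_Ioc (hi1.mono_set hsubJ) (hi1.mono_set hsubn)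
    have hint2 : ∫ x in Ioc ((J : ℝ) ^ D) (((n + 1 : ℕ) : ℝ) ^ D),
        uu lam x * x ^ (-(1 / (D : ℝ))) * |x * deriv f x| =
        (∫ x in Ioc ((J : ℝ) ^ D) ((n : ℝ) ^ D),
          uu lam x * x ^ (-(1 / (D : ℝ))) * |x * deriv f x|) +
        ∫ x in Ioc ((n : ℝ) ^ D) (((n + 1 : ℕ) : ℝ) ^ D),
          uu lam x * x ^ (-(1 / (D : ℝ))) * |x * deriv f x| := by
      rw [hun]
      exact setIntegral_union hdis measurableSet_Ioc (hi2.mono_set hsubJ) (hi2.mono_set hsubn)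
    have hm1 : J ^ D ≤ n ^ D := Nat.pow_le_pow_left hn _
    have hm2 : n ^ D ≤ (n + 1) ^ D := Nat.pow_le_pow_left (Nat.le_succ n) _
    have hfs : ∑ p ∈ Finset.Ioc (J ^ D) ((n + 1) ^ D), g p * |f p| =
        ∑ p ∈ Finset.Ioc (J ^ D) (n ^ D), g p * |f p| +
        ∑ p ∈ Finset.Ioc (n ^ D) ((n + 1) ^ D), g p * |f p| := by
      have hun2 : Finset.Ioc (J ^ D) ((n + 1) ^ D) =
          Finset.Ioc (J ^ D) (n ^ D) ∪ Finset.Ioc (n ^ D) ((n + 1) ^ D) := by
        ext p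
        simp only [Finset.mem_Ioc, Finset.mem_union]
        omega
      rw [hun2, Finset.sum_union]
      rw [Finset.disjoint_left]
      intro p hp hp'
      rw [Finset.mem_Ioc] at hp hp'
      omega
    rw [hint1, hint2, hfs]
    nlinarith [ih, hc]

/-- the general functional bound -/
lemma fb_gen (lam : ℝ) (D j0 : ℕ) (hD : 2 ≤ D) (hj0 : 3 ≤ j0) (hlam : 8 < lam)
    (hlamD : 6 / lam < 1 / (D : ℝ)) : ∃ Q0 : ℝ, 0 < Q0 ∧ ∀ Q : ℝ, Q0 ≤ Q →
    ∀ (g : ℕ → ℝ) (δ : ℝ), 0 ≤ δ → (∀ n, 0 ≤ g n) → (∀ n, n ≤ j0 ^ D → g n = 0) →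
    (∀ j : ℕ, j0 ≤ j → ∑ n ∈ Finset.Ioc (j ^ D) ((j + 1) ^ D), g n ≤
      δ * (((j : ℝ) + 1) ^ D - (j : ℝ) ^ D) / Real.log ((j : ℝ) ^ D) ^ 2) →
    ∀ f ∈ TV lam Q, (Summable fun n : ℕ => g n * |f n|) ∧
      ∑' n : ℕ, g n * |f n| ≤ 12 * δ * nm lam f := by
  have hl : 0 < lam := by linarith
  have hD0 : (0 : ℝ) < (D : ℝ) := by
    have : 0 < D := by omega
    exact_mod_cast this
  obtain ⟨K, hK, hk⟩ := key lam hlam
  have hJr : (3 : ℝ) ≤ (j0 : ℝ) := by exact_mod_cast hj0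
  have hY : 1 ≤ (j0 : ℝ) ^ D := one_le_pow₀ (by linarith)
  have hY0 : 0 < (j0 : ℝ) ^ D := by linarith
  obtain ⟨C3, hC3⟩ : ∃ C3 : ℝ, C3 = ∫ x in Ioi ((j0 : ℝ) ^ D),
    x ^ (-(1 / (D : ℝ)) + (6 / lam - 1)) := ⟨_, rfl⟩
  have hC3' : 0 ≤ C3 := by
    rw [hC3]
    apply setIntegral_nonneg measurableSet_Ioi
    intro x hx
    exact Real.rpow_nonneg (hY0.trans hx).le _
  have hI3 : IntegrableOn (fun x : ℝ => x ^ (-(1 / (D : ℝ)) + (6 / lam - 1)))
      (Ioi ((j0 : ℝ) ^ D)) :=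
    integrableOn_Ioi_rpow_of_lt (by linarith) hY0
  obtain ⟨Wc, hWc⟩ : ∃ Wc : ℝ, Wc = (D : ℝ) * 2 ^ D := ⟨_, rfl⟩
  have hW0 : 0 < Wc := by rw [hWc]; positivity
  obtain ⟨Q0, hQ0, hQ1⟩ := frame_Q lam hl (1 / (2 * (Wc * K * C3 + 1))) (by positivity)
  refine ⟨Q0, hQ0, ?_⟩
  intro Q hQ g δ hδ hg hg0 hG f hf
  have hQp : 0 < Q := lt_of_lt_of_le hQ0 hQ
  have hq := hQ1 Q hQ
  have hqp : 0 < Q ^ (-(4 / lam)) := Real.rpow_pos_of_pos hQp _
  have hnm := frame_nm_nonneg lam f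
  obtain ⟨hd, hdc, -⟩ := reg lam Q hl hQp f hf
  obtain ⟨hi, -⟩ := norm_int lam Q (by linarith) hQp f hf
  have hkf := hk Q f hQp hf
  have hkd : ∀ x : ℝ, 0 < x → |x * deriv f x| ≤
      K * Q ^ (-(4 / lam)) * nm lam f * x ^ (6 / lam - 1) := by
    intro x hx
    have h1 := hkf x hx
    have h2 := abs_nonneg (f x)
    calc |x * deriv f x| ≤ K * Q ^ (-(4 / lam)) * x ^ (6 / lam - 1) * nm lam f := by linarith
      _ = _ := by ring
  have hsubI : Ioi ((j0 : ℝ) ^ D) ⊆ Ioi (0 : ℝ) := fun x hx => hY0.trans hx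
  have hpt : ∀ x ∈ Ioi ((j0 : ℝ) ^ D), uu lam x * x ^ (-(1 / (D : ℝ))) * |x * deriv f x| ≤
      K * Q ^ (-(4 / lam)) * nm lam f * x ^ (-(1 / (D : ℝ)) + (6 / lam - 1)) := by
    intro x hx
    have hx0 : 0 < x := hsubI hx
    have hx1 : 1 ≤ x := hY.trans (le_of_lt hx)
    have e1 : 0 ≤ x ^ (-(1 / (D : ℝ))) := Real.rpow_nonneg hx0.le _
    have e2 := samp_uu_pos lam x hx1
    have e3 := frame_uu_le lam x hx1
    calc uu lam x * x ^ (-(1 / (D : ℝ))) * |x * deriv f x|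
        ≤ 1 * x ^ (-(1 / (D : ℝ))) * (K * Q ^ (-(4 / lam)) * nm lam f * x ^ (6 / lam - 1)) := by
          apply mul_le_mul _ (hkd x hx0) (abs_nonneg _) (by positivity)
          exact mul_le_mul_of_nonneg_right e3 e1
      _ = K * Q ^ (-(4 / lam)) * nm lam f * x ^ (-(1 / (D : ℝ)) + (6 / lam - 1)) := by
          rw [Real.rpow_add hx0]
          ring
  have hpos1 : ∀ x ∈ Ioi ((j0 : ℝ) ^ D), 0 ≤ uu lam x * |f x| := fun x hx =>
    mul_nonneg (frame_uu_nonneg lam x (hsubI hx)) (abs_nonneg _)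
  have hpos2 : ∀ x ∈ Ioi ((j0 : ℝ) ^ D),
      0 ≤ uu lam x * x ^ (-(1 / (D : ℝ))) * |x * deriv f x| := fun x hx =>
    mul_nonneg (mul_nonneg (frame_uu_nonneg lam x (hsubI hx))
      (Real.rpow_nonneg (le_of_lt (hsubI hx)) _)) (abs_nonneg _)
  have hi2 : IntegrableOn (fun x => uu lam x * x ^ (-(1 / (D : ℝ))) * |x * deriv f x|)
      (Ioi ((j0 : ℝ) ^ D)) := by
    refine (hI3.const_mul (K * Q ^ (-(4 / lam)) * nm lam f)).mono' ?_ ?_
    · apply AEStronglyMeasurable.mul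
      · exact ((frame_meas lam).mul (measurable_id.pow_const _)).aestronglyMeasurable
      · apply ContinuousOn.aestronglyMeasurable _ measurableSet_Ioi
        exact (continuousOn_id.mul (hdc.mono hsubI)).abs
    · rw [ae_restrict_iff' measurableSet_Ioi]
      refine Filter.Eventually.of_forall fun x hx => ?_
      rw [Real.norm_eq_abs, abs_of_nonneg (hpos2 x hx)]
      exact hpt x hx
  have e2 : ∫ x in Ioi ((j0 : ℝ) ^ D), uu lam x * x ^ (-(1 / (D : ℝ))) * |x * deriv f x| ≤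
      K * Q ^ (-(4 / lam)) * nm lam f * C3 := by
    rw [hC3, ← integral_const_mul]
    exact setIntegral_mono_on hi2 (hI3.const_mul _) measurableSet_Ioi hpt
  have e1 : ∫ x in Ioi ((j0 : ℝ) ^ D), uu lam x * |f x| ≤ nm lam f := by
    unfold nm
    apply setIntegral_mono_set hi
    · rw [Filter.EventuallyLE, ae_restrict_iff' measurableSet_Ioi]
      exact Filter.Eventually.of_forall fun x hx =>
        mul_nonneg (frame_uu_nonneg lam x hx) (abs_nonneg _)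
    · exact hsubI.eventuallyLE
  have e7 : Wc * K * C3 * Q ^ (-(4 / lam)) ≤ 1 / 2 := by
    have e8 : 0 ≤ Wc * K * C3 := by positivity
    calc Wc * K * C3 * Q ^ (-(4 / lam))
        ≤ (Wc * K * C3 + 1) * Q ^ (-(4 / lam)) := by nlinarith
      _ ≤ (Wc * K * C3 + 1) * (1 / (2 * (Wc * K * C3 + 1))) :=
          mul_le_mul_of_nonneg_left hq (by positivity)
      _ = 1 / 2 := by field_simp
  have hg1 : ∀ n : ℕ, 0 ≤ g n * |f n| := fun n => mul_nonneg (hg n) (abs_nonneg _)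
  have hrange : ∀ n : ℕ, ∑ i ∈ Finset.range n, g i * |f i| ≤ 12 * δ * nm lam f := by
    intro n
    obtain ⟨N, hN⟩ : ∃ N : ℕ, N = max j0 n := ⟨_, rfl⟩
    have hNJ : j0 ≤ N := hN ▸ le_max_left _ _
    have hNn : n ≤ N ^ D := by
      calc n ≤ N := hN ▸ le_max_right _ _
        _ ≤ N ^ D := Nat.le_self_pow (by omega) N
    have h1 := fb_fin lam D j0 hD hj0 g δ hδ hg hG f hd hdc (hi.mono_set hsubI) hi2 N hNJ
    have h2 : ∫ x in Ioc ((j0 : ℝ) ^ D) ((N : ℝ) ^ D), uu lam x * |f x| ≤ nm lam f := by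
      refine le_trans ?_ e1
      apply setIntegral_mono_set (hi.mono_set hsubI)
      · exact (ae_restrict_iff' measurableSet_Ioi).mpr (Filter.Eventually.of_forall hpos1)
      · exact (Ioc_subset_Ioi_self).eventuallyLE
    have h3 : ∫ x in Ioc ((j0 : ℝ) ^ D) ((N : ℝ) ^ D),
        uu lam x * x ^ (-(1 / (D : ℝ))) * |x * deriv f x| ≤
        K * Q ^ (-(4 / lam)) * nm lam f * C3 := by
      refine le_trans ?_ e2
      apply setIntegral_mono_set hi2
      · exact (ae_restrict_iff' measurableSet_Ioi).mpr (Filter.Eventually.of_forall hpos2)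
      · exact (Ioc_subset_Ioi_self).eventuallyLE
    calc ∑ i ∈ Finset.range n, g i * |f i|
        ≤ ∑ i ∈ Finset.Ioc (j0 ^ D) (N ^ D), g i * |f i| := by
          have h4 : ∑ i ∈ Finset.range n, g i * |f i| =
              ∑ i ∈ (Finset.range n).filter (fun i => j0 ^ D < i), g i * |f i| := by
            rw [Finset.sum_filter]
            apply Finset.sum_congr rfl
            intro i _
            split_ifs with hi'
            · rfl
            · rw [hg0 i (not_lt.mp hi'), zero_mul]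
          rw [h4]
          apply Finset.sum_le_sum_of_subset_of_nonneg
          · intro p hp
            rw [Finset.mem_filter, Finset.mem_range] at hp
            rw [Finset.mem_Ioc]
            exact ⟨hp.2, (hp.1.le).trans hNn⟩
          · intro p _ _
            exact hg1 p
      _ ≤ _ := h1
      _ ≤ 8 * δ * nm lam f + 8 * δ * ((D : ℝ) * 2 ^ D) * (K * Q ^ (-(4 / lam)) * nm lam f * C3) :=
          add_le_add (mul_le_mul_of_nonneg_left h2 (by positivity))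
            (mul_le_mul_of_nonneg_left h3 (by positivity))
      _ = 8 * δ * nm lam f + 8 * δ * nm lam f * (Wc * K * C3 * Q ^ (-(4 / lam))) := by
          rw [hWc]; ring
      _ ≤ 8 * δ * nm lam f + 8 * δ * nm lam f * (1 / 2) := by
          have : 0 ≤ 8 * δ * nm lam f := by positivity
          have := mul_le_mul_of_nonneg_left e7 this
          linarith
      _ = 12 * δ * nm lam f := by ring
  exact ⟨summable_of_sum_range_le hg1 hrange, Real.tsum_le_of_sum_range_le hg1 hrange⟩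

/-- `(j+1)^D ≤ 2 j^D` for `j ≥ 2 D` -/
lemma fb_two (D j : ℕ) (hD : 1 ≤ D) (hj : 2 * D ≤ j) : (j + 1) ^ D ≤ 2 * j ^ D := by
  have hj0 : (0 : ℝ) < (j : ℝ) := by
    have : 0 < j := by omega
    exact_mod_cast this
  have h1 : ((j : ℝ) + 1) ^ D ≤ 2 * (j : ℝ) ^ D := by
    have e1 : (j : ℝ) + 1 = (j : ℝ) * (1 + 1 / (j : ℝ)) := by field_simp
    rw [e1, mul_pow, mul_comm]
    apply mul_le_mul_of_nonneg_right _ (by positivity)
    calc (1 + 1 / (j : ℝ)) ^ D ≤ (Real.exp (1 / (j : ℝ))) ^ D := by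
          apply pow_le_pow_left₀ (by positivity)
          have := Real.add_one_le_exp (1 / (j : ℝ))
          linarith
      _ = Real.exp ((D : ℝ) * (1 / (j : ℝ))) := by
          rw [← Real.exp_nat_mul]
      _ ≤ Real.exp (1 / 2) := by
          apply Real.exp_le_exp.mpr
          rw [mul_one_div, div_le_div_iff₀ hj0 (by norm_num)]
          have : ((2 * D : ℕ) : ℝ) ≤ (j : ℝ) := by exact_mod_cast hj
          push_cast at this
          linarith
      _ ≤ 2 := by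
          have h2 : Real.exp (1 / 2) ^ 2 = Real.exp 1 := by
            rw [← Real.exp_nat_mul]
            norm_num
          have h3 := Real.exp_one_lt_d9
          have h4 := Real.exp_pos (1 / 2 : ℝ)
          nlinarith
  exact_mod_cast h1

/-- the length of a cell from below -/
lemma fb_len (D j : ℕ) (hD : 1 ≤ D) (hj : 1 ≤ j) :
    ((j ^ D : ℕ) : ℝ) ^ (1 - 1 / (D : ℝ)) ≤ (((j + 1) ^ D : ℕ) : ℝ) - ((j ^ D : ℕ) : ℝ) := by
  have hj0 : (0 : ℝ) < (j : ℝ) := by exact_mod_cast hj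
  have hD0 : (0 : ℝ) < (D : ℝ) := by exact_mod_cast hD
  have h1 : ((j ^ D : ℕ) : ℝ) ^ (1 - 1 / (D : ℝ)) = (j : ℝ) ^ (D - 1) := by
    push_cast
    rw [← Real.rpow_natCast, ← Real.rpow_mul hj0.le, ← Real.rpow_natCast]
    congr 1
    rw [Nat.cast_sub hD]
    field_simp
    simp
  rw [h1]
  have h2 : j ^ D + j ^ (D - 1) ≤ (j + 1) ^ D := by
    obtain ⟨k, rfl⟩ : ∃ k, D = k + 1 := ⟨D - 1, by omega⟩
    have h3 : j ^ k ≤ (j + 1) ^ k := Nat.pow_le_pow_left (Nat.le_succ j) _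
    calc j ^ (k + 1) + j ^ (k + 1 - 1) = j ^ k * (j + 1) := by
          rw [Nat.add_sub_cancel, pow_succ]; ring
      _ ≤ (j + 1) ^ k * (j + 1) := Nat.mul_le_mul_right _ h3
      _ = (j + 1) ^ (k + 1) := by rw [pow_succ]
  have h3 : (((j ^ D + j ^ (D - 1) : ℕ)) : ℝ) ≤ (((j + 1) ^ D : ℕ) : ℝ) := by exact_mod_cast h2
  push_cast at h3 ⊢
  linarith

/-- composite part -/
theorem fun_comp (lam : ℝ) (B D : ℕ) (A β : ℝ) (hB : 2 ≤ B) (hA : 0 ≤ A) (hD : 1000 * B ≤ D)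
    (hAD : 100 * A * B ≤ D) (hβ : 0 ≤ β) (hlam : 8 < lam) (hlamD : 6 / lam < 1 / (D : ℝ))
    (ε : ℝ) (hε : 0 < ε) : ∃ J1 : ℕ, ∀ J : ℕ, J1 ≤ J → ∃ Q0 : ℝ, 0 < Q0 ∧ ∀ Q : ℝ, Q0 ≤ Q →
    ∀ bb : ℕ → ℝ, Maj bb B J β A → ∀ f ∈ TV lam Q,
    (Summable fun n : ℕ => if 2 ≤ cardFactors n then cf bb n * |f n| else 0) ∧
    ∑' n : ℕ, (if 2 ≤ cardFactors n then cf bb n * |f n| else 0) ≤ ε * nm lam f := by
  obtain ⟨J1, h1⟩ := ld B D A β hB hA hD hAD hβ (ε / 12) (by linarith)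
  have hD2 : 2 ≤ D := by omega
  refine ⟨max J1 ((2 * D) ^ D), ?_⟩
  intro J hJ
  have hJ1 : J1 ≤ J := (le_max_left _ _).trans hJ
  have hJ2 : (2 * D) ^ D ≤ J := (le_max_right _ _).trans hJ
  obtain ⟨Q0, hQ0, hQ1⟩ := fb_gen lam D (2 * D) hD2 (by omega) hlam hlamD
  refine ⟨Q0, hQ0, ?_⟩
  intro Q hQ bb hbb f hf
  have hJB : J ≤ J ^ B := Nat.le_self_pow (by omega) J
  have hcf0 : ∀ n, 0 ≤ cf bb n := fun n => cf_nonneg bb hbb.nonneg n
  have key := hQ1 Q hQ (fun n => if 2 ≤ cardFactors n then cf bb n else 0) (ε / 12)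
    (by linarith) (by
      intro n
      show 0 ≤ (if 2 ≤ cardFactors n then cf bb n else 0)
      split_ifs
      · exact hcf0 n
      · exact le_rfl) (by
      intro n hn
      show (if 2 ≤ cardFactors n then cf bb n else 0) = 0
      split_ifs with h2
      · by_contra hne
        obtain ⟨hn0, hsupp⟩ := cf_supp bb n hne
        have hn1 : n ≠ 1 := by
          rintro rfl
          simp at h2
        obtain ⟨p, hp, hpn⟩ := Nat.exists_prime_and_dvd hn1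
        have hpm : p ∈ n.primeFactors := Nat.mem_primeFactors.mpr ⟨hp, hpn, hn0⟩
        have h3 := (hbb.supp p (hsupp p hpm)).2
        have h4 := Nat.le_of_dvd (Nat.pos_of_ne_zero hn0) hpn
        omega
      · rfl) (by
      intro j hj
      have hj1 : 1 ≤ j := by omega
      have ha2 : 2 ≤ j ^ D := by
        calc 2 ≤ j := by omega
          _ ≤ j ^ D := Nat.le_self_pow (by omega) j
      have hab : j ^ D < (j + 1) ^ D := Nat.pow_lt_pow_left (Nat.lt_succ_self j) (by omega)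
      have h3 := h1 J hJ1 bb hbb (j ^ D) ((j + 1) ^ D) ha2 hab (fb_two D j (by omega) hj)
        (fb_len D j (by omega) hj1)
      rw [Finset.sum_filter] at h3
      push_cast at h3
      exact h3) f hf
  have hfun : (fun n : ℕ => (if 2 ≤ cardFactors n then cf bb n else 0) * |f n|) =
      fun n : ℕ => if 2 ≤ cardFactors n then cf bb n * |f n| else 0 := by
    funext n
    split_ifs
    · rfl
    · rw [zero_mul]
  have hs := key.1
  have ht := key.2
  simp only [hfun] at hs ht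
  refine ⟨hs, ht.trans (le_of_eq ?_)⟩
  ring

/-- prime part: `g` has local density `β0 / (log x)^2` -/
theorem fun_prime (lam : ℝ) (B : ℕ) (hB : 2 ≤ B) (hlam : 8 < lam) (hlamB : 6 / lam < 1 / (B : ℝ)) :
    ∃ C : ℝ, 0 < C ∧ ∃ J1 : ℕ, ∀ J : ℕ, J1 ≤ J → ∃ Q0 : ℝ, 0 < Q0 ∧ ∀ Q : ℝ, Q0 ≤ Q →
    ∀ (g : ℕ → ℝ) (β0 A : ℝ), 0 ≤ β0 → Maj g B J β0 A → ∀ f ∈ TV lam Q,
    (Summable fun n : ℕ => g n * |f n|) ∧ ∑' n : ℕ, g n * |f n| ≤ C * β0 * nm lam f := by
  refine ⟨24, by norm_num, 2 * B, ?_⟩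
  intro J hJ
  obtain ⟨Q0, hQ0, hQ1⟩ := fb_gen lam B J hB (by omega) hlam hlamB
  refine ⟨Q0, hQ0, ?_⟩
  intro Q hQ g β0 A hβ0 hg f hf
  have key := hQ1 Q hQ g (2 * β0) (by linarith) hg.nonneg (by
      intro n hn
      by_contra hne
      have := (hg.supp n hne).2
      omega) (by
      intro j hj
      have hj1 : 1 ≤ j := by omega
      have h4 : (j + 1) ^ B ≤ 4 * j ^ B := by
        have := fb_two B j (by omega) (hJ.trans hj)
        omega
      have h3 := hg.h1 (j ^ B) ((j + 1) ^ B) (Nat.pow_le_pow_left hj _)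
        (Nat.pow_le_pow_left (Nat.le_succ j) _) h4
      have h5 := fb_len B j (by omega) hj1
      refine h3.trans ?_
      push_cast at h5 ⊢
      apply div_le_div_of_nonneg_right _ (by positivity)
      nlinarith) f hf
  refine ⟨key.1, key.2.trans (le_of_eq ?_)⟩
  ring

end Pool.Agent.H30.WD
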