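import Pool.Agent.H30.WD.FeExt
import Pool.Agent.H30.WD.Sti
import Pool.Agent.H11.Selberg.LogData
import Pool.Agent.H11.Selberg.Growth
import Pool.Agent.H60.WI.DegAdd

/-! [H30 WD Gro] the exact order of `|F(-A + it)|`; the degree is additive -/

set_option autoImplicit false

namespace Pool.Agent.H30.WD

open H11.Selberg Complex

/-- `F` is bounded above and below on the line `Re s = 1 + A` -/
private lemma line_two (a : ℕ → ℂ) (F : ℂ → ℂ) (h : IsSelberg a F) (A : ℝ) (hA : 0 < A) :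
    ∃ c C : ℝ, 0 < c ∧ 0 < C ∧ ∀ t : ℝ, c ≤ ‖F (1 + (A : ℂ) + t * I)‖ ∧
      ‖F (1 + (A : ℂ) + t * I)‖ ≤ C := by
  obtain ⟨b, θ, C0, hθ, hb, hE⟩ := h.euler
  obtain ⟨-, ⟨K, hK0, hK⟩, hexp⟩ := log_rep a F h.one h.summable h.eq_LSeries b θ C0 hθ hb hE
  have hre : ∀ t : ℝ, (1 + (A : ℂ) + t * I).re = 1 + A := fun t => by simp
  have hs1 : LSeriesSummable (b1 a) (((1 + A : ℝ)) : ℂ) :=
    b1_LSeriesSummable a _ (h.summable _ (by rw [Complex.ofReal_re]; linarith))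
  set K1 : ℝ := ∑' n : ℕ, ‖LSeries.term (b1 a) ((1 + A : ℝ) : ℂ) n‖ with hK1
  have hb : ∀ t : ℝ, ‖LSeries (b1 a) (1 + (A : ℂ) + t * I) + LSeries (b2 b) (1 + (A : ℂ) + t * I)‖ ≤
      K1 + K := by
    intro t
    refine (norm_add_le _ _).trans (add_le_add ?_ (hK _ (by rw [hre]; linarith)))
    have := LSeries_norm_le (b1 a) (1 + (A : ℂ) + t * I) (by rw [hre]; exact hs1)
    rwa [hre] at this
  refine ⟨Real.exp (-(K1 + K)), Real.exp (K1 + K), Real.exp_pos _, Real.exp_pos _, fun t => ?_⟩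
  rw [hexp _ (by rw [hre]; linarith), Complex.norm_exp]
  have h1 := hb t
  have h2 := Complex.abs_re_le_norm (LSeries (b1 a) (1 + (A : ℂ) + t * I) +
    LSeries (b2 b) (1 + (A : ℂ) + t * I))
  have h3 := abs_le.1 (h2.trans h1)
  exact ⟨Real.exp_le_exp.2 h3.1, Real.exp_le_exp.2 h3.2⟩

/-- the quotient of the Gamma factors -/
private lemma prod_two (r : ℕ) (lam : Fin r → ℝ) (hlam : ∀ j, 0 < lam j) (mu : Fin r → ℂ)
    (σ1 σ2 : ℝ) : ∃ c C T : ℝ, 0 < c ∧ 0 < C ∧ 1 ≤ T ∧ ∀ t : ℝ, T ≤ |t| →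
    (∏ j, Gamma (lam j * (σ1 + t * I) + mu j)) ≠ 0 ∧
    c * |t| ^ ((∑ j, lam j) * (σ2 - σ1)) * ‖∏ j, Gamma (lam j * (σ1 + t * I) + mu j)‖ ≤
      ‖∏ j, Gamma (lam j * (σ2 + t * I) + mu j)‖ ∧
    ‖∏ j, Gamma (lam j * (σ2 + t * I) + mu j)‖ ≤
      C * |t| ^ ((∑ j, lam j) * (σ2 - σ1)) * ‖∏ j, Gamma (lam j * (σ1 + t * I) + mu j)‖ := by
  choose c C T hc hC hT hs using fun j => sti (lam j) (hlam j) (mu j) σ1 σ2
  refine ⟨∏ j, c j, ∏ j, C j, 1 + ∑ j, T j, Finset.prod_pos fun j _ => hc j,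
    Finset.prod_pos fun j _ => hC j, ?_, ?_⟩
  · have : 0 ≤ ∑ j, T j := Finset.sum_nonneg fun j _ => by linarith [hT j]
    linarith
  intro t ht
  have hTj : ∀ j, T j ≤ |t| := by
    intro j
    have h1 : T j ≤ ∑ i, T i := Finset.single_le_sum (fun i _ => by linarith [hT i]) (Finset.mem_univ j)
    linarith
  have ht0 : 0 < |t| := by
    have : 0 ≤ ∑ j, T j := Finset.sum_nonneg fun j _ => by linarith [hT j]
    linarith
  have hpow : |t| ^ ((∑ j, lam j) * (σ2 - σ1)) = ∏ j, |t| ^ (lam j * (σ2 - σ1)) := by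
    rw [Finset.sum_mul, Real.rpow_sum_of_pos ht0]
  refine ⟨Finset.prod_ne_zero_iff.2 fun j _ => (hs j t (hTj j)).1, ?_, ?_⟩
  · rw [norm_prod, norm_prod, hpow, ← Finset.prod_mul_distrib, ← Finset.prod_mul_distrib]
    exact Finset.prod_le_prod (fun j _ => by have := hc j; positivity) fun j _ => (hs j t (hTj j)).2.1
  · rw [norm_prod, norm_prod, hpow, ← Finset.prod_mul_distrib, ← Finset.prod_mul_distrib]
    exact Finset.prod_le_prod (fun j _ => norm_nonneg _) fun j _ => (hs j t (hTj j)).2.2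

theorem gro (a : ℕ → ℂ) (F : ℂ → ℂ) (h : IsSelberg a F) (d : ℝ) (hd : HasFE F d) (A : ℝ)
    (hA : 0 < A) : ∃ c C T : ℝ, 0 < c ∧ 0 < C ∧ 1 ≤ T ∧ ∀ t : ℝ, T ≤ |t| →
    c * |t| ^ (d * (1 / 2 + A)) ≤ ‖F (-(A : ℂ) + t * I)‖ ∧
    ‖F (-(A : ℂ) + t * I)‖ ≤ C * |t| ^ (d * (1 / 2 + A)) := by
  obtain ⟨Q, r, lam, mu, ε, hQ, hlam, -, hε, hfe, hdeg⟩ := hd
  obtain ⟨T1, hT1, hfe1⟩ := fe_ext a F h Q r lam mu ε hQ hlam hfe
  obtain ⟨c2, C2, hc2, hC2, hF⟩ := line_two a F h A hA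
  obtain ⟨c3, C3, T3, hc3, hC3, hT3, hG⟩ := prod_two r lam hlam mu (-A) (1 + A)
  set q : ℝ := Q ^ (1 + A) / Q ^ (-A) with hq
  have hq0 : 0 < q := by positivity
  refine ⟨q * c3 * c2, q * C3 * C2, T1 + T3, by positivity, by positivity, by linarith, ?_⟩
  intro t ht
  obtain ⟨g1, g2, g3⟩ := hG t (by linarith)
  obtain ⟨f1, f2⟩ := hF t
  have ht0 : 0 < |t| := by linarith
  have e0 := hfe1 (-(A : ℂ) + t * I) (by simp; linarith)
  have hrefl : 1 - (starRingEnd ℂ) (-(A : ℂ) + t * I) = 1 + (A : ℂ) + t * I := by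
    simp
    ring
  rw [hrefl] at e0
  have e1 := congrArg norm e0
  rw [norm_mul, hε, one_mul, RCLike.norm_conj] at e1
  unfold completed at e1
  rw [norm_mul, norm_mul, norm_mul, norm_mul, Complex.norm_cpow_eq_rpow_re_of_pos hQ,
    Complex.norm_cpow_eq_rpow_re_of_pos hQ] at e1
  have r1 : (-(A : ℂ) + t * I).re = -A := by simp
  have r2 : (1 + (A : ℂ) + t * I).re = 1 + A := by simp
  rw [r1, r2] at e1
  have s1 : (((-A : ℝ)) : ℂ) = -(A : ℂ) := by push_cast; rfl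
  have s2 : (((1 + A : ℝ)) : ℂ) = 1 + (A : ℂ) := by push_cast; rfl
  rw [s1] at g1 g2 g3
  rw [s2] at g2 g3
  have hexp : (∑ j, lam j) * (1 + A - -A) = d * (1 / 2 + A) := by
    rw [hdeg]
    ring
  rw [hexp] at g2 g3
  set P1 : ℝ := ‖∏ j, Gamma (lam j * (-(A : ℂ) + t * I) + mu j)‖ with hP1
  set P2 : ℝ := ‖∏ j, Gamma (lam j * (1 + (A : ℂ) + t * I) + mu j)‖ with hP2
  have hP1pos : 0 < P1 := norm_pos_iff.2 g1
  have hQA : 0 < Q ^ (-A) := by positivity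
  have hQB : 0 < Q ^ (1 + A) := by positivity
  have key : ‖F (-(A : ℂ) + t * I)‖ = q * (P2 / P1) * ‖F (1 + (A : ℂ) + t * I)‖ := by
    rw [hq]
    field_simp
    linarith
  have k1 : c3 * |t| ^ (d * (1 / 2 + A)) ≤ P2 / P1 := by
    rw [le_div_iff₀ hP1pos]
    exact g2
  have k2 : P2 / P1 ≤ C3 * |t| ^ (d * (1 / 2 + A)) := by
    rw [div_le_iff₀ hP1pos]
    exact g3
  have hpw : 0 < |t| ^ (d * (1 / 2 + A)) := Real.rpow_pos_of_pos ht0 _
  rw [key]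
  constructor
  · calc q * c3 * c2 * |t| ^ (d * (1 / 2 + A)) = q * (c3 * |t| ^ (d * (1 / 2 + A))) * c2 := by ring
      _ ≤ q * (P2 / P1) * ‖F (1 + (A : ℂ) + t * I)‖ := by gcongr
  · calc q * (P2 / P1) * ‖F (1 + (A : ℂ) + t * I)‖ ≤ q * (C3 * |t| ^ (d * (1 / 2 + A))) * C2 := by
          gcongr
      _ = q * C3 * C2 * |t| ^ (d * (1 / 2 + A)) := by ring

/-- in a product of `k` elements of the class the degrees of the factors add up -/
theorem deg_add (k : ℕ) (a : ℕ → ℂ) (F : ℂ → ℂ) (h : IsSelberg a F) (f : Fin k → ℕ → ℂ)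
    (Φ : Fin k → ℂ → ℂ) (hf : ∀ i, IsSelberg (f i) (Φ i))
    (hprod : ∀ s : ℂ, 1 < s.re → F s = ∏ i, Φ i s) (d : ℝ) (hd : HasFE F d) (e : Fin k → ℝ)
    (he : ∀ i, HasFE (Φ i) (e i)) : d = ∑ i, e i := by
  exact Pool.Agent.H60.WI.deg_add_of (fun a F h d hd A hA => gro a F h d hd A hA) k a F h f Φ hf
    hprod d hd e he

end Pool.Agent.H30.WD
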