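import Pool.Agent.H30.WD.Defs

/-! [H30 WD HB] STEP 4: Hahn-Banach in weighted `l^1` -/

set_option autoImplicit false

namespace Pool.Agent.H30.WD

theorem hb (V : Submodule ℝ (ℝ → ℝ)) (W : ℕ → ℝ) (hW : ∀ n, 0 ≤ W n)
    (hs : ∀ f ∈ V, Summable fun n : ℕ => W n * |f n|) (l : (ℝ → ℝ) → ℝ)
    (hadd : ∀ f ∈ V, ∀ g ∈ V, l (f + g) = l f + l g) (hsmul : ∀ (t : ℝ), ∀ f ∈ V, l (t • f) = t * l f)
    (M : ℝ) (hM : 0 ≤ M) (hl : ∀ f ∈ V, |l f| ≤ M * ∑' n : ℕ, W n * |f n|) :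
    ∃ d : ℕ → ℝ, (∀ n, |d n| ≤ M * W n) ∧ ∀ f ∈ V, (Summable fun n : ℕ => d n * f n) ∧
      ∑' n : ℕ, d n * f n = l f := by
  classical
  have h1 : (1 : ENNReal).toReal = 1 := by simp
  have hmem : ∀ f : V, Memℓp (fun n : ℕ => W n * (f : ℝ → ℝ) n) 1 := by
    intro f
    refine memℓp_gen ?_
    refine (hs f.1 f.2).congr fun n => ?_
    rw [h1, Real.rpow_one, Real.norm_eq_abs, abs_mul, abs_of_nonneg (hW n)]
  let T : V →ₗ[ℝ] lp (fun _ : ℕ => ℝ) 1 :=
    { toFun := fun f => ⟨fun n => W n * (f : ℝ → ℝ) n, hmem f⟩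
      map_add' := by
        intro f g
        refine lp.ext (funext fun n => ?_)
        show W n * ((f : ℝ → ℝ) n + (g : ℝ → ℝ) n) = W n * (f : ℝ → ℝ) n + W n * (g : ℝ → ℝ) n
        ring
      map_smul' := by
        intro t f
        refine lp.ext (funext fun n => ?_)
        show W n * (t * (f : ℝ → ℝ) n) = t * (W n * (f : ℝ → ℝ) n)
        ring }
  have hTn : ∀ f : V, ‖T f‖ = ∑' n : ℕ, W n * |(f : ℝ → ℝ) n| := by
    intro f
    rw [lp.norm_eq_tsum_rpow (by rw [h1]; norm_num), h1, div_one, Real.rpow_one]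
    refine tsum_congr fun n => ?_
    rw [Real.rpow_one]
    show |W n * (f : ℝ → ℝ) n| = _
    rw [abs_mul, abs_of_nonneg (hW n)]
  let L : V →ₗ[ℝ] ℝ :=
    { toFun := fun f => l (f : ℝ → ℝ)
      map_add' := fun f g => hadd f.1 f.2 g.1 g.2
      map_smul' := fun t f => hsmul t f.1 f.2 }
  have hL : ∀ f : V, |L f| ≤ M * ‖T f‖ := by
    intro f
    rw [hTn f]
    exact hl f.1 f.2
  have hker : LinearMap.ker T ≤ LinearMap.ker L := by
    intro f hf
    rw [LinearMap.mem_ker] at hf ⊢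
    have := hL f
    rw [hf, norm_zero, mul_zero] at this
    exact abs_nonpos_iff.mp this
  let g0 : LinearMap.range T →ₗ[ℝ] ℝ :=
    ((LinearMap.ker T).liftQ L hker).comp T.quotKerEquivRange.symm.toLinearMap
  have hg0 : ∀ f : V, g0 ⟨T f, LinearMap.mem_range_self T f⟩ = L f := by
    intro f
    show (LinearMap.ker T).liftQ L hker (T.quotKerEquivRange.symm ⟨T f, LinearMap.mem_range_self T f⟩) = L f
    rw [LinearMap.quotKerEquivRange_symm_apply_image]
    rfl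
  obtain ⟨g, hg, hgM⟩ := exists_extension_of_le_sublinear (⟨LinearMap.range T, g0⟩ :
      lp (fun _ : ℕ => ℝ) 1 →ₗ.[ℝ] ℝ) (fun x => M * ‖x‖)
    (by
      intro c hc x
      show M * ‖c • x‖ = c * (M * ‖x‖)
      rw [norm_smul, Real.norm_eq_abs, abs_of_pos hc]
      ring)
    (by
      intro x y
      show M * ‖x + y‖ ≤ M * ‖x‖ + M * ‖y‖
      rw [← mul_add]
      exact mul_le_mul_of_nonneg_left (norm_add_le x y) hM)
    (by
      rintro ⟨x, f, rfl⟩
      show g0 ⟨T f, _⟩ ≤ M * ‖T f‖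
      rw [hg0 f]
      exact (le_abs_self _).trans (hL f))
  have hgA : ∀ x, |g x| ≤ M * ‖x‖ := by
    intro x
    refine abs_le.mpr ⟨?_, hgM x⟩
    have := hgM (-x)
    simp only [map_neg, norm_neg] at this
    linarith
  let G : lp (fun _ : ℕ => ℝ) 1 →L[ℝ] ℝ := g.mkContinuous M (fun x => by
    rw [Real.norm_eq_abs]; exact hgA x)
  have hGg : ∀ x, G x = g x := fun x => rfl
  refine ⟨fun n => W n * g (lp.single 1 n 1), ?_, ?_⟩
  · intro n
    rw [abs_mul, abs_of_nonneg (hW n), mul_comm]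
    refine mul_le_mul_of_nonneg_right ?_ (hW n)
    refine (hgA _).trans ?_
    rw [lp.norm_single (by norm_num)]
    simp
  · intro f hf
    have h2 : HasSum (fun n : ℕ => G (lp.single 1 n (T ⟨f, hf⟩ n))) (G (T ⟨f, hf⟩)) :=
      (lp.hasSum_single (by norm_num) (T ⟨f, hf⟩)).mapL G
    have h3 : G (T ⟨f, hf⟩) = l f := by
      rw [hGg]
      have := hg ⟨T ⟨f, hf⟩, LinearMap.mem_range_self T _⟩
      rw [show g (T ⟨f, hf⟩) = g0 ⟨T ⟨f, hf⟩, LinearMap.mem_range_self T _⟩ from this, hg0]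
      rfl
    rw [h3] at h2
    have h4 : HasSum (fun n : ℕ => W n * g (lp.single 1 n 1) * f n) (l f) := by
      refine h2.congr_fun ?_
      intro n
      rw [hGg]
      have h5 : (lp.single 1 n (T ⟨f, hf⟩ n) : lp (fun _ : ℕ => ℝ) 1) =
          (W n * f n) • lp.single 1 n (1 : ℝ) := by
        rw [← lp.single_smul, smul_eq_mul, mul_one]
        rfl
      rw [h5, map_smul, smul_eq_mul]
      ring
    exact ⟨h4.summable, h4.tsum_eq⟩

end Pool.Agent.H30.WD
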