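import Pool.Agent.H30.WD.Defs

/-! [H30 WD Inp] CHAPTER H, main theorem: primes between consecutive `B`-th powers for some `B`
(from primes in all intervals `[x, x + x^(1-d0)]`) -/

set_option autoImplicit false

namespace Pool.Agent.H30.WD

/-- primes in all short intervals of length `x^(1-δ)`, up to logarithms -/
theorem short : ∃ δ A x0 : ℝ, 0 < δ ∧ δ < 1 ∧ 0 ≤ A ∧ 10 ≤ x0 ∧ ∀ x : ℝ, x0 ≤ x →
    x ^ (1 - δ) / Real.log x ^ A ≤
      (((Finset.Ioc ⌊x⌋₊ ⌊x + x ^ (1 - δ)⌋₊).filter Nat.Prime).card : ℝ) := by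
  sorry

theorem input : ∃ (B J0 : ℕ) (A : ℝ), Input B J0 A := by
  sorry

end Pool.Agent.H30.WD
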