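import Pool.Agent.H30.WD.Defs

/-!
# [H30 WD InpS] CHAPTER H: primes between consecutive `B`-th powers from primes in all intervals
`(x, x + x^(1-δ)]` (helper1)

`B δ ≥ 1 + δ`; `(j^B, (j+1)^B]` contains many disjoint intervals `(y_k, y_k + y_k^(1-δ)]`,
`y_k = j^B + k H`, `H = ((j+1)^B)^(1-δ)`.
-/

set_option autoImplicit false

namespace Pool.Agent.H30.WD

lemma pow_succ_sub_pow_ge (B j : ℕ) (hB : 2 ≤ B) :
    2 * (j : ℝ) ^ (B - 1) ≤ ((j : ℝ) + 1) ^ B - (j : ℝ) ^ B := by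
  obtain ⟨c, rfl⟩ : ∃ c, B = c + 2 := ⟨B - 2, by omega⟩
  have h1 : c + 2 - 1 = c + 1 := by omega
  rw [h1]
  have hj : (0 : ℝ) ≤ j := Nat.cast_nonneg j
  have h2 : ∀ m : ℕ, (j : ℝ) ^ m ≤ ((j : ℝ) + 1) ^ m := fun m =>
    pow_le_pow_left₀ hj (by linarith) m
  -- (j+1)^(c+1) ≥ j^(c+1) + j^c
  have h3 : (j : ℝ) ^ (c + 1) + (j : ℝ) ^ c ≤ ((j : ℝ) + 1) ^ (c + 1) := by
    have := h2 c
    have e1 : ((j : ℝ) + 1) ^ (c + 1) = ((j : ℝ) + 1) ^ c * (j + 1) := pow_succ _ _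
    have e2 : (j : ℝ) ^ (c + 1) = (j : ℝ) ^ c * j := pow_succ _ _
    rw [e1, e2]
    nlinarith [pow_nonneg hj c]
  have e1 : ((j : ℝ) + 1) ^ (c + 2) = ((j : ℝ) + 1) ^ (c + 1) * (j + 1) := pow_succ _ _
  have e2 : (j : ℝ) ^ (c + 2) = (j : ℝ) ^ (c + 1) * j := pow_succ _ _
  have e3 : (j : ℝ) ^ (c + 1) = (j : ℝ) ^ c * j := pow_succ _ _
  have h4 : ((j : ℝ) ^ (c + 1) + (j : ℝ) ^ c) * (j + 1) ≤ ((j : ℝ) + 1) ^ (c + 1) * (j + 1) := by
    gcongr
  rw [e1, e2]
  have h5 : (0 : ℝ) ≤ (j : ℝ) ^ c := pow_nonneg hj c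
  nlinarith

theorem input_of_short (hs : ∃ δ A x0 : ℝ, 0 < δ ∧ δ < 1 ∧ 0 ≤ A ∧ 10 ≤ x0 ∧ ∀ x : ℝ, x0 ≤ x →
    x ^ (1 - δ) / Real.log x ^ A ≤
      (((Finset.Ioc ⌊x⌋₊ ⌊x + x ^ (1 - δ)⌋₊).filter Nat.Prime).card : ℝ)) :
    ∃ (B J0 : ℕ) (A : ℝ), Input B J0 A := by
  obtain ⟨δ, A, x0, hδ, hδ1, hA, hx0, hs⟩ := hs
  set B : ℕ := ⌈1 / δ⌉₊ + 1 with hBdef
  have hBδ : 1 + δ ≤ (B : ℝ) * δ := by
    have h1 : 1 / δ ≤ (⌈1 / δ⌉₊ : ℝ) := Nat.le_ceil _
    rw [hBdef]
    push_cast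
    rw [div_le_iff₀ hδ] at h1
    nlinarith
  have hB2 : 2 ≤ B := by
    have h1 : 0 < ⌈1 / δ⌉₊ := Nat.ceil_pos.mpr (by positivity)
    omega
  have ev1 : ∀ᶠ j : ℕ in Filter.atTop, (2 : ℝ) ^ (B - 1) ≤ (2 * (j : ℝ)) ^ δ := by
    have h1 : Filter.Tendsto (fun j : ℕ => (2 * (j : ℝ)) ^ δ) Filter.atTop Filter.atTop :=
      (tendsto_rpow_atTop hδ).comp
        (Filter.Tendsto.const_mul_atTop two_pos tendsto_natCast_atTop_atTop)
    exact h1.eventually_ge_atTop _
  have ev2 : ∀ᶠ j : ℕ in Filter.atTop,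
      (2 : ℝ) ^ B * (2 * (B : ℝ)) ^ A ≤ Real.log j := by
    exact (Real.tendsto_log_atTop.comp tendsto_natCast_atTop_atTop).eventually_ge_atTop _
  have ev3 : ∀ᶠ j : ℕ in Filter.atTop, x0 ≤ (j : ℝ) :=
    tendsto_natCast_atTop_atTop.eventually_ge_atTop _
  obtain ⟨J0, hJ0⟩ := Filter.eventually_atTop.mp (ev1.and (ev2.and ev3))
  refine ⟨B, max J0 3, A + 1, hB2, le_max_right _ _, by linarith, ?_⟩
  intro j hj
  have hj3 : 3 ≤ j := (le_max_right _ _).trans hj
  obtain ⟨h1, h2, h3⟩ := hJ0 j ((le_max_left _ _).trans hj)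
  have hjR : (3 : ℝ) ≤ j := by exact_mod_cast hj3
  have hj0 : (0 : ℝ) < j := by linarith
  have hlogj : 0 < Real.log j := Real.log_pos (by linarith)
  have hB0 : (0 : ℝ) < B := by
    have : 0 < B := by omega
    exact_mod_cast this
  have hB2R : (2 : ℝ) ≤ B := by exact_mod_cast hB2
  -- the step
  set H : ℝ := (((j : ℝ) + 1) ^ B) ^ (1 - δ) with hH
  have hHpos : 0 < H := by positivity
  have h1δ : 0 < 1 - δ := by linarith
  have hHle : H ≤ (j : ℝ) ^ (B - 1) := by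
    have e1 : H = ((j : ℝ) + 1) ^ ((B : ℝ) * (1 - δ)) := by
      rw [hH, ← Real.rpow_natCast, ← Real.rpow_mul (by linarith)]
    have e2 : ((j : ℝ) + 1) ^ ((B : ℝ) * (1 - δ)) ≤ (2 * (j : ℝ)) ^ ((B : ℝ) * (1 - δ)) := by
      apply Real.rpow_le_rpow (by linarith) (by linarith)
      positivity
    have e3 : (2 * (j : ℝ)) ^ ((B : ℝ) * (1 - δ)) ≤ (2 * (j : ℝ)) ^ (((B - 1 : ℕ) : ℝ) - δ) := by
      apply Real.rpow_le_rpow_of_exponent_le (by linarith)
      rw [Nat.cast_sub (by omega)]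
      push_cast
      nlinarith
    have e4 : (2 * (j : ℝ)) ^ (((B - 1 : ℕ) : ℝ) - δ) = 2 ^ (B - 1) * (j : ℝ) ^ (B - 1) /
        (2 * (j : ℝ)) ^ δ := by
      rw [Real.rpow_sub (by linarith), Real.rpow_natCast, mul_pow]
    rw [e1]
    refine e2.trans (e3.trans ?_)
    rw [e4, div_le_iff₀ (by positivity), mul_comm]
    gcongr
  have hL := pow_succ_sub_pow_ge B j hB2
  set L : ℝ := ((j : ℝ) + 1) ^ B - (j : ℝ) ^ B with hLdef
  have hjB : 0 < (j : ℝ) ^ (B - 1) := by positivity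
  set K : ℕ := ⌊L / H⌋₊ with hK
  have hKle : (K : ℝ) * H ≤ L := by
    have := Nat.floor_le (show 0 ≤ L / H by
      have : 0 ≤ L := by linarith
      positivity)
    rw [← hK, le_div_iff₀ hHpos] at this
    exact this
  have hKge : (j : ℝ) ^ (B - 1) ≤ (K : ℝ) * H := by
    have h4 := Nat.lt_floor_add_one (L / H)
    rw [← hK, div_lt_iff₀ hHpos] at h4
    nlinarith
  -- the points
  set y : ℕ → ℝ := fun k => (j : ℝ) ^ B + k * H with hy
  have hyge : ∀ k, (j : ℝ) ^ B ≤ y k := by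
    intro k
    rw [hy]
    have : 0 ≤ (k : ℝ) * H := by positivity
    linarith
  have hypos : ∀ k, 0 < y k := fun k => lt_of_lt_of_le (by positivity) (hyge k)
  have hyle : ∀ k, k < K → y k ≤ ((j : ℝ) + 1) ^ B := by
    intro k hk
    have h4 : (k : ℝ) ≤ K := by exact_mod_cast hk.le
    have h5 : (k : ℝ) * H ≤ K * H := by gcongr
    rw [hy]
    simp only
    linarith
  have hstep : ∀ k, k < K → y k + y k ^ (1 - δ) ≤ y (k + 1) := by
    intro k hk
    have h4 : y k ^ (1 - δ) ≤ H := by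
      rw [hH]
      exact Real.rpow_le_rpow (hypos k).le (hyle k hk) h1δ.le
    have h5 : y (k + 1) = y k + H := by
      rw [hy]
      push_cast
      ring
    linarith
  have hyend : ∀ k, k < K → y (k + 1) ≤ ((j : ℝ) + 1) ^ B := by
    intro k hk
    have h4 : ((k + 1 : ℕ) : ℝ) ≤ K := by exact_mod_cast hk
    have h5 : ((k + 1 : ℕ) : ℝ) * H ≤ K * H := by gcongr
    rw [hy]
    simp only
    linarith
  have hymono : Monotone y := by
    intro a b hab
    rw [hy]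
    simp only
    have : (a : ℝ) ≤ b := by exact_mod_cast hab
    have : (a : ℝ) * H ≤ b * H := by gcongr
    linarith
  set S : ℕ → Finset ℕ := fun k =>
    (Finset.Ioc ⌊y k⌋₊ ⌊y k + y k ^ (1 - δ)⌋₊).filter Nat.Prime with hS
  have hmem : ∀ k p, p ∈ S k → y k < p ∧ (p : ℝ) ≤ y k + y k ^ (1 - δ) := by
    intro k p hp
    rw [hS] at hp
    simp only [Finset.mem_filter, Finset.mem_Ioc] at hp
    have := hypos k
    refine ⟨(Nat.floor_lt (hypos k).le).mp hp.1.1, ?_⟩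
    exact (Nat.le_floor_iff (by positivity)).mp hp.1.2
  have hdisj : ((Finset.range K : Finset ℕ) : Set ℕ).PairwiseDisjoint S := by
    intro a ha b hb hab
    have ha' : a < K := by simpa using ha
    have hb' : b < K := by simpa using hb
    rw [Function.onFun, Finset.disjoint_left]
    intro p hpa hpb
    obtain ⟨a1, a2⟩ := hmem a p hpa
    obtain ⟨b1, b2⟩ := hmem b p hpb
    rcases lt_or_gt_of_ne hab with h | h
    · have := hymono (show a + 1 ≤ b from h)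
      have := hstep a ha'
      linarith
    · have := hymono (show b + 1 ≤ a from h)
      have := hstep b hb'
      linarith
  have hsub : (Finset.range K).biUnion S ⊆
      (Finset.Ioc (j ^ B) ((j + 1) ^ B)).filter Nat.Prime := by
    intro p hp
    rw [Finset.mem_biUnion] at hp
    obtain ⟨k, hk, hpk⟩ := hp
    have hk' : k < K := by simpa using hk
    obtain ⟨a1, a2⟩ := hmem k p hpk
    have hpr : p.Prime := by
      rw [hS] at hpk
      exact (Finset.mem_filter.mp hpk).2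
    rw [Finset.mem_filter, Finset.mem_Ioc]
    refine ⟨⟨?_, ?_⟩, hpr⟩
    · have h4 : ((j ^ B : ℕ) : ℝ) < p := by
        push_cast
        exact lt_of_le_of_lt (hyge k) a1
      exact_mod_cast h4
    · have h4 : (p : ℝ) ≤ (((j + 1) ^ B : ℕ) : ℝ) := by
        push_cast
        exact a2.trans ((hstep k hk').trans (hyend k hk'))
      exact_mod_cast h4
  have hcard : ∑ k ∈ Finset.range K, ((S k).card : ℝ) ≤ (Nc B j : ℝ) := by
    have h4 := Finset.card_le_card hsub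
    rw [Finset.card_biUnion hdisj] at h4
    have h5 : ((∑ k ∈ Finset.range K, (S k).card : ℕ) : ℝ) ≤ (Nc B j : ℝ) := by
      exact_mod_cast h4
    rw [Nat.cast_sum] at h5
    exact h5
  -- lower bound for each
  have hlow : ∀ k ∈ Finset.range K, H / ((2 : ℝ) ^ B * (2 * B * Real.log j) ^ A) ≤
      ((S k).card : ℝ) := by
    intro k hk
    have hk' : k < K := by simpa using hk
    have h4 : x0 ≤ y k := by
      refine h3.trans (le_trans ?_ (hyge k))
      exact le_self_pow₀ (by linarith) (by omega)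
    refine le_trans ?_ (hs (y k) h4)
    have h5 : H ≤ 2 ^ B * y k ^ (1 - δ) := by
      have h6 : ((j : ℝ) + 1) ^ B ≤ 2 ^ B * y k := by
        calc ((j : ℝ) + 1) ^ B ≤ (2 * (j : ℝ)) ^ B := by gcongr; linarith
          _ = 2 ^ B * (j : ℝ) ^ B := mul_pow _ _ _
          _ ≤ 2 ^ B * y k := by gcongr; exact hyge k
      calc H ≤ (2 ^ B * y k) ^ (1 - δ) := Real.rpow_le_rpow (by positivity) h6 h1δ.le
        _ = ((2 : ℝ) ^ B) ^ (1 - δ) * y k ^ (1 - δ) := Real.mul_rpow (by positivity) (hypos k).le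
        _ ≤ (2 : ℝ) ^ B * y k ^ (1 - δ) := by
            gcongr
            have h7 : (1 : ℝ) ≤ 2 ^ B := one_le_pow₀ (by norm_num)
            calc ((2 : ℝ) ^ B) ^ (1 - δ) ≤ ((2 : ℝ) ^ B) ^ (1 : ℝ) :=
                  Real.rpow_le_rpow_of_exponent_le h7 (by linarith)
              _ = 2 ^ B := Real.rpow_one _
    have hy1 : 1 < y k := by linarith
    have hlogy : 0 < Real.log (y k) := Real.log_pos hy1
    have h8 : Real.log (y k) ≤ 2 * B * Real.log j := by
      have h9 : y k ≤ ((j : ℝ) ^ 2) ^ B := by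
        refine (hyle k hk').trans ?_
        gcongr
        nlinarith
      calc Real.log (y k) ≤ Real.log (((j : ℝ) ^ 2) ^ B) := Real.log_le_log (hypos k) h9
        _ = 2 * B * Real.log j := by
            rw [Real.log_pow, Real.log_pow]
            push_cast
            ring
    rw [div_le_div_iff₀ (by positivity) (by positivity)]
    calc H * Real.log (y k) ^ A ≤ (2 ^ B * y k ^ (1 - δ)) * (2 * B * Real.log j) ^ A := by
          gcongr
      _ = y k ^ (1 - δ) * (2 ^ B * (2 * B * Real.log j) ^ A) := by ring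
  have hsum : (K : ℝ) * (H / ((2 : ℝ) ^ B * (2 * B * Real.log j) ^ A)) ≤ (Nc B j : ℝ) := by
    refine le_trans ?_ hcard
    have := Finset.sum_le_sum hlow
    rw [Finset.sum_const, Finset.card_range, nsmul_eq_mul] at this
    exact this
  refine le_trans ?_ hsum
  rw [← mul_div_assoc, Real.mul_rpow (by positivity) hlogj.le, Real.rpow_add hlogj, Real.rpow_one,
    div_le_div_iff₀ (by positivity) (by positivity)]
  have hlA : 0 < Real.log j ^ A := by positivity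
  calc (j : ℝ) ^ (B - 1) * (2 ^ B * ((2 * B) ^ A * Real.log j ^ A))
      = (2 ^ B * (2 * B) ^ A) * ((j : ℝ) ^ (B - 1) * Real.log j ^ A) := by ring
    _ ≤ Real.log j * ((K : ℝ) * H * Real.log j ^ A) := by gcongr
    _ = (K : ℝ) * H * (Real.log j ^ A * Real.log j) := by ring

end Pool.Agent.H30.WD
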