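import Pool.Agent.H30.WD.Defs

/-!
# [H30 WD KyM] CHAPTER A: the Mellin transforms of the elements of `TV lam 1` (helper1)

For `f ∈ TV lam 1` there is an entire `h`, bounded in the strip `0 ≤ Re s ≤ 1`, `h (1-s) = -h s`, such
that `f` has Mellin transform `Γ(lam s) h(s)` and `x f'(x)` has Mellin transform `-s Γ(lam s) h(s)`
for `Re s > 0`.
-/

set_option autoImplicit false

namespace Pool.Agent.H30.WD

open MeasureTheory Set

/-- the kernel `exp (-x^(1/lam))` -/
noncomputable def kk (lam x : ℝ) : ℝ := Real.exp (-(x ^ (1 / lam)))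

/-- `x` times the derivative of the kernel -/
noncomputable def kd (lam x : ℝ) : ℝ := -(1 / lam) * (x ^ (1 / lam) * Real.exp (-(x ^ (1 / lam))))

lemma hasMellin_congr (f g : ℝ → ℂ) (s m : ℂ) (he : EqOn f g (Ioi 0)) (h : HasMellin f s m) :
    HasMellin g s m := by
  constructor
  · refine (h.1 : IntegrableOn _ _ _).congr_fun ?_ measurableSet_Ioi
    intro t ht
    simp only
    rw [he ht]
  · rw [← h.2, mellin, mellin]
    refine setIntegral_congr_fun measurableSet_Ioi ?_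
    intro t ht
    simp only
    rw [he ht]

lemma hasMellin_exp (s : ℂ) (hs : 0 < s.re) :
    HasMellin (fun x : ℝ => ((Real.exp (-x) : ℝ) : ℂ)) s (Complex.Gamma s) := by
  constructor
  · have := Complex.GammaIntegral_convergent hs
    refine this.congr_fun ?_ measurableSet_Ioi
    intro x _
    simp only [smul_eq_mul]
    rw [mul_comm]
  · rw [Complex.Gamma_eq_integral hs, Complex.GammaIntegral_eq_mellin]

lemma hasMellin_exp1 (s : ℂ) (hs : 0 < s.re) :
    HasMellin (fun x : ℝ => ((x * Real.exp (-x) : ℝ) : ℂ)) s (Complex.Gamma (s + 1)) := by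
  have h1 : 0 < (s + 1).re := by simp; linarith
  obtain ⟨h2, h3⟩ := hasMellin_exp (s + 1) h1
  have h4 : MellinConvergent (fun t : ℝ => (t : ℂ) ^ (1 : ℂ) • ((Real.exp (-t) : ℝ) : ℂ)) s :=
    MellinConvergent.cpow_smul.mpr h2
  have h5 := mellin_cpow_smul (fun t : ℝ => ((Real.exp (-t) : ℝ) : ℂ)) s 1
  have h6 : (fun t : ℝ => (t : ℂ) ^ (1 : ℂ) • ((Real.exp (-t) : ℝ) : ℂ)) =
      fun x : ℝ => ((x * Real.exp (-x) : ℝ) : ℂ) := by
    funext t
    rw [Complex.cpow_one, smul_eq_mul]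
    push_cast
    rfl
  rw [h6] at h4 h5
  exact ⟨h4, h5.trans h3⟩

lemma hasMellin_kk (lam : ℝ) (hlam : 0 < lam) (s : ℂ) (hs : 0 < s.re) :
    HasMellin (fun x : ℝ => ((kk lam x : ℝ) : ℂ)) s (lam * Complex.Gamma (lam * s)) := by
  have ha : (1 / lam : ℝ) ≠ 0 := by positivity
  have e : s / ((1 / lam : ℝ) : ℂ) = lam * s := by
    push_cast
    have : (lam : ℂ) ≠ 0 := by exact_mod_cast hlam.ne'
    field_simp
  have hs' : 0 < (lam * s : ℂ).re := by
    simp
    positivity
  obtain ⟨h1, h2⟩ := hasMellin_exp (lam * s) hs'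
  constructor
  · have := (MellinConvergent.comp_rpow (f := fun x : ℝ => ((Real.exp (-x) : ℝ) : ℂ)) (s := s) ha).mpr
      (by rw [e]; exact h1)
    exact this
  · have := mellin_comp_rpow (fun x : ℝ => ((Real.exp (-x) : ℝ) : ℂ)) s (1 / lam)
    rw [e, h2] at this
    have h3 : |1 / lam|⁻¹ = lam := by
      rw [abs_of_pos (by positivity)]
      simp
    rw [h3] at this
    rw [show (fun x : ℝ => ((kk lam x : ℝ) : ℂ)) =
      fun t : ℝ => (fun x : ℝ => ((Real.exp (-x) : ℝ) : ℂ)) (t ^ (1 / lam)) from rfl, this]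
    simp

lemma hasMellin_kd (lam : ℝ) (hlam : 0 < lam) (s : ℂ) (hs : 0 < s.re) :
    HasMellin (fun x : ℝ => ((kd lam x : ℝ) : ℂ)) s (-s * (lam * Complex.Gamma (lam * s))) := by
  have ha : (1 / lam : ℝ) ≠ 0 := by positivity
  have hl : (lam : ℂ) ≠ 0 := by exact_mod_cast hlam.ne'
  have e : s / ((1 / lam : ℝ) : ℂ) = lam * s := by
    push_cast
    field_simp
  have hs' : 0 < (lam * s : ℂ).re := by
    simp
    positivity
  obtain ⟨h1, h2⟩ := hasMellin_exp1 (lam * s) hs'
  have hne : (lam * s : ℂ) ≠ 0 := by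
    intro h0
    rw [h0] at hs'
    simp at hs'
  have h3 : |1 / lam|⁻¹ = lam := by
    rw [abs_of_pos (by positivity)]
    simp
  have hc : HasMellin (fun t : ℝ => (fun x : ℝ => ((x * Real.exp (-x) : ℝ) : ℂ)) (t ^ (1 / lam))) s
      (lam * Complex.Gamma (lam * s + 1)) := by
    constructor
    · exact (MellinConvergent.comp_rpow (f := fun x : ℝ => ((x * Real.exp (-x) : ℝ) : ℂ)) (s := s)
        ha).mpr (by rw [e]; exact h1)
    · have := mellin_comp_rpow (fun x : ℝ => ((x * Real.exp (-x) : ℝ) : ℂ)) s (1 / lam)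
      rw [e, h2, h3] at this
      rw [this]
      simp
  have h4 := hasMellin_const_smul hc.1 (-(1 / lam : ℂ))
  have h5 : (fun x : ℝ => ((kd lam x : ℝ) : ℂ)) = fun t : ℝ => (-(1 / lam : ℂ)) •
      (fun t : ℝ => (fun x : ℝ => ((x * Real.exp (-x) : ℝ) : ℂ)) (t ^ (1 / lam))) t := by
    funext t
    simp only [kd, smul_eq_mul]
    push_cast
    ring
  rw [h5]
  refine ⟨h4.1, h4.2.trans ?_⟩
  rw [hc.2, Complex.Gamma_add_one _ hne, smul_eq_mul]
  field_simp

lemma hasMellin_scale (g : ℝ → ℝ) (s m : ℂ) (h : HasMellin (fun x : ℝ => ((g x : ℝ) : ℂ)) s m)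
    (y : ℝ) (hy : 0 < y) (b : ℝ) :
    HasMellin (fun x : ℝ => ((Real.exp (b * Real.log y) * g (y * x) : ℝ) : ℂ)) s
      (Complex.exp ((b - s) * Real.log y) * m) := by
  have h1 : MellinConvergent (fun x : ℝ => ((g (y * x) : ℝ) : ℂ)) s :=
    (MellinConvergent.comp_mul_left (f := fun x : ℝ => ((g x : ℝ) : ℂ)) hy).mpr h.1
  have h2 := mellin_comp_mul_left (fun x : ℝ => ((g x : ℝ) : ℂ)) s hy
  rw [h.2] at h2
  have h3 := hasMellin_const_smul h1 ((Real.exp (b * Real.log y) : ℝ) : ℂ)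
  have h4 : (fun x : ℝ => ((Real.exp (b * Real.log y) * g (y * x) : ℝ) : ℂ)) =
      fun t : ℝ => ((Real.exp (b * Real.log y) : ℝ) : ℂ) • (fun x : ℝ => ((g (y * x) : ℝ) : ℂ)) t := by
    funext t
    simp only [smul_eq_mul]
    push_cast
    ring
  rw [h4]
  refine ⟨h3.1, h3.2.trans ?_⟩
  rw [h2, smul_eq_mul, smul_eq_mul, Complex.cpow_def_of_ne_zero (by exact_mod_cast hy.ne'),
    ← Complex.ofReal_log hy.le, Complex.ofReal_exp, ← mul_assoc, ← Complex.exp_add]
  congr 2
  push_cast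
  ring

/-- the statement proved by induction over the span -/
def MelP (lam : ℝ) (f : ℝ → ℝ) : Prop :=
  ∃ (h : ℂ → ℂ) (g : ℝ → ℝ), Differentiable ℂ h ∧
    (∃ K : ℝ, ∀ s : ℂ, 0 ≤ s.re → s.re ≤ 1 → ‖h s‖ ≤ K) ∧ (∀ s : ℂ, h (1 - s) = -h s) ∧
    (∀ x : ℝ, 0 < x → HasDerivAt f (g x) x) ∧ ContinuousOn g (Ioi 0) ∧
    ∀ s : ℂ, 0 < s.re →
      HasMellin (fun x : ℝ => ((f x : ℝ) : ℂ)) s (Complex.Gamma (lam * s) * h s) ∧
      HasMellin (fun x : ℝ => ((x * g x : ℝ) : ℂ)) s (-s * (Complex.Gamma (lam * s) * h s))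

lemma hasDerivAt_kk (lam x : ℝ) (hx : 0 < x) : HasDerivAt (kk lam) (kd lam x / x) x := by
  unfold kk
  have h1 : HasDerivAt (fun x : ℝ => x ^ (1 / lam)) ((1 / lam) * x ^ (1 / lam - 1)) x :=
    Real.hasDerivAt_rpow_const (Or.inl hx.ne')
  have h2 := h1.neg.exp
  refine h2.congr_deriv ?_
  unfold kd
  simp only [Pi.neg_apply]
  rw [Real.rpow_sub_one hx.ne']
  ring

lemma continuousOn_kd (lam : ℝ) : ContinuousOn (fun x => kd lam x / x) (Ioi 0) := by
  have h1 : ContinuousOn (fun x : ℝ => x ^ (1 / lam)) (Ioi 0) := fun x hx =>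
    (Real.continuousAt_rpow_const x (1 / lam) (Or.inl (ne_of_gt hx))).continuousWithinAt
  unfold kd
  apply ContinuousOn.div
  · exact continuousOn_const.mul (h1.mul h1.neg.rexp)
  · exact continuousOn_id
  · intro x hx
    exact ne_of_gt hx

lemma tf_eq (lam y x : ℝ) (hy : 0 < y) : tf lam 1 y x =
    Real.exp ((1 / 2) * Real.log y) * kk lam (y * x) -
      Real.exp ((1 / 2) * Real.log y⁻¹) * kk lam (y⁻¹ * x) := by
  unfold tf kk
  rw [Real.rpow_def_of_pos hy, Real.rpow_def_of_pos hy, Real.log_inv]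
  have e1 : x * y / 1 = y * x := by ring
  have e2 : x / (y * 1) = y⁻¹ * x := by
    rw [mul_one, div_eq_mul_inv, mul_comm]
  have e3 : Real.log y * (1 / 2) = 1 / 2 * Real.log y := by ring
  have e4 : Real.log y * (-(1 / 2)) = 1 / 2 * -Real.log y := by ring
  rw [e1, e2, e3, e4]

lemma melP_tf (lam : ℝ) (hlam : 0 < lam) (y : ℝ) (hy : 0 < y) : MelP lam (tf lam 1 y) := by
  have hyi : 0 < y⁻¹ := inv_pos.mpr hy
  refine ⟨fun s => lam * (Complex.exp ((1 / 2 - s) * Real.log y) -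
      Complex.exp ((1 / 2 - s) * Real.log y⁻¹)),
    fun x => Real.exp ((1 / 2) * Real.log y) * (y * (kd lam (y * x) / (y * x))) -
      Real.exp ((1 / 2) * Real.log y⁻¹) * (y⁻¹ * (kd lam (y⁻¹ * x) / (y⁻¹ * x))), ?_, ?_, ?_, ?_, ?_, ?_⟩
  · fun_prop
  · refine ⟨lam * (Real.exp |Real.log y| + Real.exp |Real.log y|), ?_⟩
    intro s h0 h1
    rw [norm_mul, Complex.norm_real, Real.norm_eq_abs, abs_of_pos hlam]
    gcongr
    refine (norm_sub_le _ _).trans ?_
    have hab : |1 / 2 - s.re| ≤ 1 := by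
      rw [abs_le]
      constructor <;> linarith
    have hn : ∀ r : ℝ, |r| = |Real.log y| →
        ‖Complex.exp ((1 / 2 - s) * (r : ℂ))‖ ≤ Real.exp |Real.log y| := by
      intro r hr
      rw [Complex.norm_exp]
      apply Real.exp_le_exp.mpr
      have e : ((1 / 2 - s) * (r : ℂ)).re = (1 / 2 - s.re) * r := by
        simp
      rw [e]
      calc (1 / 2 - s.re) * r ≤ |(1 / 2 - s.re) * r| := le_abs_self _
        _ = |1 / 2 - s.re| * |r| := abs_mul _ _
        _ ≤ 1 * |Real.log y| := by rw [hr]; gcongr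
        _ = _ := one_mul _
    apply add_le_add
    · exact hn _ rfl
    · apply hn
      rw [Real.log_inv, abs_neg]
  · intro s
    have e : ∀ r : ℂ, (1 / 2 - (1 - s)) * r = (1 / 2 - s) * (-r) := by intro r; ring
    simp only [e, Real.log_inv, Complex.ofReal_neg, neg_neg]
    ring
  · intro x hx
    have h1 : HasDerivAt (fun x => kk lam (y * x)) (y * (kd lam (y * x) / (y * x))) x := by
      have h2 := (hasDerivAt_kk lam (y * x) (by positivity)).comp x ((hasDerivAt_id x).const_mul y)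
      refine h2.congr_deriv ?_
      ring
    have h3 : HasDerivAt (fun x => kk lam (y⁻¹ * x)) (y⁻¹ * (kd lam (y⁻¹ * x) / (y⁻¹ * x))) x := by
      have h2 := (hasDerivAt_kk lam (y⁻¹ * x) (by positivity)).comp x ((hasDerivAt_id x).const_mul y⁻¹)
      refine h2.congr_deriv ?_
      ring
    have h4 := (h1.const_mul (Real.exp ((1 / 2) * Real.log y))).sub
      (h3.const_mul (Real.exp ((1 / 2) * Real.log y⁻¹)))
    refine h4.congr_of_eventuallyEq ?_
    exact Filter.Eventually.of_forall fun z => tf_eq lam y z hy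
  · have hc : ∀ w : ℝ, 0 < w → ContinuousOn (fun x : ℝ => kd lam (w * x) / (w * x)) (Ioi 0) := by
      intro w hw
      exact (continuousOn_kd lam).comp (continuousOn_const.mul continuousOn_id)
        (fun x hx => by
          have : 0 < x := hx
          show 0 < w * x
          positivity)
    exact (continuousOn_const.mul (continuousOn_const.mul (hc y hy))).sub
      (continuousOn_const.mul (continuousOn_const.mul (hc y⁻¹ hyi)))
  · intro s hs
    constructor
    · have h1 := hasMellin_scale (kk lam) s _ (hasMellin_kk lam hlam s hs) y hy (1 / 2)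
      have h2 := hasMellin_scale (kk lam) s _ (hasMellin_kk lam hlam s hs) y⁻¹ hyi (1 / 2)
      have h3 := hasMellin_sub h1.1 h2.1
      have h4 : (fun x : ℝ => ((tf lam 1 y x : ℝ) : ℂ)) = fun t : ℝ =>
          ((Real.exp ((1 / 2) * Real.log y) * kk lam (y * t) : ℝ) : ℂ) -
          ((Real.exp ((1 / 2) * Real.log y⁻¹) * kk lam (y⁻¹ * t) : ℝ) : ℂ) := by
        funext t
        rw [tf_eq lam y t hy]
        push_cast
        ring
      rw [h4]
      refine ⟨h3.1, h3.2.trans ?_⟩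
      rw [h1.2, h2.2]
      push_cast
      ring
    · have h1 := hasMellin_scale (kd lam) s _ (hasMellin_kd lam hlam s hs) y hy (1 / 2)
      have h2 := hasMellin_scale (kd lam) s _ (hasMellin_kd lam hlam s hs) y⁻¹ hyi (1 / 2)
      have h3 := hasMellin_sub h1.1 h2.1
      have h4 : EqOn (fun t : ℝ =>
          ((Real.exp ((1 / 2) * Real.log y) * kd lam (y * t) : ℝ) : ℂ) -
          ((Real.exp ((1 / 2) * Real.log y⁻¹) * kd lam (y⁻¹ * t) : ℝ) : ℂ))
          (fun x : ℝ => ((x * (Real.exp ((1 / 2) * Real.log y) * (y * (kd lam (y * x) / (y * x))) -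
      Real.exp ((1 / 2) * Real.log y⁻¹) * (y⁻¹ * (kd lam (y⁻¹ * x) / (y⁻¹ * x)))) : ℝ) : ℂ)) (Ioi 0) := by
        intro t ht
        have ht0 : (0 : ℝ) < t := ht
        have e1 : t * (y * (kd lam (y * t) / (y * t))) = kd lam (y * t) := by
          field_simp
        have e2 : t * (y⁻¹ * (kd lam (y⁻¹ * t) / (y⁻¹ * t))) = kd lam (y⁻¹ * t) := by
          field_simp
        simp only
        rw [← Complex.ofReal_sub]
        congr 1
        rw [mul_sub]
        congr 1
        · conv_lhs => rw [← e1]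
          ring
        · conv_lhs => rw [← e2]
          ring
      refine hasMellin_congr _ _ s _ h4 ⟨h3.1, h3.2.trans ?_⟩
      rw [h1.2, h2.2]
      push_cast
      ring

lemma melP_zero (lam : ℝ) : MelP lam (0 : ℝ → ℝ) := by
  refine ⟨fun _ => 0, fun _ => 0, by fun_prop, ⟨0, by simp⟩, by simp, ?_, continuousOn_const, ?_⟩
  · intro x _
    exact hasDerivAt_const x (0 : ℝ)
  · intro s _
    constructor <;> constructor <;> simp [MellinConvergent, mellin]

lemma melP_add (lam : ℝ) (f1 f2 : ℝ → ℝ) (h1 : MelP lam f1) (h2 : MelP lam f2) :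
    MelP lam (f1 + f2) := by
  obtain ⟨p1, g1, hd1, ⟨K1, hK1⟩, ha1, hg1, hc1, hm1⟩ := h1
  obtain ⟨p2, g2, hd2, ⟨K2, hK2⟩, ha2, hg2, hc2, hm2⟩ := h2
  refine ⟨fun s => p1 s + p2 s, fun x => g1 x + g2 x, hd1.add hd2, ⟨K1 + K2, ?_⟩, ?_, ?_,
    hc1.add hc2, ?_⟩
  · intro s h0 h1
    exact (norm_add_le _ _).trans (add_le_add (hK1 s h0 h1) (hK2 s h0 h1))
  · intro s
    show p1 (1 - s) + p2 (1 - s) = -(p1 s + p2 s)
    rw [ha1, ha2]
    ring
  · intro x hx
    exact (hg1 x hx).add (hg2 x hx)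
  · intro s hs
    obtain ⟨m1, n1⟩ := hm1 s hs
    obtain ⟨m2, n2⟩ := hm2 s hs
    constructor
    · have h3 := hasMellin_add m1.1 m2.1
      refine hasMellin_congr _ _ s _ ?_ ⟨h3.1, h3.2.trans ?_⟩
      · intro x _
        simp
      · rw [m1.2, m2.2]
        ring
    · have h3 := hasMellin_add n1.1 n2.1
      refine hasMellin_congr _ _ s _ ?_ ⟨h3.1, h3.2.trans ?_⟩
      · intro x _
        simp only
        push_cast
        ring
      · rw [n1.2, n2.2]
        ring

lemma melP_smul (lam : ℝ) (r : ℝ) (f : ℝ → ℝ) (h1 : MelP lam f) : MelP lam (r • f) := by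
  obtain ⟨p1, g1, hd1, ⟨K1, hK1⟩, ha1, hg1, hc1, hm1⟩ := h1
  refine ⟨fun s => r * p1 s, fun x => r * g1 x, hd1.const_mul _, ⟨|r| * K1, ?_⟩, ?_, ?_,
    continuousOn_const.mul hc1, ?_⟩
  · intro s h0 h1
    rw [norm_mul, Complex.norm_real, Real.norm_eq_abs]
    exact mul_le_mul_of_nonneg_left (hK1 s h0 h1) (abs_nonneg r)
  · intro s
    show r * p1 (1 - s) = -(r * p1 s)
    rw [ha1]
    ring
  · intro x hx
    exact (hg1 x hx).const_mul r
  · intro s hs
    obtain ⟨m1, n1⟩ := hm1 s hs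
    constructor
    · have h3 := hasMellin_const_smul m1.1 (r : ℂ)
      refine hasMellin_congr _ _ s _ ?_ ⟨h3.1, h3.2.trans ?_⟩
      · intro x _
        simp
      · rw [m1.2, smul_eq_mul]
        ring
    · have h3 := hasMellin_const_smul n1.1 (r : ℂ)
      refine hasMellin_congr _ _ s _ ?_ ⟨h3.1, h3.2.trans ?_⟩
      · intro x _
        simp only [smul_eq_mul]
        push_cast
        ring
      · rw [n1.2, smul_eq_mul]
        ring

/-- the Mellin transforms of the elements of `TV lam 1` and of `x f'(x)` -/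
theorem melP (lam : ℝ) (hlam : 0 < lam) (f : ℝ → ℝ) (hf : f ∈ TV lam 1) : MelP lam f := by
  refine Submodule.span_induction ?_ (melP_zero lam) (fun a b _ _ => melP_add lam a b)
    (fun r a _ => melP_smul lam r a) hf
  rintro g ⟨y, hy, rfl⟩
  exact melP_tf lam hlam y hy

end Pool.Agent.H30.WD
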