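import Pool.Agent.H30.WD.KyG

/-!
# [H30 WD KyT] CHAPTER A: the three lines theorem (helper1)

`h` is entire, bounded in the strip, `h (1-s) = -h s`, and `|h (σ+it)| |Γ(lam σ + i lam t)| ≤ N`.
Then `|Γ(lam s) h(s)| ≤ C N (1+|Im s|)^(-3)` on the line `Re s = σ - 4/lam`.
-/

set_option autoImplicit false

namespace Pool.Agent.H30.WD

open MeasureTheory Set

/-- three lines with a Gaussian factor -/
theorem three_lines (σ : ℝ) (hσ : 1 / 2 < σ) (hσ1 : σ ≤ 1) (h : ℂ → ℂ) (hd : Differentiable ℂ h)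
    (hb : ∃ K : ℝ, ∀ s : ℂ, 1 - σ ≤ s.re → s.re ≤ σ → ‖h s‖ ≤ K) (ha : ∀ s : ℂ, h (1 - s) = -h s)
    (G : ℝ → ℝ) (hGe : ∀ t, G (-t) = G t) (N : ℝ) (hN : 0 ≤ N) (hG : ∀ t, 0 < G t)
    (hh : ∀ t : ℝ, ‖h (σ + t * Complex.I)‖ * G t ≤ N) (s0 : ℂ) (h1 : 1 - σ ≤ s0.re) (h2 : s0.re ≤ σ)
    (D C : ℝ) (hC : 0 ≤ C) (hD0 : 0 ≤ D)
    (hD : ∀ t : ℝ, D * Real.exp (-(t - s0.im) ^ 2) ≤ C * G t) :
    D * ‖h s0‖ ≤ Real.exp 1 * C * N := by
  set F : ℂ → ℂ := fun s => h s * Complex.exp ((s - s0) ^ 2) with hF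
  have hFd : Differentiable ℂ F := by
    rw [hF]
    exact hd.mul (((differentiable_id.sub_const s0).pow 2).cexp)
  have hnexp : ∀ s : ℂ, ‖Complex.exp ((s - s0) ^ 2)‖ =
      Real.exp ((s.re - s0.re) ^ 2 - (s.im - s0.im) ^ 2) := by
    intro s
    rw [Complex.norm_exp]
    congr 1
    simp [pow_two]
  -- the bound on the two lines
  have hline : ∀ s : ℂ, (s.re = 1 - σ ∨ s.re = σ) → ‖h s‖ * G s.im ≤ N := by
    intro s hs
    rcases hs with hs | hs
    · have e1 : s = 1 - (σ + (-s.im : ℝ) * Complex.I) := by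
        apply Complex.ext
        · simp [hs]
        · simp
      have e2 : ‖h s‖ = ‖h (σ + ((-s.im : ℝ) : ℂ) * Complex.I)‖ := by
        conv_lhs => rw [e1, ha]
        rw [norm_neg]
      rw [e2, ← hGe s.im]
      exact hh (-s.im)
    · have e1 : s = (σ + (s.im : ℝ) * Complex.I) := by
        apply Complex.ext
        · simp [hs]
        · simp
      conv_lhs => rw [e1]
      have := hh s.im
      simpa using this
  have hbd : ∀ s : ℂ, (s.re = 1 - σ ∨ s.re = σ) → D * ‖F s‖ ≤ Real.exp 1 * C * N := by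
    intro s hs
    have h3 := hline s hs
    have h4 := hD s.im
    have h5 : (s.re - s0.re) ^ 2 ≤ 1 := by
      rcases hs with hs | hs <;> rw [hs] <;> nlinarith
    have h6 : ‖F s‖ ≤ ‖h s‖ * (Real.exp 1 * Real.exp (-(s.im - s0.im) ^ 2)) := by
      rw [hF]
      simp only [norm_mul]
      gcongr
      rw [hnexp, ← Real.exp_add]
      apply Real.exp_le_exp.mpr
      linarith
    calc D * ‖F s‖ ≤ D * (‖h s‖ * (Real.exp 1 * Real.exp (-(s.im - s0.im) ^ 2))) := by gcongr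
      _ = Real.exp 1 * ‖h s‖ * (D * Real.exp (-(s.im - s0.im) ^ 2)) := by ring
      _ ≤ Real.exp 1 * ‖h s‖ * (C * G s.im) := by gcongr
      _ = Real.exp 1 * C * (‖h s‖ * G s.im) := by ring
      _ ≤ Real.exp 1 * C * N := by gcongr
  rcases eq_or_lt_of_le hD0 with hD0' | hDpos
  · rw [← hD0', zero_mul]
    positivity
  have hbd' : ∀ s : ℂ, (s.re = 1 - σ ∨ s.re = σ) → ‖F s‖ ≤ Real.exp 1 * C * N / D := by
    intro s hs
    rw [le_div_iff₀ hDpos, mul_comm]
    exact hbd s hs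
  obtain ⟨K, hK⟩ := hb
  have hmain := PhragmenLindelof.vertical_strip (f := F) (a := 1 - σ) (b := σ)
    (C := Real.exp 1 * C * N / D) (z := s0) hFd.diffContOnCl ?_
    (fun z hz => hbd' z (Or.inl hz)) (fun z hz => hbd' z (Or.inr hz)) h1 h2
  · have e3 : F s0 = h s0 := by simp [hF]
    rw [e3, le_div_iff₀ hDpos, mul_comm] at hmain
    exact hmain
  · refine ⟨0, ?_, 0, ?_⟩
    · apply div_pos Real.pi_pos
      linarith
    · simp only [zero_mul, Real.exp_zero]
      apply Asymptotics.IsBigO.of_bound (K * Real.exp 1)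
      rw [Filter.eventually_inf_principal]
      refine Filter.Eventually.of_forall fun s hs => ?_
      have hs' : 1 - σ < s.re ∧ s.re < σ := by simpa using hs
      have h7 := hK s hs'.1.le hs'.2.le
      rw [norm_one, mul_one, hF]
      simp only [norm_mul]
      rw [hnexp]
      have h8 : 0 ≤ K := (norm_nonneg _).trans h7
      have h9 : (s.re - s0.re) ^ 2 ≤ 1 := by nlinarith
      apply mul_le_mul h7 _ (Real.exp_pos _).le h8
      apply Real.exp_le_exp.mpr
      nlinarith [sq_nonneg (s.im - s0.im)]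

/-- the analytic heart of the key inequality -/
theorem gam_three (lam : ℝ) (hlam : 8 < lam) : ∃ C : ℝ, 0 < C ∧ ∀ h : ℂ → ℂ, Differentiable ℂ h →
    (∃ K : ℝ, ∀ s : ℂ, 2 / lam ≤ s.re → s.re ≤ 1 - 2 / lam → ‖h s‖ ≤ K) →
    (∀ s : ℂ, h (1 - s) = -h s) → ∀ N : ℝ, 0 ≤ N →
    (∀ t : ℝ, ‖Complex.Gamma (lam * ((1 - 2 / lam : ℝ) + t * Complex.I)) *
      h ((1 - 2 / lam : ℝ) + t * Complex.I)‖ ≤ N) →
    ∀ t : ℝ, (1 + |t|) ^ 3 * ‖Complex.Gamma (lam * ((1 - 6 / lam : ℝ) + t * Complex.I)) *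
      h ((1 - 6 / lam : ℝ) + t * Complex.I)‖ ≤ C * N := by
  have hlam0 : 0 < lam := by linarith
  obtain ⟨C0, hC0, hrat⟩ := gam_ratio (lam - 6) (by linarith)
  set B : ℝ := Real.pi / 2 * lam with hBdef
  have hBpos : 0 < B := by positivity
  refine ⟨Real.exp 1 * (C0 * Real.exp (B ^ 2)), by positivity, ?_⟩
  intro h hd hb ha N hN hh t0
  have hl2 : 2 / lam < 1 / 4 := by
    rw [div_lt_div_iff₀ hlam0 (by norm_num)]
    linarith
  have hl6 : 6 / lam = 3 * (2 / lam) := by ring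
  set G : ℝ → ℝ := fun t => ‖Complex.Gamma (lam * ((1 - 2 / lam : ℝ) + t * Complex.I))‖ with hG
  have hform : ∀ (k : ℝ) (t : ℝ), (lam * ((1 - k / lam : ℝ) + t * Complex.I) : ℂ) =
      ((lam - k : ℝ) + (lam * t : ℝ) * Complex.I) := by
    intro k t
    push_cast
    have : (lam : ℂ) ≠ 0 := by exact_mod_cast hlam0.ne'
    field_simp
  have hGpos : ∀ t, 0 < G t := by
    intro t
    rw [hG]
    simp only [norm_pos_iff]
    apply Complex.Gamma_ne_zero_of_re_pos
    rw [hform]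
    simp
    linarith
  have hGe : ∀ t, G (-t) = G t := by
    intro t
    simp only [hG]
    rw [hform, hform]
    have := norm_Gamma_conj (lam - 2) (lam * t)
    rw [← this]
    congr 2
    push_cast
    ring
  have hmain := three_lines (1 - 2 / lam) (by linarith) (by
      have : 0 < 2 / lam := by positivity
      linarith) h hd (by
      obtain ⟨K, hK⟩ := hb
      exact ⟨K, fun s h1 h2 => hK s (by linarith) h2⟩) ha G hGe N hN hGpos ?_
    ((1 - 6 / lam : ℝ) + t0 * Complex.I) ?_ ?_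
    ((1 + |t0|) ^ 3 * ‖Complex.Gamma (lam * ((1 - 6 / lam : ℝ) + t0 * Complex.I))‖)
    (C0 * Real.exp (B ^ 2)) (by positivity) (by positivity) ?_
  · rw [norm_mul, ← mul_assoc]
    exact hmain
  · intro t
    have := hh t
    rw [norm_mul, mul_comm] at this
    exact this
  · simp
    have : 0 < 2 / lam := by positivity
    linarith
  · simp
    have : 0 < 2 / lam := by positivity
    linarith
  · intro t
    have him : (((1 - 6 / lam : ℝ) : ℂ) + t0 * Complex.I).im = t0 := by simp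
    rw [him]
    have h1 := hrat (lam * t0) (lam * t)
    have h2 : (lam - 6 + 4 : ℝ) = lam - 2 := by ring
    rw [h2] at h1
    have h3 : G t = ‖Complex.Gamma ((lam - 2 : ℝ) + (lam * t : ℝ) * Complex.I)‖ := by
      simp only [hG]
      rw [hform]
    rw [hform]
    have h4 : (1 + |t0|) ^ 3 ≤ (1 + |lam * t0|) ^ 3 := by
      have : |t0| ≤ |lam * t0| := by
        rw [abs_mul, abs_of_pos hlam0]
        nlinarith [abs_nonneg t0]
      gcongr
    have h5 : |lam * t - lam * t0| = lam * |t - t0| := by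
      rw [← mul_sub, abs_mul, abs_of_pos hlam0]
    have h6 : Real.exp (Real.pi / 2 * |lam * t - lam * t0|) * Real.exp (-(t - t0) ^ 2) ≤
        Real.exp (B ^ 2) := by
      rw [← Real.exp_add, h5]
      apply Real.exp_le_exp.mpr
      have : (t - t0) ^ 2 = |t - t0| ^ 2 := (sq_abs _).symm
      rw [this, ← mul_assoc, ← hBdef]
      nlinarith [sq_nonneg (|t - t0| - B / 2)]
    calc (1 + |t0|) ^ 3 * ‖Complex.Gamma ((lam - 6 : ℝ) + (lam * t0 : ℝ) * Complex.I)‖ *
          Real.exp (-(t - t0) ^ 2)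
        ≤ (1 + |lam * t0|) ^ 3 * ‖Complex.Gamma ((lam - 6 : ℝ) + (lam * t0 : ℝ) * Complex.I)‖ *
          Real.exp (-(t - t0) ^ 2) := by gcongr
      _ ≤ C0 * Real.exp (Real.pi / 2 * |lam * t - lam * t0|) *
          ‖Complex.Gamma ((lam - 2 : ℝ) + (lam * t : ℝ) * Complex.I)‖ * Real.exp (-(t - t0) ^ 2) := by
          gcongr
      _ = C0 * (Real.exp (Real.pi / 2 * |lam * t - lam * t0|) * Real.exp (-(t - t0) ^ 2)) *
          ‖Complex.Gamma ((lam - 2 : ℝ) + (lam * t : ℝ) * Complex.I)‖ := by ring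
      _ ≤ C0 * Real.exp (B ^ 2) * ‖Complex.Gamma ((lam - 2 : ℝ) + (lam * t : ℝ) * Complex.I)‖ := by
          gcongr
      _ = C0 * Real.exp (B ^ 2) * G t := by rw [h3]

end Pool.Agent.H30.WD
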