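import Pool.Agent.H30.WD.Defs
import Pool.Agent.H30.WD.KyT
import Pool.Agent.H30.WD.KyM

/-!
# [H30 WD Key] CHAPTER A, main theorem: the key inequality (think 2088, STEP 1) (helper1)

`KyG`: the ratio of two Gamma values by the beta integral. `KyT`: three lines theorem with a Gaussian
factor. `KyM`: Mellin transforms of `f` and `x f'(x)`. Here: Mellin inversion on `Re s = 1 - 6/lam`.
-/

set_option autoImplicit false

namespace Pool.Agent.H30.WD

open MeasureTheory Set

/-- inversion: a function whose Mellin transform is at most `M/(1+t^2)` on a vertical line -/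
lemma inv_bound (g : ℝ → ℝ) (σ M : ℝ) (hconv : MellinConvergent (fun x : ℝ => ((g x : ℝ) : ℂ)) σ)
    (F : ℝ → ℂ) (hFc : Continuous F)
    (hF : ∀ t : ℝ, mellin (fun x : ℝ => ((g x : ℝ) : ℂ)) (σ + t * Complex.I) = F t)
    (hM : ∀ t : ℝ, ‖F t‖ ≤ M * (1 + t ^ 2)⁻¹) (x : ℝ) (hx : 0 < x) (hcg : ContinuousAt g x) :
    |g x| ≤ 1 / 2 * M * x ^ (-σ) := by
  have hM0 : 0 ≤ M := by
    have := (norm_nonneg _).trans (hM 0)
    simpa using this
  have hint : Integrable (fun t : ℝ => M * (1 + t ^ 2)⁻¹) := integrable_inv_one_add_sq.const_mul M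
  have hFi : Integrable F := hint.mono' hFc.aestronglyMeasurable (Filter.Eventually.of_forall hM)
  have hV : Complex.VerticalIntegrable (mellin (fun x : ℝ => ((g x : ℝ) : ℂ))) σ := by
    unfold Complex.VerticalIntegrable
    have : (fun y : ℝ => mellin (fun x : ℝ => ((g x : ℝ) : ℂ)) ((σ : ℂ) + y * Complex.I)) = F := by
      funext t
      exact hF t
    rw [this]
    exact hFi
  have hinv := mellinInv_mellin_eq σ (fun x : ℝ => ((g x : ℝ) : ℂ)) hx hconv hV
    (Complex.continuous_ofReal.continuousAt.comp hcg)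
  have h1 : |g x| = ‖((g x : ℝ) : ℂ)‖ := by
    rw [Complex.norm_real, Real.norm_eq_abs]
  rw [h1, ← hinv, mellinInv, norm_smul]
  have h2 : ‖(1 / (2 * Real.pi) : ℝ)‖ = 1 / (2 * Real.pi) := by
    rw [Real.norm_eq_abs, abs_of_pos]
    have := Real.pi_pos
    positivity
  have hpi := Real.pi_pos
  have h3 : ‖∫ y : ℝ, (x : ℂ) ^ (-((σ : ℂ) + y * Complex.I)) •
      mellin (fun x : ℝ => ((g x : ℝ) : ℂ)) ((σ : ℂ) + y * Complex.I)‖ ≤
      ∫ y : ℝ, x ^ (-σ) * (M * (1 + y ^ 2)⁻¹) := by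
    apply norm_integral_le_of_norm_le (hint.const_mul _)
    refine Filter.Eventually.of_forall fun y => ?_
    rw [norm_smul, Complex.norm_cpow_eq_rpow_re_of_pos hx, hF y]
    have : (-((σ : ℂ) + y * Complex.I)).re = -σ := by simp
    rw [this]
    have h4 := hM y
    gcongr
  have h5 : ∫ y : ℝ, x ^ (-σ) * (M * (1 + y ^ 2)⁻¹) = x ^ (-σ) * (M * Real.pi) := by
    rw [integral_const_mul, integral_const_mul, integral_univ_inv_one_add_sq]
  rw [h5] at h3
  calc ‖(1 / (2 * Real.pi) : ℝ)‖ * ‖∫ y : ℝ, (x : ℂ) ^ (-((σ : ℂ) + y * Complex.I)) •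
      mellin (fun x : ℝ => ((g x : ℝ) : ℂ)) ((σ : ℂ) + y * Complex.I)‖
      ≤ 1 / (2 * Real.pi) * (x ^ (-σ) * (M * Real.pi)) := by
        rw [h2]
        gcongr
    _ = 1 / 2 * M * x ^ (-σ) := by
        field_simp

/-- key inequality for `Q = 1` -/
theorem key1 (lam : ℝ) (hlam : 8 < lam) : ∃ C : ℝ, 0 < C ∧ ∀ f ∈ TV lam 1, ∀ x : ℝ, 0 < x →
    |f x| + |x * deriv f x| ≤ C * x ^ (6 / lam - 1) * nk lam f := by
  obtain ⟨C, hC, hgam⟩ := gam_three lam hlam
  refine ⟨C, hC, ?_⟩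
  intro f hf x hx
  have hlam0 : 0 < lam := by linarith
  obtain ⟨h, g, hd, ⟨K, hK⟩, ha, hg, hgc, hm⟩ := melP lam hlam0 f hf
  have hl2 : 2 / lam < 1 / 4 := by
    rw [div_lt_div_iff₀ hlam0 (by norm_num)]
    linarith
  have hl20 : 0 < 2 / lam := by positivity
  have hl6 : 6 / lam = 3 * (2 / lam) := by ring
  set N := nk lam f with hN
  have hN0 : 0 ≤ N := by
    rw [hN, nk]
    apply setIntegral_nonneg measurableSet_Ioi
    intro y hy
    have : (0 : ℝ) < y := hy
    positivity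
  set σ : ℝ := 1 - 6 / lam with hσ
  have hσ0 : 0 < σ := by linarith
  have hσ1 : σ < 1 := by linarith
  -- the bound on Re s = 1 - 2/lam
  have hline : ∀ t : ℝ, ‖Complex.Gamma (lam * ((1 - 2 / lam : ℝ) + t * Complex.I)) *
      h ((1 - 2 / lam : ℝ) + t * Complex.I)‖ ≤ N := by
    intro t
    have hre : (((1 - 2 / lam : ℝ) : ℂ) + t * Complex.I).re = 1 - 2 / lam := by simp
    have h1 := (hm ((1 - 2 / lam : ℝ) + t * Complex.I) (by rw [hre]; linarith)).1
    rw [← h1.2, mellin, hN, nk]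
    refine (norm_integral_le_integral_norm _).trans (le_of_eq ?_)
    apply setIntegral_congr_fun measurableSet_Ioi
    intro y hy
    have hy0 : (0 : ℝ) < y := hy
    simp only
    rw [norm_smul, Complex.norm_cpow_eq_rpow_re_of_pos hy0, Complex.norm_real, Real.norm_eq_abs,
      Complex.sub_re, hre, Complex.one_re, mul_comm]
    congr 2
    ring
  have hmain := hgam h hd ⟨K, fun s h1 h2 => hK s (by linarith) (by linarith)⟩ ha N hN0 hline
  -- the function on the line Re s = σ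
  set F : ℝ → ℂ := fun t => Complex.Gamma (lam * ((σ : ℝ) + t * Complex.I)) *
    h ((σ : ℝ) + t * Complex.I) with hF
  have hFc : Continuous F := by
    rw [hF]
    apply Continuous.mul
    · rw [continuous_iff_continuousAt]
      intro t
      have hne : ∀ m : ℕ, (lam * ((σ : ℝ) + t * Complex.I) : ℂ) ≠ -m := by
        intro m h0
        have := congrArg Complex.re h0
        simp at this
        have h2 : 0 < lam * σ := by positivity
        have h3 : (0 : ℝ) ≤ m := Nat.cast_nonneg m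
        linarith
      have h1 := (Complex.differentiableAt_Gamma _ hne).continuousAt
      have h2 : ContinuousAt (fun t : ℝ => (lam * ((σ : ℝ) + t * Complex.I) : ℂ)) t := by
        fun_prop
      exact ContinuousAt.comp (f := fun t : ℝ => (lam * ((σ : ℝ) + t * Complex.I) : ℂ)) h1 h2
    · exact hd.continuous.comp (by fun_prop)
  have hsq : ∀ t : ℝ, 1 + t ^ 2 ≤ (1 + |t|) ^ 2 := by
    intro t
    have : t ^ 2 = |t| ^ 2 := (sq_abs t).symm
    nlinarith [abs_nonneg t]
  have hFb3 : ∀ t : ℝ, (1 + |t|) * ‖F t‖ * (1 + t ^ 2) ≤ C * N := by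
    intro t
    calc (1 + |t|) * ‖F t‖ * (1 + t ^ 2) ≤ (1 + |t|) * ‖F t‖ * (1 + |t|) ^ 2 := by
          gcongr
          exact hsq t
      _ = (1 + |t|) ^ 3 * ‖F t‖ := by ring
      _ ≤ C * N := hmain t
  have hFb : ∀ t : ℝ, ‖F t‖ ≤ C * N * (1 + t ^ 2)⁻¹ := by
    intro t
    have hp : 0 < 1 + t ^ 2 := by positivity
    rw [← div_eq_mul_inv, le_div_iff₀ hp]
    refine le_trans ?_ (hFb3 t)
    have : 0 ≤ ‖F t‖ * (1 + t ^ 2) := by positivity
    nlinarith [abs_nonneg t, mul_nonneg (abs_nonneg t) this]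
  have hsF : ∀ t : ℝ, ‖-((σ : ℂ) + t * Complex.I) * F t‖ ≤ C * N * (1 + t ^ 2)⁻¹ := by
    intro t
    have hp : 0 < 1 + t ^ 2 := by positivity
    rw [← div_eq_mul_inv, le_div_iff₀ hp, norm_mul, norm_neg]
    refine le_trans ?_ (hFb3 t)
    gcongr
    refine (norm_add_le _ _).trans ?_
    rw [norm_mul, Complex.norm_I, Complex.norm_real, Complex.norm_real, Real.norm_eq_abs,
      Real.norm_eq_abs, abs_of_pos hσ0, mul_one]
    linarith
  have hreσ : ∀ t : ℝ, ((σ : ℂ) + t * Complex.I).re = σ := by intro t; simp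
  have hmσ := hm (σ : ℂ) (by simpa using hσ0)
  have b1 := inv_bound f σ (C * N) hmσ.1.1 F hFc
    (fun t => (hm ((σ : ℂ) + t * Complex.I) (by rw [hreσ]; exact hσ0)).1.2) hFb x hx
    (hg x hx).continuousAt
  have b2 := inv_bound (fun x => x * g x) σ (C * N) hmσ.2.1
    (fun t => -((σ : ℂ) + t * Complex.I) * F t) ((by fun_prop : Continuous
      (fun t : ℝ => -((σ : ℂ) + t * Complex.I))).mul hFc)
    (fun t => (hm ((σ : ℂ) + t * Complex.I) (by rw [hreσ]; exact hσ0)).2.2) hsF x hx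
    (continuousAt_id.mul (hgc.continuousAt (Ioi_mem_nhds hx)))
  have hder : deriv f x = g x := (hg x hx).deriv
  have hexp : -σ = 6 / lam - 1 := by rw [hσ]; ring
  rw [hexp] at b1 b2
  rw [hder]
  calc |f x| + |x * g x| ≤ 1 / 2 * (C * N) * x ^ (6 / lam - 1) + 1 / 2 * (C * N) * x ^ (6 / lam - 1) :=
        add_le_add b1 b2
    _ = C * x ^ (6 / lam - 1) * N := by ring

end Pool.Agent.H30.WD
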