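import Pool.Agent.H30.WD.Defs

/-!
# [H30 WD KyG] CHAPTER A: the ratio of two values of the Gamma function (helper1)

`Γ(p+3) Γ(1+iy) = Γ(p+4+iy) B(p+3, 1+iy)`, the beta integral is at most `1`, and
`|Γ(1+iy)|^2 = π y / sinh (π y) ≥ exp (-π|y|)`.
-/

set_option autoImplicit false

namespace Pool.Agent.H30.WD

open MeasureTheory Set

lemma sinh_le_mul_exp (u : ℝ) (hu : 0 ≤ u) : Real.sinh u ≤ u * Real.exp u := by
  rw [Real.sinh_eq]
  have h1 : Real.exp (-u) = Real.exp u * Real.exp (-(2 * u)) := by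
    rw [← Real.exp_add]
    congr 1
    ring
  have h2 : 1 - 2 * u ≤ Real.exp (-(2 * u)) := by
    have := Real.add_one_le_exp (-(2 * u))
    linarith
  have h3 : 0 < Real.exp u := Real.exp_pos u
  rw [h1]
  nlinarith [mul_le_mul_of_nonneg_left h2 h3.le]

lemma norm_Gamma_conj (a t : ℝ) :
    ‖Complex.Gamma (a - t * Complex.I)‖ = ‖Complex.Gamma (a + t * Complex.I)‖ := by
  have h : (a - t * Complex.I : ℂ) = (starRingEnd ℂ) (a + t * Complex.I) := by
    simp [sub_eq_add_neg]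
  rw [h, Complex.Gamma_conj]
  simp

lemma Gamma_one_add_I_lower (y : ℝ) :
    Real.exp (-(Real.pi / 2 * |y|)) ≤ ‖Complex.Gamma (1 + y * Complex.I)‖ := by
  rcases eq_or_ne y 0 with rfl | hy
  · simp
  have hpi := Real.pi_pos
  have h1 := Complex.Gamma_mul_Gamma_one_sub (y * Complex.I)
  have hyI : (y * Complex.I : ℂ) ≠ 0 := by
    simp [hy]
  have h2 : Complex.Gamma (1 + y * Complex.I) = y * Complex.I * Complex.Gamma (y * Complex.I) := by
    rw [add_comm, Complex.Gamma_add_one _ hyI]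
  have h3 : ‖Complex.Gamma (1 - y * Complex.I)‖ = ‖Complex.Gamma (1 + y * Complex.I)‖ := by
    have := norm_Gamma_conj 1 y
    simpa using this
  have h4 : ‖Complex.Gamma (1 + y * Complex.I)‖ * ‖Complex.Gamma (1 + y * Complex.I)‖ =
      |y| * ‖(Real.pi : ℂ) / Complex.sin (Real.pi * (y * Complex.I))‖ := by
    calc ‖Complex.Gamma (1 + y * Complex.I)‖ * ‖Complex.Gamma (1 + y * Complex.I)‖
        = ‖y * Complex.I * Complex.Gamma (y * Complex.I)‖ * ‖Complex.Gamma (1 - y * Complex.I)‖ := by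
          rw [h3, ← h2]
      _ = |y| * (‖Complex.Gamma (y * Complex.I)‖ * ‖Complex.Gamma (1 - y * Complex.I)‖) := by
          rw [norm_mul, norm_mul, Complex.norm_I, Complex.norm_real, Real.norm_eq_abs]
          ring
      _ = _ := by rw [← norm_mul, h1]
  have h5 : Complex.sin (Real.pi * (y * Complex.I)) = ((Real.sinh (Real.pi * y) : ℝ) : ℂ) * Complex.I := by
    rw [← mul_assoc, Complex.sin_mul_I]
    push_cast
    ring
  rw [h5, norm_div, norm_mul, Complex.norm_I, Complex.norm_real, Complex.norm_real, mul_one,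
    Real.norm_eq_abs, Real.norm_eq_abs, abs_of_pos hpi] at h4
  have h6 : |Real.sinh (Real.pi * y)| = Real.sinh (Real.pi * |y|) := by
    rw [Real.abs_sinh, abs_mul, abs_of_pos hpi]
  have hpos : 0 < Real.sinh (Real.pi * |y|) := by
    rw [Real.sinh_pos_iff]
    positivity
  have h7 := sinh_le_mul_exp (Real.pi * |y|) (by positivity)
  rw [h6] at h4
  have h8 : Real.exp (-(Real.pi * |y|)) ≤ |y| * (Real.pi / Real.sinh (Real.pi * |y|)) := by
    rw [← mul_div_assoc, le_div_iff₀ hpos]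
    calc Real.exp (-(Real.pi * |y|)) * Real.sinh (Real.pi * |y|)
        ≤ Real.exp (-(Real.pi * |y|)) * (Real.pi * |y| * Real.exp (Real.pi * |y|)) := by gcongr
      _ = |y| * Real.pi * (Real.exp (-(Real.pi * |y|)) * Real.exp (Real.pi * |y|)) := by ring
      _ = |y| * Real.pi := by rw [← Real.exp_add]; simp
  have h9 : Real.exp (-(Real.pi / 2 * |y|)) * Real.exp (-(Real.pi / 2 * |y|)) =
      Real.exp (-(Real.pi * |y|)) := by
    rw [← Real.exp_add]
    congr 1
    ring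
  exact abs_le_of_sq_le_sq' (by nlinarith) (norm_nonneg _) |>.2

lemma norm_beta_le_one (p : ℂ) (hp : 1 ≤ p.re) (y : ℝ) :
    ‖Complex.betaIntegral p (1 + y * Complex.I)‖ ≤ 1 := by
  unfold Complex.betaIntegral
  have := intervalIntegral.norm_integral_le_of_norm_le_const (a := (0 : ℝ)) (b := 1) (C := 1)
    (f := fun x : ℝ => (x : ℂ) ^ (p - 1) * (1 - (x : ℂ)) ^ (1 + y * Complex.I - 1)) ?_
  · simpa using this
  · intro x hx
    rw [uIoc_of_le zero_le_one] at hx
    rw [norm_mul]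
    have h1 : ‖(x : ℂ) ^ (p - 1)‖ ≤ 1 := by
      rw [Complex.norm_cpow_eq_rpow_re_of_pos hx.1]
      apply Real.rpow_le_one hx.1.le hx.2
      simp
      linarith
    have h2 : ‖(1 - (x : ℂ)) ^ (1 + y * Complex.I - 1)‖ ≤ 1 := by
      rcases eq_or_lt_of_le hx.2 with h | h
      · subst h
        rcases eq_or_ne y 0 with hy | hy
        · simp [hy]
        · have : (y * Complex.I : ℂ) ≠ 0 := by simp [hy]
          simp [Complex.zero_cpow this]
      · have h3 : (1 - (x : ℂ)) = ((1 - x : ℝ) : ℂ) := by push_cast; ring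
        rw [h3, Complex.norm_cpow_eq_rpow_re_of_pos (by linarith)]
        simp
    exact mul_le_one₀ h1 (norm_nonneg _) h2

/-- the ratio of two values of `Γ`, the real parts differ by `4` -/
theorem gam_ratio (a : ℝ) (ha : 0 < a) : ∃ C : ℝ, 0 < C ∧ ∀ t t' : ℝ,
    (1 + |t|) ^ 3 * ‖Complex.Gamma (a + t * Complex.I)‖ ≤
      C * Real.exp (Real.pi / 2 * |t' - t|) * ‖Complex.Gamma ((a + 4 : ℝ) + t' * Complex.I)‖ := by
  set m := min a 1 with hm
  have hm0 : 0 < m := lt_min ha one_pos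
  refine ⟨(2 / m) ^ 3, by positivity, ?_⟩
  intro t t'
  set p0 : ℂ := a + t * Complex.I with hp0
  have hre : p0.re = a := by simp [hp0]
  have him : p0.im = t := by simp [hp0]
  have hn : ∀ k : ℝ, 0 ≤ k → (1 + |t|) ≤ 2 / m * ‖p0 + (k : ℂ)‖ := by
    intro k hk
    have h1 : |t| ≤ ‖p0 + (k : ℂ)‖ := by
      have := Complex.abs_im_le_norm (p0 + (k : ℂ))
      simpa [him] using this
    have h2 : a ≤ ‖p0 + (k : ℂ)‖ := by
      have := Complex.abs_re_le_norm (p0 + (k : ℂ))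
      have h3 : (p0 + (k : ℂ)).re = a + k := by simp [hre]
      rw [h3] at this
      exact le_trans (by linarith) ((le_abs_self _).trans this)
    rw [div_mul_eq_mul_div, le_div_iff₀ hm0]
    have hma : m ≤ a := min_le_left _ _
    have hm1 : m ≤ 1 := min_le_right _ _
    nlinarith [abs_nonneg t, mul_le_mul_of_nonneg_left hm1 (abs_nonneg t)]
  have hne : ∀ k : ℝ, 0 ≤ k → p0 + (k : ℂ) ≠ 0 := by
    intro k hk h
    have := congrArg Complex.re h
    simp [hre] at this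
    linarith
  have hG3 : Complex.Gamma (p0 + 3) = (p0 + 2) * ((p0 + 1) * (p0 * Complex.Gamma p0)) := by
    have e3 : p0 + 3 = (p0 + 2) + 1 := by ring
    have e2 : p0 + 2 = (p0 + 1) + 1 := by ring
    rw [e3, Complex.Gamma_add_one _ (by simpa using hne 2 (by norm_num)), e2,
      Complex.Gamma_add_one _ (by simpa using hne 1 (by norm_num)),
      Complex.Gamma_add_one _ (by simpa using hne 0 (by norm_num))]
  have h0 := hn 0 le_rfl
  have h1 := hn 1 zero_le_one
  have h2 := hn 2 zero_le_two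
  have hA : (1 + |t|) ^ 3 * ‖Complex.Gamma p0‖ ≤ (2 / m) ^ 3 * ‖Complex.Gamma (p0 + 3)‖ := by
    rw [hG3, norm_mul, norm_mul, norm_mul]
    have h0' : (1 + |t|) ≤ 2 / m * ‖p0‖ := by simpa using h0
    have h1' : (1 + |t|) ≤ 2 / m * ‖p0 + 1‖ := by simpa using h1
    have h2' : (1 + |t|) ≤ 2 / m * ‖p0 + 2‖ := by simpa using h2
    have hh : (1 + |t|) ^ 3 ≤ (2 / m * ‖p0 + 2‖) * ((2 / m * ‖p0 + 1‖) * (2 / m * ‖p0‖)) := by
      calc (1 + |t|) ^ 3 = (1 + |t|) * ((1 + |t|) * (1 + |t|)) := by ring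
        _ ≤ _ := by gcongr
    calc (1 + |t|) ^ 3 * ‖Complex.Gamma p0‖
        ≤ (2 / m * ‖p0 + 2‖) * ((2 / m * ‖p0 + 1‖) * (2 / m * ‖p0‖)) * ‖Complex.Gamma p0‖ := by gcongr
      _ = _ := by ring
  have hq : 0 < (1 + ((t' - t : ℝ) : ℂ) * Complex.I).re := by simp
  have hp : 0 < (p0 + 3).re := by simp [hre]; linarith
  have hB := Complex.Gamma_mul_Gamma_eq_betaIntegral hp hq
  have hsum : p0 + 3 + (1 + ((t' - t : ℝ) : ℂ) * Complex.I) = ((a + 4 : ℝ) + t' * Complex.I) := by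
    rw [hp0]
    push_cast
    ring
  rw [hsum] at hB
  have hC : ‖Complex.Gamma (p0 + 3)‖ * Real.exp (-(Real.pi / 2 * |t' - t|)) ≤
      ‖Complex.Gamma ((a + 4 : ℝ) + t' * Complex.I)‖ := by
    calc ‖Complex.Gamma (p0 + 3)‖ * Real.exp (-(Real.pi / 2 * |t' - t|))
        ≤ ‖Complex.Gamma (p0 + 3)‖ * ‖Complex.Gamma (1 + ((t' - t : ℝ) : ℂ) * Complex.I)‖ := by
          gcongr
          exact Gamma_one_add_I_lower (t' - t)
      _ = ‖Complex.Gamma ((a + 4 : ℝ) + t' * Complex.I)‖ *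
          ‖Complex.betaIntegral (p0 + 3) (1 + ((t' - t : ℝ) : ℂ) * Complex.I)‖ := by
          rw [← norm_mul, hB, norm_mul]
      _ ≤ ‖Complex.Gamma ((a + 4 : ℝ) + t' * Complex.I)‖ * 1 := by
          gcongr
          exact norm_beta_le_one _ (by simp [hre]; linarith) _
      _ = _ := mul_one _
  have hD : ‖Complex.Gamma (p0 + 3)‖ ≤ Real.exp (Real.pi / 2 * |t' - t|) *
      ‖Complex.Gamma ((a + 4 : ℝ) + t' * Complex.I)‖ := by
    calc ‖Complex.Gamma (p0 + 3)‖ = Real.exp (Real.pi / 2 * |t' - t|) *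
          (‖Complex.Gamma (p0 + 3)‖ * Real.exp (-(Real.pi / 2 * |t' - t|))) := by
          rw [mul_comm ‖Complex.Gamma (p0 + 3)‖, ← mul_assoc, ← Real.exp_add]
          simp
      _ ≤ _ := by gcongr
  calc (1 + |t|) ^ 3 * ‖Complex.Gamma p0‖ ≤ (2 / m) ^ 3 * ‖Complex.Gamma (p0 + 3)‖ := hA
    _ ≤ (2 / m) ^ 3 * (Real.exp (Real.pi / 2 * |t' - t|) *
        ‖Complex.Gamma ((a + 4 : ℝ) + t' * Complex.I)‖) := by gcongr
    _ = _ := by ring

end Pool.Agent.H30.WD
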