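import Pool.Agent.H30.WD.Case1
import Pool.Agent.H30.WD.Case2

/-! [H30 WD LD] STEP 5: local density of the composite numbers -/

set_option autoImplicit false

namespace Pool.Agent.H30.WD

open ArithmeticFunction

theorem ld (B D : ℕ) (A β : ℝ) (hB : 2 ≤ B) (hA : 0 ≤ A) (hD : 1000 * B ≤ D)
    (hAD : 100 * A * B ≤ D) (hβ : 0 ≤ β) (ε : ℝ) (hε : 0 < ε) : ∃ J1 : ℕ,
    ∀ J : ℕ, J1 ≤ J → ∀ bb : ℕ → ℝ, Maj bb B J β A →
    ∀ a b : ℕ, 2 ≤ a → a < b → b ≤ 2 * a → (a : ℝ) ^ (1 - 1 / (D : ℝ)) ≤ (b : ℝ) - a →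
    ∑ n ∈ (Finset.Ioc a b).filter (fun n => 2 ≤ cardFactors n), cf bb n ≤
      ε * ((b : ℝ) - a) / Real.log a ^ 2 := by
  obtain ⟨J1, h1⟩ := case1 B D A β hB hD hβ (ε / 2) (by linarith)
  obtain ⟨J2, h2⟩ := case2 B D A β hB hA hD hAD hβ (ε / 2) (by linarith)
  refine ⟨max J1 J2, ?_⟩
  intro J hJ bb hbb a b ha hab hb2 hlen
  have e1 := h1 J ((le_max_left _ _).trans hJ) bb hbb a b ha hab hb2 hlen
  have e2 := h2 J ((le_max_right _ _).trans hJ) bb hbb a b ha hab hb2 hlen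
  set S := (Finset.Ioc a b).filter (fun n => 2 ≤ cardFactors n) with hS
  set P : ℕ → Prop := fun n => ∃ p ∈ n.primeFactors, (a : ℝ) ^ (4 * (B : ℝ) / D) < p with hP
  have hsplit : ∑ n ∈ S, cf bb n = ∑ n ∈ S.filter P, cf bb n +
      ∑ n ∈ S.filter (fun n => ¬ P n), cf bb n := by
    classical
    exact (Finset.sum_filter_add_sum_filter_not S P _).symm
  have f1 : S.filter P = (Finset.Ioc a b).filter (fun n => 2 ≤ cardFactors n ∧
        ∃ p ∈ n.primeFactors, (a : ℝ) ^ (4 * (B : ℝ) / D) < p) := by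
    ext n
    simp only [hS, hP, Finset.mem_filter, and_assoc]
  have f2 : S.filter (fun n => ¬ P n) = (Finset.Ioc a b).filter (fun n => 2 ≤ cardFactors n ∧
        ∀ p ∈ n.primeFactors, (p : ℝ) ≤ (a : ℝ) ^ (4 * (B : ℝ) / D)) := by
    ext n
    simp only [hS, hP, Finset.mem_filter, and_assoc, not_exists, not_and, not_lt]
  rw [hsplit, f1, f2]
  calc _ ≤ ε / 2 * ((b : ℝ) - a) / Real.log a ^ 2 + ε / 2 * ((b : ℝ) - a) / Real.log a ^ 2 :=
        add_le_add e1 e2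
    _ = ε * ((b : ℝ) - a) / Real.log a ^ 2 := by ring

end Pool.Agent.H30.WD
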