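import Pool.Agent.H30.WD.Cell
import Pool.Agent.H30.WD.MajDef

/-! [H30 WD Special] STEP 6: the special primes -/

set_option autoImplicit false

namespace Pool.Agent.H30.WD

/-- the cells which meet `(a, b]` have total length at most a constant times `b - a + a^(1-1/B)` -/
theorem cells_cover (B : ℕ) (hB2 : 2 ≤ B) (a b : ℕ) (ha : 1 ≤ a) (hab : a < b) (hb4 : b ≤ 4 * a)
    (h1 : 1 ≤ cl B (a + 1)) :
    (((cl B b : ℕ) : ℝ) + 1) ^ B - ((cl B (a + 1) : ℕ) : ℝ) ^ B ≤
      8 * ((B : ℝ) * 2 ^ (B - 1)) * (((b : ℝ) - a) + (a : ℝ) ^ (1 - 1 / (B : ℝ))) := by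
  have hB : 1 ≤ B := by omega
  set D : ℝ := (B : ℝ) * 2 ^ (B - 1) with hD
  have hDpos : 0 < D := by positivity
  have hD1 : 1 ≤ D := by
    have h1 : (1 : ℝ) ≤ B := by exact_mod_cast hB
    have h2 : (1 : ℝ) ≤ 2 ^ (B - 1) := one_le_pow₀ (by norm_num)
    nlinarith
  have haR : (1 : ℝ) ≤ a := by exact_mod_cast ha
  have habR : (a : ℝ) ≤ b := by exact_mod_cast hab.le
  have hpa : 0 < (a : ℝ) ^ (1 - 1 / (B : ℝ)) := Real.rpow_pos_of_pos (by linarith) _
  obtain ⟨h1a, h1b⟩ := cl_spec B (a + 1) hB (by omega)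
  obtain ⟨h2a, h2b⟩ := cl_spec B b hB (by omega)
  set j1 := cl B (a + 1) with hj1
  set j2 := cl B b with hj2
  have h12 : j1 ≤ j2 := by
    by_contra hc
    push Not at hc
    have := Nat.pow_le_pow_left (show j2 + 1 ≤ j1 from hc) B
    omega
  have e1 := pow_diff B j1 (by omega)
  have e2 := pow_diff B j2 (by omega)
  rw [← hD] at e1 e2
  have h6 : (j2 : ℝ) ^ B ≤ b := by exact_mod_cast h2a.le
  have h7 : (a : ℝ) ≤ ((j1 : ℝ) + 1) ^ B := by
    have : a ≤ (j1 + 1) ^ B := by omega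
    exact_mod_cast this
  have hpow : ∀ j : ℕ, 1 ≤ j → (j : ℝ) ^ B ≤ 4 * a → (j : ℝ) ^ (B - 1) ≤ 4 * (a : ℝ) ^ (1 - 1 / (B : ℝ)) := by
    intro j hj hja
    have hBR : (0 : ℝ) < B := by exact_mod_cast (by omega : 0 < B)
    have hB1 : (1 : ℝ) ≤ B := by exact_mod_cast hB
    have hexp : 0 ≤ 1 - 1 / (B : ℝ) := by
      rw [sub_nonneg, div_le_iff₀ hBR]
      linarith
    have q1 : (j : ℝ) ^ (B - 1) = ((j : ℝ) ^ B) ^ (1 - 1 / (B : ℝ)) := by
      rw [← Real.rpow_natCast (j : ℝ) B, ← Real.rpow_mul (Nat.cast_nonneg j),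
        ← Real.rpow_natCast (j : ℝ) (B - 1), Nat.cast_sub hB]
      congr 1
      push_cast
      field_simp
    rw [q1]
    calc ((j : ℝ) ^ B) ^ (1 - 1 / (B : ℝ)) ≤ (4 * (a : ℝ)) ^ (1 - 1 / (B : ℝ)) :=
          Real.rpow_le_rpow (by positivity) hja hexp
      _ = (4 : ℝ) ^ (1 - 1 / (B : ℝ)) * (a : ℝ) ^ (1 - 1 / (B : ℝ)) :=
          Real.mul_rpow (by norm_num) (by linarith)
      _ ≤ 4 * (a : ℝ) ^ (1 - 1 / (B : ℝ)) := by
          refine mul_le_mul_of_nonneg_right ?_ hpa.le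
          calc (4 : ℝ) ^ (1 - 1 / (B : ℝ)) ≤ (4 : ℝ) ^ (1 : ℝ) := by
                refine Real.rpow_le_rpow_of_exponent_le (by norm_num) ?_
                have : 0 ≤ 1 / (B : ℝ) := by positivity
                linarith
            _ = 4 := Real.rpow_one 4
  have hb4R : (b : ℝ) ≤ 4 * a := by exact_mod_cast hb4
  have q2 := hpow j2 (by omega) (h6.trans hb4R)
  have q1 := hpow j1 (by omega) (by
    have : (j1 : ℝ) ^ B ≤ a := by
      have : j1 ^ B ≤ a := by omega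
      exact_mod_cast this
    linarith)
  have q3 : D * (j1 : ℝ) ^ (B - 1) ≤ D * (4 * (a : ℝ) ^ (1 - 1 / (B : ℝ))) := by gcongr
  have q4 : D * (j2 : ℝ) ^ (B - 1) ≤ D * (4 * (a : ℝ) ^ (1 - 1 / (B : ℝ))) := by gcongr
  have q5 : (b : ℝ) - a ≤ 8 * D * ((b : ℝ) - a) := by nlinarith
  nlinarith

theorem log_cell (B j n : ℕ) (hj : 3 ≤ j) (hn : 1 ≤ n) (h : n ≤ (j + 1) ^ B) :
    Real.log n ≤ 2 * B * Real.log j := by
  have hjR : (3 : ℝ) ≤ j := by exact_mod_cast hj
  have h1 : (n : ℝ) ≤ ((j : ℝ) ^ 2) ^ B := by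
    have h2 : (n : ℝ) ≤ ((j : ℝ) + 1) ^ B := by exact_mod_cast h
    refine h2.trans ?_
    gcongr
    nlinarith
  have h3 := Real.log_le_log (by exact_mod_cast hn) h1
  rw [Real.log_pow, Real.log_pow] at h3
  push_cast at h3
  linarith

theorem sq_step (j : ℕ) (hj : 3 ≤ j) :
    Real.log ((j + 1 : ℕ) : ℝ) ^ 2 - Real.log j ^ 2 ≤ 3 * (Real.log j / j) := by
  have hjR : (3 : ℝ) ≤ j := by exact_mod_cast hj
  have hj0 : (0 : ℝ) < j := by linarith
  have hl : 0 < Real.log j := Real.log_pos (by linarith)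
  have h1 : Real.log ((j + 1 : ℕ) : ℝ) ≤ 2 * Real.log j := by
    have : Real.log ((j + 1 : ℕ) : ℝ) ≤ Real.log ((j : ℝ) ^ 2) := by
      refine Real.log_le_log (by positivity) ?_
      push_cast
      nlinarith
    rw [Real.log_pow] at this
    simpa using this
  have h2 : Real.log ((j + 1 : ℕ) : ℝ) - Real.log j ≤ 1 / j := by
    rw [← Real.log_div (by positivity) hj0.ne']
    have : Real.log (((j + 1 : ℕ) : ℝ) / j) ≤ ((j + 1 : ℕ) : ℝ) / j - 1 :=
      Real.log_le_sub_one_of_pos (by positivity)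
    refine this.trans (le_of_eq ?_)
    push_cast
    field_simp
    ring
  have h3 : 0 ≤ Real.log ((j + 1 : ℕ) : ℝ) - Real.log j := by
    rw [sub_nonneg]
    refine Real.log_le_log hj0 ?_
    push_cast
    linarith
  have h4 : Real.log ((j + 1 : ℕ) : ℝ) ^ 2 - Real.log j ^ 2 =
      (Real.log ((j + 1 : ℕ) : ℝ) - Real.log j) * (Real.log ((j + 1 : ℕ) : ℝ) + Real.log j) := by ring
  rw [h4]
  calc (Real.log ((j + 1 : ℕ) : ℝ) - Real.log j) * (Real.log ((j + 1 : ℕ) : ℝ) + Real.log j)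
      ≤ 1 / j * (3 * Real.log j) := by
        refine mul_le_mul h2 (by linarith) (by linarith) (by positivity)
    _ = 3 * (Real.log j / j) := by ring

/-- the height and the number of special primes in the cell `j` -/
noncomputable def mj (B : ℕ) (A2 : ℝ) (j : ℕ) : ℕ := ⌊(j : ℝ) ^ (B - 1) / Real.log j ^ (A2 + 3)⌋₊

theorem special (B J0 : ℕ) (A : ℝ) (h : Input B J0 A) : ∃ A1 C c : ℝ, 0 < A1 ∧ 0 < C ∧
    0 < c ∧ ∃ J1 : ℕ, J0 ≤ J1 ∧ ∀ J : ℕ, J1 ≤ J → ∃ b0 : ℕ → ℝ,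
    Maj b0 B J (C / Real.log J) A1 ∧
    (∀ n, b0 n = 0 ∨ 4 * (wt B n * ((1 + Real.log n) ^ 2)⁻¹) ≤ b0 n) ∧
    ∃ x1 : ℝ, ∀ x : ℝ, x1 ≤ x → c * Real.log x ^ 2 ≤
      ∑ p ∈ (Finset.Icc 1 ⌊x⌋₊).filter Nat.Prime, b0 p ^ 2 / (p : ℝ) := by
  classical
  have hB2 : 2 ≤ B := h.1
  have hJ3 : 3 ≤ J0 := h.2.1
  have hA : 0 ≤ A := h.2.2.1
  have hB : 1 ≤ B := by omega
  have hBR : (1 : ℝ) ≤ B := by exact_mod_cast hB
  obtain ⟨Cw, hCw, hwt⟩ := wt_le B J0 A h
  set D : ℝ := (B : ℝ) * 2 ^ (B - 1) with hD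
  have hDpos : 0 < D := by positivity
  -- the large indices
  have ev1 : ∀ᶠ j : ℕ in Filter.atTop, Real.log (j : ℝ) ^ (A + 4 + 3) ≤ (j : ℝ) := by
    have h1 := (isLittleO_log_rpow_rpow_atTop (A + 4 + 3) (zero_lt_one (α := ℝ))).bound
      (zero_lt_one (α := ℝ))
    have h2 := (tendsto_natCast_atTop_atTop (R := ℝ)).eventually h1
    filter_upwards [h2, Filter.eventually_ge_atTop 3] with j hj hj3
    have hjR : (3 : ℝ) ≤ j := by exact_mod_cast hj3
    have hl : 0 < Real.log (j : ℝ) := Real.log_pos (by linarith)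
    rw [Real.rpow_one, one_mul, Real.norm_eq_abs, Real.norm_eq_abs,
      abs_of_nonneg (Real.rpow_nonneg hl.le _), abs_of_nonneg (by linarith)] at hj
    exact hj
  have ev2 : ∀ᶠ j : ℕ in Filter.atTop, 4 * Cw * (2 * B) ^ A ≤ Real.log (j : ℝ) ^ (4 : ℕ) := by
    have h1 : Filter.Tendsto (fun j : ℕ => Real.log (j : ℝ) ^ (4 : ℕ)) Filter.atTop Filter.atTop :=
      (Filter.tendsto_pow_atTop (by norm_num)).comp
        (Real.tendsto_log_atTop.comp (tendsto_natCast_atTop_atTop (R := ℝ)))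
    exact h1.eventually_ge_atTop _
  obtain ⟨J2, hJ2⟩ := Filter.eventually_atTop.mp (ev1.and ev2)
  refine ⟨A + 4, 32 * D * B ^ 2, 1 / (3 * 2 ^ (B + 1)) / (32 * B ^ 2), by linarith, by positivity,
    by positivity, max J0 J2, le_max_left _ _, ?_⟩
  intro J hJ
  have hJJ0 : J0 ≤ J := (le_max_left _ _).trans hJ
  have hJJ2 : J2 ≤ J := (le_max_right _ _).trans hJ
  have hlogJ : 1 < Real.log J := by
    rw [Real.lt_log_iff_exp_lt (by have : (0:ℝ) < (J : ℝ) := by exact_mod_cast (by omega : 0 < J)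
                                   exact this)]
    have h1 := Real.exp_one_lt_d9
    have h2 : (3 : ℝ) ≤ J := by exact_mod_cast hJ3.trans hJJ0
    linarith
  -- facts on the cells `j ≥ J`
  have hlog1 : ∀ j : ℕ, J ≤ j → 1 < Real.log (j : ℝ) := fun j hj =>
    hlogJ.trans_le (Real.log_le_log (by exact_mod_cast (by omega : 0 < J)) (by exact_mod_cast hj))
  have hcard : ∀ j : ℕ, J ≤ j → mj B (A + 4) j ≤
      ((Finset.Ioc (j ^ B) ((j + 1) ^ B)).filter Nat.Prime).card := by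
    intro j hj
    have h1 := h.2.2.2 j (hJJ0.trans hj)
    have hl := hlog1 j hj
    unfold mj
    have h2 : (⌊(j : ℝ) ^ (B - 1) / Real.log j ^ (A + 4 + 3)⌋₊ : ℝ) ≤ (Nc B j : ℝ) := by
      refine (Nat.floor_le (by positivity)).trans (le_trans ?_ h1)
      refine div_le_div_of_nonneg_left (by positivity) (Real.rpow_pos_of_pos (by linarith) _) ?_
      exact Real.rpow_le_rpow_of_exponent_le hl.le (by linarith)
    exact_mod_cast h2
  have hex : ∀ j : ℕ, ∃ t : Finset ℕ, t ⊆ (Finset.Ioc (j ^ B) ((j + 1) ^ B)).filter Nat.Prime ∧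
      (J ≤ j → t.card = mj B (A + 4) j) ∧ (j < J → t = ∅) := by
    intro j
    by_cases hj : J ≤ j
    · obtain ⟨t, ht, htc⟩ := Finset.exists_subset_card_eq (hcard j hj)
      exact ⟨t, ht, fun _ => htc, fun hlt => absurd hj (by omega)⟩
    · exact ⟨∅, Finset.empty_subset _, fun h' => absurd h' hj, fun _ => rfl⟩
  choose S hSsub hScard hSempty using hex
  let b0 : ℕ → ℝ := fun n => if n ∈ S (cl B n) then Real.log (cl B n : ℝ) ^ (A + 4) else 0
  have hb0def : ∀ n, b0 n = if n ∈ S (cl B n) then Real.log (cl B n : ℝ) ^ (A + 4) else 0 := fun n => rfl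
  have hmem : ∀ n, n ∈ S (cl B n) → n.Prime ∧ J ≤ cl B n ∧ cl B n ^ B < n ∧ n ≤ (cl B n + 1) ^ B := by
    intro n hn
    have h1 := hSsub _ hn
    rw [Finset.mem_filter, Finset.mem_Ioc] at h1
    refine ⟨h1.2, ?_, h1.1.1, h1.1.2⟩
    by_contra hc
    rw [hSempty _ (by omega)] at hn
    simp at hn
  have hb0nn : ∀ n, 0 ≤ b0 n := by
    intro n
    rw [hb0def]
    split_ifs with hn
    · have := hlog1 _ (hmem n hn).2.1
      exact Real.rpow_nonneg (by linarith) _
    · exact le_rfl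
  -- the sum over a cell
  have hcell : ∀ j : ℕ, J ≤ j → ∀ φ : ℝ → ℕ → ℝ, (∀ n, φ 0 n = 0) →
      ∑ p ∈ Finset.Ioc (j ^ B) ((j + 1) ^ B), φ (b0 p) p =
        ∑ p ∈ S j, φ (Real.log (j : ℝ) ^ (A + 4)) p := by
    intro j hj φ hφ
    have hsub : S j ⊆ Finset.Ioc (j ^ B) ((j + 1) ^ B) := (hSsub j).trans (Finset.filter_subset _ _)
    rw [← Finset.sum_subset hsub]
    · refine Finset.sum_congr rfl fun p hp => ?_
      have h1 := Finset.mem_Ioc.mp (hsub hp)
      have h2 := cl_eq B p j hB h1.1 h1.2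
      rw [hb0def, h2, if_pos hp]
    · intro p hp hpn
      have h1 := Finset.mem_Ioc.mp hp
      have h2 := cl_eq B p j hB h1.1 h1.2
      rw [hb0def, h2, if_neg hpn, hφ]
  have hjpow : ∀ j : ℕ, (j : ℝ) ^ (B - 1) ≤ ((j : ℝ) + 1) ^ B - (j : ℝ) ^ B := by
    intro j
    obtain ⟨B', rfl⟩ : ∃ B', B = B' + 1 := ⟨B - 1, by omega⟩
    rw [Nat.add_sub_cancel]
    have h1 : (j : ℝ) ^ B' ≤ ((j : ℝ) + 1) ^ B' := by gcongr; linarith
    have h2 : (0 : ℝ) ≤ (j : ℝ) := Nat.cast_nonneg j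
    rw [pow_succ, pow_succ]
    nlinarith
  have hup : ∀ j : ℕ, J ≤ j → ∑ p ∈ Finset.Ioc (j ^ B) ((j + 1) ^ B), b0 p ≤
      (((j : ℝ) + 1) ^ B - (j : ℝ) ^ B) / Real.log j ^ 3 := by
    intro j hj
    have hl := hlog1 j hj
    have h1 := hcell j hj (fun t _ => t) (fun _ => rfl)
    rw [h1, Finset.sum_const, hScard j hj, nsmul_eq_mul]
    have hl4 : 0 < Real.log (j : ℝ) ^ (A + 4) := Real.rpow_pos_of_pos (by linarith) _
    have h2 : (mj B (A + 4) j : ℝ) ≤ (j : ℝ) ^ (B - 1) / Real.log j ^ (A + 4 + 3) :=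
      Nat.floor_le (by positivity)
    have h3 : Real.log (j : ℝ) ^ (A + 4 + 3) = Real.log (j : ℝ) ^ (A + 4) * Real.log (j : ℝ) ^ 3 := by
      rw [Real.rpow_add (by linarith)]
      congr 1
      exact_mod_cast Real.rpow_natCast (Real.log (j : ℝ)) 3
    calc (mj B (A + 4) j : ℝ) * Real.log (j : ℝ) ^ (A + 4)
        ≤ (j : ℝ) ^ (B - 1) / Real.log j ^ (A + 4 + 3) * Real.log (j : ℝ) ^ (A + 4) := by gcongr
      _ = (j : ℝ) ^ (B - 1) / Real.log j ^ 3 := by
          rw [h3]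
          field_simp
      _ ≤ (((j : ℝ) + 1) ^ B - (j : ℝ) ^ B) / Real.log j ^ 3 := by
          gcongr
          exact hjpow j
  have hlow : ∀ j : ℕ, J ≤ j → 1 / (3 * 2 ^ (B + 1)) * (Real.log ((j + 1 : ℕ) : ℝ) ^ 2 - Real.log j ^ 2) ≤
      ∑ p ∈ Finset.Ioc (j ^ B) ((j + 1) ^ B), b0 p ^ 2 / (p : ℝ) := by
    intro j hj
    have hl := hlog1 j hj
    have hj3 : 3 ≤ j := hJ3.trans (hJJ0.trans hj)
    have hjR : (3 : ℝ) ≤ j := by exact_mod_cast hj3
    have hj0 : (0 : ℝ) < j := by linarith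
    have h1 := hcell j hj (fun t p => t ^ 2 / (p : ℝ)) (fun n => by simp)
    rw [h1]
    have hl4 : 0 < Real.log (j : ℝ) ^ (A + 4) := Real.rpow_pos_of_pos (by linarith) _
    have hl7 : 0 < Real.log (j : ℝ) ^ (A + 4 + 3) := Real.rpow_pos_of_pos (by linarith) _
    have h2 : ∀ p ∈ S j, (Real.log (j : ℝ) ^ (A + 4)) ^ 2 / (2 ^ B * (j : ℝ) ^ B) ≤
        (Real.log (j : ℝ) ^ (A + 4)) ^ 2 / (p : ℝ) := by
      intro p hp
      have h3 := hSsub j hp
      rw [Finset.mem_filter, Finset.mem_Ioc] at h3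
      have h4 : (p : ℝ) ≤ ((j : ℝ) + 1) ^ B := by exact_mod_cast h3.1.2
      refine div_le_div_of_nonneg_left (by positivity) (by exact_mod_cast h3.2.pos) ?_
      refine h4.trans ?_
      rw [← mul_pow]
      gcongr
      linarith
    refine le_trans ?_ (Finset.sum_le_sum h2)
    rw [Finset.sum_const, hScard j hj, nsmul_eq_mul]
    -- the number of special primes
    have hge : 1 ≤ (j : ℝ) ^ (B - 1) / Real.log j ^ (A + 4 + 3) := by
      rw [le_div_iff₀ hl7, one_mul]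
      refine ((hJ2 j (hJJ2.trans hj)).1).trans ?_
      calc (j : ℝ) = (j : ℝ) ^ 1 := (pow_one _).symm
        _ ≤ (j : ℝ) ^ (B - 1) := pow_le_pow_right₀ (by linarith) (by omega)
    have hm : (j : ℝ) ^ (B - 1) / Real.log j ^ (A + 4 + 3) / 2 ≤ (mj B (A + 4) j : ℝ) := by
      have h5 := Nat.lt_floor_add_one ((j : ℝ) ^ (B - 1) / Real.log j ^ (A + 4 + 3))
      have h6 : 1 ≤ ⌊(j : ℝ) ^ (B - 1) / Real.log j ^ (A + 4 + 3)⌋₊ := Nat.le_floor (by exact_mod_cast hge)
      have h7 : (1 : ℝ) ≤ (⌊(j : ℝ) ^ (B - 1) / Real.log j ^ (A + 4 + 3)⌋₊ : ℝ) := by exact_mod_cast h6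
      unfold mj
      linarith
    have h3 : Real.log (j : ℝ) ^ (A + 4 + 3) = Real.log (j : ℝ) ^ (A + 4) * Real.log (j : ℝ) ^ 3 := by
      rw [Real.rpow_add (by linarith)]
      congr 1
      exact_mod_cast Real.rpow_natCast (Real.log (j : ℝ)) 3
    have h4 : Real.log (j : ℝ) ^ (4 : ℕ) ≤ Real.log (j : ℝ) ^ (A + 4) := by
      rw [← Real.rpow_natCast]
      exact Real.rpow_le_rpow_of_exponent_le hl.le (by push_cast; linarith)
    have hstep := sq_step j hj3
    have hBpow : (j : ℝ) ^ B = (j : ℝ) ^ (B - 1) * j := by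
      rw [← pow_succ]
      congr 1
      omega
    have hjB : 0 < (j : ℝ) ^ (B - 1) := by positivity
    calc 1 / (3 * 2 ^ (B + 1)) * (Real.log ((j + 1 : ℕ) : ℝ) ^ 2 - Real.log j ^ 2)
        ≤ 1 / (3 * 2 ^ (B + 1)) * (3 * (Real.log j / j)) := by gcongr
      _ = 1 / 2 ^ (B + 1) * (Real.log j ^ (4 : ℕ) / (Real.log j ^ 3 * j)) := by
          field_simp
      _ ≤ 1 / 2 ^ (B + 1) * (Real.log (j : ℝ) ^ (A + 4) / (Real.log j ^ 3 * j)) := by gcongr
      _ = (j : ℝ) ^ (B - 1) / Real.log j ^ (A + 4 + 3) / 2 *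
          ((Real.log (j : ℝ) ^ (A + 4)) ^ 2 / (2 ^ B * (j : ℝ) ^ B)) := by
          rw [h3, hBpow, pow_succ (2 : ℝ) B]
          field_simp
      _ ≤ (mj B (A + 4) j : ℝ) * ((Real.log (j : ℝ) ^ (A + 4)) ^ 2 / (2 ^ B * (j : ℝ) ^ B)) := by
          gcongr
  -- induction over the cells
  have hupk : ∀ j : ℕ, J ≤ j → ∀ k : ℕ, ∑ p ∈ Finset.Ioc (j ^ B) ((j + k) ^ B), b0 p ≤
      (((j : ℝ) + k) ^ B - (j : ℝ) ^ B) / Real.log j ^ 3 := by
    intro j hj k
    have hl := hlog1 j hj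
    induction k with
    | zero => simp
    | succ k ih =>
      have h1 := Finset.sum_Ioc_consecutive b0
        (show j ^ B ≤ (j + k) ^ B from Nat.pow_le_pow_left (by omega) B)
        (show (j + k) ^ B ≤ (j + k + 1) ^ B from Nat.pow_le_pow_left (by omega) B)
      have h2 := hup (j + k) (by omega)
      rw [show j + (k + 1) = j + k + 1 by ring, ← h1]
      have h3 : (((j + k : ℕ) : ℝ) + 1) ^ B - ((j + k : ℕ) : ℝ) ^ B ≥ 0 := by
        have : ((j + k : ℕ) : ℝ) ^ B ≤ (((j + k : ℕ) : ℝ) + 1) ^ B := by gcongr; linarith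
        linarith
      have h4 : ((((j + k : ℕ) : ℝ) + 1) ^ B - ((j + k : ℕ) : ℝ) ^ B) / Real.log ((j + k : ℕ) : ℝ) ^ 3 ≤
          ((((j + k : ℕ) : ℝ) + 1) ^ B - ((j + k : ℕ) : ℝ) ^ B) / Real.log j ^ 3 := by
        have hlj : Real.log (j : ℝ) ≤ Real.log ((j + k : ℕ) : ℝ) := by
          refine Real.log_le_log (by exact_mod_cast (by omega : 0 < j)) ?_
          push_cast
          linarith [Nat.cast_nonneg (α := ℝ) k]
        refine div_le_div_of_nonneg_left h3 (by positivity) ?_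
        gcongr
      have h5 := h2.trans h4
      calc ∑ p ∈ Finset.Ioc (j ^ B) ((j + k) ^ B), b0 p +
            ∑ p ∈ Finset.Ioc ((j + k) ^ B) ((j + k + 1) ^ B), b0 p
          ≤ (((j : ℝ) + k) ^ B - (j : ℝ) ^ B) / Real.log j ^ 3 +
            ((((j + k : ℕ) : ℝ) + 1) ^ B - ((j + k : ℕ) : ℝ) ^ B) / Real.log j ^ 3 := add_le_add ih h5
        _ = _ := by
            push_cast
            ring
  have hlowk : ∀ k : ℕ, 1 / (3 * 2 ^ (B + 1)) * (Real.log ((J + k : ℕ) : ℝ) ^ 2 - Real.log J ^ 2) ≤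
      ∑ p ∈ Finset.Ioc (J ^ B) ((J + k) ^ B), b0 p ^ 2 / (p : ℝ) := by
    intro k
    induction k with
    | zero => simp
    | succ k ih =>
      have h1 := Finset.sum_Ioc_consecutive (fun p => b0 p ^ 2 / (p : ℝ))
        (show J ^ B ≤ (J + k) ^ B from Nat.pow_le_pow_left (by omega) B)
        (show (J + k) ^ B ≤ (J + k + 1) ^ B from Nat.pow_le_pow_left (by omega) B)
      have h2 := hlow (J + k) (by omega)
      rw [show J + (k + 1) = J + k + 1 by ring, ← h1]
      linarith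
  refine ⟨b0, ?_, ?_, ?_⟩
  · constructor
    · exact hb0nn
    · intro n hn
      have hn' : n ∈ S (cl B n) := by
        by_contra hc
        exact hn (by rw [hb0def, if_neg hc])
      obtain ⟨h1, h2, h3, h4⟩ := hmem n hn'
      exact ⟨h1, lt_of_le_of_lt (Nat.pow_le_pow_left h2 B) h3⟩
    · intro a b ha hab hb4
      have ha1 : 1 ≤ a := le_trans (Nat.one_le_pow _ _ (by omega)) ha
      have ha9 : 9 ≤ a := by
        have h1 : 3 ^ 2 ≤ J ^ B := (Nat.pow_le_pow_left (hJ3.trans hJJ0) 2).trans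
          (Nat.pow_le_pow_right (by omega) hB2)
        omega
      have haR : (9 : ℝ) ≤ a := by exact_mod_cast ha9
      have hloga : 0 < Real.log a := Real.log_pos (by linarith)
      have habR : (a : ℝ) ≤ b := by exact_mod_cast hab
      have hpa : 0 < (a : ℝ) ^ (1 - 1 / (B : ℝ)) := Real.rpow_pos_of_pos (by linarith) _
      rcases hab.eq_or_lt with hab' | hab'
      · subst hab'
        simp only [Finset.Ioc_self, Finset.sum_empty]
        have : 0 < Real.log (J : ℝ) := by linarith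
        positivity
      have hj1J : J ≤ cl B (a + 1) := J0_le_cl B J (a + 1) hB (by omega)
      have hcov := cells_cover B hB2 a b ha1 hab' hb4 (by omega)
      obtain ⟨h1a, h1b⟩ := cl_spec B (a + 1) hB (by omega)
      obtain ⟨h2a, h2b⟩ := cl_spec B b hB (by omega)
      set j1 := cl B (a + 1) with hj1
      set j2 := cl B b with hj2
      have h12 : j1 ≤ j2 := by
        by_contra hc
        push Not at hc
        have := Nat.pow_le_pow_left (show j2 + 1 ≤ j1 from hc) B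
        omega
      have h5 : ∑ p ∈ Finset.Ioc a b, b0 p ≤
          ∑ p ∈ Finset.Ioc (j1 ^ B) ((j1 + (j2 + 1 - j1)) ^ B), b0 p := by
        refine Finset.sum_le_sum_of_subset_of_nonneg ?_ (fun p _ _ => hb0nn p)
        refine Finset.Ioc_subset_Ioc (by omega) ?_
        rw [show j1 + (j2 + 1 - j1) = j2 + 1 by omega]
        exact h2b
      refine h5.trans ((hupk j1 hj1J _).trans ?_)
      have hcast : (j1 : ℝ) + ((j2 + 1 - j1 : ℕ) : ℝ) = (j2 : ℝ) + 1 := by
        rw [Nat.cast_sub (by omega)]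
        push_cast
        ring
      rw [hcast]
      have hl1 := hlog1 j1 hj1J
      have hlJ1 : Real.log (J : ℝ) ≤ Real.log (j1 : ℝ) :=
        Real.log_le_log (by exact_mod_cast (by omega : 0 < J)) (by exact_mod_cast hj1J)
      have hla : Real.log (a : ℝ) ≤ 2 * B * Real.log (j1 : ℝ) :=
        log_cell B j1 a (by omega) ha1 (by omega)
      have hX : 0 ≤ 8 * D * (((b : ℝ) - a) + (a : ℝ) ^ (1 - 1 / (B : ℝ))) := by
        have : 0 ≤ (b : ℝ) - a := by linarith
        positivity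
      have hden : Real.log (J : ℝ) * Real.log (a : ℝ) ^ 2 ≤ 4 * B ^ 2 * Real.log (j1 : ℝ) ^ 3 := by
        have e1 : Real.log (a : ℝ) ^ 2 ≤ (2 * B * Real.log (j1 : ℝ)) ^ 2 := by gcongr
        calc Real.log (J : ℝ) * Real.log (a : ℝ) ^ 2
            ≤ Real.log (j1 : ℝ) * (2 * B * Real.log (j1 : ℝ)) ^ 2 := by
              refine mul_le_mul hlJ1 e1 (by positivity) (by linarith)
          _ = 4 * B ^ 2 * Real.log (j1 : ℝ) ^ 3 := by ring
      have hlogJ0 : 0 < Real.log (J : ℝ) := by linarith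
      calc (((j2 : ℝ) + 1) ^ B - (j1 : ℝ) ^ B) / Real.log (j1 : ℝ) ^ 3
          ≤ 8 * D * (((b : ℝ) - a) + (a : ℝ) ^ (1 - 1 / (B : ℝ))) / Real.log (j1 : ℝ) ^ 3 := by
            gcongr
        _ ≤ 8 * D * (((b : ℝ) - a) + (a : ℝ) ^ (1 - 1 / (B : ℝ))) *
            (4 * B ^ 2 / (Real.log (J : ℝ) * Real.log (a : ℝ) ^ 2)) := by
            rw [div_eq_mul_inv]
            refine mul_le_mul_of_nonneg_left ?_ hX
            rw [inv_eq_one_div, div_le_div_iff₀ (by positivity) (by positivity), one_mul]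
            exact hden
        _ = 32 * D * B ^ 2 / Real.log (J : ℝ) * (((b : ℝ) - a) + (a : ℝ) ^ (1 - 1 / (B : ℝ))) /
            Real.log (a : ℝ) ^ 2 := by
            field_simp
            ring
    · intro n
      rw [hb0def]
      split_ifs with hn
      · obtain ⟨h1, h2, h3, h4⟩ := hmem n hn
        have hl := hlog1 _ h2
        have h5 : (cl B n : ℝ) ≤ n := by
          have : cl B n ≤ cl B n ^ B := Nat.le_self_pow (by omega) _
          exact_mod_cast this.trans h3.le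
        refine Real.rpow_le_rpow (by linarith) (Real.log_le_log ?_ h5) (by linarith)
        exact_mod_cast (by omega : 0 < cl B n)
      · have : 0 ≤ Real.log (n : ℝ) := Real.log_natCast_nonneg n
        exact Real.rpow_nonneg this _
  · intro n
    by_cases hn : n ∈ S (cl B n)
    · right
      obtain ⟨h1, h2, h3, h4⟩ := hmem n hn
      have hl := hlog1 _ h2
      have hJ2n := (hJ2 _ (hJJ2.trans h2)).2
      rw [hb0def, if_pos hn]
      have hn1 : 1 ≤ n := h1.pos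
      have h5 : wt B n ≤ Cw * Real.log n ^ A := by
        refine hwt n (lt_of_le_of_lt (Nat.pow_le_pow_left (hJJ0.trans h2) B) h3)
      have hn1R : (1 : ℝ) ≤ n := by exact_mod_cast hn1
      have hln : 0 ≤ Real.log (n : ℝ) := Real.log_nonneg hn1R
      have h6 : ((1 + Real.log (n : ℝ)) ^ 2)⁻¹ ≤ 1 := by
        refine inv_le_one_of_one_le₀ ?_
        nlinarith
      have h7 : Real.log (n : ℝ) ≤ 2 * B * Real.log (cl B n : ℝ) := log_cell B _ n (by omega) hn1 h4
      have h8 : Real.log (n : ℝ) ^ A ≤ (2 * B) ^ A * Real.log (cl B n : ℝ) ^ A := by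
        rw [← Real.mul_rpow (by positivity) (by linarith)]
        exact Real.rpow_le_rpow hln h7 hA
      have hlA : 0 < Real.log (cl B n : ℝ) ^ A := Real.rpow_pos_of_pos (by linarith) _
      calc 4 * (wt B n * ((1 + Real.log (n : ℝ)) ^ 2)⁻¹) ≤ 4 * (wt B n * 1) := by
            have := wt_nonneg B n
            gcongr
        _ ≤ 4 * (Cw * ((2 * B) ^ A * Real.log (cl B n : ℝ) ^ A)) := by
            rw [mul_one]
            have := h5.trans (mul_le_mul_of_nonneg_left h8 hCw.le)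
            linarith
        _ = 4 * Cw * (2 * B) ^ A * Real.log (cl B n : ℝ) ^ A := by ring
        _ ≤ Real.log (cl B n : ℝ) ^ (4 : ℕ) * Real.log (cl B n : ℝ) ^ A := by gcongr
        _ = Real.log (cl B n : ℝ) ^ (A + 4) := by
            rw [Real.rpow_add (by linarith), mul_comm]
            congr 1
            exact_mod_cast (Real.rpow_natCast (Real.log (cl B n : ℝ)) 4).symm
    · left
      rw [hb0def, if_neg hn]
  · refine ⟨max ((J : ℝ) ^ B + 1) (Real.exp (6 * B * Real.log J)), ?_⟩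
    intro x hx
    have hx1 : (J : ℝ) ^ B + 1 ≤ x := (le_max_left _ _).trans hx
    have hx2 : Real.exp (6 * B * Real.log J) ≤ x := (le_max_right _ _).trans hx
    have hxpos : 0 < x := (Real.exp_pos _).trans_le hx2
    have hlx : 6 * B * Real.log J ≤ Real.log x := by
      rwa [Real.le_log_iff_exp_le hxpos]
    have hfl : J ^ B < ⌊x⌋₊ := by
      have : J ^ B + 1 ≤ ⌊x⌋₊ := Nat.le_floor (by push_cast; exact hx1)
      omega
    have hk := J0_le_cl B J ⌊x⌋₊ hB hfl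
    obtain ⟨h2a, h2b⟩ := cl_spec B ⌊x⌋₊ hB (by omega)
    set k := cl B ⌊x⌋₊ with hkdef
    have hk3 : 3 ≤ k := by omega
    have h1 := hlowk (k - J)
    rw [show J + (k - J) = k by omega] at h1
    have h2 : ∑ p ∈ Finset.Ioc (J ^ B) (k ^ B), b0 p ^ 2 / (p : ℝ) ≤
        ∑ p ∈ (Finset.Icc 1 ⌊x⌋₊).filter Nat.Prime, b0 p ^ 2 / (p : ℝ) := by
      rw [Finset.sum_filter]
      refine le_trans (le_of_eq ?_) (Finset.sum_le_sum_of_subset_of_nonneg
        (s := Finset.Ioc (J ^ B) (k ^ B)) ?_ ?_)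
      · refine Finset.sum_congr rfl fun p hp => ?_
        split_ifs with hpp
        · rfl
        · have : b0 p = 0 := by
            rw [hb0def, if_neg]
            intro hc
            exact hpp (hmem p hc).1
          rw [this]
          simp
      · intro p hp
        rw [Finset.mem_Ioc] at hp
        rw [Finset.mem_Icc]
        omega
      · intro p _ _
        split_ifs
        · positivity
        · exact le_rfl
    refine le_trans ?_ h2
    refine le_trans ?_ h1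
    -- `log x ≤ 4 B log k`
    have hkR : (3 : ℝ) ≤ k := by exact_mod_cast hk3
    have hlk : 1 < Real.log (k : ℝ) := hlog1 k hk
    have h3 : Real.log x ≤ 4 * B * Real.log k := by
      have e1 : x ≤ ((k : ℝ) ^ 4) ^ B := by
        have e2 : x < (⌊x⌋₊ : ℝ) + 1 := Nat.lt_floor_add_one x
        have e3 : (⌊x⌋₊ : ℝ) ≤ ((k : ℝ) + 1) ^ B := by exact_mod_cast h2b
        have e4 : ((k : ℝ) + 1) ^ B ≤ ((k : ℝ) ^ 2) ^ B := by
          gcongr
          nlinarith
        have e5 : (1 : ℝ) ≤ ((k : ℝ) ^ 2) ^ B := one_le_pow₀ (by nlinarith)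
        have e6 : ((k : ℝ) ^ 2) ^ B + ((k : ℝ) ^ 2) ^ B ≤ ((k : ℝ) ^ 4) ^ B := by
          have e7 : ((k : ℝ) ^ 4) ^ B = ((k : ℝ) ^ 2) ^ B * ((k : ℝ) ^ 2) ^ B := by
            rw [← mul_pow]
            congr 1
            ring
          rw [e7]
          have e8 : (2 : ℝ) ≤ ((k : ℝ) ^ 2) ^ B := by
            calc (2 : ℝ) ≤ (k : ℝ) ^ 2 := by nlinarith
              _ = ((k : ℝ) ^ 2) ^ 1 := (pow_one _).symm
              _ ≤ ((k : ℝ) ^ 2) ^ B := pow_le_pow_right₀ (by nlinarith) hB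
          nlinarith
        linarith
      have e9 := Real.log_le_log hxpos e1
      rw [Real.log_pow, Real.log_pow] at e9
      push_cast at e9
      linarith
    have hc0 : (0 : ℝ) < 1 / (3 * 2 ^ (B + 1)) := by positivity
    rw [div_mul_eq_mul_div, mul_div_assoc]
    refine mul_le_mul_of_nonneg_left ?_ hc0.le
    have hlJ0 : 0 < Real.log (J : ℝ) := by linarith
    have hlx0 : 0 < Real.log x := lt_of_lt_of_le (by positivity) hlx
    have g1 : Real.log x ^ 2 ≤ 16 * B ^ 2 * Real.log k ^ 2 := by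
      have : Real.log x ^ 2 ≤ (4 * B * Real.log k) ^ 2 := by gcongr
      linarith [this, show (4 * (B : ℝ) * Real.log k) ^ 2 = 16 * B ^ 2 * Real.log k ^ 2 by ring]
    have g2 : 36 * B ^ 2 * Real.log J ^ 2 ≤ Real.log x ^ 2 := by
      have : (6 * B * Real.log J) ^ 2 ≤ Real.log x ^ 2 := by gcongr
      linarith [this, show (6 * (B : ℝ) * Real.log J) ^ 2 = 36 * B ^ 2 * Real.log J ^ 2 by ring]
    have hB2pos : (0 : ℝ) < 32 * B ^ 2 := by positivity
    rw [div_le_iff₀ hB2pos]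
    have g3 : (0 : ℝ) ≤ B ^ 2 * Real.log J ^ 2 := by positivity
    linarith

end Pool.Agent.H30.WD
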