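import Pool.Agent.H30.WD.Asm
import Pool.Agent.H30.WD.Special
import Pool.Agent.H30.WD.Bad2
import Pool.Agent.H12.WE.Fin
import Pool.Agent.H45.WD.Cor

/-! [H30 WD Main] the final theorem, over the arithmetic input (chapter H) and the local density of
the composite numbers (chapter L) -/

set_option autoImplicit false

namespace Pool.Agent.H30.WD

open ArithmeticFunction H11.Selberg

theorem S_cf (b : ℕ → ℝ) (x : ℝ) : S (fun n => ((cf b n : ℝ) : ℂ)) x =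
    ∑ p ∈ (Finset.Icc 1 ⌊x⌋₊).filter Nat.Prime, b p ^ 2 / (p : ℝ) := by
  unfold S
  apply Finset.sum_congr rfl
  intro p hp
  have hpp : p.Prime := (Finset.mem_filter.mp hp).2
  rw [Complex.norm_real, Real.norm_eq_abs, sq_abs, Pool.Agent.H12.WE.cf_prime b hpp]

/-- the wild elements of the Selberg class, from the two inputs -/
theorem wild_elements_of (hin : ∃ (B J0 : ℕ) (A : ℝ), Input B J0 A)
    (hcor : ∀ β A δ : ℝ, 0 < β → 0 < A → 0 < δ → ∃ B1 : ℕ, 2 ≤ B1 ∧ ∀ lam : ℝ, 8 < lam →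
      6 / lam < 1 / (B1 : ℝ) → ∀ ε : ℝ, 0 < ε → ∃ P0 : ℕ, ∀ P : ℕ, P0 ≤ P → ∃ Q0 : ℝ, 0 < Q0 ∧
      ∀ Q : ℝ, Q0 ≤ Q → ∀ b : ℕ → ℝ, Pool.Agent.H61.WL.Dn b P β A δ → ∀ f ∈ TV lam Q,
      (Summable fun n : ℕ => if 2 ≤ cardFactors n then
        Pool.Agent.H61.WL.ab b n * 2 ^ (cardFactors n) * |f n| else 0) ∧
      ∑' n : ℕ, (if 2 ≤ cardFactors n then
        Pool.Agent.H61.WL.ab b n * 2 ^ (cardFactors n) * |f n| else 0) ≤ ε * nm lam f) :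
    ∃ (a : ℕ → ℂ) (F : ℂ → ℂ), IsSelberg a F ∧ Differentiable ℂ F ∧
      ∃ c x1 : ℝ, 0 < c ∧ ∀ x : ℝ, x1 ≤ x → c * Real.log x ^ 2 ≤ S a x := by
  obtain ⟨lam0, hlam0, h⟩ := wild_of hin special hcor
  obtain ⟨Q, b, A, c, x1, hQ, hc, hb, hV, hS⟩ := h lam0 le_rfl
  obtain ⟨F, hF, hd⟩ := Pool.Agent.H12.WE.wild_selberg lam0 Q (by linarith) hQ b 1 A
    (fun p _ => by
      rw [one_mul]
      exact hb p) hV
  refine ⟨_, F, hF, hd, c, x1, hc, ?_⟩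
  intro x hx
  rw [S_cf]
  exact hS x hx

/-- the conjecture is false, from the two inputs -/
theorem main_of (hin : ∃ (B J0 : ℕ) (A : ℝ), Input B J0 A)
    (hcor : ∀ β A δ : ℝ, 0 < β → 0 < A → 0 < δ → ∃ B1 : ℕ, 2 ≤ B1 ∧ ∀ lam : ℝ, 8 < lam →
      6 / lam < 1 / (B1 : ℝ) → ∀ ε : ℝ, 0 < ε → ∃ P0 : ℕ, ∀ P : ℕ, P0 ≤ P → ∃ Q0 : ℝ, 0 < Q0 ∧
      ∀ Q : ℝ, Q0 ≤ Q → ∀ b : ℕ → ℝ, Pool.Agent.H61.WL.Dn b P β A δ → ∀ f ∈ TV lam Q,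
      (Summable fun n : ℕ => if 2 ≤ cardFactors n then
        Pool.Agent.H61.WL.ab b n * 2 ^ (cardFactors n) * |f n| else 0) ∧
      ∑' n : ℕ, (if 2 ≤ cardFactors n then
        Pool.Agent.H61.WL.ab b n * 2 ^ (cardFactors n) * |f n| else 0) ≤ ε * nm lam f) :
    ∃ (a : ℕ → ℂ) (F : ℂ → ℂ), IsPrimitive a F ∧
      (∃ c : ℝ, 0 < c ∧ ∀ X : ℝ, ∃ x : ℝ, X ≤ x ∧ c * Real.log x ^ 2 ≤ S a x) ∧
      ∀ C X : ℝ, ∃ x : ℝ, X ≤ x ∧ C < S a x - Real.log (Real.log x) := by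
  obtain ⟨a, F, hF, -, c, x1, hc, hS⟩ := wild_elements_of hin hcor
  obtain ⟨a', F', hP, c', hc', h⟩ := bad2 a F hF c x1 hc hS
  exact ⟨a', F', hP, ⟨c', hc', h⟩, unb a' c' hc' h⟩

/-- wild elements, over the arithmetic input only -/
theorem wild_elements (hin : ∃ (B J0 : ℕ) (A : ℝ), Input B J0 A) :
    ∃ (a : ℕ → ℂ) (F : ℂ → ℂ), IsSelberg a F ∧ Differentiable ℂ F ∧
      ∃ c x1 : ℝ, 0 < c ∧ ∀ x : ℝ, x1 ≤ x → c * Real.log x ^ 2 ≤ S a x :=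
  wild_elements_of hin fun β A δ h1 h2 h3 => Pool.Agent.H45.WD.dens_cor β A δ h1 h2.le h3

/-- the conjecture is false, over the arithmetic input only -/
theorem main_of_input (hin : ∃ (B J0 : ℕ) (A : ℝ), Input B J0 A) :
    ∃ (a : ℕ → ℂ) (F : ℂ → ℂ), IsPrimitive a F ∧
      (∃ c : ℝ, 0 < c ∧ ∀ X : ℝ, ∃ x : ℝ, X ≤ x ∧ c * Real.log x ^ 2 ≤ S a x) ∧
      ∀ C X : ℝ, ∃ x : ℝ, X ≤ x ∧ C < S a x - Real.log (Real.log x) :=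
  main_of hin fun β A δ h1 h2 h3 => Pool.Agent.H45.WD.dens_cor β A δ h1 h2.le h3

end Pool.Agent.H30.WD
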