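import Pool.Agent.H30.WD.Cell

/-! [H30 WD Samp] the sampling inequality (no key inequality used): `f` is differentiable -/

set_option autoImplicit false

namespace Pool.Agent.H30.WD

open MeasureTheory Set

lemma samp_uu1 (lam x : ℝ) (hx : 1 ≤ x) : uu lam x = ((1 + Real.log x) ^ 2)⁻¹ := by
  unfold uu
  rw [if_neg (not_lt.mpr hx)]

lemma samp_uu_pos (lam x : ℝ) (hx : 1 ≤ x) : 0 < uu lam x := by
  rw [samp_uu1 lam x hx]
  have := Real.log_nonneg hx
  positivity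

lemma samp_uu_anti (lam x y : ℝ) (hx : 1 ≤ x) (hxy : x ≤ y) : uu lam y ≤ uu lam x := by
  rw [samp_uu1 lam x hx, samp_uu1 lam y (hx.trans hxy)]
  have h1 := Real.log_nonneg hx
  have h2 := Real.log_le_log (by linarith) hxy
  apply inv_anti₀ (by positivity)
  apply pow_le_pow_left₀ (by positivity)
  linarith

/-- on a cell the weight changes by a factor `2` at most -/
lemma samp_ratio (lam : ℝ) (B j : ℕ) (hj : 3 ≤ j) (x : ℝ) (h1 : (j : ℝ) ^ B ≤ x)
    (h2 : x ≤ ((j : ℝ) + 1) ^ B) : uu lam ((j : ℝ) ^ B) ≤ 2 * uu lam x := by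
  have hj3 : (3 : ℝ) ≤ (j : ℝ) := by exact_mod_cast hj
  have hjB : 1 ≤ (j : ℝ) ^ B := one_le_pow₀ (by linarith)
  have hx1 : 1 ≤ x := hjB.trans h1
  rw [samp_uu1 lam _ hjB, samp_uu1 lam x hx1]
  have hlog3 : 1 ≤ Real.log (j : ℝ) := by
    rw [Real.le_log_iff_exp_le (by linarith)]
    have := Real.exp_one_lt_d9
    linarith
  have hlx : Real.log x ≤ (B : ℝ) * Real.log ((j : ℝ) + 1) := by
    have := Real.log_le_log (by linarith) h2
    rwa [Real.log_pow] at this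
  have hlj : Real.log ((j : ℝ) + 1) ≤ Real.log (j : ℝ) + 1 / 3 := by
    have e1 : (j : ℝ) + 1 = (j : ℝ) * (1 + 1 / (j : ℝ)) := by field_simp
    rw [e1, Real.log_mul (by linarith) (by positivity)]
    have e2 : Real.log (1 + 1 / (j : ℝ)) ≤ 1 / (j : ℝ) := by
      have := Real.log_le_sub_one_of_pos (show (0 : ℝ) < 1 + 1 / (j : ℝ) by positivity)
      linarith
    have e3 : 1 / (j : ℝ) ≤ 1 / 3 := one_div_le_one_div_of_le (by norm_num) hj3
    linarith
  have hB0 : (0 : ℝ) ≤ (B : ℝ) := Nat.cast_nonneg B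
  have hlx0 : 0 ≤ Real.log x := Real.log_nonneg hx1
  have hle : 1 + Real.log x ≤ 4 / 3 * (1 + (B : ℝ) * Real.log (j : ℝ)) := by
    have : (B : ℝ) * Real.log ((j : ℝ) + 1) ≤ (B : ℝ) * (Real.log (j : ℝ) + 1 / 3) :=
      mul_le_mul_of_nonneg_left hlj hB0
    have h4 : (B : ℝ) * 1 ≤ (B : ℝ) * Real.log (j : ℝ) := mul_le_mul_of_nonneg_left hlog3 hB0
    nlinarith
  rw [Real.log_pow]
  have hP : 0 < 1 + (B : ℝ) * Real.log (j : ℝ) := by
    have : 0 ≤ (B : ℝ) * Real.log (j : ℝ) := by positivity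
    linarith
  have hsq : (1 + Real.log x) ^ 2 ≤ 2 * (1 + (B : ℝ) * Real.log (j : ℝ)) ^ 2 := by
    have h5 : (1 + Real.log x) ^ 2 ≤ (4 / 3 * (1 + (B : ℝ) * Real.log (j : ℝ))) ^ 2 :=
      pow_le_pow_left₀ (by linarith) hle 2
    nlinarith [sq_nonneg (1 + (B : ℝ) * Real.log (j : ℝ))]
  have h6 : 0 < (1 + Real.log x) ^ 2 := by positivity
  have h7 : 0 < (1 + (B : ℝ) * Real.log (j : ℝ)) ^ 2 := by positivity
  rw [inv_eq_one_div, inv_eq_one_div, ← mul_div_assoc, mul_one, div_le_div_iff₀ h7 h6]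
  linarith

/-- the length of a cell -/
lemma samp_len (B j : ℕ) (hj : 1 ≤ j) (hB : 1 ≤ B) (x : ℝ) (h1 : (j : ℝ) ^ B ≤ x) :
    ((j : ℝ) + 1) ^ B - (j : ℝ) ^ B ≤ (B : ℝ) * 2 ^ B * x ^ (1 - 1 / (B : ℝ)) := by
  have hj1 : (1 : ℝ) ≤ (j : ℝ) := by exact_mod_cast hj
  have hj0 : (0 : ℝ) < (j : ℝ) := by linarith
  have hx0 : 0 < x := lt_of_lt_of_le (by positivity) h1
  have hB0 : (0 : ℝ) < (B : ℝ) := by exact_mod_cast hB
  have e1 : ((j : ℝ) + 1) ^ B - (j : ℝ) ^ B ≤ (B : ℝ) * ((j : ℝ) + 1) ^ (B - 1) := by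
    have h := one_add_mul_le_pow (show (-2 : ℝ) ≤ -(1 / ((j : ℝ) + 1)) by
      have : 1 / ((j : ℝ) + 1) ≤ 1 := by
        rw [div_le_one (by linarith)]
        linarith
      linarith) B
    have h2 : ((j : ℝ) + 1) ^ B * (1 + (B : ℝ) * -(1 / ((j : ℝ) + 1))) ≤
        ((j : ℝ) + 1) ^ B * (1 + -(1 / ((j : ℝ) + 1))) ^ B :=
      mul_le_mul_of_nonneg_left h (by positivity)
    rw [← mul_pow] at h2
    have h3 : ((j : ℝ) + 1) * (1 + -(1 / ((j : ℝ) + 1))) = j := by field_simp; ring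
    rw [h3] at h2
    have h4 : ((j : ℝ) + 1) ^ B = ((j : ℝ) + 1) ^ (B - 1) * ((j : ℝ) + 1) := by
      rw [← pow_succ]
      congr 1
      omega
    have h5 : ((j : ℝ) + 1) ^ B * (1 + (B : ℝ) * -(1 / ((j : ℝ) + 1))) =
        ((j : ℝ) + 1) ^ B - (B : ℝ) * ((j : ℝ) + 1) ^ (B - 1) := by
      rw [h4]
      field_simp
      ring
    rw [h5] at h2
    linarith
  have e2 : ((j : ℝ) + 1) ^ (B - 1) ≤ 2 ^ B * (j : ℝ) ^ (B - 1) := by
    calc ((j : ℝ) + 1) ^ (B - 1) ≤ (2 * (j : ℝ)) ^ (B - 1) :=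
          pow_le_pow_left₀ (by linarith) (by linarith) _
      _ = 2 ^ (B - 1) * (j : ℝ) ^ (B - 1) := mul_pow _ _ _
      _ ≤ 2 ^ B * (j : ℝ) ^ (B - 1) := by
          apply mul_le_mul_of_nonneg_right _ (by positivity)
          exact pow_le_pow_right₀ (by norm_num) (by omega)
  have e3 : (j : ℝ) ^ (B - 1) ≤ x ^ (1 - 1 / (B : ℝ)) := by
    have h6 : (j : ℝ) ^ (B - 1) = ((j : ℝ) ^ B) ^ (1 - 1 / (B : ℝ)) := by
      rw [← Real.rpow_natCast, ← Real.rpow_natCast, ← Real.rpow_mul hj0.le]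
      congr 1
      rw [Nat.cast_sub hB]
      field_simp
      simp
    rw [h6]
    apply Real.rpow_le_rpow (by positivity) h1
    have : 1 / (B : ℝ) ≤ 1 := by
      rw [div_le_one hB0]
      exact_mod_cast hB
    linarith
  calc ((j : ℝ) + 1) ^ B - (j : ℝ) ^ B ≤ (B : ℝ) * ((j : ℝ) + 1) ^ (B - 1) := e1
    _ ≤ (B : ℝ) * (2 ^ B * (j : ℝ) ^ (B - 1)) := mul_le_mul_of_nonneg_left e2 hB0.le
    _ ≤ (B : ℝ) * (2 ^ B * x ^ (1 - 1 / (B : ℝ))) := by gcongr
    _ = (B : ℝ) * 2 ^ B * x ^ (1 - 1 / (B : ℝ)) := by ring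

/-- variation of `f` on a cell -/
lemma samp_var (f : ℝ → ℝ) (hf : ∀ x : ℝ, 0 < x → DifferentiableAt ℝ f x)
    (hf' : ContinuousOn (deriv f) (Ioi 0)) (a b x y : ℝ) (ha : 0 < a) (hx : x ∈ Icc a b)
    (hy : y ∈ Icc a b) : |f x| ≤ |f y| + ∫ t in Ioc a b, |deriv f t| := by
  have hsub : Icc a b ⊆ Ioi 0 := fun t ht => lt_of_lt_of_le ha ht.1
  have hI : IntegrableOn (fun t => |deriv f t|) (Ioc a b) :=
    ((hf'.mono hsub).abs.integrableOn_Icc).mono_set Ioc_subset_Icc_self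
  have key : ∀ u v : ℝ, u ∈ Icc a b → v ∈ Icc a b → u ≤ v →
      |f v - f u| ≤ ∫ t in Ioc a b, |deriv f t| := by
    intro u v hu hv huv
    have hsub2 : Icc u v ⊆ Icc a b := Icc_subset_Icc hu.1 hv.2
    have e1 : ∫ t in u..v, deriv f t = f v - f u := by
      apply intervalIntegral.integral_deriv_eq_sub
      · intro t ht
        rw [uIcc_of_le huv] at ht
        exact hf t (hsub (hsub2 ht))
      · apply ContinuousOn.intervalIntegrable
        rw [uIcc_of_le huv]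
        exact hf'.mono (hsub2.trans hsub)
    rw [← e1, intervalIntegral.integral_of_le huv]
    refine (abs_integral_le_integral_abs).trans ?_
    apply setIntegral_mono_set hI
    · exact Filter.Eventually.of_forall fun t => abs_nonneg _
    · exact (Ioc_subset_Ioc hu.1 hv.2).eventuallyLE
  rcases le_total x y with hxy | hxy
  · have := key x y hx hy hxy
    have h1 : |f x| ≤ |f y| + |f y - f x| := by
      have := abs_sub_abs_le_abs_sub (f x) (f y)
      rw [abs_sub_comm (f x)] at this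
      linarith
    linarith
  · have := key y x hy hx hxy
    have h1 : |f x| ≤ |f y| + |f x - f y| := by
      have := abs_sub_abs_le_abs_sub (f x) (f y)
      linarith
    linarith

/-- one cell -/
lemma samp_cell (lam : ℝ) (B J0 : ℕ) (A : ℝ) (h : Input B J0 A) (j : ℕ) (hj : J0 ≤ j)
    (f : ℝ → ℝ) (hf : ∀ x : ℝ, 0 < x → DifferentiableAt ℝ f x)
    (hf' : ContinuousOn (deriv f) (Ioi 0))
    (hi1 : IntegrableOn (fun x => uu lam x * |f x|) (Ioc ((j : ℝ) ^ B) (((j + 1 : ℕ) : ℝ) ^ B)))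
    (hi2 : IntegrableOn (fun x => uu lam x * x ^ (-(1 / (B : ℝ))) * |x * deriv f x|)
      (Ioc ((j : ℝ) ^ B) (((j + 1 : ℕ) : ℝ) ^ B))) :
    (∫ x in Ioc ((j : ℝ) ^ B) (((j + 1 : ℕ) : ℝ) ^ B), uu lam x * |f x| ≤
      2 * ∑ p ∈ (Finset.Ioc (j ^ B) ((j + 1) ^ B)).filter Nat.Prime, wt B p * uu lam p * |f p| +
      2 * ((B : ℝ) * 2 ^ B) * ∫ x in Ioc ((j : ℝ) ^ B) (((j + 1 : ℕ) : ℝ) ^ B),
        uu lam x * x ^ (-(1 / (B : ℝ))) * |x * deriv f x|) ∧
    (∑ p ∈ (Finset.Ioc (j ^ B) ((j + 1) ^ B)).filter Nat.Prime, wt B p * uu lam p * |f p| ≤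
      2 * (∫ x in Ioc ((j : ℝ) ^ B) (((j + 1 : ℕ) : ℝ) ^ B), uu lam x * |f x|) +
      2 * ((B : ℝ) * 2 ^ B) * ∫ x in Ioc ((j : ℝ) ^ B) (((j + 1 : ℕ) : ℝ) ^ B),
        uu lam x * x ^ (-(1 / (B : ℝ))) * |x * deriv f x|) := by
  obtain ⟨hB2, hJ3, hA0, hN⟩ := h
  have hj3 : 3 ≤ j := hJ3.trans hj
  have hj3r : (3 : ℝ) ≤ (j : ℝ) := by exact_mod_cast hj3
  have hcast : (((j + 1 : ℕ) : ℝ)) = (j : ℝ) + 1 := by push_cast; ring
  have hB1 : 1 ≤ B := by omega
  have hwc := wt_cell B J0 A ⟨hB2, hJ3, hA0, hN⟩ j hj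
  have hwn := wt_nonneg B
  rw [hcast] at hi1 hi2 ⊢
  obtain ⟨a, ha⟩ : ∃ a : ℝ, a = (j : ℝ) ^ B := ⟨_, rfl⟩
  obtain ⟨b, hb⟩ : ∃ b : ℝ, b = ((j : ℝ) + 1) ^ B := ⟨_, rfl⟩
  obtain ⟨P, hP⟩ : ∃ P : Finset ℕ, P = (Finset.Ioc (j ^ B) ((j + 1) ^ B)).filter Nat.Prime :=
    ⟨_, rfl⟩
  rw [← ha, ← hb] at hi1 hi2 ⊢
  rw [← hP]
  rw [← ha, ← hb, ← hP] at hwc
  have ha1 : 1 ≤ a := by rw [ha]; exact one_le_pow₀ (by linarith)
  have ha0 : 0 < a := by linarith
  have hab : a < b := by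
    rw [ha, hb]
    exact pow_lt_pow_left₀ (by linarith) (by linarith) (by omega)
  have hL : 0 < b - a := by linarith
  have hpm : ∀ p ∈ P, a < (p : ℝ) ∧ (p : ℝ) ≤ b := by
    intro p hp
    rw [hP, Finset.mem_filter, Finset.mem_Ioc] at hp
    constructor
    · rw [ha]; exact_mod_cast hp.1.1
    · rw [hb]
      have : (p : ℝ) ≤ (((j + 1) ^ B : ℕ) : ℝ) := by exact_mod_cast hp.1.2
      push_cast at this
      exact this
  have hratio : ∀ x : ℝ, a ≤ x → x ≤ b → uu lam a ≤ 2 * uu lam x := by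
    intro x h1 h2
    rw [ha]
    exact samp_ratio lam B j hj3 x (by rw [← ha]; exact h1) (by rw [← hb]; exact h2)
  have hanti : ∀ x : ℝ, a ≤ x → uu lam x ≤ uu lam a := fun x h1 => samp_uu_anti lam a x ha1 h1
  have hupos : ∀ x : ℝ, a ≤ x → 0 < uu lam x := fun x h1 => samp_uu_pos lam x (ha1.trans h1)
  obtain ⟨D, hD⟩ : ∃ D : ℝ, D = ∫ t in Ioc a b, |deriv f t| := ⟨_, rfl⟩
  have hD0 : 0 ≤ D := by
    rw [hD]
    exact integral_nonneg fun t => abs_nonneg _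
  have hvar : ∀ x y : ℝ, x ∈ Icc a b → y ∈ Icc a b → |f x| ≤ |f y| + D := by
    intro x y hx hy
    rw [hD]
    exact samp_var f hf hf' a b x y ha0 hx hy
  have hsub : Icc a b ⊆ Ioi 0 := fun t ht => lt_of_lt_of_le ha0 ht.1
  have hfc : ContinuousOn f (Icc a b) := fun t ht =>
    (hf t (hsub ht)).continuousAt.continuousWithinAt
  have hIf : IntegrableOn (fun t => |f t|) (Ioc a b) :=
    (hfc.abs.integrableOn_Icc).mono_set Ioc_subset_Icc_self
  have hId : IntegrableOn (fun t => |deriv f t|) (Ioc a b) :=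
    ((hf'.mono hsub).abs.integrableOn_Icc).mono_set Ioc_subset_Icc_self
  obtain ⟨E, hE⟩ : ∃ E : ℝ, E = ∫ t in Ioc a b, |f t| := ⟨_, rfl⟩
  obtain ⟨S, hS⟩ : ∃ S : ℝ, S = ∑ p ∈ P, wt B p * |f p| := ⟨_, rfl⟩
  have hvol : (volume.real (Ioc a b)) = b - a := by
    rw [Real.volume_real_Ioc_of_le hab.le]
  -- E ≤ S + L D
  have h1 : E ≤ S + (b - a) * D := by
    have hp : ∀ p ∈ P, E ≤ (b - a) * (|f p| + D) := by
      intro p hp
      obtain ⟨hp1, hp2⟩ := hpm p hp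
      rw [hE]
      calc ∫ t in Ioc a b, |f t| ≤ ∫ t in Ioc a b, (|f p| + D) := by
            apply setIntegral_mono_on hIf _ measurableSet_Ioc
            · intro x hx
              exact hvar x p ⟨hx.1.le, hx.2⟩ ⟨hp1.le, hp2⟩
            · exact integrableOn_const (by simp) (by simp)
        _ = (b - a) * (|f p| + D) := by
            rw [setIntegral_const, hvol, smul_eq_mul]
    have h2 : ∑ p ∈ P, wt B p * E ≤ ∑ p ∈ P, wt B p * ((b - a) * (|f p| + D)) :=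
      Finset.sum_le_sum fun p hp' => mul_le_mul_of_nonneg_left (hp p hp') (hwn p)
    have h3 : ∑ p ∈ P, wt B p * ((b - a) * (|f p| + D)) = (b - a) * (S + (b - a) * D) := by
      have h4 : ∑ p ∈ P, wt B p * ((b - a) * (|f p| + D)) =
          (b - a) * ∑ p ∈ P, wt B p * |f p| + (b - a) * D * ∑ p ∈ P, wt B p := by
        rw [Finset.mul_sum, Finset.mul_sum, ← Finset.sum_add_distrib]
        exact Finset.sum_congr rfl fun p _ => by ring
      rw [h4, hwc, ← hS]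
      ring
    rw [← Finset.sum_mul, hwc, h3] at h2
    exact le_of_mul_le_mul_left h2 hL
  -- S ≤ E + L D
  have h2 : S ≤ E + (b - a) * D := by
    have hx : ∀ x ∈ Ioc a b, S ≤ (b - a) * (|f x| + D) := by
      intro x hx
      rw [hS, ← hwc, Finset.sum_mul]
      apply Finset.sum_le_sum
      intro p hp
      obtain ⟨hp1, hp2⟩ := hpm p hp
      exact mul_le_mul_of_nonneg_left (hvar p x ⟨hp1.le, hp2⟩ ⟨hx.1.le, hx.2⟩) (hwn p)
    have h3 : ∫ t in Ioc a b, S ≤ ∫ t in Ioc a b, (b - a) * (|f t| + D) := by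
      apply setIntegral_mono_on _ _ measurableSet_Ioc hx
      · exact integrableOn_const (by simp) (by simp)
      · exact (hIf.add (integrableOn_const (by simp) (by simp))).const_mul _
    rw [setIntegral_const, hvol, smul_eq_mul] at h3
    have h4 : ∫ t in Ioc a b, (b - a) * (|f t| + D) = (b - a) * (E + (b - a) * D) := by
      rw [integral_const_mul, integral_add hIf (integrableOn_const (by simp) (by simp)),
        setIntegral_const, hvol, smul_eq_mul, ← hE]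
    rw [h4] at h3
    exact le_of_mul_le_mul_left h3 hL
  -- the derivative term
  have h3 : uu lam a * ((b - a) * D) ≤ 2 * ((B : ℝ) * 2 ^ B) * ∫ x in Ioc a b,
      uu lam x * x ^ (-(1 / (B : ℝ))) * |x * deriv f x| := by
    have e1 : uu lam a * ((b - a) * D) = ∫ t in Ioc a b, uu lam a * (b - a) * |deriv f t| := by
      rw [integral_const_mul, ← hD]
      ring
    rw [e1, ← integral_const_mul]
    apply setIntegral_mono_on (hId.const_mul _) (hi2.const_mul _) measurableSet_Ioc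
    intro x hx
    have hx0 : 0 < x := lt_trans ha0 hx.1
    have e2 := samp_len B j (by omega) hB1 x (by rw [← ha]; exact hx.1.le)
    rw [← ha, ← hb] at e2
    have e3 := hratio x hx.1.le hx.2
    have e4 : x ^ (-(1 / (B : ℝ))) * |x * deriv f x| = x ^ (1 - 1 / (B : ℝ)) * |deriv f x| := by
      rw [abs_mul, abs_of_pos hx0, ← mul_assoc]
      congr 1
      rw [sub_eq_add_neg, Real.rpow_add hx0, Real.rpow_one]
      ring
    calc uu lam a * (b - a) * |deriv f x|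
        ≤ (2 * uu lam x) * ((B : ℝ) * 2 ^ B * x ^ (1 - 1 / (B : ℝ))) * |deriv f x| := by
          apply mul_le_mul_of_nonneg_right _ (abs_nonneg _)
          apply mul_le_mul e3 e2 hL.le
          have := hupos x hx.1.le
          positivity
      _ = 2 * ((B : ℝ) * 2 ^ B) * (uu lam x * (x ^ (1 - 1 / (B : ℝ)) * |deriv f x|)) := by ring
      _ = 2 * ((B : ℝ) * 2 ^ B) * (uu lam x * x ^ (-(1 / (B : ℝ))) * |x * deriv f x|) := by
          rw [← e4]; ring
  have hua := hupos a le_rfl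
  constructor
  · have e1 : ∫ x in Ioc a b, uu lam x * |f x| ≤ uu lam a * E := by
      rw [hE, ← integral_const_mul]
      apply setIntegral_mono_on hi1 (hIf.const_mul _) measurableSet_Ioc
      intro x hx
      exact mul_le_mul_of_nonneg_right (hanti x hx.1.le) (abs_nonneg _)
    have e2 : uu lam a * S ≤ 2 * ∑ p ∈ P, wt B p * uu lam p * |f p| := by
      rw [hS, Finset.mul_sum, Finset.mul_sum]
      apply Finset.sum_le_sum
      intro p hp
      obtain ⟨hp1, hp2⟩ := hpm p hp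
      calc uu lam a * (wt B p * |f p|) ≤ (2 * uu lam p) * (wt B p * |f p|) :=
            mul_le_mul_of_nonneg_right (hratio p hp1.le hp2)
              (mul_nonneg (hwn p) (abs_nonneg _))
        _ = 2 * (wt B p * uu lam p * |f p|) := by ring
    calc ∫ x in Ioc a b, uu lam x * |f x| ≤ uu lam a * E := e1
      _ ≤ uu lam a * (S + (b - a) * D) := mul_le_mul_of_nonneg_left h1 hua.le
      _ = uu lam a * S + uu lam a * ((b - a) * D) := by ring
      _ ≤ _ := add_le_add e2 h3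
  · have e1 : uu lam a * E ≤ 2 * ∫ x in Ioc a b, uu lam x * |f x| := by
      rw [hE, ← integral_const_mul, ← integral_const_mul]
      apply setIntegral_mono_on (hIf.const_mul _) (hi1.const_mul _) measurableSet_Ioc
      intro x hx
      calc uu lam a * |f x| ≤ (2 * uu lam x) * |f x| :=
            mul_le_mul_of_nonneg_right (hratio x hx.1.le hx.2) (abs_nonneg _)
        _ = 2 * (uu lam x * |f x|) := by ring
    have e2 : ∑ p ∈ P, wt B p * uu lam p * |f p| ≤ uu lam a * S := by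
      rw [hS, Finset.mul_sum]
      apply Finset.sum_le_sum
      intro p hp
      obtain ⟨hp1, hp2⟩ := hpm p hp
      calc wt B p * uu lam p * |f p| = uu lam p * (wt B p * |f p|) := by ring
        _ ≤ uu lam a * (wt B p * |f p|) :=
            mul_le_mul_of_nonneg_right (hanti p hp1.le) (mul_nonneg (hwn p) (abs_nonneg _))
    calc ∑ p ∈ P, wt B p * uu lam p * |f p| ≤ uu lam a * S := e2
      _ ≤ uu lam a * (E + (b - a) * D) := mul_le_mul_of_nonneg_left h2 hua.le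
      _ = uu lam a * E + uu lam a * ((b - a) * D) := by ring
      _ ≤ _ := add_le_add e1 h3

/-- finitely many cells -/
lemma samp_fin (lam : ℝ) (B J0 : ℕ) (A : ℝ) (h : Input B J0 A) (J : ℕ) (hJ : J0 ≤ J)
    (f : ℝ → ℝ) (hf : ∀ x : ℝ, 0 < x → DifferentiableAt ℝ f x)
    (hf' : ContinuousOn (deriv f) (Ioi 0))
    (hi1 : IntegrableOn (fun x => uu lam x * |f x|) (Ioi ((J : ℝ) ^ B)))
    (hi2 : IntegrableOn (fun x => uu lam x * x ^ (-(1 / (B : ℝ))) * |x * deriv f x|)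
      (Ioi ((J : ℝ) ^ B))) (N : ℕ) (hN : J ≤ N) :
    (∫ x in Ioc ((J : ℝ) ^ B) ((N : ℝ) ^ B), uu lam x * |f x| ≤
      2 * ∑ p ∈ (Finset.Ioc (J ^ B) (N ^ B)).filter Nat.Prime, wt B p * uu lam p * |f p| +
      2 * ((B : ℝ) * 2 ^ B) * ∫ x in Ioc ((J : ℝ) ^ B) ((N : ℝ) ^ B),
        uu lam x * x ^ (-(1 / (B : ℝ))) * |x * deriv f x|) ∧
    (∑ p ∈ (Finset.Ioc (J ^ B) (N ^ B)).filter Nat.Prime, wt B p * uu lam p * |f p| ≤
      2 * (∫ x in Ioc ((J : ℝ) ^ B) ((N : ℝ) ^ B), uu lam x * |f x|) +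
      2 * ((B : ℝ) * 2 ^ B) * ∫ x in Ioc ((J : ℝ) ^ B) ((N : ℝ) ^ B),
        uu lam x * x ^ (-(1 / (B : ℝ))) * |x * deriv f x|) := by
  induction N, hN using Nat.le_induction with
  | base => simp
  | succ n hn ih =>
    have hmono1 : ((J : ℝ) ^ B) ≤ (n : ℝ) ^ B :=
      pow_le_pow_left₀ (Nat.cast_nonneg J) (by exact_mod_cast hn) _
    have hmono2 : ((n : ℝ) ^ B) ≤ ((n + 1 : ℕ) : ℝ) ^ B :=
      pow_le_pow_left₀ (Nat.cast_nonneg n) (by exact_mod_cast Nat.le_succ n) _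
    have hsubn : Ioc ((n : ℝ) ^ B) (((n + 1 : ℕ) : ℝ) ^ B) ⊆ Ioi ((J : ℝ) ^ B) :=
      fun x hx => lt_of_le_of_lt hmono1 hx.1
    have hsubJ : Ioc ((J : ℝ) ^ B) ((n : ℝ) ^ B) ⊆ Ioi ((J : ℝ) ^ B) := fun x hx => hx.1
    have hc := samp_cell lam B J0 A h n (hJ.trans hn) f hf hf' (hi1.mono_set hsubn)
      (hi2.mono_set hsubn)
    have hun : Ioc ((J : ℝ) ^ B) (((n + 1 : ℕ) : ℝ) ^ B) =
        Ioc ((J : ℝ) ^ B) ((n : ℝ) ^ B) ∪ Ioc ((n : ℝ) ^ B) (((n + 1 : ℕ) : ℝ) ^ B) :=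
      (Ioc_union_Ioc_eq_Ioc hmono1 hmono2).symm
    have hdis : Disjoint (Ioc ((J : ℝ) ^ B) ((n : ℝ) ^ B))
        (Ioc ((n : ℝ) ^ B) (((n + 1 : ℕ) : ℝ) ^ B)) := by
      rw [Set.disjoint_left]
      intro x hx hx'
      exact absurd hx'.1 (not_lt.mpr hx.2)
    have hint1 : ∫ x in Ioc ((J : ℝ) ^ B) (((n + 1 : ℕ) : ℝ) ^ B), uu lam x * |f x| =
        (∫ x in Ioc ((J : ℝ) ^ B) ((n : ℝ) ^ B), uu lam x * |f x|) +
        ∫ x in Ioc ((n : ℝ) ^ B) (((n + 1 : ℕ) : ℝ) ^ B), uu lam x * |f x| := by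
      rw [hun]
      exact setIntegral_union hdis measurableSet_Ioc (hi1.mono_set hsubJ) (hi1.mono_set hsubn)
    have hint2 : ∫ x in Ioc ((J : ℝ) ^ B) (((n + 1 : ℕ) : ℝ) ^ B),
        uu lam x * x ^ (-(1 / (B : ℝ))) * |x * deriv f x| =
        (∫ x in Ioc ((J : ℝ) ^ B) ((n : ℝ) ^ B),
          uu lam x * x ^ (-(1 / (B : ℝ))) * |x * deriv f x|) +
        ∫ x in Ioc ((n : ℝ) ^ B) (((n + 1 : ℕ) : ℝ) ^ B),
          uu lam x * x ^ (-(1 / (B : ℝ))) * |x * deriv f x| := by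
      rw [hun]
      exact setIntegral_union hdis measurableSet_Ioc (hi2.mono_set hsubJ) (hi2.mono_set hsubn)
    have hm1 : J ^ B ≤ n ^ B := Nat.pow_le_pow_left hn _
    have hm2 : n ^ B ≤ (n + 1) ^ B := Nat.pow_le_pow_left (Nat.le_succ n) _
    have hfs : ∑ p ∈ (Finset.Ioc (J ^ B) ((n + 1) ^ B)).filter Nat.Prime,
        wt B p * uu lam p * |f p| =
        ∑ p ∈ (Finset.Ioc (J ^ B) (n ^ B)).filter Nat.Prime, wt B p * uu lam p * |f p| +
        ∑ p ∈ (Finset.Ioc (n ^ B) ((n + 1) ^ B)).filter Nat.Prime,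
          wt B p * uu lam p * |f p| := by
      have hun2 : Finset.Ioc (J ^ B) ((n + 1) ^ B) =
          Finset.Ioc (J ^ B) (n ^ B) ∪ Finset.Ioc (n ^ B) ((n + 1) ^ B) := by
        ext p
        simp only [Finset.mem_Ioc, Finset.mem_union]
        omega
      rw [hun2, Finset.filter_union, Finset.sum_union]
      rw [Finset.disjoint_left]
      intro p hp hp'
      rw [Finset.mem_filter, Finset.mem_Ioc] at hp hp'
      omega
    rw [hint1, hint2, hfs]
    obtain ⟨i1, i2⟩ := ih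
    obtain ⟨c1, c2⟩ := hc
    constructor
    · nlinarith [i1, c1]
    · nlinarith [i2, c2]

/-- integral of `u |f|` over `(J^B, ∞)` from the values at the primes and the derivative -/
theorem samp (lam : ℝ) (B J0 : ℕ) (A : ℝ) (h : Input B J0 A) : ∃ C : ℝ, 0 < C ∧ ∃ J1 : ℕ, J0 ≤ J1 ∧
    ∀ J : ℕ, J1 ≤ J → ∀ f : ℝ → ℝ, (∀ x : ℝ, 0 < x → DifferentiableAt ℝ f x) →
    ContinuousOn (deriv f) (Ioi 0) →
    IntegrableOn (fun x => uu lam x * |f x|) (Ioi ((J : ℝ) ^ B)) →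
    IntegrableOn (fun x => uu lam x * x ^ (-(1 / (B : ℝ))) * |x * deriv f x|) (Ioi ((J : ℝ) ^ B)) →
    Summable (fun p : ℕ => if p.Prime ∧ J ^ B < p then wt B p * uu lam p * |f p| else 0) ∧
    ∫ x in Ioi ((J : ℝ) ^ B), uu lam x * |f x| ≤
      2 * ∑' p : ℕ, (if p.Prime ∧ J ^ B < p then wt B p * uu lam p * |f p| else 0) +
      C * ∫ x in Ioi ((J : ℝ) ^ B), uu lam x * x ^ (-(1 / (B : ℝ))) * |x * deriv f x| := by
  have hB2 : 2 ≤ B := h.1
  have hJ3 : 3 ≤ J0 := h.2.1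
  have hB0 : (0 : ℝ) < (B : ℝ) := by
    have : 0 < B := by omega
    exact_mod_cast this
  refine ⟨2 * ((B : ℝ) * 2 ^ B), by positivity, J0, le_rfl, ?_⟩
  intro J hJ f hf hf' hi1 hi2
  have hJ3' : (3 : ℝ) ≤ (J : ℝ) := by exact_mod_cast hJ3.trans hJ
  have hJB : 1 ≤ (J : ℝ) ^ B := one_le_pow₀ (by linarith)
  have hpos1 : ∀ x ∈ Ioi ((J : ℝ) ^ B), 0 ≤ uu lam x * |f x| := by
    intro x hx
    exact mul_nonneg (samp_uu_pos lam x (hJB.trans (le_of_lt hx))).le (abs_nonneg _)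
  have hpos2 : ∀ x ∈ Ioi ((J : ℝ) ^ B),
      0 ≤ uu lam x * x ^ (-(1 / (B : ℝ))) * |x * deriv f x| := by
    intro x hx
    have hx1 : 1 ≤ x := hJB.trans (le_of_lt hx)
    have h1 := (samp_uu_pos lam x hx1).le
    have h2 : 0 ≤ x ^ (-(1 / (B : ℝ))) := Real.rpow_nonneg (by linarith) _
    positivity
  have hg0 : ∀ p : ℕ, 0 ≤ (if p.Prime ∧ J ^ B < p then wt B p * uu lam p * |f p| else 0) := by
    intro p
    split_ifs with hp
    · have hp1 : (1 : ℝ) ≤ (p : ℝ) := by exact_mod_cast hp.1.one_lt.le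
      exact mul_nonneg (mul_nonneg (wt_nonneg B p) (samp_uu_pos lam p hp1).le) (abs_nonneg _)
    · exact le_rfl
  have hle1 : ∀ N : ℕ, ∫ x in Ioc ((J : ℝ) ^ B) ((N : ℝ) ^ B), uu lam x * |f x| ≤
      ∫ x in Ioi ((J : ℝ) ^ B), uu lam x * |f x| := by
    intro N
    apply setIntegral_mono_set hi1
    · exact (ae_restrict_iff' measurableSet_Ioi).mpr (Filter.Eventually.of_forall hpos1)
    · exact (Ioc_subset_Ioi_self).eventuallyLE
  have hle2 : ∀ N : ℕ, ∫ x in Ioc ((J : ℝ) ^ B) ((N : ℝ) ^ B),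
      uu lam x * x ^ (-(1 / (B : ℝ))) * |x * deriv f x| ≤
      ∫ x in Ioi ((J : ℝ) ^ B), uu lam x * x ^ (-(1 / (B : ℝ))) * |x * deriv f x| := by
    intro N
    apply setIntegral_mono_set hi2
    · exact (ae_restrict_iff' measurableSet_Ioi).mpr (Filter.Eventually.of_forall hpos2)
    · exact (Ioc_subset_Ioi_self).eventuallyLE
  have hsum : Summable (fun p : ℕ => if p.Prime ∧ J ^ B < p then
      wt B p * uu lam p * |f p| else 0) := by
    apply summable_of_sum_range_le hg0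
      (c := 2 * (∫ x in Ioi ((J : ℝ) ^ B), uu lam x * |f x|) +
        2 * ((B : ℝ) * 2 ^ B) * ∫ x in Ioi ((J : ℝ) ^ B),
          uu lam x * x ^ (-(1 / (B : ℝ))) * |x * deriv f x|)
    intro n
    obtain ⟨N, hN⟩ : ∃ N : ℕ, N = max J n := ⟨_, rfl⟩
    have hNJ : J ≤ N := hN ▸ le_max_left _ _
    have hNn : n ≤ N ^ B := by
      calc n ≤ N := hN ▸ le_max_right _ _
        _ ≤ N ^ B := Nat.le_self_pow (by omega) N
    have h1 := (samp_fin lam B J0 A h J hJ f hf hf' hi1 hi2 N hNJ).2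
    calc ∑ p ∈ Finset.range n, (if p.Prime ∧ J ^ B < p then
          wt B p * uu lam p * |f p| else 0)
        = ∑ p ∈ (Finset.range n).filter (fun p => p.Prime ∧ J ^ B < p),
          wt B p * uu lam p * |f p| := by rw [Finset.sum_filter]
      _ ≤ ∑ p ∈ (Finset.Ioc (J ^ B) (N ^ B)).filter Nat.Prime, wt B p * uu lam p * |f p| := by
          apply Finset.sum_le_sum_of_subset_of_nonneg
          · intro p hp
            rw [Finset.mem_filter, Finset.mem_range] at hp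
            rw [Finset.mem_filter, Finset.mem_Ioc]
            exact ⟨⟨hp.2.2, (hp.1.le).trans hNn⟩, hp.2.1⟩
          · intro p hp _
            rw [Finset.mem_filter, Finset.mem_Ioc] at hp
            have := hg0 p
            rwa [if_pos ⟨hp.2, hp.1.1⟩] at this
      _ ≤ _ := h1
      _ ≤ _ := by
          have c1 := hle1 N
          have c2 := hle2 N
          have c3 : (0 : ℝ) ≤ 2 * ((B : ℝ) * 2 ^ B) := by positivity
          have c4 := mul_le_mul_of_nonneg_left c2 c3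
          linarith
  refine ⟨hsum, ?_⟩
  have htend : Filter.Tendsto (fun N : ℕ => ∫ x in Ioc ((J : ℝ) ^ B) ((N : ℝ) ^ B),
      uu lam x * |f x|) Filter.atTop (nhds (∫ x in Ioi ((J : ℝ) ^ B), uu lam x * |f x|)) := by
    have hb : Filter.Tendsto (fun N : ℕ => (N : ℝ) ^ B) Filter.atTop Filter.atTop :=
      (Filter.tendsto_pow_atTop (by omega)).comp tendsto_natCast_atTop_atTop
    have := intervalIntegral_tendsto_integral_Ioi ((J : ℝ) ^ B) hi1 hb
    refine this.congr' ?_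
    filter_upwards [Filter.eventually_ge_atTop J] with N hN
    rw [intervalIntegral.integral_of_le]
    exact pow_le_pow_left₀ (Nat.cast_nonneg J) (by exact_mod_cast hN) _
  apply le_of_tendsto htend
  filter_upwards [Filter.eventually_ge_atTop J] with N hN
  have h1 := (samp_fin lam B J0 A h J hJ f hf hf' hi1 hi2 N hN).1
  have h2 : ∑ p ∈ (Finset.Ioc (J ^ B) (N ^ B)).filter Nat.Prime, wt B p * uu lam p * |f p| ≤
      ∑' p : ℕ, (if p.Prime ∧ J ^ B < p then wt B p * uu lam p * |f p| else 0) := by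
    calc ∑ p ∈ (Finset.Ioc (J ^ B) (N ^ B)).filter Nat.Prime, wt B p * uu lam p * |f p|
        = ∑ p ∈ (Finset.Ioc (J ^ B) (N ^ B)).filter Nat.Prime,
          (if p.Prime ∧ J ^ B < p then wt B p * uu lam p * |f p| else 0) := by
          apply Finset.sum_congr rfl
          intro p hp
          rw [Finset.mem_filter, Finset.mem_Ioc] at hp
          rw [if_pos ⟨hp.2, hp.1.1⟩]
      _ ≤ _ := hsum.sum_le_tsum _ (fun p _ => hg0 p)
  have c2 := hle2 N
  have c3 : (0 : ℝ) ≤ 2 * ((B : ℝ) * 2 ^ B) := by positivity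
  have c4 := mul_le_mul_of_nonneg_left c2 c3
  linarith

end Pool.Agent.H30.WD
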