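import Pool.Agent.H30.WD.Main

/-! [H30 WD Str] the final form of the theorem -/

set_option autoImplicit false

namespace Pool.Agent.H30.WD

open H11.Selberg

theorem strong (a : ℕ → ℂ) (c : ℝ) (hc : 0 < c)
    (h : ∀ X : ℝ, ∃ x : ℝ, X ≤ x ∧ c * Real.log x ^ 2 ≤ S a x) (X : ℝ) :
    ∃ x : ℝ, X ≤ x ∧ c / 2 * Real.log x ^ 2 ≤ S a x - Real.log (Real.log x) := by
  obtain ⟨x, hx, hx2⟩ := h (max X (Real.exp (2 / c + 1)))
  refine ⟨x, (le_max_left _ _).trans hx, ?_⟩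
  have h1 : Real.exp (2 / c + 1) ≤ x := (le_max_right _ _).trans hx
  have h0 : 0 ≤ 2 / c := by positivity
  have h2 : 2 / c + 1 ≤ Real.log x := by
    rw [← Real.log_exp (2 / c + 1)]
    exact Real.log_le_log (Real.exp_pos _) h1
  have h3 : Real.log (Real.log x) ≤ Real.log x - 1 := Real.log_le_sub_one_of_pos (by linarith)
  have h4 : 2 ≤ c * Real.log x := by
    have : 2 / c ≤ Real.log x := by linarith
    rw [div_le_iff₀ hc] at this
    linarith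
  nlinarith

theorem final_of_input (hin : ∃ (B J0 : ℕ) (A : ℝ), Input B J0 A) :
    ∃ (a : ℕ → ℂ) (F : ℂ → ℂ), IsPrimitive a F ∧ ∃ c : ℝ, 0 < c ∧
      ∀ X : ℝ, ∃ x : ℝ, X ≤ x ∧ c * Real.log x ^ 2 ≤ S a x - Real.log (Real.log x) := by
  obtain ⟨a, F, hP, ⟨c, hc, h⟩, -⟩ := main_of_input hin
  exact ⟨a, F, hP, c / 2, by positivity, strong a c hc h⟩

end Pool.Agent.H30.WD
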