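import Pool.Agent.H30.WD.Gro

/-! [H30 WD Strip] polynomial growth in the strip (Phragmen-Lindelof)

PROOF. `G(s) = (s-1)^m F(s)` is entire of finite order, `G(s)/(s+A+1)^N` is bounded on the lines
`Re s = -A` (`gro`) and `Re s = 2`, hence in the strip. -/

set_option autoImplicit false

namespace Pool.Agent.H30.WD

open H11.Selberg Complex

theorem strip_growth (A A' : ℝ) (hA : 0 < A) : ∃ c < Real.pi / (2 - -A), ∀ᶠ y : ℝ in Filter.atTop,
    ∀ z : ℂ, -A < z.re → z.re < 2 → |z.im| = y → ‖z‖ ^ A' ≤ Real.exp (c * |z.im|) := by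
  have hpi := Real.pi_pos
  have h0 : (0 : ℝ) < 2 - -A := by linarith
  refine ⟨Real.pi / (2 - -A) / 2, half_lt_self (by positivity), ?_⟩
  set c : ℝ := Real.pi / (2 - -A) / 2 with hc
  have hc0 : 0 < c := by positivity
  have h1 := (isLittleO_rpow_exp_pos_mul_atTop (|A'| + 1) hc0).def (c := 1) one_pos
  filter_upwards [h1, Filter.eventually_ge_atTop (A + 2), Filter.eventually_ge_atTop (1 : ℝ),
    Filter.eventually_ge_atTop ((2 : ℝ) ^ |A'|)] with y hy1 hy2 hy3 hy4 z hz1 hz2 hz3
  have hy0 : 0 < y := by linarith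
  have h2 : ‖z‖ ≤ 2 * y := by
    have h3 : |z.re| ≤ A + 2 := by
      rw [abs_le]
      constructor <;> linarith
    refine (norm_le_abs_re_add_abs_im z).trans ?_
    rw [hz3]
    linarith
  have h3 : 1 ≤ ‖z‖ := by
    refine le_trans ?_ (abs_im_le_norm z)
    rw [hz3]
    exact hy3
  calc ‖z‖ ^ A' ≤ ‖z‖ ^ |A'| := Real.rpow_le_rpow_of_exponent_le h3 (le_abs_self A')
    _ ≤ (2 * y) ^ |A'| := Real.rpow_le_rpow (norm_nonneg _) h2 (abs_nonneg _)
    _ = 2 ^ |A'| * y ^ |A'| := Real.mul_rpow (by norm_num) hy0.le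
    _ ≤ y * y ^ |A'| := by gcongr
    _ = y ^ (|A'| + 1) := by rw [Real.rpow_add hy0, Real.rpow_one, mul_comm]
    _ ≤ Real.exp (c * y) := by
        rw [one_mul, Real.norm_of_nonneg (by positivity), Real.norm_of_nonneg (by positivity)] at hy1
        exact hy1
    _ = Real.exp (c * |z.im|) := by rw [hz3]

theorem strip (a : ℕ → ℂ) (F : ℂ → ℂ) (h : IsSelberg a F) (A : ℝ) (hA : 0 < A) :
    ∃ C N T : ℝ, 0 < C ∧ 0 < N ∧ 1 ≤ T ∧ ∀ s : ℂ, -A ≤ s.re → s.re ≤ 2 → T ≤ |s.im| →
    ‖F s‖ ≤ C * |s.im| ^ N := by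
  obtain ⟨d, hd0, hd⟩ := exists_HasFE a F h
  obtain ⟨c1, C1, T1, hc1, hC1, hT1, hgro⟩ := gro a F h d hd A hA
  obtain ⟨m, G, hG, ⟨A', C', hord⟩, hGF⟩ := h.continuation
  have ha2 : LSeriesSummable a 2 := h.summable 2 (by norm_num)
  set F2 : ℝ := ∑' j : ℕ, ‖LSeries.term a 2 j‖ with hF2def
  have hF2 : 0 ≤ F2 := tsum_nonneg fun j => norm_nonneg _
  have hF2b : ∀ s : ℂ, s.re = 2 → ‖F s‖ ≤ F2 := by
    intro s hs
    rw [h.eq_LSeries _ (by rw [hs]; norm_num)]
    unfold LSeries
    have h2 : ∀ j : ℕ, ‖LSeries.term a s j‖ = ‖LSeries.term a 2 j‖ := by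
      intro j
      rw [LSeries.norm_term_eq, LSeries.norm_term_eq, hs]
      simp
    have h3 : Summable fun j : ℕ => ‖LSeries.term a s j‖ := by
      simp only [h2]
      exact ha2.norm
    refine (norm_tsum_le_tsum_norm h3).trans (le_of_eq ?_)
    simp only [h2]
    rfl
  set E : ℝ := d * (1 / 2 + A) with hEdef
  have hE : 0 ≤ E := by positivity
  set N : ℕ := ⌈E⌉₊ + m with hNdef
  -- the function
  set w : ℂ → ℂ := fun s => s + A + 1 with hwdef
  have hw1 : ∀ s : ℂ, -A ≤ s.re → 1 ≤ ‖w s‖ := by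
    intro s hs
    refine le_trans ?_ (re_le_norm (w s))
    simp only [hwdef, add_re, ofReal_re, one_re]
    linarith
  have hwim : ∀ s : ℂ, |s.im| ≤ ‖w s‖ := by
    intro s
    have := abs_im_le_norm (w s)
    simpa [hwdef] using this
  set g : ℂ → ℂ := fun s => G s / w s ^ N with hgdef
  have hwc : Continuous w := by fun_prop
  have hgd : ∀ s : ℂ, -A ≤ s.re → DifferentiableAt ℂ g s := by
    intro s hs
    have h1 : w s ≠ 0 := norm_pos_iff.1 (lt_of_lt_of_le one_pos (hw1 s hs))
    refine (hG s).div ?_ (pow_ne_zero _ h1)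
    simp only [hwdef]
    fun_prop
  -- the compact part of the left line
  obtain ⟨C4, hC4⟩ := (isCompact_Icc (a := -T1) (b := T1)).exists_bound_of_continuousOn
    (f := fun t : ℝ => G (((-A : ℝ) : ℂ) + t * I))
    (hG.continuous.comp (by fun_prop)).continuousOn
  set C : ℝ := F2 + C1 * (A + 3) ^ m + |C4| + 1 with hCdef
  have hC : 0 < C := by positivity
  have hleft : ∀ z : ℂ, z.re = -A → ‖g z‖ ≤ C := by
    intro z hz
    have hz1 := hw1 z hz.ge
    simp only [hgdef]
    rw [norm_div, norm_pow, div_le_iff₀ (by positivity)]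
    have hform : z = -(A : ℂ) + (z.im : ℂ) * I := by
      apply Complex.ext <;> simp [hz]
    have hne : z ≠ 1 := by
      intro h1
      rw [h1, one_re] at hz
      linarith
    rcases le_or_gt T1 |z.im| with ht | ht
    · rw [hGF z hne, norm_mul, norm_pow]
      have e1 : ‖F z‖ ≤ C1 * |z.im| ^ E := by
        have := (hgro z.im ht).2
        rwa [← hform] at this
      have e2 : |z.im| ^ E ≤ ‖w z‖ ^ ⌈E⌉₊ := by
        calc |z.im| ^ E ≤ ‖w z‖ ^ E := Real.rpow_le_rpow (abs_nonneg _) (hwim z) hE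
          _ ≤ ‖w z‖ ^ ((⌈E⌉₊ : ℕ) : ℝ) := Real.rpow_le_rpow_of_exponent_le hz1 (Nat.le_ceil E)
          _ = ‖w z‖ ^ ⌈E⌉₊ := Real.rpow_natCast _ _
      have e3 : ‖z - 1‖ ≤ (A + 3) * ‖w z‖ := by
        have e4 : z - 1 = w z - (((A + 2 : ℝ)) : ℂ) := by
          simp only [hwdef]
          push_cast
          ring
        rw [e4]
        refine (norm_sub_le _ _).trans ?_
        rw [norm_real, Real.norm_of_nonneg (by linarith)]
        nlinarith
      calc ‖z - 1‖ ^ m * ‖F z‖ ≤ ((A + 3) * ‖w z‖) ^ m * (C1 * ‖w z‖ ^ ⌈E⌉₊) :=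
            mul_le_mul (pow_le_pow_left₀ (norm_nonneg _) e3 m)
              (e1.trans (mul_le_mul_of_nonneg_left e2 hC1.le)) (norm_nonneg _) (by positivity)
        _ = C1 * (A + 3) ^ m * ‖w z‖ ^ N := by
            rw [hNdef, pow_add, mul_pow]
            ring
        _ ≤ C * ‖w z‖ ^ N := by
            refine mul_le_mul_of_nonneg_right ?_ (by positivity)
            rw [hCdef]
            linarith [abs_nonneg C4]
    · have e1 : ‖G z‖ ≤ C4 := by
        have := hC4 z.im (by
          rw [Set.mem_Icc, ← abs_le]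
          exact ht.le)
        rw [ofReal_neg, ← hform] at this
        exact this
      calc ‖G z‖ ≤ |C4| * 1 := by
            rw [mul_one]
            exact e1.trans (le_abs_self _)
        _ ≤ C * ‖w z‖ ^ N := by
            refine mul_le_mul ?_ (one_le_pow₀ hz1) zero_le_one hC.le
            rw [hCdef]
            have : 0 ≤ C1 * (A + 3) ^ m := by positivity
            linarith
  have hright : ∀ z : ℂ, z.re = 2 → ‖g z‖ ≤ C := by
    intro z hz
    have hz1 := hw1 z (by rw [hz]; linarith)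
    simp only [hgdef]
    rw [norm_div, norm_pow, div_le_iff₀ (by positivity)]
    have hne : z ≠ 1 := by
      intro h1
      rw [h1, one_re] at hz
      norm_num at hz
    rw [hGF z hne, norm_mul, norm_pow]
    have e3 : ‖z - 1‖ ≤ ‖w z‖ := by
      apply le_of_sq_le_sq _ (norm_nonneg _)
      rw [← normSq_eq_norm_sq, ← normSq_eq_norm_sq, normSq_apply, normSq_apply]
      simp only [hwdef, sub_re, sub_im, add_re, add_im, one_re, one_im, ofReal_re, ofReal_im, hz]
      nlinarith
    calc ‖z - 1‖ ^ m * ‖F z‖ ≤ ‖w z‖ ^ N * F2 := by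
          refine mul_le_mul ?_ (hF2b z hz) (norm_nonneg _) (by positivity)
          calc ‖z - 1‖ ^ m ≤ ‖w z‖ ^ m := pow_le_pow_left₀ (norm_nonneg _) e3 m
            _ ≤ ‖w z‖ ^ N := pow_le_pow_right₀ hz1 (by omega)
      _ ≤ C * ‖w z‖ ^ N := by
          rw [mul_comm]
          refine mul_le_mul_of_nonneg_right ?_ (by positivity)
          rw [hCdef]
          have : 0 ≤ C1 * (A + 3) ^ m := by positivity
          linarith [abs_nonneg C4]
  have hstrip : ∀ z : ℂ, -A ≤ z.re → z.re ≤ 2 → ‖g z‖ ≤ C := by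
    intro z hz1 hz2
    refine PhragmenLindelof.vertical_strip (a := -A) (b := 2) ?_ ?_ hleft hright hz1 hz2
    · refine ⟨fun s hs => (hgd s hs.1.le).differentiableWithinAt, ?_⟩
      have hcl : closure (re ⁻¹' Set.Ioo (-A) 2) ⊆ {s : ℂ | -A ≤ s.re} := by
        refine closure_minimal (fun s hs => hs.1.le) ?_
        exact isClosed_le continuous_const continuous_re
      intro s hs
      exact (hgd s (hcl hs)).continuousAt.continuousWithinAt
    · obtain ⟨c, hc, hev⟩ := strip_growth A A' hA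
      refine ⟨c, hc, 1, ?_⟩
      refine Asymptotics.IsBigO.of_bound |C'| ?_
      rw [Filter.eventually_inf_principal]
      have h1 := (Filter.tendsto_comap (f := _root_.abs ∘ im) (x := Filter.atTop)).eventually hev
      filter_upwards [h1] with s hs hs2
      have e1 := hs s hs2.1 hs2.2 rfl
      have e2 : ‖g s‖ ≤ ‖G s‖ := by
        simp only [hgdef]
        rw [norm_div, norm_pow]
        exact div_le_self (norm_nonneg _) (one_le_pow₀ (hw1 s hs2.1.le))
      rw [one_mul, Real.norm_of_nonneg (Real.exp_nonneg _)]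
      calc ‖g s‖ ≤ C' * Real.exp (‖s‖ ^ A') := e2.trans (hord s)
        _ ≤ |C'| * Real.exp (‖s‖ ^ A') := by
            gcongr
            exact le_abs_self _
        _ ≤ |C'| * Real.exp (Real.exp (c * |s.im|)) := by gcongr
  refine ⟨C * (2 * A + 4) ^ N, N + 1, 1, by positivity, by positivity, le_rfl, ?_⟩
  intro s hs1 hs2 hs3
  have hs0 : 0 < |s.im| := by linarith
  have hne : s ≠ 1 := by
    intro h1
    rw [h1, one_im, abs_zero] at hs3
    linarith
  have h1 := hstrip s hs1 hs2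
  simp only [hgdef] at h1
  have hws := hw1 s hs1
  rw [norm_div, norm_pow, div_le_iff₀ (by positivity), hGF s hne, norm_mul, norm_pow] at h1
  have h2 : 1 ≤ ‖s - 1‖ := by
    refine hs3.trans ?_
    have := abs_im_le_norm (s - 1)
    simpa using this
  have h3 : ‖w s‖ ≤ (2 * A + 4) * |s.im| := by
    refine (norm_le_abs_re_add_abs_im _).trans ?_
    have e1 : (w s).im = s.im := by simp [hwdef]
    have e2 : |(w s).re| ≤ 2 * A + 3 := by
      simp only [hwdef, add_re, ofReal_re, one_re]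
      rw [abs_le]
      constructor <;> linarith
    rw [e1]
    nlinarith
  calc ‖F s‖ ≤ ‖s - 1‖ ^ m * ‖F s‖ := le_mul_of_one_le_left (norm_nonneg _) (one_le_pow₀ h2)
    _ ≤ C * ‖w s‖ ^ N := h1
    _ ≤ C * ((2 * A + 4) * |s.im|) ^ N := by gcongr
    _ = C * (2 * A + 4) ^ N * |s.im| ^ (N : ℝ) := by
        rw [mul_pow, Real.rpow_natCast]
        ring
    _ ≤ C * (2 * A + 4) ^ N * |s.im| ^ ((N : ℝ) + 1) := by
        refine mul_le_mul_of_nonneg_left ?_ (by positivity)
        exact Real.rpow_le_rpow_of_exponent_le hs3 (by linarith)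

end Pool.Agent.H30.WD
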