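import Pool.Agent.H30.WD.Dir

/-! [H30 WD The] STEP 8, second half: theta function, Mellin transform, functional equation -/

set_option autoImplicit false

namespace Pool.Agent.H30.WD

open Complex

theorem cont (lam Q : ℝ) (b : ℕ → ℝ) (A : ℝ) (hlam : 1 ≤ lam) (hQ : 0 < Q) (h : Wild lam Q b A) :
    ∃ G : ℂ → ℂ, Differentiable ℂ G ∧
      (∃ A' C : ℝ, ∀ s, ‖G s‖ ≤ C * Real.exp (‖s‖ ^ A')) ∧
      (∀ s : ℂ, 1 < s.re → G s = LSeries (ca b) s) ∧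
      (∀ s : ℂ, G ((starRingEnd ℂ) s) = (starRingEnd ℂ) (G s)) ∧
      ∀ s : ℂ, 0 < s.re → s.re < 1 →
        (Q : ℂ) ^ s * Gamma (lam * s) * G s =
          (Q : ℂ) ^ (1 - s) * Gamma (lam * (1 - s)) * G (1 - s) := by
  sorry

end Pool.Agent.H30.WD
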