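import Pool.Agent.H30.WD.MajDef

/-! [H30 WD Theta] `∑ bb_p / p` is small; the tilted sums -/

set_option autoImplicit false

namespace Pool.Agent.H30.WD

theorem theta (B : ℕ) (hB : 2 ≤ B) : ∃ C : ℝ, 0 < C ∧ ∃ J1 : ℕ, ∀ J : ℕ, J1 ≤ J →
    ∀ (bb : ℕ → ℝ) (β A : ℝ), 0 ≤ β → Maj bb B J β A →
    (Summable fun n : ℕ => bb n / (n : ℝ)) ∧ ∑' n : ℕ, bb n / (n : ℝ) ≤ C * β / Real.log J := by
  sorry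

/-- `th_i = log i / (2 i)`: the sum of `bb_p p^(th_i - 1)` over `p ≤ e^(i+1)` is bounded -/
theorem tilt (B : ℕ) (hB : 2 ≤ B) : ∃ C : ℝ, 0 < C ∧ ∃ J1 : ℕ, ∀ J : ℕ, J1 ≤ J →
    ∀ (bb : ℕ → ℝ) (β A : ℝ), 0 ≤ β → Maj bb B J β A → ∀ i : ℕ, 3 ≤ i → ∀ y : ℕ,
    (y : ℝ) ≤ Real.exp ((i : ℝ) + 1) →
    ∑ p ∈ (Finset.Icc 1 y).filter Nat.Prime, bb p * (p : ℝ) ^ (Real.log i / (2 * i) - 1) ≤ C * β := by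
  sorry

end Pool.Agent.H30.WD
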