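import Pool.Agent.H30.WD.WildDef
import Pool.Agent.H30.WD.Frame
import Pool.Agent.H30.WD.FunB
import Pool.Agent.H30.WD.Special
import Pool.Agent.H30.WD.Iter
import Pool.Agent.H30.WD.Inp

/-! [H30 WD Wild] assembly of STEPS 1-7 -/

set_option autoImplicit false

namespace Pool.Agent.H30.WD

open ArithmeticFunction

lemma wild_uu (lam lam' x : ℝ) (hx : 1 ≤ x) : uu lam x = uu lam' x := by
  rw [samp_uu1 lam x hx, samp_uu1 lam' x hx]

/-- the weight of the iteration -/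
noncomputable def wW (lam : ℝ) (B J : ℕ) (n : ℕ) : ℝ :=
  if n.Prime ∧ J ^ B < n then wt B n * uu lam n else 0

lemma wW_nonneg (lam : ℝ) (B J n : ℕ) : 0 ≤ wW lam B J n := by
  unfold wW
  split_ifs with h
  · have h1 : (1 : ℝ) ≤ (n : ℝ) := by exact_mod_cast h.1.one_lt.le
    exact mul_nonneg (wt_nonneg B n) (samp_uu_pos lam n h1).le
  · exact le_rfl

lemma wW_supp (lam : ℝ) (B J n : ℕ) (h : wW lam B J n ≠ 0) : n.Prime ∧ J ^ B < n := by
  by_contra h1
  apply h
  unfold wW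
  rw [if_neg h1]

/-- the majorant `2 (b0 + W)` -/
lemma wild_maj (lam : ℝ) (B J0 : ℕ) (A : ℝ) (h : Input B J0 A) (A1 C1 Cw Ct A2 : ℝ)
    (hA1 : A1 + 1 ≤ A2) (hA2 : A + 1 ≤ A2) (hC1 : 0 ≤ C1) (hCt : 0 ≤ Ct)
    (hCt1 : ∀ p : ℕ, J0 ^ B < p → wt B p ≤ Ct * Real.log p ^ A)
    (hCw1 : ∀ a b : ℕ, J0 ^ B ≤ a → a ≤ b → b ≤ 4 * a →
      ∑ p ∈ (Finset.Ioc a b).filter Nat.Prime, wt B p * uu lam p ≤
      Cw * (((b : ℝ) - a) + (a : ℝ) ^ (1 - 1 / (B : ℝ))) / Real.log a ^ 2)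
    (J : ℕ) (hJ : J0 ≤ J) (hJl : 1 ≤ Real.log J) (hJl2 : 2 + 2 * Ct ≤ Real.log J)
    (b0 : ℕ → ℝ) (hb : Maj b0 B J (C1 / Real.log J) A1) :
    Maj (fun n => 2 * (b0 n + wW lam B J n)) B J (2 * (C1 + Cw)) A2 := by
  have hB2 : 2 ≤ B := h.1
  have hJ3 : 3 ≤ J := h.2.1.trans hJ
  constructor
  · intro n
    have h1 := hb.nonneg n
    have h2 := wW_nonneg lam B J n
    show 0 ≤ 2 * (b0 n + wW lam B J n)
    linarith
  · intro n hn
    have hn' : 2 * (b0 n + wW lam B J n) ≠ 0 := hn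
    by_cases h1 : b0 n = 0
    · by_cases h2 : wW lam B J n = 0
      · rw [h1, h2] at hn'
        simp at hn'
      · exact wW_supp lam B J n h2
    · exact hb.supp n h1
  · intro a b ha hab hb4
    have h1 := hb.h1 a b ha hab hb4
    have h2 := hCw1 a b ((Nat.pow_le_pow_left hJ B).trans ha) hab hb4
    have ha1 : 1 ≤ a := by
      have : 1 ≤ J ^ B := Nat.one_le_pow _ _ (by omega)
      omega
    have hX : 0 ≤ (((b : ℝ) - a) + (a : ℝ) ^ (1 - 1 / (B : ℝ))) / Real.log a ^ 2 := by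
      have e1 : (a : ℝ) ≤ (b : ℝ) := by exact_mod_cast hab
      have e2 : 0 ≤ (a : ℝ) ^ (1 - 1 / (B : ℝ)) := Real.rpow_nonneg (Nat.cast_nonneg a) _
      apply div_nonneg _ (sq_nonneg _)
      linarith
    have h3 : C1 / Real.log J ≤ C1 := div_le_self hC1 hJl
    have h4 : ∑ p ∈ Finset.Ioc a b, wW lam B J p ≤
        Cw * (((b : ℝ) - a) + (a : ℝ) ^ (1 - 1 / (B : ℝ))) / Real.log a ^ 2 := by
      refine le_trans (le_of_eq ?_) h2
      rw [Finset.sum_filter]
      apply Finset.sum_congr rfl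
      intro p hp
      rw [Finset.mem_Ioc] at hp
      unfold wW
      by_cases hp1 : p.Prime
      · rw [if_pos ⟨hp1, lt_of_le_of_lt ha hp.1⟩, if_pos hp1]
      · rw [if_neg (fun h => hp1 h.1), if_neg hp1]
    have h5 : ∑ p ∈ Finset.Ioc a b, 2 * (b0 p + wW lam B J p) =
        2 * (∑ p ∈ Finset.Ioc a b, b0 p + ∑ p ∈ Finset.Ioc a b, wW lam B J p) := by
      rw [← Finset.sum_add_distrib, Finset.mul_sum]
    rw [h5]
    have h6 : C1 / Real.log J * (((b : ℝ) - a) + (a : ℝ) ^ (1 - 1 / (B : ℝ))) / Real.log a ^ 2 ≤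
        C1 * ((((b : ℝ) - a) + (a : ℝ) ^ (1 - 1 / (B : ℝ))) / Real.log a ^ 2) := by
      rw [mul_div_assoc]
      exact mul_le_mul_of_nonneg_right h3 hX
    rw [mul_div_assoc] at h4
    rw [mul_div_assoc]
    linarith
  · intro n
    show 2 * (b0 n + wW lam B J n) ≤ Real.log n ^ A2
    by_cases hn : n.Prime ∧ J ^ B < n
    · have hn3 : J ≤ n := by
        have : J ≤ J ^ B := Nat.le_self_pow (by omega) J
        omega
      have hn1 : (1 : ℝ) ≤ (n : ℝ) := by
        have : 1 ≤ n := by omega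
        exact_mod_cast this
      have hlog : Real.log J ≤ Real.log n := by
        apply Real.log_le_log
        · have : 0 < J := by omega
          exact_mod_cast this
        · exact_mod_cast hn3
      have hl1 : 1 ≤ Real.log n := hJl.trans hlog
      have hl2 : 2 + 2 * Ct ≤ Real.log n := hJl2.trans hlog
      have hl0 : 0 < Real.log n := by linarith
      obtain ⟨M, hM⟩ : ∃ M : ℝ, M = A2 - 1 := ⟨_, rfl⟩
      have e1 : b0 n ≤ Real.log n ^ M :=
        (hb.h2 n).trans (Real.rpow_le_rpow_of_exponent_le hl1 (by linarith))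
      have e2 : wt B n ≤ Ct * Real.log n ^ M := by
        refine (hCt1 n (lt_of_le_of_lt (Nat.pow_le_pow_left hJ B) hn.2)).trans ?_
        apply mul_le_mul_of_nonneg_left _ hCt
        exact Real.rpow_le_rpow_of_exponent_le hl1 (by linarith)
      have e3 : wW lam B J n ≤ Ct * Real.log n ^ M := by
        unfold wW
        rw [if_pos hn]
        have e4 := frame_uu_le lam n hn1
        have e5 := samp_uu_pos lam n hn1
        calc wt B n * uu lam n ≤ wt B n * 1 := mul_le_mul_of_nonneg_left e4 (wt_nonneg B n)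
          _ = wt B n := mul_one _
          _ ≤ _ := e2
      have e6 : Real.log n ^ A2 = Real.log n * Real.log n ^ M := by
        rw [hM, Real.rpow_sub_one hl0.ne']
        field_simp
      rw [e6]
      have e7 : 0 ≤ Real.log n ^ M := Real.rpow_nonneg hl0.le _
      nlinarith
    · have e1 : wW lam B J n = 0 := by
        unfold wW
        rw [if_neg hn]
      have e2 : b0 n = 0 := by
        by_contra h1
        exact hn (hb.supp n h1)
      rw [e1, e2]
      simp only [add_zero, mul_zero]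
      exact Real.rpow_nonneg (Real.log_natCast_nonneg n) _

/-- there is `lam0` such that for every `lam ≥ lam0` there is a wild sequence whose sum of squares
over `p` grows at least like `(log x)^2` -/
theorem wild : ∃ lam0 : ℝ, 8 < lam0 ∧ ∀ lam : ℝ, lam0 ≤ lam → ∃ (Q : ℝ) (b : ℕ → ℝ) (A c x1 : ℝ),
    0 < Q ∧ 0 < c ∧ Wild lam Q b A ∧ ∀ x : ℝ, x1 ≤ x → c * Real.log x ^ 2 ≤
      ∑ p ∈ (Finset.Icc 1 ⌊x⌋₊).filter Nat.Prime, b p ^ 2 / (p : ℝ) := by
  obtain ⟨B, J0, A, hI⟩ := input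
  have hB2 : 2 ≤ B := hI.1
  have hA0 : 0 ≤ A := hI.2.2.1
  obtain ⟨A1, C1, c1, hA1, hC1, hc1, Js, hJs, hsp⟩ := special 9 B J0 A hI
  obtain ⟨Ct, hCt, hwt⟩ := wt_le B J0 A hI
  obtain ⟨A2, hA2⟩ : ∃ A2 : ℝ, A2 = max A1 A + 1 := ⟨_, rfl⟩
  have hA21 : A1 + 1 ≤ A2 := by
    rw [hA2]
    have := le_max_left A1 A
    linarith
  have hA22 : A + 1 ≤ A2 := by
    rw [hA2]
    have := le_max_right A1 A
    linarith
  have hA20 : 0 ≤ A2 := by linarith
  obtain ⟨D, hD⟩ : ∃ D : ℕ, D = max (1000 * B) ⌈100 * A2 * B⌉₊ := ⟨_, rfl⟩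
  have hD1 : 1000 * B ≤ D := hD ▸ le_max_left _ _
  have hD2 : 100 * A2 * (B : ℝ) ≤ (D : ℝ) := by
    have h1 : ⌈100 * A2 * B⌉₊ ≤ D := hD ▸ le_max_right _ _
    exact (Nat.le_ceil _).trans (by exact_mod_cast h1)
  have hBD : B ≤ D := by omega
  have hB0 : (0 : ℝ) < (B : ℝ) := by
    have : 0 < B := by omega
    exact_mod_cast this
  have hBDr : (B : ℝ) ≤ (D : ℝ) := by exact_mod_cast hBD
  have hD0 : (0 : ℝ) < (D : ℝ) := lt_of_lt_of_le hB0 hBDr
  refine ⟨6 * (D : ℝ) + 9, by linarith, ?_⟩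
  intro lam hlam
  have hlam8 : 8 < lam := by linarith
  have hl0 : 0 < lam := by linarith
  have hlamD : 6 / lam < 1 / (D : ℝ) := by
    rw [div_lt_div_iff₀ hl0 hD0]
    linarith
  have hlamB : 6 / lam < 1 / (B : ℝ) :=
    lt_of_lt_of_le hlamD (one_div_le_one_div_of_le hB0 hBDr)
  obtain ⟨Cw, hCw, hwh⟩ := wt_h1 lam B J0 A hI
  obtain ⟨Jf, hJf, hfr⟩ := frame lam B J0 A hI hlam8 hlamB
  obtain ⟨Jc, hfc⟩ := fun_comp lam B D A2 (2 * (C1 + Cw)) hB2 hA20 hD1 hD2 (by positivity) hlam8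
    hlamD (1 / 24) (by norm_num)
  obtain ⟨C2, hC2, Jp, hfp⟩ := fun_prime lam B hB2 hlam8 hlamB
  obtain ⟨C3, hC3, Jt, hth⟩ := theta B hB2
  obtain ⟨Jl, hJl⟩ : ∃ Jl : ℕ, ∀ J : ℕ, Jl ≤ J → 1 + (2 + 2 * Ct) + 24 * C2 * C1 ≤ Real.log J := by
    have h1 : Filter.Tendsto (fun J : ℕ => Real.log (J : ℝ)) Filter.atTop Filter.atTop :=
      Real.tendsto_log_atTop.comp tendsto_natCast_atTop_atTop
    have h2 := h1.eventually_ge_atTop (1 + (2 + 2 * Ct) + 24 * C2 * C1)
    rw [Filter.eventually_atTop] at h2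
    exact h2
  obtain ⟨J, hJ⟩ : ∃ J : ℕ, J = J0 + Js + Jf + Jc + Jp + Jt + Jl := ⟨_, rfl⟩
  have hJJ0 : J0 ≤ J := by omega
  have hJlog := hJl J (by omega)
  have hJ3 : 3 ≤ J := hI.2.1.trans hJJ0
  have hCC : 0 ≤ 24 * C2 * C1 := by positivity
  have hlog1 : 1 ≤ Real.log J := by linarith
  have hlog2 : 2 + 2 * Ct ≤ Real.log J := by linarith
  have hlog3 : 24 * C2 * C1 ≤ Real.log J := by linarith
  have hlog0 : 0 < Real.log J := by linarith
  obtain ⟨b0, hb0, hb0w, x1, hx1⟩ := hsp J (by omega)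
  have hmaj := wild_maj lam B J0 A hI A1 C1 Cw Ct A2 hA21 hA22 hC1.le hCt.le hwt hwh J hJJ0 hlog1
    hlog2 b0 hb0
  obtain ⟨Q1, hQ1, hq1⟩ := hfr J (by omega)
  obtain ⟨Q2, hQ2, hq2⟩ := hfc J (by omega)
  obtain ⟨Q3, hQ3, hq3⟩ := hfp J (by omega)
  obtain ⟨Q4, hQ4, hq4⟩ := f_one lam hlam8 (1 / 24) (by norm_num)
  obtain ⟨Q, hQ⟩ : ∃ Q : ℝ, Q = Q1 + Q2 + Q3 + Q4 := ⟨_, rfl⟩
  have hQp : 0 < Q := by rw [hQ]; positivity
  have hfr' := hq1 Q (by rw [hQ]; linarith)
  have hfc' := hq2 Q (by rw [hQ]; linarith) _ hmaj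
  have hfp' := hq3 Q (by rw [hQ]; linarith) b0 (C1 / Real.log J) A1 (by positivity) hb0
  have hone := hq4 Q (by rw [hQ]; linarith)
  have hJB1 : 1 ≤ J ^ B := Nat.one_le_pow _ _ (by omega)
  have hJJB : J ≤ J ^ B := Nat.le_self_pow (by omega) J
  have hWeq : ∀ (f : ℝ → ℝ) (n : ℕ), wW lam B J n * |f n| =
      (if n.Prime ∧ J ^ B < n then wt B n * uu lam n * |f n| else 0) := by
    intro f n
    unfold wW
    split_ifs
    · rfl
    · rw [zero_mul]
  obtain ⟨c, hc, hfe⟩ := iterate (TV lam Q) (nm lam) (wW lam B J) b0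
    (wW_nonneg lam B J) (fun n hn => (wW_supp lam B J n hn).1) hb0.nonneg
    (fun n hn => (hb0.supp n hn).1) (fun f _ => frame_nm_nonneg lam f)
    (by
      intro f hf
      have h1 := hfr' f hf
      simp only [hWeq f]
      exact h1)
    (by
      intro f hf
      have h1 := hone f hf
      linarith)
    (by
      intro f hf
      obtain ⟨h1, h2⟩ := hfp' f hf
      refine ⟨h1, h2.trans ?_⟩
      have h3 := frame_nm_nonneg lam f
      have h4 : C2 * (C1 / Real.log J) ≤ 1 / 24 := by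
        rw [← mul_div_assoc, div_le_div_iff₀ hlog0 (by norm_num)]
        linarith
      have h5 := mul_le_mul_of_nonneg_right h4 h3
      linarith)
    (by
      intro f hf
      obtain ⟨h1, h2⟩ := hfc' f hf
      refine ⟨h1, h2.trans (le_of_eq ?_)⟩
      ring)
  have hbb : ∀ n, |b0 n + c n| ≤ 2 * (b0 n + wW lam B J n) := by
    intro n
    have h1 := abs_add_le (b0 n) (c n)
    have h2 := hb0.nonneg n
    rw [abs_of_nonneg h2] at h1
    have h3 := hc n
    have h4 := wW_nonneg lam B J n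
    linarith
  refine ⟨Q, fun n => b0 n + c n, A2, c1 / 2, x1, hQp, by positivity, ?_, ?_⟩
  · constructor
    · exact hA20
    · intro n hn
      have hn' : b0 n + c n ≠ 0 := hn
      have h1 : n.Prime ∧ J ^ B < n := by
        by_cases h1 : b0 n = 0
        · have h2 : c n ≠ 0 := by
            intro h2
            rw [h1, h2] at hn'
            simp at hn'
          have h3 : wW lam B J n ≠ 0 := by
            intro h3
            have h4 := hc n
            rw [h3] at h4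
            exact h2 (abs_nonpos_iff.mp h4)
          exact wW_supp lam B J n h3
        · exact hb0.supp n h1
      refine ⟨h1.1, ?_⟩
      omega
    · intro n
      exact (hbb n).trans (hmaj.h2 n)
    · have h1 := (hth J (by omega) _ (2 * (C1 + Cw)) A2 (by positivity) hmaj).1
      refine Summable.of_nonneg_of_le (fun n => by positivity) (fun n => ?_) h1
      exact div_le_div_of_nonneg_right (hbb n) (Nat.cast_nonneg n)
    · intro y hy
      exact hfe (tf lam Q y) (Submodule.subset_span ⟨y, hy, rfl⟩)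
  · intro x hx
    have h1 := hx1 x hx
    have h2 : ∑ p ∈ (Finset.Icc 1 ⌊x⌋₊).filter Nat.Prime, b0 p ^ 2 / (p : ℝ) ≤
        2 * ∑ p ∈ (Finset.Icc 1 ⌊x⌋₊).filter Nat.Prime, (b0 p + c p) ^ 2 / (p : ℝ) := by
      rw [Finset.mul_sum]
      apply Finset.sum_le_sum
      intro p hp
      rw [← mul_div_assoc]
      apply div_le_div_of_nonneg_right _ (Nat.cast_nonneg p)
      rcases hb0w p with h3 | h3
      · rw [h3]
        nlinarith [sq_nonneg (0 + c p)]
      · rw [Finset.mem_filter] at hp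
        have hp1 : (1 : ℝ) ≤ (p : ℝ) := by exact_mod_cast hp.2.one_lt.le
        have h4 : wW lam B J p ≤ wt B p * uu 9 p := by
          unfold wW
          split_ifs
          · rw [wild_uu lam 9 p hp1]
          · exact mul_nonneg (wt_nonneg B p) (samp_uu_pos 9 p hp1).le
        have h5 := hc p
        have h6 := abs_le.mp (h5.trans h4)
        have h7 : 3 / 4 * b0 p ≤ b0 p + c p := by linarith [h6.1]
        have h8 := hb0.nonneg p
        have h9 : (3 / 4 * b0 p) ^ 2 ≤ (b0 p + c p) ^ 2 := pow_le_pow_left₀ (by positivity) h7 2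
        nlinarith [sq_nonneg (b0 p)]
    show c1 / 2 * Real.log x ^ 2 ≤ ∑ p ∈ (Finset.Icc 1 ⌊x⌋₊).filter Nat.Prime,
      (b0 p + c p) ^ 2 / (p : ℝ)
    linarith

end Pool.Agent.H30.WD
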